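import Pool.Agent.Recti.Defs

/-!
# Weyl's lemma for the Cauchy-Riemann operator

PROOF of `weyl`.  Local part: let `closedBall z0 (2 r) ⊆ U`, `χ` a smooth bump (`ContDiffBump`)
equal to `1` on `ball z0 r`, with support in `closedBall z0 (2 r)`, and
`G z = -(1/π) ∫ ζ, F ζ * dbar χ ζ / (ζ - z)`.
On `ball z0 r` the function `G` is holomorphic (the integrand vanishes for `ζ` in `ball z0 r`; there
`1/(ζ - z)` is bounded for `z` in `ball z0 (r/2)`; differentiate under the integral sign), and we show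
`F = G` a.e. on `ball z0 (r/2)`: for a smooth `ψ : ℂ → ℂ` (or real) supported in that ball put
`u ζ = (1/π) ∫ z, ψ z / (ζ - z)`; `u` is smooth (convolution of the locally integrable `1/z` with a
compactly supported smooth function, `HasCompactSupport.contDiff_convolution_right`) and
`dbar u = ψ` (by `Pool.Lib.integral_dbar_div_sub`; derivative falls on `ψ`).
Then `χ u` is a test function with support in `U` and
`0 = ∫ F dbar (χ u) = ∫ F χ ψ + ∫ F (dbar χ) u = ∫ F ψ + ∫ F (dbar χ) u`,
and by Fubini `∫ F (dbar χ) u = - ∫ G ψ`.  So `∫ (F - G) ψ = 0` for all such `ψ` and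
`IsOpen.ae_eq_zero_of_integral_contDiff_smul_eq_zero` (or its relatives) gives `F = G` a.e. on
`ball z0 (r/2)`.
Gluing: two continuous functions which are a.e. equal on an open set are equal there, so the local
`G`s define one function; a.e. equality by `measure_null_of_locally_null`.
(Any other proof, e.g. by mollification, is fine.)
-/

set_option autoImplicit false

open Complex MeasureTheory Set Filter Topology Metric
open scoped ContDiff

namespace Pool.Recti

open Pool.Lib (dbar)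

theorem weyl_dist {z0 z ζ : ℂ} {r : ℝ} (hz : z ∈ ball z0 (r / 2)) (hζ : ζ ∉ ball z0 r) :
    r / 2 ≤ ‖ζ - z‖ := by
  rw [mem_ball, dist_eq_norm] at hz hζ
  have h1 : ‖ζ - z0‖ ≤ ‖ζ - z‖ + ‖z - z0‖ := by
    have : ζ - z0 = (ζ - z) + (z - z0) := by ring
    rw [this]
    exact norm_add_le _ _
  linarith [not_lt.1 hζ]

theorem weyl_bound {z0 z ζ : ℂ} {r : ℝ} (hr : 0 < r) {K : ℂ → ℂ}
    (hK0 : ∀ w ∈ ball z0 r, K w = 0) (hz : z ∈ ball z0 (r / 2)) :
    ‖K ζ / (ζ - z)‖ ≤ ‖K ζ‖ / (r / 2) := by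
  by_cases hζ : ζ ∈ ball z0 r
  · simp [hK0 ζ hζ]
  · rw [norm_div]
    exact div_le_div_of_nonneg_left (norm_nonneg _) (by positivity) (weyl_dist hz hζ)

theorem weyl_G_diff {z0 : ℂ} {r : ℝ} (hr : 0 < r) {K : ℂ → ℂ} (hK : Integrable K)
    (hK0 : ∀ z ∈ ball z0 r, K z = 0) :
    DifferentiableOn ℂ (fun z => ∫ ζ, K ζ / (ζ - z)) (ball z0 (r / 2)) := by
  intro z hz
  have hms : ∀ w : ℂ, AEStronglyMeasurable (fun ζ => K ζ / (ζ - w)) volume := by
    intro w
    refine hK.aestronglyMeasurable.div₀ ?_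
    exact (by fun_prop : Measurable (fun ζ : ℂ => ζ - w)).aestronglyMeasurable
  have key := hasDerivAt_integral_of_dominated_loc_of_deriv_le (𝕜 := ℂ) (μ := volume)
    (F := fun z ζ => K ζ / (ζ - z)) (F' := fun z ζ => K ζ / (ζ - z) ^ 2) (x₀ := z)
    (s := ball z0 (r / 2)) (bound := fun ζ => ‖K ζ‖ / (r / 2) ^ 2)
    (isOpen_ball.mem_nhds hz) (Filter.Eventually.of_forall hms)
    (by
      refine Integrable.mono' (hK.norm.div_const (r / 2)) (hms z) ?_
      exact Filter.Eventually.of_forall fun ζ => weyl_bound hr hK0 hz)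
    (by
      refine hK.aestronglyMeasurable.div₀ ?_
      exact (by fun_prop : Measurable (fun ζ : ℂ => (ζ - z) ^ 2)).aestronglyMeasurable)
    (by
      refine Filter.Eventually.of_forall fun ζ w hw => ?_
      by_cases hζ : ζ ∈ ball z0 r
      · simp [hK0 ζ hζ]
      · rw [norm_div, norm_pow]
        have h1 := weyl_dist hw hζ
        exact div_le_div_of_nonneg_left (norm_nonneg _) (by positivity)
          (pow_le_pow_left₀ (by positivity) h1 2))
    (hK.norm.div_const _)
    (by
      refine Filter.Eventually.of_forall fun ζ w hw => ?_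
      by_cases hζ : ζ ∈ ball z0 r
      · simp only [hK0 ζ hζ, zero_div]
        exact hasDerivAt_const w 0
      · have h1 := weyl_dist hw hζ
        have h2 : ζ - w ≠ 0 := by
          intro h0
          rw [h0, norm_zero] at h1
          linarith
        have h3 : HasDerivAt (fun w : ℂ => ζ - w) (-1) w := by
          simpa using (hasDerivAt_id w).const_sub ζ
        have h4 := (h3.inv h2).const_mul (K ζ)
        refine (h4.congr_deriv ?_)
        simp [div_eq_mul_inv])
  exact key.2.differentiableAt.differentiableWithinAt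

theorem weyl_locInt : LocallyIntegrable (fun z : ℂ => z⁻¹) volume := by
  refine locallyIntegrable_of_norm_le_rpow (C := 1) (α := 1) ?_ ?_ ?_ ?_
  · rw [Complex.finrank_real_complex]; norm_num
  · rw [Complex.finrank_real_complex]; norm_num
  · refine Filter.Eventually.of_forall fun x => ?_
    rw [norm_inv, Real.rpow_neg_one, one_mul]
  · exact measurable_inv.aestronglyMeasurable

theorem weyl_cauchy {ψ : ℂ → ℂ} (hψ : ContDiff ℝ ∞ ψ) (hc : HasCompactSupport ψ) :
    ContDiff ℝ ∞ (fun ζ => (Real.pi : ℂ)⁻¹ * ∫ z, ψ z / (ζ - z)) ∧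
    ∀ ζ, dbar (fun ζ => (Real.pi : ℂ)⁻¹ * ∫ z, ψ z / (ζ - z)) ζ = ψ ζ := by
  have hconv : ∀ φ : ℂ → ℂ, ∀ ζ : ℂ, ∫ z, φ z / (ζ - z) = ∫ t, t⁻¹ * φ (ζ - t) := by
    intro φ ζ
    rw [← integral_sub_left_eq_self (fun t => t⁻¹ * φ (ζ - t)) volume ζ]
    refine integral_congr_ae (Filter.Eventually.of_forall fun z => ?_)
    simp only [sub_sub_cancel]
    rw [div_eq_mul_inv, mul_comm]
  have hEq : (fun ζ => ∫ z, ψ z / (ζ - z)) =
      (convolution (fun z : ℂ => z⁻¹) ψ (ContinuousLinearMap.mul ℝ ℂ) volume) := by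
    funext ζ
    rw [hconv ψ ζ]
    rfl
  have hsm : ContDiff ℝ ∞ (fun ζ => ∫ z, ψ z / (ζ - z)) := by
    rw [hEq]
    exact hc.contDiff_convolution_right _ weyl_locInt hψ
  refine ⟨contDiff_const.mul hsm, fun ζ => ?_⟩
  have h1 : ContDiff ℝ 1 ψ := hψ.of_le (by simp)
  have hfd := hc.hasFDerivAt_convolution_right (ContinuousLinearMap.mul ℝ ℂ) weyl_locInt h1 ζ
  rw [← hEq] at hfd
  have hint : Integrable (fun t => (ContinuousLinearMap.precompR ℂ (ContinuousLinearMap.mul ℝ ℂ))
      ((fun z : ℂ => z⁻¹) t) (fderiv ℝ ψ (ζ - t))) volume := by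
    have := (hc.fderiv ℝ).convolutionExists_right
      (ContinuousLinearMap.precompR ℂ (ContinuousLinearMap.mul ℝ ℂ)) weyl_locInt
      (h1.continuous_fderiv one_ne_zero) ζ
    exact this
  have hap : ∀ v : ℂ, (convolution (fun z : ℂ => z⁻¹) (fderiv ℝ ψ)
      (ContinuousLinearMap.precompR ℂ (ContinuousLinearMap.mul ℝ ℂ)) volume ζ) v
      = ∫ t, t⁻¹ * fderiv ℝ ψ (ζ - t) v := by
    intro v
    rw [convolution_def, ContinuousLinearMap.integral_apply hint]
    refine integral_congr_ae (Filter.Eventually.of_forall fun t => ?_)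
    simp [ContinuousLinearMap.precompR_apply]
  have hinv : ∀ v : ℂ, Integrable (fun t => t⁻¹ * fderiv ℝ ψ (ζ - t) v) volume := by
    intro v
    have := hint.apply_continuousLinearMap v
    refine this.congr (Filter.Eventually.of_forall fun t => ?_)
    simp [ContinuousLinearMap.precompR_apply]
  have hfd2 := (hfd.const_mul (Real.pi : ℂ)⁻¹).fderiv
  have hval : dbar (fun ζ => (Real.pi : ℂ)⁻¹ * ∫ z, ψ z / (ζ - z)) ζ
      = (Real.pi : ℂ)⁻¹ * ∫ t, t⁻¹ * dbar ψ (ζ - t) := by
    unfold dbar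
    rw [hfd2]
    simp only [ContinuousLinearMap.smul_apply, smul_eq_mul]
    rw [hap 1, hap I]
    have e : (fun t : ℂ => t⁻¹ * ((fderiv ℝ ψ (ζ - t) 1 + I * fderiv ℝ ψ (ζ - t) I) / 2))
        = fun t => (1 / 2 : ℂ) * (t⁻¹ * fderiv ℝ ψ (ζ - t) 1 + I * (t⁻¹ * fderiv ℝ ψ (ζ - t) I)) := by
      funext t
      ring
    rw [e, integral_const_mul, integral_add (hinv 1) ((hinv I).const_mul I), integral_const_mul]
    ring
  rw [hval, ← hconv (dbar ψ) ζ]
  have h3 := Pool.Lib.integral_dbar_div_sub ψ h1 hc ζ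
  have h4 : ∫ z, dbar ψ z / (ζ - z) = - ∫ z, dbar ψ z / (z - ζ) := by
    rw [← integral_neg]
    refine integral_congr_ae (Filter.Eventually.of_forall fun z => ?_)
    show dbar ψ z / (ζ - z) = -(dbar ψ z / (z - ζ))
    rw [← neg_sub z ζ, div_neg]
  rw [h4, h3]
  have hpi : (Real.pi : ℂ) ≠ 0 := by
    exact_mod_cast Real.pi_ne_zero
  field_simp

theorem weyl_dbar_mul {a b : ℂ → ℂ} {z : ℂ} (ha : DifferentiableAt ℝ a z)
    (hb : DifferentiableAt ℝ b z) :
    dbar (fun w => a w * b w) z = a z * dbar b z + b z * dbar a z := by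
  unfold dbar
  have : fderiv ℝ (fun w => a w * b w) z = a z • fderiv ℝ b z + b z • fderiv ℝ a z :=
    fderiv_fun_mul ha hb
  rw [this]
  simp only [ContinuousLinearMap.add_apply, ContinuousLinearMap.smul_apply, smul_eq_mul]
  ring

theorem weyl_local {U : Set ℂ} {F : ℂ → ℂ} (hF : LocallyIntegrableOn F U)
    (h : ∀ χ : ℂ → ℂ, ContDiff ℝ ∞ χ → HasCompactSupport χ → tsupport χ ⊆ U →
      ∫ z, F z * dbar χ z = 0) {z0 : ℂ} {r : ℝ} (hr : 0 < r)
    (hsub : closedBall z0 (2 * r) ⊆ U) :
    ∃ G : ℂ → ℂ, DifferentiableOn ℂ G (ball z0 (r / 2)) ∧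
      ∀ᵐ z, z ∈ ball z0 (r / 2) → F z = G z := by
  let χ0 : ContDiffBump z0 := ⟨r, 2 * r, hr, by linarith⟩
  let χ : ℂ → ℂ := fun z => ((χ0 z : ℝ) : ℂ)
  have hχ : ContDiff ℝ ∞ χ := ofRealCLM.contDiff.comp χ0.contDiff
  have hχt : tsupport χ ⊆ closedBall z0 (2 * r) := by
    have h1 : tsupport χ0 = closedBall z0 (2 * r) := χ0.tsupport_eq
    rw [← h1]
    refine closure_mono ?_
    intro z hz
    simp only [Function.mem_support, χ] at hz ⊢
    intro h0
    exact hz (by rw [h0]; simp)
  have hχc : HasCompactSupport χ := (isCompact_closedBall z0 (2 * r)).of_isClosed_subset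
    (isClosed_tsupport χ) hχt
  have hχ1 : ∀ z ∈ ball z0 r, χ =ᶠ[𝓝 z] fun _ => 1 := by
    intro z hz
    have h1 : χ0 =ᶠ[𝓝 z] 1 := χ0.eventuallyEq_one_of_mem_ball hz
    filter_upwards [h1] with w hw
    simp [χ, hw]
  have hd0 : ∀ z ∈ ball z0 r, dbar χ z = 0 := by
    intro z hz
    rw [Pool.Lib.dbar_congr (hχ1 z hz)]
    exact Pool.Lib.dbar_eq_zero (differentiableAt_const _)
  have hdc : Continuous (dbar χ) := Pool.Lib.continuous_dbar (hχ.of_le (by simp))
  have hFc : IntegrableOn F (closedBall z0 (2 * r)) :=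
    hF.integrableOn_compact_subset hsub (isCompact_closedBall _ _)
  have hmulInt : ∀ φ : ℂ → ℂ, Continuous φ → tsupport φ ⊆ closedBall z0 (2 * r) →
      Integrable (fun z => F z * φ z) := by
    intro φ hφ hφt
    have h1 : IntegrableOn (fun z => F z * φ z) (closedBall z0 (2 * r)) :=
      hFc.mul_continuousOn hφ.continuousOn (isCompact_closedBall _ _)
    refine (integrableOn_iff_integrable_of_support_subset ?_).1 h1
    intro z hz
    refine hφt (subset_tsupport φ ?_)
    simp only [Function.mem_support] at hz ⊢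
    intro h0
    exact hz (by rw [h0, mul_zero])
  set K : ℂ → ℂ := fun z => F z * dbar χ z with hKdef
  have hK : Integrable K :=
    hmulInt _ hdc ((Pool.Lib.tsupport_dbar_subset χ).trans hχt)
  have hK0 : ∀ z ∈ ball z0 r, K z = 0 := by
    intro z hz
    simp [hKdef, hd0 z hz]
  have hGd := weyl_G_diff hr hK hK0
  set G : ℂ → ℂ := fun z => -(Real.pi : ℂ)⁻¹ * ∫ ζ, K ζ / (ζ - z) with hG
  have hGd2 : DifferentiableOn ℂ G (ball z0 (r / 2)) := (differentiableOn_const _).mul hGd
  refine ⟨G, hGd2, ?_⟩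
  have hballsub : ball z0 (r / 2) ⊆ closedBall z0 (2 * r) :=
    ball_subset_closedBall.trans (closedBall_subset_closedBall (by linarith))
  have hloc : LocallyIntegrableOn (fun z => F z - G z) (ball z0 (r / 2)) volume := by
    refine LocallyIntegrableOn.sub ?_ ?_
    · exact (hFc.mono_set hballsub).locallyIntegrableOn
    · exact hGd2.continuousOn.locallyIntegrableOn measurableSet_ball
  have hae := isOpen_ball.ae_eq_zero_of_integral_contDiff_smul_eq_zero hloc ?_
  · filter_upwards [hae] with z hz hzb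
    exact sub_eq_zero.1 (hz hzb)
  intro g hg hgc hgt
  set ψ : ℂ → ℂ := fun z => ((g z : ℝ) : ℂ) with hψdef
  have hψ : ContDiff ℝ ∞ ψ := ofRealCLM.contDiff.comp hg
  have hψt : tsupport ψ ⊆ tsupport g := by
    refine closure_mono ?_
    intro z hz
    simp only [Function.mem_support, hψdef] at hz ⊢
    intro h0
    exact hz (by rw [h0]; simp)
  have hψc : HasCompactSupport ψ := hgc.of_isClosed_subset (isClosed_tsupport ψ) hψt
  obtain ⟨hu, hdu⟩ := weyl_cauchy hψ hψc
  set u : ℂ → ℂ := fun ζ => (Real.pi : ℂ)⁻¹ * ∫ z, ψ z / (ζ - z) with hudef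
  have hψ0 : ∀ z, z ∉ ball z0 (r / 2) → ψ z = 0 := by
    intro z hz
    by_contra h0
    exact hz (hgt (hψt (subset_tsupport ψ h0)))
  have hχψ : ∀ z, χ z * ψ z = ψ z := by
    intro z
    by_cases hz : z ∈ ball z0 (r / 2)
    · have h1 : z ∈ ball z0 r := ball_subset_ball (by linarith) hz
      rw [(hχ1 z h1).self_of_nhds, one_mul]
    · rw [hψ0 z hz, mul_zero]
  have h0 := h (fun z => χ z * u z) (hχ.mul hu) (hχc.mul_right)
    ((tsupport_mul_subset_left).trans (hχt.trans hsub))
  have hd : ∀ z, F z * dbar (fun z => χ z * u z) z = F z * ψ z + K z * u z := by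
    intro z
    rw [weyl_dbar_mul (hχ.differentiable (by simp) z) (hu.differentiable (by simp) z), hdu z, hχψ z]
    simp only [hKdef]
    ring
  simp_rw [hd] at h0
  have hFψ : Integrable (fun z => F z * ψ z) :=
    hmulInt ψ hψ.continuous ((hψt.trans hgt).trans hballsub)
  have hKu : Integrable (fun z => K z * u z) := by
    have h1 := hmulInt (fun z => dbar χ z * u z) (hdc.mul hu.continuous)
      ((tsupport_mul_subset_left).trans ((Pool.Lib.tsupport_dbar_subset χ).trans hχt))
    refine h1.congr (Filter.Eventually.of_forall fun z => ?_)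
    simp only [hKdef]
    ring
  rw [integral_add hFψ hKu] at h0
  -- Fubini
  have hψint : Integrable ψ := hψ.continuous.integrable_of_hasCompactSupport hψc
  have hprod : Integrable (fun p : ℂ × ℂ => K p.1 * ψ p.2 / (p.1 - p.2))
      ((volume : Measure ℂ).prod volume) := by
    have h1 : Integrable (fun p : ℂ × ℂ => K p.1 * ψ p.2) ((volume : Measure ℂ).prod volume) :=
      hK.mul_prod hψint
    refine Integrable.mono' (h1.norm.div_const (r / 2)) ?_ ?_
    · refine h1.aestronglyMeasurable.div₀ ?_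
      exact (by fun_prop : Measurable (fun p : ℂ × ℂ => p.1 - p.2)).aestronglyMeasurable
    · refine Filter.Eventually.of_forall fun p => ?_
      by_cases hp1 : p.1 ∈ ball z0 r
      · simp [hK0 _ hp1]
      · by_cases hp2 : p.2 ∈ ball z0 (r / 2)
        · rw [norm_div]
          exact div_le_div_of_nonneg_left (norm_nonneg _) (by positivity) (weyl_dist hp2 hp1)
        · simp [hψ0 _ hp2]
  have hFub : ∫ ζ, K ζ * u ζ = - ∫ z, ψ z * G z := by
    have e1 : ∀ ζ, K ζ * u ζ = (Real.pi : ℂ)⁻¹ * ∫ z, K ζ * ψ z / (ζ - z) := by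
      intro ζ
      rw [hudef]
      simp only
      have : ∫ z, K ζ * ψ z / (ζ - z) = K ζ * ∫ z, ψ z / (ζ - z) := by
        rw [← integral_const_mul]
        refine integral_congr_ae (Filter.Eventually.of_forall fun z => ?_)
        simp only
        ring
      rw [this]
      ring
    have e2 : ∀ z, ψ z * G z = -(Real.pi : ℂ)⁻¹ * ∫ ζ, K ζ * ψ z / (ζ - z) := by
      intro z
      have : ∫ ζ, K ζ * ψ z / (ζ - z) = ψ z * ∫ ζ, K ζ / (ζ - z) := by
        rw [← integral_const_mul]
        refine integral_congr_ae (Filter.Eventually.of_forall fun ζ => ?_)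
        simp only
        ring
      rw [this, hG]
      ring
    simp_rw [e1, e2]
    rw [integral_const_mul, integral_const_mul]
    have sw : ∫ ζ, ∫ z, K ζ * ψ z / (ζ - z) = ∫ z, ∫ ζ, K ζ * ψ z / (ζ - z) :=
      integral_integral_swap (f := fun ζ z => K ζ * ψ z / (ζ - z)) hprod
    rw [sw]
    ring
  rw [hFub] at h0
  have hψG : Integrable (fun z => ψ z * G z) := by
    have hcont : Continuous (fun z => ψ z * G z) := by
      rw [continuous_iff_continuousAt]
      intro z
      by_cases hz : z ∈ tsupport ψ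
      · have hz2 : z ∈ ball z0 (r / 2) := hgt (hψt hz)
        exact hψ.continuous.continuousAt.mul
          ((hGd2.continuousOn.continuousAt (isOpen_ball.mem_nhds hz2)))
      · have h1 : ψ =ᶠ[𝓝 z] 0 := notMem_tsupport_iff_eventuallyEq.1 hz
        have h2 : (fun z => ψ z * G z) =ᶠ[𝓝 z] fun _ => 0 := by
          filter_upwards [h1] with w hw
          simp [hw]
        exact (continuousAt_const).congr h2.symm
    refine hcont.integrable_of_hasCompactSupport ?_
    exact hψc.mul_right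
  have e3 : (fun z => g z • (F z - G z)) = fun z => F z * ψ z - ψ z * G z := by
    funext z
    simp only [hψdef, real_smul]
    ring
  rw [e3, integral_sub hFψ hψG]
  linear_combination h0

theorem weyl {U : Set ℂ} (hU : IsOpen U) {F : ℂ → ℂ} (hF : LocallyIntegrableOn F U)
    (h : ∀ χ : ℂ → ℂ, ContDiff ℝ ∞ χ → HasCompactSupport χ → tsupport χ ⊆ U →
      ∫ z, F z * dbar χ z = 0) :
    ∃ G : ℂ → ℂ, DifferentiableOn ℂ G U ∧ F =ᵐ[volume.restrict U] G := by
  have hloc : ∀ z0 ∈ U, ∃ r : ℝ, 0 < r ∧ ∃ G : ℂ → ℂ, DifferentiableOn ℂ G (ball z0 r) ∧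
      ∀ᵐ z, z ∈ ball z0 r → F z = G z := by
    intro z0 hz0
    obtain ⟨ε, hε, hsub⟩ := Metric.isOpen_iff.1 hU z0 hz0
    have h1 : closedBall z0 (2 * (ε / 4)) ⊆ U := by
      refine (closedBall_subset_ball ?_).trans hsub
      linarith
    obtain ⟨G, hG1, hG2⟩ := weyl_local hF h (by positivity : 0 < ε / 4) h1
    exact ⟨ε / 4 / 2, by positivity, G, hG1, hG2⟩
  choose! r hr G hGd hGe using hloc
  -- local functions agree
  have hagree : ∀ a ∈ U, ∀ b ∈ U, b ∈ ball a (r a) → G a b = G b b := by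
    intro a ha b hb hba
    obtain ⟨δ, hδ, hδs⟩ := Metric.isOpen_iff.1 (isOpen_ball.inter isOpen_ball :
      IsOpen (ball a (r a) ∩ ball b (r b))) b ⟨hba, mem_ball_self (hr b hb)⟩
    have hc1 : ContinuousOn (G a) (ball b δ) :=
      (hGd a ha).continuousOn.mono (fun x hx => (hδs hx).1)
    have hc2 : ContinuousOn (G b) (ball b δ) :=
      (hGd b hb).continuousOn.mono (fun x hx => (hδs hx).2)
    have hae : G a =ᵐ[volume.restrict (ball b δ)] G b := by
      rw [Filter.EventuallyEq, ae_restrict_iff' measurableSet_ball]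
      filter_upwards [hGe a ha, hGe b hb] with x h1 h2 hx
      rw [← h1 (hδs hx).1, ← h2 (hδs hx).2]
    exact Measure.eqOn_open_of_ae_eq hae isOpen_ball hc1 hc2 (mem_ball_self hδ)
  refine ⟨fun z => G z z, ?_, ?_⟩
  · intro z hz
    have h1 : DifferentiableAt ℂ (G z) z :=
      (hGd z hz).differentiableAt (isOpen_ball.mem_nhds (mem_ball_self (hr z hz)))
    have h2 : (fun w => G w w) =ᶠ[𝓝 z] G z := by
      filter_upwards [isOpen_ball.mem_nhds (mem_ball_self (hr z hz)), hU.mem_nhds hz] with w hw hwU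
      exact (hagree z hz w hwU hw).symm
    exact (h1.congr_of_eventuallyEq h2).differentiableWithinAt
  · rw [Filter.EventuallyEq, ae_restrict_iff' hU.measurableSet, ae_iff]
    refine measure_null_of_locally_null _ ?_
    intro z hz
    simp only [mem_setOf_eq, Classical.not_imp] at hz
    refine ⟨{w | ¬ (w ∈ U → F w = G w w)} ∩ ball z (r z), ?_, ?_⟩
    · exact inter_mem_nhdsWithin _ (isOpen_ball.mem_nhds (mem_ball_self (hr z hz.1)))
    · have h1 := hGe z hz.1
      rw [ae_iff] at h1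
      refine measure_mono_null ?_ h1
      rintro w ⟨hw1, hw2⟩
      simp only [mem_setOf_eq, Classical.not_imp] at hw1 ⊢
      refine ⟨hw2, ?_⟩
      rw [hagree z hz.1 w hw1.1 hw2]
      exact hw1.2

end Pool.Recti
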