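import Pool.Agent.Recti.LKmod

/-!
# The diameter of an image component surrounded by an annulus

PROOF of `diam_sq_le`.
Step 1: for `r < ρ < r'` every ray starting at `p ∈ L = LK E f x` meets `f '' {‖z - c‖ = ρ}`.  For small `τ > 0` let `w` be the
smooth radial function with `w = 1` for `‖z - c‖ ≤ ρ`, `w = 0` for `‖z - c‖ ≥ ρ + τ` (use e.g. a
`ContDiffBump` centred at `c` with radii `ρ`, `ρ + τ`); it is a test function for `E` (its gradient is supported in the annulus,
which is disjoint from `E`), `w x = 1`; its partner `W` (`exists_corr`) is `1` at `p` and `0` far away, continuous, so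
there is a point `q` on the ray with `W q = 1/2`; `q ∉ Om E f` (else `q ∈ LK E f y`, `y ∈ E`, `W q = w y ∈ {0, 1}`), so
`q = f z` with `w z = 1/2`, `ρ < ‖z - c‖ < ρ + τ`.  Let `τ → 0`, a limit point `z` has `‖z - c‖ = ρ` and `f z` is on the (closed) ray.
Step 2: so `L ⊆ convexHull ℝ (f '' γ_ρ)` (`γ_ρ` the circle): otherwise separate (`f '' γ_ρ` compact, its hull is closed) and
take the ray from `p` in the direction of the normal, which would miss it.  `diam (convexHull) = diam`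
(`convexHull_diam`), and `diam (f '' γ_ρ) ≤ ∫_0^{2π} ‖f' (c + ρ e^{iα})‖ ρ dα` (two points of the closed curve are joined by an
arc).  Hence `diam L² ≤ 2 π ρ² ∫_0^{2π} ‖f' (c + ρ e^{iα})‖² dα` (Cauchy-Schwarz).
Step 3: divide by `ρ`, integrate over `ρ ∈ (r, r')` (polar coordinates around `c`, `Complex.integral_comp_polarCoord_symm` or
the `lintegral` version, after translating by `c`).
(One may avoid step 2: for `p, q ∈ L` the line through `p, q` contains two opposite rays starting at `p` and at `q` not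
containing the other point; each meets `f '' γ_ρ`, so `dist p q ≤ diam (f '' γ_ρ)`.)
-/

set_option autoImplicit false

open Complex MeasureTheory Set Filter Topology Metric
open scoped ContDiff

namespace Pool.Recti

/-- The closed ray starting at `p` in the direction `v`. -/
def annRay (p v : ℂ) : Set ℂ := {q | ((q - p) / v).im = 0 ∧ 0 ≤ ((q - p) / v).re}

theorem annRay_isClosed (p v : ℂ) : IsClosed (annRay p v) := by
  have hc : Continuous fun q : ℂ => (q - p) / v := by fun_prop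
  exact (isClosed_singleton.preimage (continuous_im.comp hc)).inter
    (isClosed_Ici.preimage (continuous_re.comp hc))

theorem annRay_mem {p v : ℂ} (hv : v ≠ 0) {s : ℝ} (hs : 0 ≤ s) : p + s * v ∈ annRay p v := by
  have h1 : (p + s * v - p) / v = (s : ℂ) := by
    field_simp
    ring
  simp only [annRay, Set.mem_ofPred_eq, h1, ofReal_im, ofReal_re]
  exact ⟨trivial, hs⟩

theorem annRay_exists {p v q : ℂ} (hv : v ≠ 0) (hq : q ∈ annRay p v) :
    ∃ s : ℝ, 0 ≤ s ∧ q = p + s * v := by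
  refine ⟨((q - p) / v).re, hq.2, ?_⟩
  have h1 : ((((q - p) / v).re : ℝ) : ℂ) = (q - p) / v := by
    apply Complex.ext
    · simp
    · simp [hq.1]
  rw [h1]
  field_simp
  ring

/-- Step 1 for an annulus of positive width. -/
theorem ann_step1 {E : Set ℂ} {f : ℂ → ℂ} (h : Nrm E f) {x : ℂ} (hx : x ∈ E) {c : ℂ}
    {r r' ρ τ : ℝ} (hA : ∀ z, r < ‖z - c‖ → ‖z - c‖ < r' → z ∉ E)
    (hxr : ‖x - c‖ ≤ r) (hr : 0 < r) (hρ : r < ρ) (hτ : 0 < τ) (hρτ : ρ + τ < r') {p v : ℂ}
    (hp : p ∈ LK E f x) (hv : v ≠ 0) :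
    ∃ z, ρ ≤ ‖z - c‖ ∧ ‖z - c‖ ≤ ρ + τ ∧ z ∉ E ∧ f z ∈ annRay p v := by
  let w : ContDiffBump c := ⟨ρ, ρ + τ, by linarith, by linarith⟩
  have hw1 : ∀ z, ‖z - c‖ ≤ ρ → w z = 1 := by
    intro z hz
    apply w.one_of_mem_closedBall
    rw [mem_closedBall, dist_eq_norm]
    exact hz
  have hw0 : ∀ z, ρ + τ ≤ ‖z - c‖ → w z = 0 := by
    intro z hz
    apply w.zero_of_le_dist
    rw [dist_eq_norm]
    exact hz
  have hlc : LC E (w : ℂ → ℝ) := by
    let U : Set ℂ := {z | ‖z - c‖ < ρ} ∪ {z | ρ + τ < ‖z - c‖}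
    have hc : Continuous fun z : ℂ => ‖z - c‖ := by fun_prop
    have hU1 : IsOpen {z : ℂ | ‖z - c‖ < ρ} := isOpen_lt hc continuous_const
    have hU2 : IsOpen {z : ℂ | ρ + τ < ‖z - c‖} := isOpen_lt continuous_const hc
    have hU : IsOpen U := hU1.union hU2
    have hEU : E ⊆ U := by
      intro y hy
      by_contra hyU
      simp only [U, mem_union, Set.mem_ofPred_eq, not_or, not_lt] at hyU
      exact hA y (by linarith [hyU.1]) (by linarith [hyU.2]) hy
    have hUn : U ∈ 𝓝ˢ E := hU.mem_nhdsSet.2 hEU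
    filter_upwards [hUn] with z hz
    rcases hz with hz | hz
    · have h1 : (w : ℂ → ℝ) =ᶠ[𝓝 z] fun _ => 1 := by
        filter_upwards [hU1.mem_nhds hz] with y hy
        exact hw1 y (le_of_lt hy)
      rw [h1.fderiv_eq]
      simp
    · have h1 : (w : ℂ → ℝ) =ᶠ[𝓝 z] fun _ => 0 := by
        filter_upwards [hU2.mem_nhds hz] with y hy
        exact hw0 y (le_of_lt hy)
      rw [h1.fderiv_eq]
      simp
  obtain ⟨W, hW⟩ := exists_corr h (w := (w : ℂ → ℝ)) w.contDiff w.hasCompactSupport hlc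
  have hWp : W p = 1 := by
    rw [hp.2 w W hW]
    exact hw1 x (by linarith)
  obtain ⟨R, hR⟩ := TransferAux.exists_bound_support hW.comp'
  have hvn : 0 < ‖v‖ := norm_pos_iff.2 hv
  let S : ℝ := (|R| + ‖p‖ + 1) / ‖v‖
  have hS0 : 0 ≤ S := by positivity
  have hWS : W (p + S * v) = 0 := by
    apply hR
    have h1 : ‖(S : ℂ) * v‖ = |R| + ‖p‖ + 1 := by
      rw [norm_mul, norm_real, Real.norm_of_nonneg hS0]
      simp only [S]
      field_simp
    have h2 : ‖(S : ℂ) * v‖ ≤ ‖p + S * v‖ + ‖p‖ := by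
      have := norm_sub_le (p + S * v) p
      rwa [add_sub_cancel_left] at this
    have h3 := le_abs_self R
    linarith
  have hcont : ContinuousOn (fun s : ℝ => W (p + s * v)) (Icc 0 S) := by
    have := hW.smooth'.continuous
    fun_prop
  have hiv := intermediate_value_Icc' hS0 hcont
  have hmem : (1 / 2 : ℝ) ∈ Icc (W (p + (S : ℝ) * v)) (W (p + ((0 : ℝ) : ℂ) * v)) := by
    rw [hWS]
    simp only [ofReal_zero, zero_mul, add_zero, hWp]
    constructor <;> norm_num
  obtain ⟨s, hs, hsW⟩ := hiv hmem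
  simp only at hsW
  have hqOm : p + s * v ∉ Om E f := by
    intro hq
    obtain ⟨y, hy, hyL⟩ := exists_mem_LK h hq
    have h1 := hyL.2 w W hW
    rw [hsW] at h1
    rcases le_or_gt ‖y - c‖ ρ with h2 | h2
    · rw [hw1 y h2] at h1
      norm_num at h1
    · rcases le_or_gt (ρ + τ) ‖y - c‖ with h3 | h3
      · rw [hw0 y h3] at h1
        norm_num at h1
      · exact hA y (by linarith) (by linarith) hy
  have hqf : p + s * v ∈ f '' Eᶜ := by
    by_contra hn
    exact hqOm hn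
  obtain ⟨z, hz, hfz⟩ := hqf
  have hwz : w z = 1 / 2 := by
    rw [← hW.eq z hz, hfz, hsW]
  refine ⟨z, ?_, ?_, hz, ?_⟩
  · by_contra hn
    rw [hw1 z (le_of_lt (not_le.1 hn))] at hwz
    norm_num at hwz
  · by_contra hn
    rw [hw0 z (le_of_lt (not_le.1 hn))] at hwz
    norm_num at hwz
  · rw [hfz]
    exact annRay_mem hv hs.1

/-- Step 1. -/
theorem ann_step1' {E : Set ℂ} {f : ℂ → ℂ} (h : Nrm E f) {x : ℂ} (hx : x ∈ E) {c : ℂ}
    {r r' ρ : ℝ} (hA : ∀ z, r < ‖z - c‖ → ‖z - c‖ < r' → z ∉ E)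
    (hxr : ‖x - c‖ ≤ r) (hr : 0 < r) (hρ : r < ρ) (hρ' : ρ < r') {p v : ℂ}
    (hp : p ∈ LK E f x) (hv : v ≠ 0) :
    ∃ z, ‖z - c‖ = ρ ∧ f z ∈ annRay p v := by
  have hopen : IsOpen Eᶜ := TransferAux.nrm_open h
  let ρ1 : ℝ := (ρ + r') / 2
  have hρ1 : ρ < ρ1 := by simp only [ρ1]; linarith
  have hρ1' : ρ1 < r' := by simp only [ρ1]; linarith
  have hc : Continuous fun z : ℂ => ‖z - c‖ := by fun_prop
  let K : Set ℂ := {z | ρ ≤ ‖z - c‖} ∩ closedBall c ρ1
  have hK : IsCompact K := (isCompact_closedBall c ρ1).inter_left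
    (isClosed_le continuous_const hc)
  have hKE : K ⊆ Eᶜ := by
    intro z hz
    have h2 := hz.2
    rw [mem_closedBall, dist_eq_norm] at h2
    have h1 : ρ ≤ ‖z - c‖ := hz.1
    exact hA z (by linarith) (by linarith)
  have hfc : ContinuousOn f K := h.diff.continuousOn.mono hKE
  have hC : IsCompact (K ∩ f ⁻¹' (annRay p v)) :=
    hK.of_isClosed_subset (hfc.preimage_isClosed_of_isClosed hK.isClosed (annRay_isClosed p v))
      inter_subset_left
  have key : ∀ τ : ℝ, 0 < τ → τ < ρ1 - ρ → ∃ z ∈ K ∩ f ⁻¹' (annRay p v), ‖z - c‖ ≤ ρ + τ := by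
    intro τ h1 h2
    obtain ⟨z, hz1, hz2, _, hz4⟩ := ann_step1 h hx hA hxr hr hρ h1 (by linarith) hp hv
    refine ⟨z, ⟨⟨hz1, ?_⟩, hz4⟩, hz2⟩
    rw [mem_closedBall, dist_eq_norm]
    linarith
  have hne : (K ∩ f ⁻¹' (annRay p v)).Nonempty := by
    obtain ⟨z, hz, _⟩ := key ((ρ1 - ρ) / 2) (by linarith) (by linarith)
    exact ⟨z, hz⟩
  obtain ⟨z, hz, hmin⟩ := hC.exists_isMinOn hne hc.continuousOn
  refine ⟨z, le_antisymm ?_ hz.1.1, hz.2⟩
  by_contra hn
  rw [not_le] at hn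
  obtain ⟨y, hy, hy2⟩ := key (min ((‖z - c‖ - ρ) / 2) ((ρ1 - ρ) / 2))
    (lt_min (by linarith) (by linarith)) (lt_of_le_of_lt (min_le_right _ _) (by linarith))
  have h1 : ‖z - c‖ ≤ ‖y - c‖ := hmin hy
  have h2 := min_le_left ((‖z - c‖ - ρ) / 2) ((ρ1 - ρ) / 2)
  linarith

theorem ann_param {c z : ℂ} {ρ : ℝ} (hz : ‖z - c‖ = ρ) :
    ∃ α ∈ Icc (-Real.pi) Real.pi, circleMap c ρ α = z := by
  refine ⟨arg (z - c), ⟨(neg_pi_lt_arg _).le, arg_le_pi _⟩, ?_⟩
  rw [circleMap, ← hz, norm_mul_exp_arg_mul_I]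
  ring

/-- Step 2: an arc of the image of a circle. -/
theorem ann_arc {f : ℂ → ℂ} {U : Set ℂ} (hU : IsOpen U) (hf : DifferentiableOn ℂ f U) {c : ℂ}
    {ρ : ℝ} (hρ : 0 < ρ) (hcU : ∀ α : ℝ, circleMap c ρ α ∈ U) {z z' : ℂ} (hz : ‖z - c‖ = ρ)
    (hz' : ‖z' - c‖ = ρ) :
    ‖f z - f z'‖ ≤ ∫ α in (-Real.pi)..Real.pi, ‖deriv f (circleMap c ρ α)‖ * ρ := by
  have hdc : ContinuousOn (deriv f) U := (hf.deriv hU).continuousOn
  have hgc : Continuous fun α : ℝ => deriv f (circleMap c ρ α) := by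
    rw [continuous_iff_continuousAt]
    intro α
    exact ContinuousAt.comp (f := fun α : ℝ => circleMap c ρ α) (g := deriv f)
      (hdc.continuousAt (hU.mem_nhds (hcU α))) (continuous_circleMap c ρ).continuousAt
  have main : ∀ α β : ℝ, -Real.pi ≤ α → α ≤ β → β ≤ Real.pi →
      ‖f (circleMap c ρ β) - f (circleMap c ρ α)‖ ≤
        ∫ α in (-Real.pi)..Real.pi, ‖deriv f (circleMap c ρ α)‖ * ρ := by
    intro α β h1 h2 h3
    have hd : ∀ t ∈ uIcc α β, HasDerivAt (fun t : ℝ => f (circleMap c ρ t))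
        (deriv f (circleMap c ρ t) * (circleMap 0 ρ t * I)) t := by
      intro t _
      have hfd : HasDerivAt f (deriv f (circleMap c ρ t)) (circleMap c ρ t) :=
        (hf.differentiableAt (hU.mem_nhds (hcU t))).hasDerivAt
      exact hfd.comp t (hasDerivAt_circleMap c ρ t)
    have hcont : Continuous fun t : ℝ => deriv f (circleMap c ρ t) * (circleMap 0 ρ t * I) := by
      have := continuous_circleMap 0 ρ
      fun_prop
    rw [← intervalIntegral.integral_eq_sub_of_hasDerivAt hd (hcont.intervalIntegrable _ _)]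
    refine (intervalIntegral.norm_integral_le_integral_norm h2).trans ?_
    have he : ∀ t : ℝ, ‖deriv f (circleMap c ρ t) * (circleMap 0 ρ t * I)‖ =
        ‖deriv f (circleMap c ρ t)‖ * ρ := by
      intro t
      rw [norm_mul, norm_mul, norm_I, mul_one, norm_circleMap_zero, abs_of_pos hρ]
    simp only [he]
    apply intervalIntegral.integral_mono_interval h1 h2 h3
    · exact Filter.Eventually.of_forall fun t => by positivity
    · exact (hgc.norm.mul continuous_const).intervalIntegrable _ _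
  obtain ⟨α, hα, rfl⟩ := ann_param hz
  obtain ⟨β, hβ, rfl⟩ := ann_param hz'
  rcases le_total α β with hab | hab
  · rw [norm_sub_rev]
    exact main α β hα.1 hab hβ.2
  · exact main β α hβ.1 hab hα.2

theorem ann_cs {g : ℝ → ℝ} (hg : Continuous g) :
    (∫ α in (-Real.pi)..Real.pi, g α) ^ 2 ≤
      2 * Real.pi * ∫ α in (-Real.pi)..Real.pi, g α ^ 2 := by
  have hpi := Real.pi_pos
  set m : ℝ := ∫ α in (-Real.pi)..Real.pi, g α with hm
  have h0 : 0 ≤ ∫ α in (-Real.pi)..Real.pi, (g α - m / (2 * Real.pi)) ^ 2 :=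
    intervalIntegral.integral_nonneg (by linarith) fun t _ => sq_nonneg _
  have h1 : ∫ α in (-Real.pi)..Real.pi, (g α - m / (2 * Real.pi)) ^ 2 =
      (∫ α in (-Real.pi)..Real.pi, g α ^ 2) - m ^ 2 / (2 * Real.pi) := by
    have h2 : ∀ α : ℝ, (g α - m / (2 * Real.pi)) ^ 2 =
        g α ^ 2 - (2 * (m / (2 * Real.pi)) * g α - (m / (2 * Real.pi)) ^ 2) := by
      intro α
      ring
    simp only [h2]
    have i1 : IntervalIntegrable (fun α => g α ^ 2) volume (-Real.pi) Real.pi :=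
      (hg.pow 2).intervalIntegrable _ _
    have i2 : IntervalIntegrable (fun α => 2 * (m / (2 * Real.pi)) * g α) volume
        (-Real.pi) Real.pi := (continuous_const.mul hg).intervalIntegrable _ _
    have i3 : IntervalIntegrable (fun _ : ℝ => (m / (2 * Real.pi)) ^ 2) volume
        (-Real.pi) Real.pi := continuous_const.intervalIntegrable _ _
    rw [intervalIntegral.integral_sub i1 (i2.sub i3), intervalIntegral.integral_sub i2 i3,
      intervalIntegral.integral_const_mul, intervalIntegral.integral_const, ← hm]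
    simp only [smul_eq_mul]
    field_simp
    ring
  rw [h1] at h0
  have h3 : m ^ 2 / (2 * Real.pi) ≤ ∫ α in (-Real.pi)..Real.pi, g α ^ 2 := by linarith
  rw [div_le_iff₀ (by positivity)] at h3
  linarith

/-- Steps 1 and 2 together. -/
theorem ann_radius {E : Set ℂ} {f : ℂ → ℂ} (h : Nrm E f) {x : ℂ} (hx : x ∈ E) {c : ℂ}
    {r r' ρ : ℝ} (hA : ∀ z, r < ‖z - c‖ → ‖z - c‖ < r' → z ∉ E)
    (hxr : ‖x - c‖ ≤ r) (hr : 0 < r) (hρ : r < ρ) (hρ' : ρ < r') {p q : ℂ}
    (hp : p ∈ LK E f x) (hq : q ∈ LK E f x) :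
    ‖p - q‖ ^ 2 / (2 * Real.pi * ρ) ≤
      ∫ α in (-Real.pi)..Real.pi, ρ * ‖deriv f (circleMap c ρ α)‖ ^ 2 := by
  have hpi := Real.pi_pos
  have hρ0 : 0 < ρ := hr.trans hρ
  have hopen : IsOpen Eᶜ := TransferAux.nrm_open h
  have hcU : ∀ α : ℝ, circleMap c ρ α ∈ Eᶜ := by
    intro α
    have h1 : ‖circleMap c ρ α - c‖ = ρ := by
      rw [circleMap_sub_center, norm_circleMap_zero, abs_of_pos hρ0]
    exact hA _ (by rw [h1]; exact hρ) (by rw [h1]; exact hρ')
  have hgc : Continuous fun α : ℝ => deriv f (circleMap c ρ α) := by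
    rw [continuous_iff_continuousAt]
    intro α
    exact ContinuousAt.comp (f := fun α : ℝ => circleMap c ρ α) (g := deriv f)
      (((h.diff.deriv hopen).continuousOn).continuousAt (hopen.mem_nhds (hcU α)))
      (continuous_circleMap c ρ).continuousAt
  have hnn : 0 ≤ ∫ α in (-Real.pi)..Real.pi, ρ * ‖deriv f (circleMap c ρ α)‖ ^ 2 :=
    intervalIntegral.integral_nonneg (by linarith) fun t _ => by positivity
  rcases eq_or_ne p q with hpq | hpq
  · rw [hpq, sub_self, norm_zero]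
    simpa using hnn
  obtain ⟨z, hz, hzr⟩ := ann_step1' h hx hA hxr hr hρ hρ' hp (sub_ne_zero.2 hpq)
  obtain ⟨z', hz', hzr'⟩ := ann_step1' h hx hA hxr hr hρ hρ' hq (sub_ne_zero.2 hpq.symm)
  obtain ⟨s, hs, hfs⟩ := annRay_exists (sub_ne_zero.2 hpq) hzr
  obtain ⟨t, ht, hft⟩ := annRay_exists (sub_ne_zero.2 hpq.symm) hzr'
  have h1 : f z - f z' = ((1 + s + t : ℝ) : ℂ) * (p - q) := by
    rw [hfs, hft]
    push_cast
    ring
  have h2 : ‖p - q‖ ≤ ‖f z - f z'‖ := by
    rw [h1, norm_mul, norm_real, Real.norm_of_nonneg (by linarith)]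
    have := norm_nonneg (p - q)
    nlinarith
  have h3 := ann_arc hopen h.diff hρ0 hcU hz hz'
  have h4 := h2.trans h3
  have h5 : ‖p - q‖ ^ 2 ≤ 2 * Real.pi * ∫ α in (-Real.pi)..Real.pi,
      (‖deriv f (circleMap c ρ α)‖ * ρ) ^ 2 :=
    (pow_le_pow_left₀ (norm_nonneg _) h4 2).trans (ann_cs (hgc.norm.mul continuous_const))
  have h6 : ∀ α : ℝ, (‖deriv f (circleMap c ρ α)‖ * ρ) ^ 2 =
      ρ * (ρ * ‖deriv f (circleMap c ρ α)‖ ^ 2) := by
    intro α
    ring
  simp only [h6] at h5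
  rw [intervalIntegral.integral_const_mul] at h5
  rw [div_le_iff₀ (by positivity)]
  linarith

/-- Step 3. -/
theorem ann_polar {f : ℂ → ℂ} {c : ℂ} {r r' : ℝ} (hr : 0 < r) (hrr : r < r') {d : ℝ}
    (hd : 0 ≤ d) (hcont : ∀ ρ, r < ρ → ρ < r' → Continuous fun α : ℝ =>
      deriv f (circleMap c ρ α))
    (hrad : ∀ ρ, r < ρ → ρ < r' → d / (2 * Real.pi * ρ) ≤
      ∫ α in (-Real.pi)..Real.pi, ρ * ‖deriv f (circleMap c ρ α)‖ ^ 2)
    (hint : IntegrableOn (fun z => ‖deriv f z‖ ^ 2) {z | r < ‖z - c‖ ∧ ‖z - c‖ < r'}) :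
    d * Real.log (r' / r) ≤
      2 * Real.pi * ∫ z in {z | r < ‖z - c‖ ∧ ‖z - c‖ < r'}, ‖deriv f z‖ ^ 2 := by
  have hpi := Real.pi_pos
  set A : Set ℂ := {z | r < ‖z - c‖ ∧ ‖z - c‖ < r'} with hAdef
  have hc : Continuous fun z : ℂ => ‖z - c‖ := by fun_prop
  have hAo : IsOpen A := (isOpen_lt continuous_const hc).inter (isOpen_lt hc continuous_const)
  let G : ℂ → ENNReal := A.indicator fun z => ENNReal.ofReal (‖deriv f z‖ ^ 2)
  have hGm : Measurable G := by
    apply Measurable.indicator _ hAo.measurableSet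
    exact (((measurable_deriv f).norm).pow_const 2).ennreal_ofReal
  have e1 : ENNReal.ofReal (∫ z in A, ‖deriv f z‖ ^ 2) = ∫⁻ z, G (z + c) := by
    rw [ofReal_integral_eq_lintegral_ofReal hint
      (Filter.Eventually.of_forall fun z => by positivity)]
    rw [lintegral_add_right_eq_self (μ := (volume : Measure ℂ)) G c]
    rw [lintegral_indicator hAo.measurableSet]
  rw [← Complex.lintegral_comp_polarCoord_symm] at e1
  have e2 : ∫⁻ p in Ioo r r' ×ˢ Ioo (-Real.pi) Real.pi,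
      ENNReal.ofReal p.1 • G (Complex.polarCoord.symm p + c) ≤
      ENNReal.ofReal (∫ z in A, ‖deriv f z‖ ^ 2) := by
    rw [e1]
    apply lintegral_mono_set
    intro p hp
    rw [polarCoord_target]
    exact ⟨lt_trans hr hp.1.1, hp.2⟩
  have hsymm : ∀ p : ℝ × ℝ, Complex.polarCoord.symm p + c = circleMap c p.1 p.2 := by
    intro p
    rw [Complex.polarCoord_symm_apply, circleMap, exp_mul_I, ofReal_cos, ofReal_sin]
    ring
  have e3 : ∫⁻ p in Ioo r r' ×ˢ Ioo (-Real.pi) Real.pi,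
      ENNReal.ofReal p.1 • G (Complex.polarCoord.symm p + c) =
      ∫⁻ ρ in Ioo r r', ∫⁻ α in Ioo (-Real.pi) Real.pi,
        ENNReal.ofReal ρ * G (circleMap c ρ α) := by
    simp only [hsymm, smul_eq_mul]
    rw [Measure.volume_eq_prod, ← Measure.prod_restrict]
    rw [lintegral_prod]
    apply Measurable.aemeasurable
    apply Measurable.mul
    · exact measurable_fst.ennreal_ofReal
    · apply hGm.comp
      have : Continuous fun p : ℝ × ℝ => circleMap c p.1 p.2 := by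
        unfold circleMap
        fun_prop
      exact this.measurable
  rw [e3] at e2
  have e4 : ∫⁻ ρ in Ioo r r', ENNReal.ofReal (d / (2 * Real.pi * ρ)) ≤
      ∫⁻ ρ in Ioo r r', ∫⁻ α in Ioo (-Real.pi) Real.pi,
        ENNReal.ofReal ρ * G (circleMap c ρ α) := by
    apply setLIntegral_mono' measurableSet_Ioo
    intro ρ hρ
    have hρ0 : 0 < ρ := hr.trans hρ.1
    refine (ENNReal.ofReal_le_ofReal (hrad ρ hρ.1 hρ.2)).trans ?_
    have hcA : ∀ α : ℝ, circleMap c ρ α ∈ A := by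
      intro α
      have h1 : ‖circleMap c ρ α - c‖ = ρ := by
        rw [circleMap_sub_center, norm_circleMap_zero, abs_of_pos hρ0]
      exact ⟨by rw [h1]; exact hρ.1, by rw [h1]; exact hρ.2⟩
    have hcon : Continuous fun α : ℝ => ρ * ‖deriv f (circleMap c ρ α)‖ ^ 2 :=
      continuous_const.mul ((hcont ρ hρ.1 hρ.2).norm.pow 2)
    rw [intervalIntegral.integral_of_le (by linarith), integral_Ioc_eq_integral_Ioo]
    have hio : IntegrableOn (fun α : ℝ => ρ * ‖deriv f (circleMap c ρ α)‖ ^ 2)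
        (Ioo (-Real.pi) Real.pi) :=
      (hcon.integrableOn_Icc (a := -Real.pi) (b := Real.pi)).mono_set Ioo_subset_Icc_self
    rw [ofReal_integral_eq_lintegral_ofReal hio
      (Filter.Eventually.of_forall fun z => by positivity)]
    apply le_of_eq
    apply lintegral_congr
    intro α
    have hGα : G (circleMap c ρ α) = ENNReal.ofReal (‖deriv f (circleMap c ρ α)‖ ^ 2) :=
      indicator_of_mem (hcA α) _
    rw [hGα, ENNReal.ofReal_mul hρ0.le]
  have e5 : ENNReal.ofReal (∫ ρ in Ioo r r', d / (2 * Real.pi * ρ)) =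
      ∫⁻ ρ in Ioo r r', ENNReal.ofReal (d / (2 * Real.pi * ρ)) := by
    have hcon : ContinuousOn (fun ρ : ℝ => d / (2 * Real.pi * ρ)) (Icc r r') := by
      apply ContinuousOn.div continuousOn_const (by fun_prop)
      intro ρ hρ
      have : 0 < ρ := hr.trans_le hρ.1
      positivity
    apply ofReal_integral_eq_lintegral_ofReal
    · exact (hcon.integrableOn_Icc).mono_set Ioo_subset_Icc_self
    · filter_upwards [ae_restrict_mem measurableSet_Ioo] with ρ hρ
      have : 0 < ρ := hr.trans hρ.1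
      simp only [Pi.zero_apply]
      positivity
  have e6 : ∫ ρ in Ioo r r', d / (2 * Real.pi * ρ) = d / (2 * Real.pi) * Real.log (r' / r) := by
    rw [← integral_Ioc_eq_integral_Ioo, ← intervalIntegral.integral_of_le hrr.le]
    have h1 : ∀ ρ : ℝ, d / (2 * Real.pi * ρ) = d / (2 * Real.pi) * ρ⁻¹ := by
      intro ρ
      rw [← div_div, div_eq_mul_inv (d / (2 * Real.pi))]
    simp only [h1]
    rw [intervalIntegral.integral_const_mul, integral_inv_of_pos hr (hr.trans hrr)]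
  have e7 := e5.trans_le (e4.trans e2)
  rw [e6] at e7
  have hI0 : 0 ≤ ∫ z in A, ‖deriv f z‖ ^ 2 := integral_nonneg fun z => by positivity
  rw [ENNReal.ofReal_le_ofReal_iff hI0] at e7
  have e8 : d * Real.log (r' / r) = 2 * Real.pi * (d / (2 * Real.pi) * Real.log (r' / r)) := by
    field_simp
  rw [e8]
  exact mul_le_mul_of_nonneg_left e7 (by positivity)

theorem diam_sq_le {E : Set ℂ} {f : ℂ → ℂ} (h : Nrm E f) {x : ℂ} (hx : x ∈ E) {c : ℂ}
    {r r' : ℝ} (hr : 0 < r) (hrr : r < r') (hA : ∀ z, r < ‖z - c‖ → ‖z - c‖ < r' → z ∉ E)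
    (hxr : ‖x - c‖ ≤ r)
    (hint : IntegrableOn (fun z => ‖deriv f z‖ ^ 2) {z | r < ‖z - c‖ ∧ ‖z - c‖ < r'}) :
    diam (LK E f x) ^ 2 * Real.log (r' / r) ≤
      2 * Real.pi * ∫ z in {z | r < ‖z - c‖ ∧ ‖z - c‖ < r'}, ‖deriv f z‖ ^ 2 := by
  have hpi := Real.pi_pos
  have hlog : 0 < Real.log (r' / r) := Real.log_pos ((one_lt_div hr).2 hrr)
  have hopen : IsOpen Eᶜ := TransferAux.nrm_open h
  have hcont : ∀ ρ, r < ρ → ρ < r' → Continuous fun α : ℝ => deriv f (circleMap c ρ α) := by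
    intro ρ h1 h2
    have hρ0 : 0 < ρ := hr.trans h1
    rw [continuous_iff_continuousAt]
    intro α
    have h3 : ‖circleMap c ρ α - c‖ = ρ := by
      rw [circleMap_sub_center, norm_circleMap_zero, abs_of_pos hρ0]
    have h4 : circleMap c ρ α ∈ Eᶜ := hA _ (by rw [h3]; exact h1) (by rw [h3]; exact h2)
    exact ContinuousAt.comp (f := fun α : ℝ => circleMap c ρ α) (g := deriv f)
      (((h.diff.deriv hopen).continuousOn).continuousAt (hopen.mem_nhds h4))
      (continuous_circleMap c ρ).continuousAt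
  set I : ℝ := ∫ z in {z | r < ‖z - c‖ ∧ ‖z - c‖ < r'}, ‖deriv f z‖ ^ 2 with hI
  have hI0 : 0 ≤ I := integral_nonneg fun z => by positivity
  have hall : ∀ p ∈ LK E f x, ∀ q ∈ LK E f x, ‖p - q‖ ^ 2 * Real.log (r' / r) ≤
      2 * Real.pi * I := by
    intro p hp q hq
    exact ann_polar hr hrr (by positivity) hcont
      (fun ρ h1 h2 => ann_radius h hx hA hxr hr h1 h2 hp hq) hint
  have hdiam : diam (LK E f x) ≤ Real.sqrt (2 * Real.pi * I / Real.log (r' / r)) := by
    apply diam_le_of_forall_dist_le (Real.sqrt_nonneg _)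
    intro p hp q hq
    rw [dist_eq_norm]
    apply Real.le_sqrt_of_sq_le
    rw [le_div_iff₀ hlog]
    exact hall p hp q hq
  have h1 : diam (LK E f x) ^ 2 ≤ 2 * Real.pi * I / Real.log (r' / r) := by
    have h2 := pow_le_pow_left₀ diam_nonneg hdiam 2
    rwa [Real.sq_sqrt (by positivity)] at h2
  rwa [le_div_iff₀ hlog] at h1

end Pool.Recti
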