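import Mathlib

/-!
# Locally countable subsets of compact Hausdorff spaces have isolated points
-/

set_option autoImplicit false

open Set Filter Topology

namespace Pool.Recti

theorem exists_isolated {X : Type*} [TopologicalSpace X] [CompactSpace X] [T2Space X] {B : Set X}
    (hB : B.Nonempty) (hc : ∀ b ∈ B, ∃ N ∈ 𝓝 b, N.Countable) :
    ∃ b ∈ B, ∃ O : Set X, IsOpen O ∧ b ∈ O ∧ ∀ b' ∈ B, b' ∈ O → b' = b := by
  obtain ⟨b0, hb0⟩ := hB
  obtain ⟨N, hN, hNc⟩ := hc b0 hb0
  obtain ⟨V, hVN, hV, hb0V⟩ := mem_nhds_iff.mp hN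
  -- a compact neighbourhood inside `V`
  obtain ⟨V', hV', hb0V', hcl⟩ : ∃ V' : Set X, IsOpen V' ∧ b0 ∈ V' ∧ closure V' ⊆ V := by
    obtain ⟨L, hL, hLc, hLV⟩ := exists_mem_nhds_isClosed_subset (hV.mem_nhds hb0V)
    obtain ⟨V', hV'L, hV', hb⟩ := mem_nhds_iff.mp hL
    exact ⟨V', hV', hb, (closure_minimal hV'L hLc).trans hLV⟩
  set C : Set X := closure (B ∩ V') with hC
  have hCV : C ⊆ V := (closure_mono inter_subset_right).trans hcl
  have hCcount : C.Countable := hNc.mono (hCV.trans hVN)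
  have hCcomp : IsCompact C := isClosed_closure.isCompact
  have hb0C : b0 ∈ C := subset_closure ⟨hb0, hb0V'⟩
  have : CompactSpace C := isCompact_iff_compactSpace.mp hCcomp
  have : Countable C := hCcount.to_subtype
  have : Nonempty C := ⟨⟨b0, hb0C⟩⟩
  obtain ⟨c, hc⟩ := nonempty_interior_of_iUnion_of_closed (X := C) (f := fun c : C => {c})
    (fun c => isClosed_singleton) (by
      ext c; simp)
  obtain ⟨c', hc'⟩ := hc
  have hcc : c' ∈ ({c} : Set C) := interior_subset hc'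
  rw [mem_singleton_iff] at hcc
  rw [← hcc] at hc'
  have hopen : IsOpen ({c'} : Set C) := by
    have : interior ({c'} : Set C) = {c'} := by
      apply subset_antisymm interior_subset
      intro y hy
      rw [mem_singleton_iff.mp hy]; exact hc'
    rw [← this]; exact isOpen_interior
  obtain ⟨O, hO, hOC⟩ := isOpen_induced_iff.mp hopen
  have hc'O : (c' : X) ∈ O := by
    have : c' ∈ Subtype.val ⁻¹' O := by rw [hOC]; rfl
    exact this
  have hcap : ∀ y ∈ C, y ∈ O → y = c' := by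
    intro y hy hyO
    have : (⟨y, hy⟩ : C) ∈ Subtype.val ⁻¹' O := hyO
    rw [hOC] at this
    exact congrArg Subtype.val (mem_singleton_iff.mp this)
  obtain ⟨y, hyO, hyB, hyV⟩ := mem_closure_iff.mp c'.2 O hO hc'O
  have hyc : y = c' := hcap y (subset_closure ⟨hyB, hyV⟩) hyO
  refine ⟨y, hyB, O ∩ V', hO.inter hV', ⟨hyO, hyV⟩, ?_⟩
  intro b' hb' hb'O
  rw [hyc]
  exact hcap b' (subset_closure ⟨hb', hb'O.2⟩) hb'O.1

end Pool.Recti
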