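import Pool.Agent.Recti.Defs

set_option autoImplicit false

open Complex MeasureTheory Set Filter Topology Metric
open scoped ContDiff

/-!
# Bounded structured approximants

PROOF of `exists_bounded_app`.  Let `T : ℝ → ℝ` be a smooth odd-type truncation: `T s = s` for
`|s| ≤ M + 1`, `|T'| ≤ 1`, `|T| ≤ M + 2` (e.g. `T s = ∫ t in 0..s, η t` with a smooth bump `η`, values in `[0,1]`,
`η = 1` on `[-(M+1), M+1]`, `η = 0` off `[-(M+2), M+2]`, e.g. a `ContDiffBump`).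
`S = tsupport (fderiv ℝ Θ)` is compact and disjoint from `E` (`Θ` is a test function), so there is a compact
`Q' ⊆ Eᶜ` which is a neighbourhood of `S ∪ Q`.  Take `g0` with `App E Θ f Q' 1 g0` and put
`g = e^{iΘ} (T u + i T w)` with `u + i w = e^{-iΘ} g0`.
* `z ∈ Q' `, `‖z‖ < R`: `g0 z = f z`, `|u|, |w| ≤ ‖f z‖ ≤ M`, so `g z = f z`; if `z ∈ interior Q'` then `g = g0` near `z`.
* `z ∉ S`: `Θ` is locally constant near `z` so `‖fderiv ℝ g z‖ ≤ ‖fderiv ℝ g0 z‖` (`|T'| ≤ 1`).  So this holds on all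
  of `Eᶜ ∩ ball 0 R`.
* `‖fderiv g0‖² ≤ 2 ‖fderiv (g0 - f)‖² + 2 ‖fderiv f‖²` and `‖fderiv ℝ f z‖ = ‖deriv f z‖` on `Eᶜ`.
* near `E`, `Im (e^{-iΘ} g) = T w = T W` and `T ∘ W` is smooth and locally constant near `E`.
-/

namespace Pool.Recti

open Pool.Lib (dbar)

variable {E : Set ℂ} {Θ : ℂ → ℝ}

/-- smooth truncation -/
theorem BddApp_trunc (M : ℝ) (hM : 0 ≤ M) : ∃ T : ℝ → ℝ, ContDiff ℝ ∞ T ∧
    (∀ s, |s| ≤ M → T s = s) ∧ (∀ s, |T s| ≤ M + 2) ∧ LipschitzWith 1 T := by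
  let η : ContDiffBump (0 : ℝ) := ⟨M + 1, M + 2, by linarith, by linarith⟩
  have hηc : Continuous η := η.continuous
  have hd : ∀ x, HasDerivAt (fun x => ∫ s in (0 : ℝ)..x, η s) (η x) x := fun x =>
    intervalIntegral.integral_hasDerivAt_right (hηc.intervalIntegrable _ _)
      (hηc.stronglyMeasurableAtFilter _ _) hηc.continuousAt
  have hsm : ContDiff ℝ ∞ (fun x => ∫ s in (0 : ℝ)..x, η s) := by
    rw [contDiff_infty_iff_deriv]
    refine ⟨fun x => (hd x).differentiableAt, ?_⟩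
    rw [show deriv (fun x => ∫ s in (0 : ℝ)..x, η s) = η from funext fun x => (hd x).deriv]
    exact η.contDiff
  have h01 : ∀ x, ‖η x‖ ≤ 1 := fun x => by
    rw [Real.norm_eq_abs, abs_of_nonneg η.nonneg]
    exact η.le_one
  refine ⟨fun x => ∫ s in (0 : ℝ)..x, η s, hsm, fun s hs => ?_, fun s => ?_, ?_⟩
  · have h1 : ∫ t in (0 : ℝ)..s, η t = ∫ t in (0 : ℝ)..s, (1 : ℝ) := by
      apply intervalIntegral.integral_congr
      intro t ht
      apply η.one_of_mem_closedBall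
      rw [mem_closedBall, dist_zero_right, Real.norm_eq_abs]
      have h2 : |t| ≤ |s| := by
        rcases le_total 0 s with h | h
        · rw [uIcc_of_le h] at ht
          rw [abs_of_nonneg ht.1, abs_of_nonneg h]
          exact ht.2
        · rw [uIcc_of_ge h] at ht
          rw [abs_of_nonpos ht.2, abs_of_nonpos h]
          linarith [ht.1]
      show |t| ≤ M + 1
      linarith
    simp only [h1]
    simp
  · have hb : ∀ s : ℝ, |∫ t in (0 : ℝ)..s, η t| ≤ |s| := fun s => by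
      have h2 := intervalIntegral.norm_integral_le_of_norm_le_const (a := (0 : ℝ)) (b := s)
        (f := fun t => η t) (C := 1) (fun t _ => h01 t)
      rw [Real.norm_eq_abs, sub_zero, one_mul] at h2
      exact h2
    have h0 : ∀ t : ℝ, M + 2 ≤ |t| → η t = 0 := fun t ht => by
      apply η.zero_of_le_dist
      rw [dist_zero_right, Real.norm_eq_abs]
      exact ht
    by_cases hs : |s| ≤ M + 2
    · exact (hb s).trans hs
    · push Not at hs
      rcases le_total 0 s with h | h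
      · rw [abs_of_nonneg h] at hs
        have h3 : ∫ t in (0 : ℝ)..s, η t = (∫ t in (0 : ℝ)..(M + 2), η t) := by
          rw [← intervalIntegral.integral_add_adjacent_intervals (b := M + 2)
            (hηc.intervalIntegrable _ _) (hηc.intervalIntegrable _ _)]
          have h4 : ∫ t in (M + 2)..s, η t = ∫ t in (M + 2)..s, (0 : ℝ) := by
            apply intervalIntegral.integral_congr
            intro t ht
            rw [uIcc_of_le hs.le] at ht
            exact h0 t (ht.1.trans (le_abs_self t))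
          rw [h4]
          simp
        simp only [h3]
        refine (hb _).trans ?_
        rw [abs_of_nonneg (by linarith)]
      · rw [abs_of_nonpos h] at hs
        have h3 : ∫ t in (0 : ℝ)..s, η t = (∫ t in (0 : ℝ)..(-(M + 2)), η t) := by
          rw [← intervalIntegral.integral_add_adjacent_intervals (b := -(M + 2))
            (hηc.intervalIntegrable _ _) (hηc.intervalIntegrable _ _)]
          have h4 : ∫ t in (-(M + 2))..s, η t = ∫ t in (-(M + 2))..s, (0 : ℝ) := by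
            apply intervalIntegral.integral_congr
            intro t ht
            rw [uIcc_of_ge (by linarith)] at ht
            apply h0 t
            have := ht.2
            rw [abs_of_nonpos (by linarith)]
            linarith
          rw [h4]
          simp
        simp only [h3]
        refine (hb _).trans ?_
        rw [abs_of_nonpos (by linarith)]
        linarith
  · apply lipschitzWith_of_nnnorm_deriv_le (fun x => (hd x).differentiableAt)
    intro x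
    rw [(hd x).deriv]
    have := h01 x
    rw [← NNReal.coe_le_coe]
    simpa using this

/-- the truncation in a rotated frame -/
noncomputable def BddApp_F (T : ℝ → ℝ) (θ : ℝ) (ζ : ℂ) : ℂ :=
  exp (θ * I) * (T (exp (-(θ * I)) * ζ).re + T (exp (-(θ * I)) * ζ).im * I)

theorem BddApp_norm_exp (θ : ℝ) : ‖exp (-(θ * I))‖ = 1 := by
  rw [show -((θ : ℂ) * I) = ((-θ : ℝ) : ℂ) * I by push_cast; ring]
  exact norm_exp_ofReal_mul_I _

theorem BddApp_exp_mul (θ : ℝ) (z : ℂ) : exp (θ * I) * (exp (-(θ * I)) * z) = z := by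
  rw [← mul_assoc, ← Complex.exp_add]
  simp

theorem BddApp_exp_mul' (θ : ℝ) (z : ℂ) : exp (-(θ * I)) * (exp (θ * I) * z) = z := by
  rw [← mul_assoc, ← Complex.exp_add]
  simp

theorem BddApp_F_smooth {T : ℝ → ℝ} (hT : ContDiff ℝ ∞ T) (θ : ℝ) :
    ContDiff ℝ ∞ (BddApp_F T θ) := by
  have h1 : ContDiff ℝ ∞ (fun ζ : ℂ => (exp (-(θ * I)) * ζ).re) :=
    reCLM.contDiff.comp (contDiff_const.mul contDiff_id)
  have h2 : ContDiff ℝ ∞ (fun ζ : ℂ => (exp (-(θ * I)) * ζ).im) :=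
    imCLM.contDiff.comp (contDiff_const.mul contDiff_id)
  have h3 : ContDiff ℝ ∞ (fun ζ : ℂ => ((T (exp (-(θ * I)) * ζ).re : ℝ) : ℂ)) :=
    ofRealCLM.contDiff.comp (hT.comp h1)
  have h4 : ContDiff ℝ ∞ (fun ζ : ℂ => ((T (exp (-(θ * I)) * ζ).im : ℝ) : ℂ)) :=
    ofRealCLM.contDiff.comp (hT.comp h2)
  exact contDiff_const.mul (h3.add (h4.mul contDiff_const))

theorem BddApp_F_lip {T : ℝ → ℝ} (hT : LipschitzWith 1 T) (θ : ℝ) :
    LipschitzWith 1 (BddApp_F T θ) := by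
  apply LipschitzWith.of_dist_le_mul
  intro x y
  rw [NNReal.coe_one, one_mul, dist_eq_norm, dist_eq_norm]
  unfold BddApp_F
  set a := exp (-(θ * I)) * x with ha
  set b := exp (-(θ * I)) * y with hb
  have h1 : ‖a - b‖ = ‖x - y‖ := by
    rw [ha, hb, ← mul_sub, norm_mul, BddApp_norm_exp, one_mul]
  rw [← mul_sub, norm_mul, norm_exp_ofReal_mul_I, one_mul, ← h1]
  have h2 : ((T a.re : ℂ) + T a.im * I) - (T b.re + T b.im * I)
      = ((T a.re - T b.re : ℝ) : ℂ) + ((T a.im - T b.im : ℝ) : ℂ) * I := by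
    push_cast
    ring
  rw [h2]
  have h3 : |T a.re - T b.re| ≤ |(a - b).re| := by
    have := hT.dist_le_mul a.re b.re
    rw [NNReal.coe_one, one_mul, Real.dist_eq, Real.dist_eq] at this
    simpa using this
  have h4 : |T a.im - T b.im| ≤ |(a - b).im| := by
    have := hT.dist_le_mul a.im b.im
    rw [NNReal.coe_one, one_mul, Real.dist_eq, Real.dist_eq] at this
    simpa using this
  rw [← sq_le_sq₀ (norm_nonneg _) (norm_nonneg _), ← normSq_eq_norm_sq, ← normSq_eq_norm_sq,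
    normSq_add_mul_I, normSq_apply (a - b), ← sq, ← sq]
  exact add_le_add (sq_le_sq.2 h3) (sq_le_sq.2 h4)

theorem BddApp_fderiv_le {T : ℝ → ℝ} (hT : ContDiff ℝ ∞ T) (hL : LipschitzWith 1 T) (θ : ℝ)
    {g : ℂ → ℂ} {z : ℂ} (hg : DifferentiableAt ℝ g z) :
    ‖fderiv ℝ (fun w => BddApp_F T θ (g w)) z‖ ≤ ‖fderiv ℝ g z‖ := by
  have hF : DifferentiableAt ℝ (BddApp_F T θ) (g z) :=
    ((BddApp_F_smooth hT θ).differentiable (by simp)) (g z)
  have h1 : fderiv ℝ (fun w => BddApp_F T θ (g w)) z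
      = (fderiv ℝ (BddApp_F T θ) (g z)).comp (fderiv ℝ g z) := fderiv_comp z hF hg
  rw [h1]
  refine (ContinuousLinearMap.opNorm_comp_le _ _).trans ?_
  have h2 : ‖fderiv ℝ (BddApp_F T θ) (g z)‖ ≤ 1 := by
    simpa using norm_fderiv_le_of_lipschitz ℝ (x₀ := g z) (BddApp_F_lip hL θ)
  calc _ ≤ 1 * ‖fderiv ℝ g z‖ := by gcongr
    _ = _ := one_mul _

theorem exists_bounded_app (hE : IsCompact E) (hΘ : Test E Θ) {f : ℂ → ℂ}
    (hf : DifferentiableOn ℂ f Eᶜ) {R M A : ℝ} (hER : E ⊆ ball 0 R) (hM0 : 0 ≤ M)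
    (hM : ∀ z ∈ Eᶜ, ‖z‖ < R → ‖f z‖ ≤ M)
    (happ : ∀ Q : Set ℂ, IsCompact Q → Q ⊆ Eᶜ → ∀ ε : ℝ, 0 < ε → ∃ g : ℂ → ℂ, App E Θ f Q ε g)
    (hint : IntegrableOn (fun z => ‖deriv f z‖ ^ 2) (Eᶜ ∩ ball 0 R))
    (hA : ∫ z in Eᶜ ∩ ball 0 R, ‖deriv f z‖ ^ 2 ≤ A) {Q : Set ℂ} (hQ : IsCompact Q)
    (hQE : Q ⊆ Eᶜ) :
    ∃ g : ℂ → ℂ, ContDiffOn ℝ ∞ g (Eᶜ ∩ ball 0 R) ∧ (∀ z ∈ Q, ‖z‖ < R → g z = f z) ∧
      Framed E Θ g ∧ (∀ z ∈ Eᶜ, ‖z‖ < R → ‖g z‖ ≤ 2 * (M + 2)) ∧
      IntegrableOn (fun z => ‖fderiv ℝ g z‖ ^ 2) (Eᶜ ∩ ball 0 R) ∧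
      ∫ z in Eᶜ ∩ ball 0 R, ‖fderiv ℝ g z‖ ^ 2 ≤ 2 * A + 2 := by
  have hEo : IsOpen Eᶜ := hE.isClosed.isOpen_compl
  have hUo : IsOpen (Eᶜ ∩ ball (0 : ℂ) R) := hEo.inter isOpen_ball
  obtain ⟨T, hTs, hTid, hTb, hTL⟩ := BddApp_trunc M hM0
  -- the support of the derivative of Θ
  set S : Set ℂ := tsupport (fderiv ℝ Θ) with hS
  have hSc : IsCompact S := hΘ.comp.fderiv (𝕜 := ℝ)
  have hSE : S ⊆ Eᶜ := by
    intro z hz hzE
    have h1 : ∀ᶠ w in 𝓝 z, fderiv ℝ Θ w = 0 := by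
      have := hΘ.lc
      unfold LC at this
      rw [eventually_nhdsSet_iff_forall] at this
      exact this z hzE
    exact (notMem_tsupport_iff_eventuallyEq.2 h1) hz
  obtain ⟨Q', hQ'c, hQQ', hQ'E⟩ := exists_compact_between (hQ.union hSc) hEo
    (union_subset hQE hSE)
  obtain ⟨g0, hg0⟩ := happ Q' hQ'c hQ'E 1 one_pos
  set g : ℂ → ℂ := fun z => BddApp_F T (Θ z) (g0 z) with hg
  have hTid' : ∀ (θ : ℝ) (ζ : ℂ), ‖ζ‖ ≤ M → BddApp_F T θ ζ = ζ := fun θ ζ hζ => by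
    unfold BddApp_F
    have h1 : ‖exp (-(θ * I)) * ζ‖ ≤ M := by
      rw [norm_mul, BddApp_norm_exp, one_mul]
      exact hζ
    rw [hTid _ ((abs_re_le_norm _).trans h1), hTid _ ((abs_im_le_norm _).trans h1), re_add_im,
      BddApp_exp_mul]
  have hgf : ∀ z ∈ Q', ‖z‖ < R → g z = f z ∧ g0 z = f z := fun z hz hzR => by
    have h1 : g0 z = f z := hg0.eqOn hz
    refine ⟨?_, h1⟩
    simp only [hg]
    rw [hTid' _ _ (by rw [h1]; exact hM z (hQ'E hz) hzR), h1]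
  have hQQ'' : Q ⊆ Q' := fun z hz => interior_subset (hQQ' (Or.inl hz))
  have hgsm : ContDiffOn ℝ ∞ g Eᶜ := by
    have hΘc : ContDiffOn ℝ ∞ (fun z => ((Θ z : ℝ) : ℂ)) Eᶜ :=
      (ofRealCLM.contDiff.comp hΘ.smooth).contDiffOn
    have hexp : ContDiff ℝ ∞ (Complex.exp) := Complex.contDiff_exp
    have h5 : ContDiffOn ℝ ∞ (fun z => exp ((Θ z : ℂ) * I)) Eᶜ :=
      hexp.comp_contDiffOn (hΘc.mul contDiffOn_const)
    have h6 : ContDiffOn ℝ ∞ (fun z => exp (-((Θ z : ℂ) * I)) * g0 z) Eᶜ :=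
      (hexp.comp_contDiffOn (hΘc.mul contDiffOn_const).neg).mul hg0.smooth
    have h7 : ContDiffOn ℝ ∞ (fun z => ((T (exp (-((Θ z : ℂ) * I)) * g0 z).re : ℝ) : ℂ)) Eᶜ :=
      ofRealCLM.contDiff.comp_contDiffOn (hTs.comp_contDiffOn (reCLM.contDiff.comp_contDiffOn h6))
    have h8 : ContDiffOn ℝ ∞ (fun z => ((T (exp (-((Θ z : ℂ) * I)) * g0 z).im : ℝ) : ℂ)) Eᶜ :=
      ofRealCLM.contDiff.comp_contDiffOn (hTs.comp_contDiffOn (imCLM.contDiff.comp_contDiffOn h6))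
    exact h5.mul (h7.add (h8.mul contDiffOn_const))
  have hfd : ∀ z ∈ Eᶜ, DifferentiableAt ℂ f z := fun z hz => hf.differentiableAt (hEo.mem_nhds hz)
  have hg0d : ∀ z ∈ Eᶜ, DifferentiableAt ℝ g0 z := fun z hz =>
    (hg0.smooth.contDiffAt (hEo.mem_nhds hz)).differentiableAt (by simp)
  have hle : ∀ z ∈ Eᶜ ∩ ball (0 : ℂ) R, ‖fderiv ℝ g z‖ ≤ ‖fderiv ℝ g0 z‖ := fun z hz => by
    by_cases hzi : z ∈ interior Q'
    · have h1 : g =ᶠ[𝓝 z] g0 := by
        filter_upwards [isOpen_interior.mem_nhds hzi, isOpen_ball.mem_nhds hz.2] with w hw1 hw2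
        rw [mem_ball_zero_iff] at hw2
        have := hgf w (interior_subset hw1) hw2
        rw [this.1, this.2]
      rw [h1.fderiv_eq]
    · have hzS : z ∉ S := fun h => hzi (hQQ' (Or.inr h))
      have h1 : ∀ᶠ w in 𝓝 z, fderiv ℝ Θ w = 0 := notMem_tsupport_iff_eventuallyEq.1 hzS
      obtain ⟨r, hr, hball⟩ := Metric.eventually_nhds_iff_ball.1 h1
      have hc : ∀ w ∈ ball z r, Θ w = Θ z := fun w hw =>
        isOpen_ball.is_const_of_fderiv_eq_zero (convex_ball z r).isPreconnected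
          (hΘ.smooth.differentiable (by simp)).differentiableOn
          (fun x hx => hball x hx) hw (mem_ball_self hr)
      have h2 : g =ᶠ[𝓝 z] fun w => BddApp_F T (Θ z) (g0 w) := by
        filter_upwards [ball_mem_nhds z hr] with w hw
        simp only [hg, hc w hw]
      rw [h2.fderiv_eq]
      exact BddApp_fderiv_le hTs hTL (Θ z) (hg0d z hz.1)
  have hle2 : ∀ z ∈ Eᶜ ∩ ball (0 : ℂ) R, ‖fderiv ℝ g z‖ ^ 2
      ≤ 2 * ‖fderiv ℝ (fun w => g0 w - f w) z‖ ^ 2 + 2 * ‖deriv f z‖ ^ 2 := fun z hz => by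
    have h1 : fderiv ℝ (fun w => g0 w - f w) z = fderiv ℝ g0 z - fderiv ℝ f z :=
      fderiv_fun_sub (hg0d z hz.1) ((hfd z hz.1).restrictScalars ℝ)
    have h2 : ‖fderiv ℝ f z‖ ≤ ‖deriv f z‖ := by
      have := norm_fderiv_le f z
      rw [dz_eq_deriv (hfd z hz.1), Pool.Lib.dbar_eq_zero (hfd z hz.1), norm_zero, add_zero] at this
      exact this
    have h3 : ‖fderiv ℝ g z‖ ≤ ‖fderiv ℝ (fun w => g0 w - f w) z‖ + ‖deriv f z‖ := by
      refine (hle z hz).trans ?_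
      have h4 : fderiv ℝ g0 z = fderiv ℝ (fun w => g0 w - f w) z + fderiv ℝ f z := by
        rw [h1]; abel
      rw [h4]
      exact (norm_add_le _ _).trans (by gcongr)
    have h5 : ‖fderiv ℝ g z‖ ^ 2 ≤ (‖fderiv ℝ (fun w => g0 w - f w) z‖ + ‖deriv f z‖) ^ 2 := by
      gcongr
    nlinarith [sq_nonneg (‖fderiv ℝ (fun w => g0 w - f w) z‖ - ‖deriv f z‖)]
  have hi1 : IntegrableOn (fun z => ‖fderiv ℝ (fun w => g0 w - f w) z‖ ^ 2)
      (Eᶜ ∩ ball (0 : ℂ) R) := hg0.energy.mono_set inter_subset_left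
  have hi2 : IntegrableOn (fun z => 2 * ‖fderiv ℝ (fun w => g0 w - f w) z‖ ^ 2
      + 2 * ‖deriv f z‖ ^ 2) (Eᶜ ∩ ball (0 : ℂ) R) := (hi1.const_mul 2).add (hint.const_mul 2)
  have hcont : ContinuousOn (fun z => ‖fderiv ℝ g z‖ ^ 2) (Eᶜ ∩ ball (0 : ℂ) R) :=
    ((hgsm.mono inter_subset_left).continuousOn_fderiv_of_isOpen hUo (by simp)).norm.pow 2
  have hi3 : IntegrableOn (fun z => ‖fderiv ℝ g z‖ ^ 2) (Eᶜ ∩ ball (0 : ℂ) R) := by
    refine Integrable.mono' hi2 (hcont.aestronglyMeasurable hUo.measurableSet) ?_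
    refine (ae_restrict_iff' hUo.measurableSet).2 (Eventually.of_forall fun z hz => ?_)
    rw [Real.norm_eq_abs, abs_of_nonneg (by positivity)]
    exact hle2 z hz
  refine ⟨g, hgsm.mono inter_subset_left, fun z hz hzR => (hgf z (hQQ'' hz) hzR).1, ?_, ?_, hi3, ?_⟩
  · obtain ⟨W, hW, hWl, hWe⟩ := hg0.frame
    refine ⟨fun z => T (W z), hTs.comp hW, ?_, ?_⟩
    · unfold LC at hWl ⊢
      filter_upwards [hWl] with z hz
      have h1 : HasFDerivAt W (fderiv ℝ W z) z := ((hW.differentiable (by simp)) z).hasFDerivAt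
      have h2 : HasFDerivAt T (fderiv ℝ T (W z)) (W z) :=
        ((hTs.differentiable (by simp)) (W z)).hasFDerivAt
      have h3 := (h2.comp z h1).fderiv
      have h4 : fderiv ℝ (fun z => T (W z)) z = _ := h3
      rw [h4, hz]
      simp
    · filter_upwards [hWe] with z hz hzE
      simp only [hg]
      unfold BddApp_F
      rw [BddApp_exp_mul', ← hz hzE]
      simp
  · intro z _ _
    simp only [hg]
    unfold BddApp_F
    rw [norm_mul, norm_exp_ofReal_mul_I, one_mul]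
    refine (norm_add_le _ _).trans ?_
    rw [norm_mul, norm_I, mul_one, norm_real, norm_real, Real.norm_eq_abs, Real.norm_eq_abs]
    linarith [hTb (exp (-(Θ z * I)) * g0 z).re, hTb (exp (-(Θ z * I)) * g0 z).im]
  · calc ∫ z in Eᶜ ∩ ball 0 R, ‖fderiv ℝ g z‖ ^ 2
        ≤ ∫ z in Eᶜ ∩ ball 0 R, (2 * ‖fderiv ℝ (fun w => g0 w - f w) z‖ ^ 2
          + 2 * ‖deriv f z‖ ^ 2) := setIntegral_mono_on hi3 hi2 hUo.measurableSet hle2
      _ = 2 * (∫ z in Eᶜ ∩ ball 0 R, ‖fderiv ℝ (fun w => g0 w - f w) z‖ ^ 2)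
          + 2 * ∫ z in Eᶜ ∩ ball 0 R, ‖deriv f z‖ ^ 2 := by
          rw [integral_add (hi1.const_mul 2) (hint.const_mul 2), integral_const_mul,
            integral_const_mul]
      _ ≤ 2 * 1 + 2 * A := by
          have h1 : ∫ z in Eᶜ ∩ ball 0 R, ‖fderiv ℝ (fun w => g0 w - f w) z‖ ^ 2
              ≤ ∫ z in Eᶜ, ‖fderiv ℝ (fun w => g0 w - f w) z‖ ^ 2 :=
            setIntegral_mono_set hg0.energy (Eventually.of_forall fun z => by positivity)
              (Eventually.of_forall fun z hz => hz.1)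
          linarith [hg0.small]
      _ = 2 * A + 2 := by ring

end Pool.Recti
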