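import Mathlib

/-!
# A chain lemma on the line

PROOF of `chain`.  For `s ∈ Icc s1 s0` define the set `C s`: if `s ∈ Λ` then `C s = J (rep s)`; if `s ∉ Λ` then
`C s = h '' (connectedComponentIn (Icc s1 s0 \ Λ) s)`.  Each `C s` is preconnected (`h` is continuous on
`Icc s1 s0 \ Λ`).  For every `s ∈ Icc s1 s0`, for all `s' ∈ Icc s1 s0` near `s`, `C s ∩ C s'` is nonempty:
if `s ∉ Λ` (`Λ` is closed) a small interval around `s` (intersected with `Icc s1 s0`) is contained in the same component,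
so `C s' = C s`; if `s ∈ Λ` use `hloc` (for `s' ∉ Λ` note `h s' ∈ C s'`).
So `S = ⋃ s ∈ Icc s1 s0, C s` is preconnected: (if `u, v` are disjoint clopen pieces of `S`, the sets of `s` with
`C s ⊆ u`, `C s ⊆ v` are open in `Icc s1 s0` and cover it; all `C s` are nonempty and preconnected.)
`S` contains `h s1` and `c`, so it contains the interval between them:
  `|h s1 - c| ≤ volume S ≤ volume (h '' (Icc s1 s0 \ Λ)) + Σ_i volume (J i)` (over the `i` of the form `rep s`),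
(outer measure is countably subadditive) and `volume (h '' (Icc s1 s0 \ Λ)) ≤ ∫⁻ |h'|`
(`MeasureTheory.addHaar_image_le_lintegral_abs_det_fderiv` or
`MeasureTheory.lintegral_abs_det_fderiv...`; in dimension one `lintegral_image...`).
-/

set_option autoImplicit false

open MeasureTheory Set Filter Topology

namespace Pool.Recti

/-- the image of a set under a differentiable function of one variable -/
theorem volume_image_le {s : Set ℝ} (hs : MeasurableSet s) {h h' : ℝ → ℝ}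
    (hd : ∀ x ∈ s, HasDerivAt h (h' x) x) :
    volume (h '' s) ≤ ∫⁻ x in s, ENNReal.ofReal |h' x| := by
  have h1 := addHaar_image_le_lintegral_abs_det_fderiv (μ := (volume : Measure ℝ)) hs
    (f := h) (f' := fun x => ContinuousLinearMap.toSpanSingleton ℝ (h' x))
    (fun x hx => (hd x hx).hasFDerivAt.hasFDerivWithinAt)
  simpa only [ContinuousLinearMap.det_toSpanSingleton] using h1

/-- the sets of the chain -/
noncomputable def cset {ι : Type*} (s1 s0 : ℝ) (Λ : Set ℝ) (h : ℝ → ℝ) (J : ι → Set ℝ)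
    (rep : ℝ → ι) (s : ℝ) : Set ℝ :=
  {v | (s ∈ Λ → v ∈ J (rep s)) ∧
    (s ∉ Λ → v ∈ h '' (connectedComponentIn (Icc s1 s0 \ Λ) s))}

theorem cset_mem {ι : Type*} {s1 s0 : ℝ} {Λ : Set ℝ} {h : ℝ → ℝ} {J : ι → Set ℝ}
    {rep : ℝ → ι} {s : ℝ} (hs : s ∈ Λ) : cset s1 s0 Λ h J rep s = J (rep s) := by
  ext v
  simp only [cset, mem_ofPred_eq]
  exact ⟨fun hv => hv.1 hs, fun hv => ⟨fun _ => hv, fun h' => absurd hs h'⟩⟩

theorem cset_notMem {ι : Type*} {s1 s0 : ℝ} {Λ : Set ℝ} {h : ℝ → ℝ} {J : ι → Set ℝ}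
    {rep : ℝ → ι} {s : ℝ} (hs : s ∉ Λ) :
    cset s1 s0 Λ h J rep s = h '' (connectedComponentIn (Icc s1 s0 \ Λ) s) := by
  ext v
  simp only [cset, mem_ofPred_eq]
  exact ⟨fun hv => hv.2 hs, fun hv => ⟨fun h' => absurd h' hs, fun _ => hv⟩⟩

theorem chain {ι : Type*} [Countable ι] {s1 s0 : ℝ} (h01 : s1 ≤ s0) {Λ : Set ℝ}
    (hΛ : IsClosed Λ) {h h' : ℝ → ℝ} (hd : ∀ s ∈ Icc s1 s0 \ Λ, HasDerivAt h (h' s) s)
    (J : ι → Set ℝ) (hJ : ∀ i, (J i).OrdConnected) (rep : ℝ → ι)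
    (hne : ∀ s ∈ Icc s1 s0 ∩ Λ, (J (rep s)).Nonempty)
    (hloc : ∀ s ∈ Icc s1 s0 ∩ Λ, ∀ᶠ s' in 𝓝 s, s' ∈ Icc s1 s0 →
      (s' ∉ Λ → h s' ∈ J (rep s)) ∧ (s' ∈ Λ → (J (rep s) ∩ J (rep s')).Nonempty))
    (hs1 : s1 ∉ Λ) (hs0 : s0 ∈ Λ) {c : ℝ} (hc : c ∈ J (rep s0)) :
    ENNReal.ofReal |h s1 - c| ≤ (∫⁻ s in Icc s1 s0 \ Λ, ENNReal.ofReal |h' s|) +
      ∑' i : {i : ι // ∃ s ∈ Icc s1 s0 ∩ Λ, rep s = i}, volume (J i) := by
  classical
  set C : ℝ → Set ℝ := cset s1 s0 Λ h J rep with hC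
  have hI1 : s1 ∈ Icc s1 s0 := ⟨le_rfl, h01⟩
  have hI0 : s0 ∈ Icc s1 s0 := ⟨h01, le_rfl⟩
  have hself : ∀ s ∈ Icc s1 s0, s ∉ Λ → h s ∈ C s := by
    intro s hs hsΛ
    rw [hC, cset_notMem hsΛ]
    exact ⟨s, mem_connectedComponentIn ⟨hs, hsΛ⟩, rfl⟩
  have hCne : ∀ s ∈ Icc s1 s0, (C s).Nonempty := by
    intro s hs
    by_cases hsΛ : s ∈ Λ
    · rw [hC, cset_mem hsΛ]
      exact hne s ⟨hs, hsΛ⟩
    · exact ⟨h s, hself s hs hsΛ⟩
  have hcont : ContinuousOn h (Icc s1 s0 \ Λ) := fun s hs =>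
    (hd s hs).continuousAt.continuousWithinAt
  have hCord : ∀ s, (C s).OrdConnected := by
    intro s
    by_cases hsΛ : s ∈ Λ
    · rw [hC, cset_mem hsΛ]
      exact hJ _
    · rw [hC, cset_notMem hsΛ]
      exact (isPreconnected_connectedComponentIn.image h
        (hcont.mono (connectedComponentIn_subset _ _))).ordConnected
  -- neighbouring sets meet
  have hmeet : ∀ s ∈ Icc s1 s0, ∀ᶠ s' in 𝓝 s, s' ∈ Icc s1 s0 → (C s ∩ C s').Nonempty := by
    intro s hs
    by_cases hsΛ : s ∈ Λ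
    · filter_upwards [hloc s ⟨hs, hsΛ⟩] with s' hs' hs'I
      by_cases hs'Λ : s' ∈ Λ
      · rw [hC, cset_mem hsΛ, cset_mem hs'Λ]
        exact (hs' hs'I).2 hs'Λ
      · refine ⟨h s', ?_, hself s' hs'I hs'Λ⟩
        rw [hC, cset_mem hsΛ]
        exact (hs' hs'I).1 hs'Λ
    · obtain ⟨δ, hδ, hball⟩ := Metric.isOpen_iff.1 hΛ.isOpen_compl s hsΛ
      filter_upwards [Metric.ball_mem_nhds s hδ] with s' hs' hs'I
      have hs'Λ : s' ∉ Λ := hball hs'
      refine ⟨h s', ?_, hself s' hs'I hs'Λ⟩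
      rw [hC, cset_notMem hsΛ]
      refine ⟨s', ?_, rfl⟩
      have hsub : uIcc s s' ⊆ Icc s1 s0 \ Λ := by
        intro x hx
        refine ⟨?_, ?_⟩
        · exact (ordConnected_Icc.uIcc_subset hs hs'I) hx
        · apply hball
          exact ((convex_ball s δ).ordConnected.uIcc_subset (Metric.mem_ball_self hδ) hs') hx
      exact (isPreconnected_uIcc.subset_connectedComponentIn left_mem_uIcc hsub) right_mem_uIcc
  -- no gaps
  have hcover : uIcc (h s1) c ⊆ ⋃ s ∈ Icc s1 s0, C s := by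
    intro v hv
    by_contra hvS
    simp only [mem_iUnion, not_exists] at hvS
    have hside : ∀ s ∈ Icc s1 s0, (∀ x ∈ C s, x < v) ∨ (∀ x ∈ C s, v < x) := by
      intro s hs
      by_contra hcon
      push Not at hcon
      obtain ⟨⟨x, hx, hx2⟩, ⟨y, hy, hy2⟩⟩ := hcon
      exact hvS s hs ((hCord s).out hy hx ⟨hy2, hx2⟩)
    have hconst : (decide (∀ x ∈ C s1, x < v)) = (decide (∀ x ∈ C s0, x < v)) := by
      refine isPreconnected_Icc.constant (s := Icc s1 s0)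
        (f := fun s => decide (∀ x ∈ C s, x < v)) ?_ hI1 hI0
      intro s hs
      have hev : ∀ᶠ s' in 𝓝[Icc s1 s0] s,
          decide (∀ x ∈ C s, x < v) = decide (∀ x ∈ C s', x < v) := by
        filter_upwards [nhdsWithin_le_nhds (hmeet s hs), self_mem_nhdsWithin] with s' hs' hs'I
        obtain ⟨x, hx, hx'⟩ := hs' hs'I
        rw [decide_eq_decide]
        constructor
        · intro h1
          rcases hside s' hs'I with h2 | h2
          · exact h2
          · exact absurd (h1 x hx) (not_lt.mpr (h2 x hx').le)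
        · intro h1
          rcases hside s hs with h2 | h2
          · exact h2
          · exact absurd (h1 x hx') (not_lt.mpr (h2 x hx).le)
      exact tendsto_const_nhds.congr' hev
    rw [decide_eq_decide] at hconst
    have hm1 : h s1 ∈ C s1 := hself s1 hI1 hs1
    have hm0 : c ∈ C s0 := by
      rw [hC, cset_mem hs0]
      exact hc
    have hn1 : h s1 ≠ v := fun h1 => hvS s1 hI1 (h1 ▸ hm1)
    have hn0 : c ≠ v := fun h1 => hvS s0 hI0 (h1 ▸ hm0)
    rcases mem_uIcc.1 hv with ⟨ha, hb⟩ | ⟨ha, hb⟩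
    · have ha' : h s1 < v := lt_of_le_of_ne ha hn1
      have hb' : v < c := lt_of_le_of_ne hb (Ne.symm hn0)
      have h2 : ∀ x ∈ C s1, x < v := by
        rcases hside s1 hI1 with h2 | h2
        · exact h2
        · exact absurd (h2 _ hm1) (not_lt.mpr ha'.le)
      exact absurd (hconst.1 h2 _ hm0) (not_lt.mpr hb'.le)
    · have ha' : c < v := lt_of_le_of_ne ha hn0
      have hb' : v < h s1 := lt_of_le_of_ne hb (Ne.symm hn1)
      have h2 : ∀ x ∈ C s0, x < v := by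
        rcases hside s0 hI0 with h2 | h2
        · exact h2
        · exact absurd (h2 _ hm0) (not_lt.mpr ha'.le)
      exact absurd (hconst.2 h2 _ hm1) (not_lt.mpr hb'.le)
  have hsub : (⋃ s ∈ Icc s1 s0, C s) ⊆ h '' (Icc s1 s0 \ Λ) ∪
      ⋃ i : {i : ι // ∃ s ∈ Icc s1 s0 ∩ Λ, rep s = i}, J i := by
    intro v hv
    simp only [mem_iUnion] at hv
    obtain ⟨s, hs, hv⟩ := hv
    by_cases hsΛ : s ∈ Λ
    · rw [hC, cset_mem hsΛ] at hv
      exact Or.inr (mem_iUnion.2 ⟨⟨rep s, s, ⟨hs, hsΛ⟩, rfl⟩, hv⟩)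
    · rw [hC, cset_notMem hsΛ] at hv
      exact Or.inl (image_mono (connectedComponentIn_subset _ _) hv)
  have hvol : volume (uIcc (h s1) c) = ENNReal.ofReal |h s1 - c| := by
    rw [Real.volume_interval, abs_sub_comm]
  rw [← hvol]
  calc volume (uIcc (h s1) c)
      ≤ volume (h '' (Icc s1 s0 \ Λ) ∪
          ⋃ i : {i : ι // ∃ s ∈ Icc s1 s0 ∩ Λ, rep s = i}, J i) :=
        measure_mono (hcover.trans hsub)
    _ ≤ volume (h '' (Icc s1 s0 \ Λ)) +
          volume (⋃ i : {i : ι // ∃ s ∈ Icc s1 s0 ∩ Λ, rep s = i}, J i) := measure_union_le _ _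
    _ ≤ (∫⁻ s in Icc s1 s0 \ Λ, ENNReal.ofReal |h' s|) +
          ∑' i : {i : ι // ∃ s ∈ Icc s1 s0 ∩ Λ, rep s = i}, volume (J i) := by
        refine add_le_add ?_ (measure_iUnion_le _)
        exact volume_image_le (measurableSet_Icc.diff hΛ.measurableSet) hd

end Pool.Recti
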