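import Pool.Agent.Recti.Defs

/-!
# Algebra of the class `Cls E Θ`

All statements are routine: `Cls E Θ` is a real vector space (the locally constant function `W` of a
sum is the sum of the `W`s), and it contains the complex test functions (for `χ` a test function the
function `W := Im (e^{-iΘ} χ)` is globally smooth and locally constant near `E`; `energy` because
`fderiv ℝ χ` is continuous with compact support) and the functions which are smooth on `Eᶜ`, vanish
near infinity and whose frame imaginary part vanishes near `E`.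
-/

set_option autoImplicit false

open Complex MeasureTheory Set Filter Topology Metric
open scoped ContDiff

namespace Pool.Recti

open Pool.Lib (dbar)

variable {E : Set ℂ} {Θ : ℂ → ℝ}

theorem Cls.diffAt (hE : IsCompact E) {φ : ℂ → ℂ} (hφ : ContDiffOn ℝ ∞ φ Eᶜ) {z : ℂ}
    (hz : z ∈ Eᶜ) : DifferentiableAt ℝ φ z :=
  (hφ.contDiffAt (hE.isClosed.isOpen_compl.mem_nhds hz)).differentiableAt (by simp)

theorem Cls.meas_fderiv (hE : IsCompact E) {φ : ℂ → ℂ} (hφ : ContDiffOn ℝ ∞ φ Eᶜ) :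
    AEStronglyMeasurable (fun z => ‖fderiv ℝ φ z‖ ^ 2) (volume.restrict Eᶜ) := by
  have h1 : ContinuousOn (fderiv ℝ φ) Eᶜ :=
    hφ.continuousOn_fderiv_of_isOpen hE.isClosed.isOpen_compl (by simp)
  exact ((h1.norm).pow 2).aestronglyMeasurable hE.isClosed.isOpen_compl.measurableSet

theorem Cls.add (hE : IsCompact E) {φ ψ : ℂ → ℂ} (hφ : Cls E Θ φ) (hψ : Cls E Θ ψ) :
    Cls E Θ (fun z => φ z + ψ z) := by
  have hO := hE.isClosed.isOpen_compl
  have hs : ContDiffOn ℝ ∞ (fun z => φ z + ψ z) Eᶜ := hφ.smooth.add hψ.smooth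
  refine ⟨hs, ?_, ?_, ?_⟩
  · obtain ⟨R1, h1⟩ := hφ.bdd
    obtain ⟨R2, h2⟩ := hψ.bdd
    refine ⟨max R1 R2, fun z hz => ?_⟩
    rw [h1 z ((le_max_left _ _).trans hz), h2 z ((le_max_right _ _).trans hz), add_zero]
  · have hg : IntegrableOn (fun z => 2 * ‖fderiv ℝ φ z‖ ^ 2 + 2 * ‖fderiv ℝ ψ z‖ ^ 2) Eᶜ :=
      (hφ.energy.const_mul 2).add (hψ.energy.const_mul 2)
    refine Integrable.mono' hg (Cls.meas_fderiv hE hs) ?_
    refine (ae_restrict_mem hO.measurableSet).mono (fun z hz => ?_)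
    have h1 : fderiv ℝ (fun z => φ z + ψ z) z = fderiv ℝ φ z + fderiv ℝ ψ z :=
      fderiv_fun_add (Cls.diffAt hE hφ.smooth hz) (Cls.diffAt hE hψ.smooth hz)
    rw [h1, Real.norm_eq_abs, abs_of_nonneg (by positivity)]
    have h2 := norm_add_le (fderiv ℝ φ z) (fderiv ℝ ψ z)
    have h3 := norm_nonneg (fderiv ℝ φ z + fderiv ℝ ψ z)
    nlinarith [sq_nonneg (‖fderiv ℝ φ z‖ - ‖fderiv ℝ ψ z‖), norm_nonneg (fderiv ℝ φ z),
      norm_nonneg (fderiv ℝ ψ z)]
  · obtain ⟨W1, hs1, hl1, he1⟩ := hφ.frame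
    obtain ⟨W2, hs2, hl2, he2⟩ := hψ.frame
    refine ⟨fun z => W1 z + W2 z, hs1.add hs2, ?_, ?_⟩
    · filter_upwards [hl1, hl2] with z h1 h2
      have h3 : fderiv ℝ (fun z => W1 z + W2 z) z = fderiv ℝ W1 z + fderiv ℝ W2 z :=
        fderiv_fun_add (hs1.differentiable (by simp) z) (hs2.differentiable (by simp) z)
      rw [h3, h1, h2, add_zero]
    · filter_upwards [he1, he2] with z h1 h2 hz
      rw [mul_add, add_im, h1 hz, h2 hz]

theorem Cls.smul (hE : IsCompact E) {φ : ℂ → ℂ} (hφ : Cls E Θ φ) (c : ℝ) :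
    Cls E Θ (fun z => (c : ℂ) * φ z) := by
  have hO := hE.isClosed.isOpen_compl
  have hs : ContDiffOn ℝ ∞ (fun z => (c : ℂ) * φ z) Eᶜ := contDiffOn_const.mul hφ.smooth
  refine ⟨hs, ?_, ?_, ?_⟩
  · obtain ⟨R1, h1⟩ := hφ.bdd
    exact ⟨R1, fun z hz => by rw [h1 z hz, mul_zero]⟩
  · have hg : IntegrableOn (fun z => c ^ 2 * ‖fderiv ℝ φ z‖ ^ 2) Eᶜ := hφ.energy.const_mul _
    refine Integrable.mono' hg (Cls.meas_fderiv hE hs) ?_
    refine (ae_restrict_mem hO.measurableSet).mono (fun z hz => ?_)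
    have h1 : fderiv ℝ (fun z => (c : ℂ) * φ z) z = (c : ℂ) • fderiv ℝ φ z :=
      fderiv_const_mul (Cls.diffAt hE hφ.smooth hz) _
    rw [h1, norm_smul, Real.norm_eq_abs, abs_of_nonneg (by positivity), mul_pow, norm_real,
      Real.norm_eq_abs, sq_abs]
  · obtain ⟨W1, hs1, hl1, he1⟩ := hφ.frame
    refine ⟨fun z => c * W1 z, contDiff_const.mul hs1, ?_, ?_⟩
    · filter_upwards [hl1] with z h1
      have h3 : fderiv ℝ (fun z => c * W1 z) z = c • fderiv ℝ W1 z :=
        fderiv_const_mul (hs1.differentiable (by simp) z) _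
      rw [h3, h1, smul_zero]
    · filter_upwards [he1] with z h1 hz
      rw [mul_left_comm, im_ofReal_mul, h1 hz]

theorem Cls.sub (hE : IsCompact E) {φ ψ : ℂ → ℂ} (hφ : Cls E Θ φ) (hψ : Cls E Θ ψ) :
    Cls E Θ (fun z => φ z - ψ z) := by
  have h := hφ.add hE (hψ.smul hE (-1))
  have he : (fun z => φ z + (((-1 : ℝ) : ℂ)) * ψ z) = fun z => φ z - ψ z := by
    funext z
    push_cast
    ring
  rwa [he] at h

theorem Cls.zero : Cls E Θ (fun _ => 0) := by
  refine ⟨contDiffOn_const, ⟨0, fun _ _ => rfl⟩, ?_, ⟨fun _ => 0, contDiff_const, ?_, ?_⟩⟩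
  · have : (fun z => ‖fderiv ℝ (fun _ : ℂ => (0 : ℂ)) z‖ ^ 2) = fun _ => 0 := by
      funext z
      simp
    rw [this]
    exact integrableOn_zero
  · exact Eventually.of_forall (fun z => by simp)
  · exact Eventually.of_forall (fun z _ => by simp)

theorem Cls.of_test (hE : IsCompact E) (hΘ : Test E Θ) {χ : ℂ → ℂ} (hχ : Test E χ) :
    Cls E Θ χ := by
  refine ⟨hχ.smooth.contDiffOn, ?_, ?_, ?_⟩
  · obtain ⟨R, hR⟩ := hχ.comp.isBounded.subset_ball (0 : ℂ)
    refine ⟨R, fun z hz => ?_⟩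
    by_contra hne
    have : z ∈ ball (0 : ℂ) R := hR (subset_tsupport _ hne)
    rw [mem_ball_zero_iff] at this
    linarith
  · have hc : Continuous (fun z => ‖fderiv ℝ χ z‖ ^ 2) :=
      ((hχ.smooth.continuous_fderiv (by simp)).norm).pow 2
    have hcs : HasCompactSupport (fun z => ‖fderiv ℝ χ z‖ ^ 2) := by
      refine (hχ.comp.fderiv ℝ).comp_left (g := fun v => ‖v‖ ^ 2) ?_
      simp
    exact (hc.integrable_of_hasCompactSupport hcs).integrableOn
  · have hF : ContDiff ℝ ∞ (fun p : ℝ × ℂ => (exp (-(p.1 * I)) * p.2).im) := by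
      have h1 : ContDiff ℝ ∞ (fun p : ℝ × ℂ => (p.1 : ℂ)) :=
        Complex.ofRealCLM.contDiff.comp contDiff_fst
      have h2 : ContDiff ℝ ∞ (fun p : ℝ × ℂ => exp (-(p.1 * I))) :=
        ((h1.mul contDiff_const).neg).cexp
      exact Complex.imCLM.contDiff.comp (h2.mul contDiff_snd)
    have hP : ContDiff ℝ ∞ (fun z => (Θ z, χ z)) := hΘ.smooth.prodMk hχ.smooth
    refine ⟨fun z => (exp (-(Θ z * I)) * χ z).im, hF.comp hP, ?_, ?_⟩
    · filter_upwards [hΘ.lc, hχ.lc] with z h1 h2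
      have h3 : HasFDerivAt Θ (0 : ℂ →L[ℝ] ℝ) z := by
        rw [← h1]
        exact (hΘ.smooth.differentiable (by simp) z).hasFDerivAt
      have h4 : HasFDerivAt χ (0 : ℂ →L[ℝ] ℂ) z := by
        rw [← h2]
        exact (hχ.smooth.differentiable (by simp) z).hasFDerivAt
      have h5 := (hF.differentiable (by simp) (Θ z, χ z)).hasFDerivAt
      have h6 := HasFDerivAt.comp z h5 (h3.prodMk h4)
      have h7 : ((0 : ℂ →L[ℝ] ℝ).prod (0 : ℂ →L[ℝ] ℂ)) = 0 := by
        ext <;> simp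
      rw [h7, ContinuousLinearMap.comp_zero] at h6
      exact h6.fderiv
    · exact Eventually.of_forall (fun z _ => rfl)

/-- derivatives of a sum etc. on `Eᶜ` -/
theorem dz_sub {f g : ℂ → ℂ} {z : ℂ} (hf : DifferentiableAt ℝ f z) (hg : DifferentiableAt ℝ g z) :
    dz (fun w => f w - g w) z = dz f z - dz g z := by
  unfold dz
  rw [fderiv_fun_sub hf hg]
  simp only [sub_apply]
  ring

theorem dbar_sub {f g : ℂ → ℂ} {z : ℂ} (hf : DifferentiableAt ℝ f z)
    (hg : DifferentiableAt ℝ g z) :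
    dbar (fun w => f w - g w) z = dbar f z - dbar g z := by
  unfold Pool.Lib.dbar
  rw [fderiv_fun_sub hf hg]
  simp only [sub_apply]
  ring

theorem dz_add {f g : ℂ → ℂ} {z : ℂ} (hf : DifferentiableAt ℝ f z) (hg : DifferentiableAt ℝ g z) :
    dz (fun w => f w + g w) z = dz f z + dz g z := by
  unfold dz
  rw [fderiv_fun_add hf hg]
  simp only [add_apply]
  ring

theorem dbar_add {f g : ℂ → ℂ} {z : ℂ} (hf : DifferentiableAt ℝ f z)
    (hg : DifferentiableAt ℝ g z) :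
    dbar (fun w => f w + g w) z = dbar f z + dbar g z := by
  unfold Pool.Lib.dbar
  rw [fderiv_fun_add hf hg]
  simp only [add_apply]
  ring

theorem fderiv_mul_aux {f g : ℂ → ℂ} {z : ℂ} (hf : DifferentiableAt ℝ f z)
    (hg : DifferentiableAt ℝ g z) (v : ℂ) :
    fderiv ℝ (fun w => f w * g w) z v = f z * fderiv ℝ g z v + g z * fderiv ℝ f z v := by
  have h : fderiv ℝ (fun w => f w * g w) z = f z • fderiv ℝ g z + g z • fderiv ℝ f z :=
    (hf.hasFDerivAt.mul hg.hasFDerivAt).fderiv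
  rw [h]
  simp

theorem dz_mul {f g : ℂ → ℂ} {z : ℂ} (hf : DifferentiableAt ℝ f z) (hg : DifferentiableAt ℝ g z) :
    dz (fun w => f w * g w) z = dz f z * g z + f z * dz g z := by
  unfold dz
  rw [fderiv_mul_aux hf hg, fderiv_mul_aux hf hg]
  ring

theorem dbar_mul {f g : ℂ → ℂ} {z : ℂ} (hf : DifferentiableAt ℝ f z)
    (hg : DifferentiableAt ℝ g z) :
    dbar (fun w => f w * g w) z = dbar f z * g z + f z * dbar g z := by
  unfold Pool.Lib.dbar
  rw [fderiv_mul_aux hf hg, fderiv_mul_aux hf hg]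
  ring

theorem fderiv_conj_aux {f : ℂ → ℂ} {z : ℂ} (hf : DifferentiableAt ℝ f z) (v : ℂ) :
    fderiv ℝ (fun w => (starRingEnd ℂ) (f w)) z v = (starRingEnd ℂ) (fderiv ℝ f z v) := by
  have h := (Complex.conjCLE.toContinuousLinearMap.hasFDerivAt (x := f z)).comp z hf.hasFDerivAt
  have h' : fderiv ℝ (fun w => (starRingEnd ℂ) (f w)) z =
      Complex.conjCLE.toContinuousLinearMap.comp (fderiv ℝ f z) := h.fderiv
  rw [h']
  simp

theorem dbar_conj {f : ℂ → ℂ} {z : ℂ} (hf : DifferentiableAt ℝ f z) :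
    dbar (fun w => (starRingEnd ℂ) (f w)) z = (starRingEnd ℂ) (dz f z) := by
  unfold Pool.Lib.dbar dz
  rw [fderiv_conj_aux hf, fderiv_conj_aux hf, map_div₀, map_sub, map_mul, conj_I, map_ofNat]
  ring

theorem dz_conj {f : ℂ → ℂ} {z : ℂ} (hf : DifferentiableAt ℝ f z) :
    dz (fun w => (starRingEnd ℂ) (f w)) z = (starRingEnd ℂ) (dbar f z) := by
  unfold Pool.Lib.dbar dz
  rw [fderiv_conj_aux hf, fderiv_conj_aux hf, map_div₀, map_add, map_mul, conj_I, map_ofNat]
  ring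

end Pool.Recti
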