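import Pool.Agent.Recti.Seqn
import Pool.Agent.Recti.AnnMod

/-!
# The smallness hypothesis of `straight_typeII` from square-summability and annuli
-/

set_option autoImplicit false

open Complex MeasureTheory Set Filter Topology Metric
open scoped ContDiff ENNReal

namespace Pool.Recti

/-- The open round annulus. -/
def ann (c : ℂ) (r r' : ℝ) : Set ℂ := {z | r < ‖z - c‖ ∧ ‖z - c‖ < r'}

theorem isOpen_ann (c : ℂ) (r r' : ℝ) : IsOpen (ann c r r') := by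
  have h1 : IsOpen {z : ℂ | r < ‖z - c‖} := isOpen_lt continuous_const (by fun_prop)
  have h2 : IsOpen {z : ℂ | ‖z - c‖ < r'} := isOpen_lt (by fun_prop) continuous_const
  exact h1.inter h2

theorem norm_le_of_mem_Om {E : Set ℂ} {R A : ℝ} {f : ℂ → ℂ} (hf : Bd E R A f) {p : ℂ}
    (hp : p ∈ Om E f) : ‖p‖ ≤ 4 * R + A / R := by
  by_contra hlt
  push Not at hlt
  have hR := hf.posR
  have hA := hf.posA
  obtain ⟨q, hq, hmax⟩ := (isCompact_Om hf.nrm).exists_isMaxOn ⟨p, hp⟩ continuous_norm.continuousOn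
  have hqM : 4 * R + A / R < ‖q‖ := hlt.trans_le (hmax hp)
  have hq0 : 0 < ‖q‖ := by
    have : 0 ≤ A / R := by positivity
    linarith
  -- points outside
  have hout : ∀ k : ℕ, ∃ z ∈ Eᶜ, f z = (1 + 1 / ((k : ℝ) + 1) : ℝ) • q ∧ 4 * R < ‖z‖ := by
    intro k
    have hk : (0 : ℝ) < 1 / ((k : ℝ) + 1) := by positivity
    have hnorm : ‖((1 + 1 / ((k : ℝ) + 1) : ℝ)) • q‖ = (1 + 1 / ((k : ℝ) + 1)) * ‖q‖ := by
      rw [norm_smul, Real.norm_eq_abs, abs_of_pos (by linarith)]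
    have hgt : ‖q‖ < ‖((1 + 1 / ((k : ℝ) + 1) : ℝ)) • q‖ := by
      rw [hnorm]; nlinarith
    have hnot : ((1 + 1 / ((k : ℝ) + 1) : ℝ)) • q ∉ Om E f := fun h => by
      have := hmax h
      simp only [mem_ofPred_eq] at this
      linarith
    have hmem : ((1 + 1 / ((k : ℝ) + 1) : ℝ)) • q ∈ f '' Eᶜ := by
      by_contra h; exact hnot h
    obtain ⟨z, hz, hfz⟩ := hmem
    refine ⟨z, hz, hfz, ?_⟩
    by_contra hle
    push Not at hle
    have := hf.norm_le hz hle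
    rw [hfz] at this
    linarith
  choose z hzE hfz hzR using hout
  -- the sequence is bounded
  have hbd : ∀ k, z k ∈ closedBall (0 : ℂ) (2 * ‖q‖ + A / R) := by
    intro k
    rw [mem_closedBall_zero_iff]
    have h1 := hf.far (z k) (by linarith [hzR k])
    have hz0 : R ≤ ‖z k‖ := by linarith [hzR k]
    have h2 : A / ‖z k‖ ≤ A / R := div_le_div_of_nonneg_left hA hR hz0
    have h3 : ‖f (z k)‖ ≤ 2 * ‖q‖ := by
      rw [hfz, norm_smul, Real.norm_eq_abs]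
      have hk : (0 : ℝ) < 1 / ((k : ℝ) + 1) := by positivity
      have hk' : 1 / ((k : ℝ) + 1) ≤ 1 := by
        rw [div_le_one (by positivity)]
        have : (0 : ℝ) ≤ k := Nat.cast_nonneg k
        linarith
      rw [abs_of_pos (by linarith)]
      nlinarith
    have h4 : ‖z k‖ ≤ ‖f (z k)‖ + ‖f (z k) - z k‖ := by
      have : z k = f (z k) - (f (z k) - z k) := by ring
      calc ‖z k‖ = ‖f (z k) - (f (z k) - z k)‖ := by rw [← this]
        _ ≤ _ := norm_sub_le _ _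
    linarith
  obtain ⟨z', hz', s, hs, hlim⟩ := (isCompact_closedBall (0 : ℂ) _).tendsto_subseq hbd
  have hz'R : 4 * R ≤ ‖z'‖ := by
    have h1 : Tendsto (fun k => ‖z (s k)‖) atTop (𝓝 ‖z'‖) :=
      (continuous_norm.tendsto z').comp hlim
    exact ge_of_tendsto' h1 fun k => (hzR (s k)).le
  have hz'E : z' ∈ Eᶜ := by
    intro h
    have := hf.sub h
    rw [mem_ball_zero_iff] at this
    linarith
  have hfc : ContinuousAt f z' :=
    (hf.nrm.diff.differentiableAt (hf.nrm.compact.isClosed.isOpen_compl.mem_nhds hz'E)).continuousAt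
  have h1 : Tendsto (fun k => f (z (s k))) atTop (𝓝 (f z')) := hfc.tendsto.comp hlim
  have h2 : Tendsto (fun k : ℕ => (1 + 1 / ((k : ℝ) + 1) : ℝ) • q) atTop (𝓝 ((1 + 0 : ℝ) • q)) :=
    (tendsto_const_nhds.add tendsto_one_div_add_atTop_nhds_zero_nat).smul_const q
  have h3 : Tendsto (fun k => f (z (s k))) atTop (𝓝 q) := by
    have := h2.comp hs.tendsto_atTop
    rw [add_zero, one_smul] at this
    refine this.congr fun k => ?_
    simp only [Function.comp]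
    rw [hfz]
  have h4 : f z' = q := tendsto_nhds_unique h1 h3
  exact hq ⟨z', hz'E, h4⟩

theorem diam_LK_le {E : Set ℂ} {R A : ℝ} {f : ℂ → ℂ} (hf : Bd E R A f) (x : ℂ) :
    diam (LK E f x) ≤ 2 * (4 * R + A / R) := by
  have hR := hf.posR
  have hA := hf.posA
  refine diam_le_of_subset_closedBall (x := 0) (by positivity) ?_
  intro p hp
  rw [mem_closedBall_zero_iff]
  exact norm_le_of_mem_Om hf hp.1

theorem ann_subset {E : Set ℂ} {R A : ℝ} {f : ℂ → ℂ} (hf : Bd E R A f) (hR1 : 1 ≤ R) {r c : ℂ}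
    (hr : r ∈ E) {ρ ρ' : ℝ} (_hρ : ρ < ρ') (h1 : ρ' ≤ 1) (hrc : ‖r - c‖ ≤ ρ)
    (hE : ∀ z, ρ < ‖z - c‖ → ‖z - c‖ < ρ' → z ∉ E) : ann c ρ ρ' ⊆ Eᶜ ∩ ball 0 (4 * R) := by
  rintro z ⟨hz1, hz2⟩
  refine ⟨hE z hz1 hz2, ?_⟩
  rw [mem_ball_zero_iff]
  have h2 := hf.sub hr
  rw [mem_ball_zero_iff] at h2
  have h3 : ‖z‖ ≤ ‖z - c‖ + ‖r - c‖ + ‖r‖ := by
    have : z = (z - c) - (r - c) + r := by ring
    calc ‖z‖ = ‖(z - c) - (r - c) + r‖ := by rw [← this]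
      _ ≤ ‖(z - c) - (r - c)‖ + ‖r‖ := norm_add_le _ _
      _ ≤ _ := by gcongr; exact norm_sub_le _ _
  linarith

theorem term_bound {E : Set ℂ} {R A : ℝ} {f : ℂ → ℂ} (hf : Bd E R A f) (hR1 : 1 ≤ R) {r c : ℂ}
    (hr : r ∈ E) {ρ ρ' κ t : ℝ} (hκ : 0 < κ) (hρ0 : 0 < ρ) (hρ : ρ < ρ') (h1 : ρ' ≤ 1)
    (hlog : κ * t ^ 2 ≤ Real.log (ρ' / ρ)) (hrc : ‖r - c‖ ≤ ρ)
    (hE : ∀ z, ρ < ‖z - c‖ → ‖z - c‖ < ρ' → z ∉ E) :
    (diam (LK E f r) * t) ^ 2 ≤ 2 * Real.pi / κ * ∫ z in ann c ρ ρ', ‖deriv f z‖ ^ 2 := by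
  have hsub := ann_subset hf hR1 hr hρ h1 hrc hE
  have h2 := diam_sq_le hf.nrm hr hρ0 hρ hE hrc (hf.int.mono_set hsub)
  have h3 : diam (LK E f r) ^ 2 * (κ * t ^ 2) ≤ diam (LK E f r) ^ 2 * Real.log (ρ' / ρ) :=
    mul_le_mul_of_nonneg_left hlog (sq_nonneg _)
  have h4 : diam (LK E f r) ^ 2 * (κ * t ^ 2) ≤
      2 * Real.pi * ∫ z in ann c ρ ρ', ‖deriv f z‖ ^ 2 := h3.trans h2
  have h5 : (diam (LK E f r) * t) ^ 2 = diam (LK E f r) ^ 2 * (κ * t ^ 2) / κ := by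
    field_simp
  rw [h5, div_le_iff₀ hκ]
  calc _ ≤ _ := h4
    _ = 2 * Real.pi / κ * (∫ z in ann c ρ ρ', ‖deriv f z‖ ^ 2) * κ := by field_simp

/-- the square-summable / annulus structure of the neighbours, in terms of representatives -/
structure Sep (E : Set ℂ) (θ : ℂ → ℝ) (x : ℂ) (T 𝒜 : Set ℂ) (c : ℂ → ℂ) (ρ ρ' : ℂ → ℝ)
    (κ : ℝ) : Prop where
  countable : T.Countable
  mem : T ⊆ E
  notMem : ∀ r ∈ T, r ∉ connectedComponentIn E x
  summable : Summable (fun r : {r : ℂ // r ∈ T ∧ r ∈ 𝒜} => (θ r - θ x) ^ 2)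
  kpos : 0 < κ
  rpos : ∀ r ∈ T, r ∉ 𝒜 → 0 < ρ r
  rlt : ∀ r ∈ T, r ∉ 𝒜 → ρ r < ρ' r
  rle : ∀ r ∈ T, r ∉ 𝒜 → ρ' r ≤ 1
  log : ∀ r ∈ T, r ∉ 𝒜 → κ * (θ r - θ x) ^ 2 ≤ Real.log (ρ' r / ρ r)
  dist : ∀ r ∈ T, r ∉ 𝒜 → ‖r - c r‖ ≤ ρ r
  disj : ∀ r ∈ T, r ∉ 𝒜 → ∀ z, ρ r < ‖z - c r‖ → ‖z - c r‖ < ρ' r → z ∉ E
  pair : ∀ r ∈ T, ∀ s ∈ T, r ∉ 𝒜 → s ∉ 𝒜 → r ≠ s →
    Disjoint (ann (c r) (ρ r) (ρ' r)) (ann (c s) (ρ s) (ρ' s))

/-- sum of the energies over the disjoint annuli -/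
theorem sum_energy_le {E : Set ℂ} {R A : ℝ} {f : ℂ → ℂ} (hf : Bd E R A f) (hR1 : 1 ≤ R)
    {θ : ℂ → ℝ} {x : ℂ} {T 𝒜 : Set ℂ} {c : ℂ → ℂ} {ρ ρ' : ℂ → ℝ} {κ : ℝ}
    (h : Sep E θ x T 𝒜 c ρ ρ' κ) :
    ∑' r : {r : ℂ // r ∈ T ∧ r ∉ 𝒜},
      ENNReal.ofReal (∫ z in ann (c r) (ρ r) (ρ' r), ‖deriv f z‖ ^ 2) ≤ ENNReal.ofReal A := by
  have hsub : ∀ r : {r : ℂ // r ∈ T ∧ r ∉ 𝒜},
      ann (c r) (ρ r) (ρ' r) ⊆ Eᶜ ∩ ball 0 (4 * R) := fun r =>
    ann_subset hf hR1 (h.mem r.2.1) (h.rlt r r.2.1 r.2.2) (h.rle r r.2.1 r.2.2)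
      (h.dist r r.2.1 r.2.2) (h.disj r r.2.1 r.2.2)
  have h1 : ∀ r : {r : ℂ // r ∈ T ∧ r ∉ 𝒜},
      ENNReal.ofReal (∫ z in ann (c r) (ρ r) (ρ' r), ‖deriv f z‖ ^ 2) =
      ∫⁻ z in ann (c r) (ρ r) (ρ' r), ENNReal.ofReal (‖deriv f z‖ ^ 2) := fun r =>
    ofReal_integral_eq_lintegral_ofReal (hf.int.mono_set (hsub r))
      (ae_of_all _ fun z => by positivity)
  simp_rw [h1]
  have hcount : Countable {r : ℂ // r ∈ T ∧ r ∉ 𝒜} :=
    (h.countable.mono (inter_subset_left (t := 𝒜ᶜ))).to_subtype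
  have hpair : Pairwise (Function.onFun Disjoint
      (fun r : {r : ℂ // r ∈ T ∧ r ∉ 𝒜} => ann (c r) (ρ r) (ρ' r))) := fun r s hrs =>
    h.pair r r.2.1 s s.2.1 r.2.2 s.2.2 (fun he => hrs (Subtype.ext he))
  rw [← lintegral_iUnion (s := fun r : {r : ℂ // r ∈ T ∧ r ∉ 𝒜} => ann (c r) (ρ r) (ρ' r))
    (fun r => (isOpen_ann _ _ _).measurableSet) hpair]
  calc _ ≤ ∫⁻ z in Eᶜ ∩ ball 0 (4 * R), ENNReal.ofReal (‖deriv f z‖ ^ 2) :=
        lintegral_mono_set (iUnion_subset hsub)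
    _ = ENNReal.ofReal (∫ z in Eᶜ ∩ ball 0 (4 * R), ‖deriv f z‖ ^ 2) :=
        (ofReal_integral_eq_lintegral_ofReal hf.int (ae_of_all _ fun z => by positivity)).symm
    _ ≤ _ := ENNReal.ofReal_le_ofReal hf.energy

/-- a tail of a convergent sum over `T` is small off a finite set -/
theorem exists_finset_tail {T : Set ℂ} (a : ℂ → ℝ≥0∞) (h : ∑' r : {r : ℂ // r ∈ T}, a r ≠ ⊤)
    {ε : ℝ≥0∞} (hε : 0 < ε) :
    ∃ S : Set ℂ, S.Finite ∧ S ⊆ T ∧ ∀ N : Set ℂ, Disjoint N S →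
      ∑' r : {r : ℂ // r ∈ T ∧ r ∈ N}, a r ≤ ε := by
  have h1 := ENNReal.tendsto_tsum_compl_atTop_zero h
  obtain ⟨s, hs⟩ := (h1.eventually_lt_const hε).exists
  refine ⟨Subtype.val '' (s : Set {r : ℂ // r ∈ T}), s.finite_toSet.image _, ?_, ?_⟩
  · rintro _ ⟨r, -, rfl⟩
    exact r.2
  · intro N hN
    let e : {r : ℂ // r ∈ T ∧ r ∈ N} → {r : {r : ℂ // r ∈ T} // r ∉ s} := fun r =>
      ⟨⟨r, r.2.1⟩, fun hmem => disjoint_left.mp hN r.2.2 ⟨⟨r, r.2.1⟩, hmem, rfl⟩⟩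
    have he : Function.Injective e := by
      intro r r' hrr
      have : ((e r).1 : ℂ) = ((e r').1 : ℂ) := by rw [hrr]
      exact Subtype.ext this
    calc _ = ∑' r : {r : ℂ // r ∈ T ∧ r ∈ N}, (fun t : {r : {r : ℂ // r ∈ T} // r ∉ s} =>
            a ((t : {r : ℂ // r ∈ T}) : ℂ)) (e r) := rfl
      _ ≤ _ := ENNReal.tsum_comp_le_tsum_of_injective he _
      _ ≤ ε := hs.le

theorem tsum_sub (p : ℂ → Prop) (g : ℂ → ℝ≥0∞) :
    ∑' r : {r : ℂ // p r}, g r = ∑' r, indicator {r : ℂ | p r} g r :=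
  tsum_subtype {r : ℂ | p r} g

theorem small_of_sep {E : Set ℂ} {R A : ℝ} {θ : ℂ → ℝ} {φ : ℕ → ℝ → ℝ} {Θ : ℕ → ℂ → ℝ}
    {F : ℕ → ℂ → ℂ} {f : ℂ → ℂ} (hs : Seqn E R A θ φ Θ F f) (hR1 : 1 ≤ R) {x : ℂ}
    {N0 : Set ℂ} (hN0 : IsOpen N0) (hxN0 : connectedComponentIn E x ⊆ N0)
    {T 𝒜 : Set ℂ} {c : ℂ → ℂ} {ρ ρ' : ℂ → ℝ} {κ : ℝ} (h : Sep E θ x T 𝒜 c ρ ρ' κ) {ε : ℝ}
    (hε : 0 < ε) :
    ∃ N : Set ℂ, IsOpen N ∧ connectedComponentIn E x ⊆ N ∧
      ∀ n, ∑' r : {r : ℂ // r ∈ T ∧ r ∈ N}, ENNReal.ofReal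
        (diam (LK E f r) * diam (LK E (F n) r) * (θ r - θ x) ^ 2) ≤ ENNReal.ofReal ε := by
  classical
  have hR := hs.bdf.posR
  have hA := hs.bdf.posA
  have hκ := h.kpos
  set M1 : ℝ := 2 * (4 * R + A / R) with hM1
  have hM1pos : 0 ≤ M1 := by positivity
  -- choice of `τ`
  set τ : ℝ := ε * κ / (2 * Real.pi * (A + 1)) with hτ
  have hτpos : 0 < τ := by positivity
  have hτA : Real.pi / κ * τ * A ≤ ε / 2 := by
    rw [hτ]
    have : Real.pi / κ * (ε * κ / (2 * Real.pi * (A + 1))) * A = ε / 2 * (A / (A + 1)) := by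
      field_simp
    rw [this]
    have h1 : A / (A + 1) ≤ 1 := by
      rw [div_le_one (by linarith)]; linarith
    nlinarith
  set J : (ℂ → ℂ) → ℂ → ℝ := fun g r => ∫ z in ann (c r) (ρ r) (ρ' r), ‖deriv g z‖ ^ 2 with hJ
  have hJ0 : ∀ g r, 0 ≤ J g r := fun g r => integral_nonneg fun z => by positivity
  -- the two majorants
  set a : ℂ → ℝ≥0∞ := fun r => if r ∈ 𝒜 then ENNReal.ofReal (M1 ^ 2 * (θ r - θ x) ^ 2)
    else ENNReal.ofReal (Real.pi / κ * τ⁻¹ * J f r) with ha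
  set b : ℕ → ℂ → ℝ≥0∞ := fun n r => if r ∈ 𝒜 then 0
    else ENNReal.ofReal (Real.pi / κ * τ * J (F n) r) with hb
  have hterm : ∀ n, ∀ r ∈ T, ENNReal.ofReal
      (diam (LK E f r) * diam (LK E (F n) r) * (θ r - θ x) ^ 2) ≤ a r + b n r := by
    intro n r hr
    by_cases hrA : r ∈ 𝒜
    · simp only [ha, hb, if_pos hrA, add_zero]
      apply ENNReal.ofReal_le_ofReal
      have h1 := diam_LK_le hs.bdf r
      have h2 := diam_LK_le (hs.bd n) r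
      have h3 : diam (LK E f r) * diam (LK E (F n) r) ≤ M1 ^ 2 := by
        rw [sq]
        exact mul_le_mul h1 h2 diam_nonneg hM1pos
      exact mul_le_mul_of_nonneg_right h3 (sq_nonneg _)
    · simp only [ha, hb, if_neg hrA]
      rw [← ENNReal.ofReal_add (by have := hJ0 f r; positivity) (by have := hJ0 (F n) r; positivity)]
      apply ENNReal.ofReal_le_ofReal
      have h1 := term_bound hs.bdf hR1 (h.mem hr) hκ (h.rpos r hr hrA) (h.rlt r hr hrA)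
        (h.rle r hr hrA) (h.log r hr hrA) (h.dist r hr hrA) (h.disj r hr hrA)
      have h2 := term_bound (hs.bd n) hR1 (h.mem hr) hκ (h.rpos r hr hrA) (h.rlt r hr hrA)
        (h.rle r hr hrA) (h.log r hr hrA) (h.dist r hr hrA) (h.disj r hr hrA)
      set u := diam (LK E f r) * (θ r - θ x) with hu
      set v := diam (LK E (F n) r) * (θ r - θ x) with hv
      have h3 : diam (LK E f r) * diam (LK E (F n) r) * (θ r - θ x) ^ 2 = u * v := by
        rw [hu, hv]; ring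
      rw [h3]
      have h4 : u * v ≤ (τ⁻¹ * u ^ 2 + τ * v ^ 2) / 2 := by
        have h5 : 0 ≤ τ⁻¹ * (u - τ * v) ^ 2 := by positivity
        have h6 : τ⁻¹ * (u - τ * v) ^ 2 = τ⁻¹ * u ^ 2 + τ * v ^ 2 - 2 * (u * v) := by
          field_simp
          ring
        linarith
      have h7 : τ⁻¹ * u ^ 2 ≤ τ⁻¹ * (2 * Real.pi / κ * J f r) :=
        mul_le_mul_of_nonneg_left h1 (by positivity)
      have h8 : τ * v ^ 2 ≤ τ * (2 * Real.pi / κ * J (F n) r) :=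
        mul_le_mul_of_nonneg_left h2 (by positivity)
      calc u * v ≤ (τ⁻¹ * u ^ 2 + τ * v ^ 2) / 2 := h4
        _ ≤ (τ⁻¹ * (2 * Real.pi / κ * J f r) + τ * (2 * Real.pi / κ * J (F n) r)) / 2 := by
            linarith
        _ = _ := by ring
  -- sum of `b`
  have hsumb : ∀ n, ∑' r : {r : ℂ // r ∈ T}, b n r ≤ ENNReal.ofReal (ε / 2) := by
    intro n
    have h1 : ∑' r : {r : ℂ // r ∈ T}, b n r = ∑' r : {r : ℂ // r ∈ T ∧ r ∉ 𝒜}, b n r := by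
      rw [tsum_sub (fun r => r ∈ T) (b n), tsum_sub (fun r => r ∈ T ∧ r ∉ 𝒜) (b n)]
      congr 1
      funext r
      by_cases h1 : r ∈ T
      · by_cases h2 : r ∈ 𝒜
        · rw [indicator_of_mem (by exact h1), indicator_of_notMem (fun h => h.2 h2)]
          simp only [hb, if_pos h2]
        · rw [indicator_of_mem (by exact h1), indicator_of_mem (by exact ⟨h1, h2⟩)]
      · rw [indicator_of_notMem (by exact h1), indicator_of_notMem (fun h => h1 h.1)]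
    rw [h1]
    have h2 : ∀ r : {r : ℂ // r ∈ T ∧ r ∉ 𝒜}, b n r =
        ENNReal.ofReal (Real.pi / κ * τ) * ENNReal.ofReal (J (F n) r) := by
      intro r
      simp only [hb, if_neg r.2.2]
      rw [ENNReal.ofReal_mul (by positivity)]
    simp_rw [h2]
    rw [ENNReal.tsum_mul_left]
    calc _ ≤ ENNReal.ofReal (Real.pi / κ * τ) * ENNReal.ofReal A := by
          gcongr
          exact sum_energy_le (hs.bd n) hR1 h
      _ = ENNReal.ofReal (Real.pi / κ * τ * A) := by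
          rw [← ENNReal.ofReal_mul (by positivity)]
      _ ≤ _ := ENNReal.ofReal_le_ofReal hτA
  -- sum of `a`
  have hsuma : ∑' r : {r : ℂ // r ∈ T}, a r ≠ ⊤ := by
    have hle : ∀ r : ℂ, indicator {r : ℂ | r ∈ T} a r ≤
        indicator {r : ℂ | r ∈ T ∧ r ∈ 𝒜}
          (fun r => ENNReal.ofReal (M1 ^ 2) * ENNReal.ofReal ((θ r - θ x) ^ 2)) r +
        indicator {r : ℂ | r ∈ T ∧ r ∉ 𝒜}
          (fun r => ENNReal.ofReal (Real.pi / κ * τ⁻¹) * ENNReal.ofReal (J f r)) r := by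
      intro r
      by_cases h1 : r ∈ T
      · by_cases h2 : r ∈ 𝒜
        · rw [indicator_of_mem (by exact h1), indicator_of_mem (by exact ⟨h1, h2⟩),
            indicator_of_notMem (fun h => h.2 h2), add_zero]
          simp only [ha, if_pos h2]
          rw [ENNReal.ofReal_mul (by positivity)]
        · rw [indicator_of_mem (by exact h1), indicator_of_mem
            (s := {r : ℂ | r ∈ T ∧ r ∉ 𝒜}) (by exact ⟨h1, h2⟩),
            indicator_of_notMem (fun h => h2 h.2), zero_add]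
          simp only [ha, if_neg h2]
          rw [ENNReal.ofReal_mul (by positivity)]
      · rw [indicator_of_notMem (by exact h1)]
        exact zero_le
    have h1 : ∑' r : {r : ℂ // r ∈ T}, a r ≤
        ENNReal.ofReal (M1 ^ 2) * ∑' r : {r : ℂ // r ∈ T ∧ r ∈ 𝒜},
          ENNReal.ofReal ((θ r - θ x) ^ 2) +
        ENNReal.ofReal (Real.pi / κ * τ⁻¹) * ∑' r : {r : ℂ // r ∈ T ∧ r ∉ 𝒜},
          ENNReal.ofReal (J f r) := by
      rw [← ENNReal.tsum_mul_left, ← ENNReal.tsum_mul_left,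
        tsum_sub (fun r => r ∈ T) a,
        tsum_sub (fun r => r ∈ T ∧ r ∈ 𝒜)
          (fun r => ENNReal.ofReal (M1 ^ 2) * ENNReal.ofReal ((θ r - θ x) ^ 2)),
        tsum_sub (fun r => r ∈ T ∧ r ∉ 𝒜)
          (fun r => ENNReal.ofReal (Real.pi / κ * τ⁻¹) * ENNReal.ofReal (J f r)),
        ← ENNReal.tsum_add]
      exact ENNReal.tsum_le_tsum hle
    refine ne_top_of_le_ne_top ?_ h1
    apply ENNReal.add_ne_top.mpr
    constructor
    · apply ENNReal.mul_ne_top ENNReal.ofReal_ne_top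
      exact h.summable.tsum_ofReal_ne_top
    · apply ENNReal.mul_ne_top ENNReal.ofReal_ne_top
      exact ne_top_of_le_ne_top ENNReal.ofReal_ne_top (sum_energy_le hs.bdf hR1 h)
  obtain ⟨S, hSfin, hST, hS⟩ := exists_finset_tail a hsuma
    (ε := ENNReal.ofReal (ε / 2)) (by rw [ENNReal.ofReal_pos]; linarith)
  refine ⟨N0 ∩ Sᶜ, hN0.inter hSfin.isClosed.isOpen_compl, ?_, ?_⟩
  · intro z hz
    refine ⟨hxN0 hz, fun hzS => h.notMem z (hST hzS) hz⟩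
  · intro n
    have hdis : Disjoint (N0 ∩ Sᶜ) S := by
      rw [disjoint_left]
      rintro z ⟨-, hz⟩ hzS
      exact hz hzS
    calc _ ≤ ∑' r : {r : ℂ // r ∈ T ∧ r ∈ N0 ∩ Sᶜ}, (a r + b n r) :=
          ENNReal.tsum_le_tsum fun r => hterm n r r.2.1
      _ = ∑' r : {r : ℂ // r ∈ T ∧ r ∈ N0 ∩ Sᶜ}, a r +
          ∑' r : {r : ℂ // r ∈ T ∧ r ∈ N0 ∩ Sᶜ}, b n r := ENNReal.tsum_add
      _ ≤ ENNReal.ofReal (ε / 2) + ENNReal.ofReal (ε / 2) := by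
          gcongr
          · exact hS _ hdis
          · refine le_trans ?_ (hsumb n)
            exact ENNReal.tsum_comp_le_tsum_of_injective
              (f := fun r : {r : ℂ // r ∈ T ∧ r ∈ N0 ∩ Sᶜ} => (⟨r, r.2.1⟩ : {r : ℂ // r ∈ T}))
              (fun r r' hrr => Subtype.ext (by simpa using hrr))
              (fun r : {r : ℂ // r ∈ T} => b n r)
      _ = ENNReal.ofReal ε := by
          rw [← ENNReal.ofReal_add (by linarith) (by linarith), add_halves]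

end Pool.Recti
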