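import Pool.Agent.Recti.TypeII
import Pool.Agent.Recti.Small
import Pool.Agent.Recti.Baire

/-!
# The core theorem
-/

set_option autoImplicit false

open Complex MeasureTheory Set Filter Topology Metric
open scoped ContDiff

namespace Pool.Recti

/-- The neighbouring components are square-summable or separated by annuli. -/
def LocSep (E : Set ℂ) (θ : ℂ → ℝ) (x : ℂ) : Prop :=
  ∃ N0 T 𝒜 : Set ℂ, ∃ c : ℂ → ℂ, ∃ ρ ρ' : ℂ → ℝ, ∃ κ : ℝ,
    Reps E x N0 T ∧ Sep E θ x T 𝒜 c ρ ρ' κ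

theorem Sep.mono {E : Set ℂ} {θ : ℂ → ℝ} {x : ℂ} {T T' 𝒜 : Set ℂ} {c : ℂ → ℂ} {ρ ρ' : ℂ → ℝ}
    {κ : ℝ} (h : Sep E θ x T 𝒜 c ρ ρ' κ) (hT : T' ⊆ T) : Sep E θ x T' 𝒜 c ρ ρ' κ where
  countable := h.countable.mono hT
  mem := hT.trans h.mem
  notMem := fun r hr => h.notMem r (hT hr)
  summable := by
    refine h.summable.comp_injective
      (i := fun r : {r : ℂ // r ∈ T' ∧ r ∈ 𝒜} => (⟨r, hT r.2.1, r.2.2⟩ : {r : ℂ // r ∈ T ∧ r ∈ 𝒜}))
      (fun r r' hrr => Subtype.ext (by simpa using hrr))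
  kpos := h.kpos
  rpos := fun r hr => h.rpos r (hT hr)
  rlt := fun r hr => h.rlt r (hT hr)
  rle := fun r hr => h.rle r (hT hr)
  log := fun r hr => h.log r (hT hr)
  dist := fun r hr => h.dist r (hT hr)
  disj := fun r hr => h.disj r (hT hr)
  pair := fun r hr s hs => h.pair r (hT hr) s (hT hs)

theorem mk_eq_mk_iff {E : Set ℂ} {x y : ℂ} (hx : x ∈ E) (hy : y ∈ E) :
    (ConnectedComponents.mk (⟨x, hx⟩ : E)) = ConnectedComponents.mk ⟨y, hy⟩ ↔
      x ∈ connectedComponentIn E y := by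
  rw [ConnectedComponents.coe_eq_coe', connectedComponentIn_eq_image hy]
  constructor
  · intro h
    exact ⟨⟨x, hx⟩, h, rfl⟩
  · rintro ⟨z, hz, hzx⟩
    have : z = ⟨x, hx⟩ := Subtype.ext hzx
    rwa [this] at hz

/-- The values on `E` of a `0`-`1`-valued test function define a clopen set of components. -/
theorem isOpen_setOf_cutoff {E : Set ℂ} {χ : ℂ → ℝ} (hχ : Test E χ)
    (h01 : ∀ y ∈ E, χ y = 0 ∨ χ y = 1) :
    IsOpen {K : ConnectedComponents E | ∃ y : E, ConnectedComponents.mk y = K ∧ χ y = 1} := by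
  rw [← ConnectedComponents.isQuotientMap_coe.isOpen_preimage]
  have hset : ConnectedComponents.mk ⁻¹'
      {K : ConnectedComponents E | ∃ y : E, ConnectedComponents.mk y = K ∧ χ y = 1} =
      {y : E | 1 / 2 < χ y} := by
    ext y
    constructor
    · rintro ⟨y', hy', h1⟩
      have hmem : (y' : ℂ) ∈ connectedComponentIn E y := (mk_eq_mk_iff y'.2 y.2).mp hy'
      have h2 : χ y' = χ y :=
        eq_of_lc_of_component (hχ.smooth.differentiable (by simp)) hχ.lc y.2 hmem
      change 1 / 2 < χ y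
      rw [← h2, h1]; norm_num
    · intro hy
      have hy' : 1 / 2 < χ y := hy
      refine ⟨y, rfl, ?_⟩
      rcases h01 y y.2 with h | h
      · rw [h] at hy'; norm_num at hy'
      · exact h
  rw [hset]
  exact isOpen_lt continuous_const (hχ.smooth.continuous.comp continuous_subtype_val)

theorem core {E : Set ℂ} (hE : IsCompact E) (hD : IsConnected Eᶜ) {θ : ℂ → ℝ}
    (hθ : ContinuousOn θ E) (h0 : volume (θ '' E) = 0)
    (hloc : ∀ x ∈ E, LocEnergy E θ x ∨ LocSep E θ x) :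
    ∃ f : ℂ → ℂ, Nrm E f ∧ ∀ x ∈ E, Straight E f (θ x) x := by
  obtain ⟨R, A, φ, Θ, F, f, hR1, hs⟩ := exists_seqn hE hD hθ h0 1
  refine ⟨f, hs.bdf.nrm, ?_⟩
  have : CompactSpace E := isCompact_iff_compactSpace.mp hE
  set B : Set (ConnectedComponents E) :=
    {K | ∃ y : E, ConnectedComponents.mk y = K ∧ ¬ Straight E f (θ y) y} with hB
  by_contra hcon
  push Not at hcon
  obtain ⟨x0, hx0, hx0s⟩ := hcon
  have hBne : B.Nonempty := ⟨ConnectedComponents.mk ⟨x0, hx0⟩, ⟨x0, hx0⟩, rfl, hx0s⟩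
  have hcount : ∀ b ∈ B, ∃ N ∈ 𝓝 b, N.Countable := by
    rintro b ⟨y, rfl, hy⟩
    rcases hloc y y.2 with h | ⟨N0, T, 𝒜, c, ρ, ρ', κ, hr, hsep⟩
    · exact absurd (straight_typeI hs hθ h0 y.2 h) hy
    · obtain ⟨χ, hχ, -, hχN, hχ1, h01⟩ := exists_cutoff hE y.2 hr.isOpen hr.sub
      have hχy : χ y = 1 := (eventually_nhdsSet_iff_forall.mp hχ1 y
        (mem_connectedComponentIn y.2)).self_of_nhds
      refine ⟨_, (isOpen_setOf_cutoff hχ h01).mem_nhds ⟨y, rfl, hχy⟩, ?_⟩
      have hTc : Countable T := hr.countable.to_subtype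
      have hcnt : (insert (ConnectedComponents.mk y)
          (range fun r : T => ConnectedComponents.mk (⟨r, hr.mem r.2⟩ : E))).Countable :=
        (countable_range _).insert _
      refine hcnt.mono ?_
      rintro K ⟨z, rfl, hz⟩
      by_cases hzy : (z : ℂ) ∈ connectedComponentIn E y
      · left
        exact (mk_eq_mk_iff z.2 y.2).mpr hzy
      · right
        have hzN : (z : ℂ) ∈ N0 := by
          apply hχN
          apply subset_tsupport
          rw [Function.mem_support, hz]; norm_num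
        obtain ⟨r, hrT, hzr⟩ := hr.cover z z.2 hzN hzy
        exact ⟨⟨r, hrT⟩, ((mk_eq_mk_iff z.2 (hr.mem hrT)).mpr hzr).symm⟩
  obtain ⟨b, ⟨y, hyb, hy⟩, O, hO, hbO, hiso⟩ := exists_isolated hBne hcount
  subst hyb
  rcases hloc y y.2 with h | ⟨N0, T, 𝒜, c, ρ, ρ', κ, hr, hsep⟩
  · exact hy (straight_typeI hs hθ h0 y.2 h)
  · -- an open set of the plane cutting out `O`
    obtain ⟨O', hO', hOO'⟩ := isOpen_induced_iff.mp (hO.preimage
      ConnectedComponents.isQuotientMap_coe.continuous)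
    have hO'mem : ∀ z : E, (z : ℂ) ∈ O' ↔ ConnectedComponents.mk z ∈ O := by
      intro z
      have : z ∈ Subtype.val ⁻¹' O' ↔ z ∈ ConnectedComponents.mk ⁻¹' O := by rw [hOO']
      exact this
    have hsub : connectedComponentIn E y ⊆ N0 ∩ O' := by
      intro z hz
      refine ⟨hr.sub hz, ?_⟩
      have hzE : z ∈ E := connectedComponentIn_subset _ _ hz
      rw [hO'mem ⟨z, hzE⟩, (mk_eq_mk_iff hzE y.2).mpr hz]
      exact hbO
    obtain ⟨χ, hχ, -, hχN, hχ1, h01⟩ := exists_cutoff hE y.2 (hr.isOpen.inter hO') hsub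
    have hχd : Differentiable ℝ χ := hχ.smooth.differentiable (by simp)
    have hχy : ∀ z ∈ connectedComponentIn E y, χ z = 1 := fun z hz =>
      (eventually_nhdsSet_iff_forall.mp hχ1 z hz).self_of_nhds
    set T' : Set ℂ := {r | r ∈ T ∧ χ r = 1} with hT'
    have hT'T : T' ⊆ T := fun r hr => hr.1
    have hmemN : ∀ z, χ z = 1 → z ∈ N0 ∩ O' := by
      intro z hz
      apply hχN
      apply subset_tsupport
      rw [Function.mem_support, hz]; norm_num
    have hreps : Reps E y {z | 1 / 2 < χ z} T' := by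
      refine ⟨isOpen_lt continuous_const hχ.smooth.continuous, ?_, hr.countable.mono hT'T,
        hT'T.trans hr.mem, ?_⟩
      · intro z hz
        change 1 / 2 < χ z
        rw [hχy z hz]; norm_num
      · intro z hzE hz hzy
        have hz' : 1 / 2 < χ z := hz
        have hz1 : χ z = 1 := by
          rcases h01 z hzE with h | h
          · rw [h] at hz'; norm_num at hz'
          · exact h
        obtain ⟨r, hrT, hzr⟩ := hr.cover z hzE (hmemN z hz1).1 hzy
        refine ⟨r, ⟨hrT, ?_⟩, hzr⟩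
        rw [← eq_of_lc_of_component hχd hχ.lc (hr.mem hrT) hzr, hz1]
    have hsep' := hsep.mono hT'T
    apply hy
    refine straight_typeII hs y.2 hreps ?_ ?_
    · intro r hrT'
      by_contra hnot
      have hrE : r ∈ E := hr.mem hrT'.1
      have h1 : ConnectedComponents.mk (⟨r, hrE⟩ : E) ∈ B := ⟨⟨r, hrE⟩, rfl, hnot⟩
      have h2 : ConnectedComponents.mk (⟨r, hrE⟩ : E) ∈ O :=
        (hO'mem ⟨r, hrE⟩).mp (hmemN r hrT'.2).2
      have h3 := hiso _ h1 h2
      exact hsep.notMem r hrT'.1 ((mk_eq_mk_iff hrE y.2).mp h3)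
    · intro ε hε
      exact small_of_sep hs hR1 hreps.isOpen hreps.sub hsep' hε

end Pool.Recti
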