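import Mathlib
import Pool.Agent.Lib.CauchyPompeiu

/-!
# Rectilinear slit maps: the function classes of the variational existence proof

`E` is a compact plane set with connected complement `D = Eᶜ`.
-/

set_option autoImplicit false

open Complex MeasureTheory Set Filter Topology Metric
open scoped ContDiff

namespace Pool.Recti

/-- The Wirtinger derivative `∂g/∂z` (the other one, `∂g/∂z̄`, is `Pool.Lib.dbar`). -/
noncomputable def dz (g : ℂ → ℂ) (z : ℂ) : ℂ :=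
  (fderiv ℝ g z 1 - I * fderiv ℝ g z I) / 2

/-- The function `w` has derivative `0` at all points near the set `E` (so a smooth `w` is
locally constant near `E`). -/
def LC {F : Type*} [NormedAddCommGroup F] [NormedSpace ℝ F] (E : Set ℂ) (w : ℂ → F) : Prop :=
  ∀ᶠ z in 𝓝ˢ E, fderiv ℝ w z = 0

/-- Test functions: smooth, compactly supported, locally constant near `E`. -/
structure Test (E : Set ℂ) {F : Type*} [NormedAddCommGroup F] [NormedSpace ℝ F]
    (χ : ℂ → F) : Prop where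
  smooth : ContDiff ℝ ∞ χ
  comp : HasCompactSupport χ
  lc : LC E χ

/-- Near `E` the imaginary part of `g` in the moving frame `e^{iΘ}` is locally constant. -/
def Framed (E : Set ℂ) (Θ : ℂ → ℝ) (g : ℂ → ℂ) : Prop :=
  ∃ W : ℂ → ℝ, ContDiff ℝ ∞ W ∧ LC E W ∧
    ∀ᶠ z in 𝓝ˢ E, z ∉ E → (exp (-(Θ z * I)) * g z).im = W z

/-- The (real) vector space over which one minimises. -/
structure Cls (E : Set ℂ) (Θ : ℂ → ℝ) (φ : ℂ → ℂ) : Prop where
  smooth : ContDiffOn ℝ ∞ φ Eᶜ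
  bdd : ∃ R : ℝ, ∀ z, R ≤ ‖z‖ → φ z = 0
  energy : IntegrableOn (fun z => ‖fderiv ℝ φ z‖ ^ 2) Eᶜ
  frame : Framed E Θ φ

/-- `g` agrees with `f` on `Q`, has the frame structure near `E`, is a translation near infinity
and is close to `f` in energy. -/
structure App (E : Set ℂ) (Θ : ℂ → ℝ) (f : ℂ → ℂ) (Q : Set ℂ) (ε : ℝ) (g : ℂ → ℂ) : Prop where
  smooth : ContDiffOn ℝ ∞ g Eᶜ
  eqOn : EqOn g f Q
  frame : Framed E Θ g
  infty : ∃ c : ℂ, ∃ R : ℝ, ∀ z, R ≤ ‖z‖ → g z = z - c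
  energy : IntegrableOn (fun z => ‖fderiv ℝ (fun w => g w - f w) z‖ ^ 2) Eᶜ
  small : ∫ z in Eᶜ, ‖fderiv ℝ (fun w => g w - f w) z‖ ^ 2 ≤ ε

/-- Normalised univalent functions on the complement of the compact set `E`. -/
structure Nrm (E : Set ℂ) (f : ℂ → ℂ) : Prop where
  compact : IsCompact E
  conn : IsConnected Eᶜ
  diff : DifferentiableOn ℂ f Eᶜ
  inj : InjOn f Eᶜ
  infty : Tendsto (fun z => f z - z) (cocompact ℂ) (𝓝 0)

/-- The set omitted by `f`. -/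
def Om (E : Set ℂ) (f : ℂ → ℂ) : Set ℂ := (f '' Eᶜ)ᶜ

/-- `w` and `W` correspond to each other under `f`. -/
structure Corr (E : Set ℂ) (f : ℂ → ℂ) (w W : ℂ → ℝ) : Prop where
  smooth : ContDiff ℝ 2 w
  comp : HasCompactSupport w
  lc : LC E w
  smooth' : ContDiff ℝ 2 W
  comp' : HasCompactSupport W
  lc' : LC (Om E f) W
  eq : ∀ z ∈ Eᶜ, W (f z) = w z

/-- The part of the omitted set which corresponds to the component of `x` in `E`. -/
def LK (E : Set ℂ) (f : ℂ → ℂ) (x : ℂ) : Set ℂ :=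
  {p | p ∈ Om E f ∧ ∀ w W, Corr E f w W → W p = w x}

theorem dz_congr {f g : ℂ → ℂ} {z : ℂ} (h : f =ᶠ[𝓝 z] g) : dz f z = dz g z := by
  unfold dz; rw [h.fderiv_eq]

theorem dz_eq_deriv {f : ℂ → ℂ} {z : ℂ} (h : DifferentiableAt ℂ f z) : dz f z = deriv f z := by
  have h1 : fderiv ℝ f z = (fderiv ℂ f z).restrictScalars ℝ :=
    (h.hasFDerivAt.restrictScalars ℝ).fderiv
  unfold dz
  rw [h1]
  simp only [ContinuousLinearMap.coe_restrictScalars']
  have h2 : fderiv ℂ f z I = I * fderiv ℂ f z 1 := by simp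
  rw [h2, ← mul_assoc, I_mul_I, fderiv_apply_one_eq_deriv]
  ring

theorem fderiv_apply_eq (g : ℂ → ℂ) (z v : ℂ) :
    fderiv ℝ g z v = dz g z * v + Pool.Lib.dbar g z * (starRingEnd ℂ) v := by
  have h1 : v = v.re • (1 : ℂ) + v.im • I := by
    apply Complex.ext <;> simp
  have h2 : fderiv ℝ g z v = v.re * fderiv ℝ g z 1 + v.im * fderiv ℝ g z I := by
    conv_lhs => rw [h1]
    rw [map_add, map_smul, map_smul]
    simp only [real_smul]
  have h3 : (starRingEnd ℂ) v = v.re - v.im * I := by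
    apply Complex.ext <;> simp
  have h4 : v = v.re + v.im * I := (re_add_im v).symm
  rw [h2, h3]
  unfold dz Pool.Lib.dbar
  linear_combination (-((fderiv ℝ g z 1 - I * fderiv ℝ g z I) / 2)) * h4 +
    (fderiv ℝ g z I * v.im) * I_sq

theorem norm_fderiv_le (g : ℂ → ℂ) (z : ℂ) :
    ‖fderiv ℝ g z‖ ≤ ‖dz g z‖ + ‖Pool.Lib.dbar g z‖ := by
  apply ContinuousLinearMap.opNorm_le_bound _ (by positivity)
  intro v
  rw [fderiv_apply_eq, add_mul]
  refine (norm_add_le _ _).trans ?_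
  rw [norm_mul, norm_mul, Complex.norm_conj]

theorem norm_dz_le (g : ℂ → ℂ) (z : ℂ) : ‖dz g z‖ ≤ ‖fderiv ℝ g z‖ := by
  unfold dz
  rw [norm_div]
  have h1 : ‖fderiv ℝ g z 1‖ ≤ ‖fderiv ℝ g z‖ := by
    simpa using (fderiv ℝ g z).le_opNorm 1
  have h2 : ‖fderiv ℝ g z I‖ ≤ ‖fderiv ℝ g z‖ := by
    simpa using (fderiv ℝ g z).le_opNorm I
  have h3 : ‖fderiv ℝ g z 1 - I * fderiv ℝ g z I‖ ≤ ‖fderiv ℝ g z 1‖ + ‖fderiv ℝ g z I‖ := by
    refine (norm_sub_le _ _).trans ?_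
    rw [norm_mul, norm_I, one_mul]
  simp only [Complex.norm_ofNat]
  linarith

theorem norm_dbar_le (g : ℂ → ℂ) (z : ℂ) : ‖Pool.Lib.dbar g z‖ ≤ ‖fderiv ℝ g z‖ := by
  unfold Pool.Lib.dbar
  rw [norm_div]
  have h1 : ‖fderiv ℝ g z 1‖ ≤ ‖fderiv ℝ g z‖ := by
    simpa using (fderiv ℝ g z).le_opNorm 1
  have h2 : ‖fderiv ℝ g z I‖ ≤ ‖fderiv ℝ g z‖ := by
    simpa using (fderiv ℝ g z).le_opNorm I
  have h3 : ‖fderiv ℝ g z 1 + I * fderiv ℝ g z I‖ ≤ ‖fderiv ℝ g z 1‖ + ‖fderiv ℝ g z I‖ := by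
    refine (norm_add_le _ _).trans ?_
    rw [norm_mul, norm_I, one_mul]
  simp only [Complex.norm_ofNat]
  linarith

/-- The Jacobian determinant of `g` at `z`. -/
noncomputable def jac (g : ℂ → ℂ) (z : ℂ) : ℝ :=
  (fderiv ℝ g z 1).re * (fderiv ℝ g z I).im - (fderiv ℝ g z I).re * (fderiv ℝ g z 1).im

theorem jac_eq (g : ℂ → ℂ) (z : ℂ) :
    jac g z = ‖dz g z‖ ^ 2 - ‖Pool.Lib.dbar g z‖ ^ 2 := by
  unfold jac dz Pool.Lib.dbar
  rw [← normSq_eq_norm_sq, ← normSq_eq_norm_sq]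
  simp only [normSq_apply, add_re, sub_re, mul_re, I_re, I_im, add_im, sub_im, mul_im, div_ofNat_re,
    div_ofNat_im]
  ring

end Pool.Recti
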