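import Pool.Agent.Recti.Stokes

/-!
# The degree formula for framed maps

PROOF of `degree`.  Let `A : ℝ → ℝ` be the primitive `A x = ∫ t in Iic x, a t` of `a` (smooth, `A' = a`).
With `X = re g`, `Y = im g` on `D = Eᶜ`,
  `a(X) b(Y) jac g = a(X) b(Y) (X_x Y_y - X_y Y_x) = (A(X) b(Y) Y_y)_x - (A(X) b(Y) Y_x)_y`,
i.e. `d (A(X) b(Y) dY) = a(X) b(Y) dX ∧ dY`.
Near `E` we have `g = e^{iΘ} (u + i w)` with `u + i w = e^{-iΘ} g`, `Θ` and `w = W` locally constant, so
`Y = u sin Θ + w cos Θ`, `dY = sin Θ du`, and `jac g = 0` there.  Let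
  `H(z) = ∫ s in 0..u(z), A (s cos Θ(z) - w(z) sin Θ(z)) b (s sin Θ(z) + w(z) cos Θ(z)) sin Θ(z)`;
near `E` (in `D`) it is smooth (locally `Θ, w` are constants, so it is a smooth function of `u`) and
`dH = A(X) b(Y) dY`.
Let `ρ` be a smooth cutoff, `ρ = 1` near `E`, supported in a small neighbourhood of `E` in which all this
holds.  The form `ω1 = A(X) b(Y) dY - d (ρ H)` on `D` vanishes near `E`.
Near infinity `g z = z - c`, so `ω1 = ω0` there, where `ω0 = A(x - c1) b(y - c2) dy` (a smooth form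
on all of `ℂ`, `c = c1 + i c2`), `d ω0 = a(x - c1) b(y - c2) dx ∧ dy`.
So `ω1 - ω0` (with `ω1` extended by `0` across `E`) is `C^1` with compact support on `ℂ`, and
`0 = ∫ d (ω1 - ω0) = ∫_D a(X) b(Y) jac g - ∫_ℂ a(x - c1) b(y - c2)`, the last integral being
`(∫ a) (∫ b)`.
Integrability: `jac g = 0` near `E`; for large `‖z‖` the integrand is `a(x - c1) b(y - c2)` which has
compact support; continuous in between.
-/

set_option autoImplicit false

open Complex MeasureTheory Set Filter Topology Metric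
open scoped ContDiff

namespace Pool.Recti

open Pool.Lib (dbar)

variable {E : Set ℂ} {Θ : ℂ → ℝ}

theorem deg_stokes {P : ℂ → ℝ} (hP : ContDiff ℝ 1 P) (cP : HasCompactSupport P) (v : ℂ) :
    Integrable (fun z => fderiv ℝ P z v) ∧ ∫ z, fderiv ℝ P z v = 0 := by
  have hc : Continuous fun z => fderiv ℝ P z v :=
    (hP.continuous_fderiv (by norm_num)).clm_apply continuous_const
  have hs : HasCompactSupport fun z => fderiv ℝ P z v := cP.fderiv_apply (𝕜 := ℝ) v
  refine ⟨hc.integrable_of_hasCompactSupport hs, ?_⟩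
  have hP2 : ContDiff ℝ 1 (fun z => (P z : ℂ)) := ofRealCLM.contDiff.comp hP
  have hs2 : HasCompactSupport (fun z => (P z : ℂ)) :=
    cP.comp_left (g := fun x : ℝ => (x : ℂ)) (by simp)
  have h := integral_fderiv_apply_eq_zero hP2 hs2 v
  have h2 : ∀ z, fderiv ℝ (fun z => (P z : ℂ)) z v = ((fderiv ℝ P z v : ℝ) : ℂ) := fun z => by
    have h3 := (ofRealCLM.hasFDerivAt (x := P z)).comp z
      ((hP.differentiable (by norm_num)) z).hasFDerivAt
    have h4 : fderiv ℝ (fun z => (P z : ℂ)) z = ofRealCLM.comp (fderiv ℝ P z) := h3.fderiv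
    rw [h4]
    simp
  simp_rw [h2] at h
  rw [integral_complex_ofReal] at h
  exact_mod_cast h

theorem deg_prod (a b : ℝ → ℝ) (c : ℂ) :
    ∫ z : ℂ, a (z - c).re * b (z - c).im = (∫ x, a x) * ∫ y, b y := by
  rw [integral_sub_right_eq_self (fun z : ℂ => a z.re * b z.im) c]
  have h := Complex.volume_preserving_equiv_real_prod.integral_comp
    Complex.measurableEquivRealProd.measurableEmbedding (fun p : ℝ × ℝ => a p.1 * b p.2)
  simp only [Complex.measurableEquivRealProd_apply] at h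
  rw [h]
  exact integral_prod_mul a b

theorem deg_symm {φ : ℂ → ℝ} {z : ℂ} (h : ContDiffAt ℝ 2 φ z) (v w : ℂ) :
    fderiv ℝ (fun x => fderiv ℝ φ x v) z w = fderiv ℝ (fun x => fderiv ℝ φ x w) z v := by
  have h1 : DifferentiableAt ℝ (fderiv ℝ φ) z :=
    (h.fderiv_right (m := 1) (by norm_num)).differentiableAt (by norm_num)
  have h2 : IsSymmSndFDerivAt ℝ φ z := h.isSymmSndFDerivAt (by simp)
  have h3 : ∀ v w : ℂ, fderiv ℝ (fun x => fderiv ℝ φ x v) z w
      = fderiv ℝ (fderiv ℝ φ) z w v := fun v w => by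
    have h4 := (h1.hasFDerivAt).clm_apply (hasFDerivAt_const v z)
    rw [h4.fderiv]
    simp
  rw [h3, h3]
  exact h2 w v

theorem deg_prim (F : ℝ → ℝ) (hF : ContDiff ℝ ∞ F) :
    ContDiff ℝ ∞ (fun x => ∫ s in (0 : ℝ)..x, F s) ∧
      ∀ x, HasDerivAt (fun x => ∫ s in (0 : ℝ)..x, F s) (F x) x := by
  have h1 : ∀ x, HasDerivAt (fun x => ∫ s in (0 : ℝ)..x, F s) (F x) x := fun x =>
    intervalIntegral.integral_hasDerivAt_right (hF.continuous.intervalIntegrable _ _)
      (hF.continuous.stronglyMeasurableAtFilter _ _) hF.continuous.continuousAt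
  refine ⟨?_, h1⟩
  rw [contDiff_infty_iff_deriv]
  refine ⟨fun x => (h1 x).differentiableAt, ?_⟩
  rw [show deriv (fun x => ∫ s in (0 : ℝ)..x, F s) = F from funext fun x => (h1 x).deriv]
  exact hF

/-- the primitive near `E` -/
noncomputable def degH (A b : ℝ → ℝ) (Θ W : ℂ → ℝ) (g : ℂ → ℂ) (z : ℂ) : ℝ :=
  ∫ s in (0 : ℝ)..(exp (-(Θ z * I)) * g z).re,
    A (s * Real.cos (Θ z) - W z * Real.sin (Θ z)) *
      b (s * Real.sin (Θ z) + W z * Real.cos (Θ z)) * Real.sin (Θ z)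

theorem deg_local {V : Set ℂ} (hV : IsOpen V) {g : ℂ → ℂ} {W : ℂ → ℝ} {A b : ℝ → ℝ}
    (hg : ContDiffOn ℝ ∞ g V) (hA : ContDiff ℝ ∞ A) (hb : ContDiff ℝ ∞ b)
    (hΘ : Differentiable ℝ Θ) (hW : Differentiable ℝ W)
    (h1 : ∀ z ∈ V, fderiv ℝ Θ z = 0) (h2 : ∀ z ∈ V, fderiv ℝ W z = 0)
    (h3 : ∀ z ∈ V, (exp (-(Θ z * I)) * g z).im = W z) {z0 : ℂ} (hz0 : z0 ∈ V) :
    ContDiffAt ℝ ∞ (degH A b Θ W g) z0 ∧
      ∀ v, fderiv ℝ (degH A b Θ W g) z0 v
        = A (g z0).re * b (g z0).im * fderiv ℝ (fun w => (g w).im) z0 v := by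
  obtain ⟨r, hr, hball⟩ := Metric.isOpen_iff.1 hV z0 hz0
  have hz0b : z0 ∈ ball z0 r := mem_ball_self hr
  have hpre : IsPreconnected (ball z0 r) := (convex_ball z0 r).isPreconnected
  have cΘ : ∀ z ∈ ball z0 r, Θ z = Θ z0 := fun z hz =>
    isOpen_ball.is_const_of_fderiv_eq_zero hpre hΘ.differentiableOn
      (fun x hx => h1 x (hball hx)) hz hz0b
  have cW : ∀ z ∈ ball z0 r, W z = W z0 := fun z hz =>
    isOpen_ball.is_const_of_fderiv_eq_zero hpre hW.differentiableOn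
      (fun x hx => h2 x (hball hx)) hz hz0b
  set θ := Θ z0 with hθ
  set w0 := W z0 with hw0
  set F : ℝ → ℝ := fun s => A (s * Real.cos θ - w0 * Real.sin θ) *
      b (s * Real.sin θ + w0 * Real.cos θ) * Real.sin θ with hF
  have hFc : ContDiff ℝ ∞ F := by
    rw [hF]
    exact ((hA.comp (by fun_prop)).mul (hb.comp (by fun_prop))).mul contDiff_const
  obtain ⟨hh, hh'⟩ := deg_prim F hFc
  set u : ℂ → ℝ := fun z => (exp (-(θ * I)) * g z).re with hu
  have hgz : ContDiffAt ℝ ∞ g z0 := hg.contDiffAt (hV.mem_nhds hz0)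
  have huc : ContDiffAt ℝ ∞ u z0 := by
    have h4 : ContDiffAt ℝ ∞ (fun z => exp (-(θ * I)) * g z) z0 := contDiffAt_const.mul hgz
    exact reCLM.contDiff.contDiffAt.comp z0 h4
  have hev : degH A b Θ W g =ᶠ[𝓝 z0] fun z => (fun x => ∫ s in (0 : ℝ)..x, F s) (u z) := by
    filter_upwards [ball_mem_nhds z0 hr] with z hz
    simp only [degH, cΘ z hz, cW z hz, hu, hF]
  have hgeq : ∀ z ∈ ball z0 r, g z = exp (θ * I) * (u z + w0 * I) := fun z hz => by
    have h5 := h3 z (hball hz)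
    rw [cΘ z hz, cW z hz] at h5
    have h6 : exp (-(θ * I)) * g z = u z + w0 * I := by
      rw [← h5]
      exact (re_add_im _).symm
    rw [← h6, ← mul_assoc, ← Complex.exp_add]
    simp
  have hexp : exp (θ * I) = (Real.cos θ : ℂ) + (Real.sin θ : ℂ) * I := by
    rw [exp_mul_I, ofReal_cos, ofReal_sin]
  have hre : ∀ z ∈ ball z0 r, (g z).re = u z * Real.cos θ - w0 * Real.sin θ := fun z hz => by
    rw [hgeq z hz, hexp]
    simp only [mul_re, add_re, ofReal_re, I_re, mul_zero, ofReal_im, I_im, mul_one, sub_self,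
      add_im, mul_im, add_zero, zero_add, sub_zero, zero_mul]
    ring
  have him : ∀ z ∈ ball z0 r, (g z).im = u z * Real.sin θ + w0 * Real.cos θ := fun z hz => by
    rw [hgeq z hz, hexp]
    simp only [mul_re, add_re, ofReal_re, I_re, mul_zero, ofReal_im, I_im, mul_one, sub_self,
      add_im, mul_im, add_zero, zero_add, sub_zero, zero_mul]
    ring
  refine ⟨(hh.contDiffAt.comp z0 huc).congr_of_eventuallyEq hev, fun v => ?_⟩
  have hud : HasFDerivAt u (fderiv ℝ u z0) z0 := (huc.differentiableAt (by simp)).hasFDerivAt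
  have e1 : fderiv ℝ (degH A b Θ W g) z0 v = F (u z0) * fderiv ℝ u z0 v := by
    rw [hev.fderiv_eq]
    have h7 := (hh' (u z0)).comp_hasFDerivAt z0 hud
    have h8 := h7.fderiv
    simp only [Function.comp_def] at h8
    rw [h8]
    simp
  have e2 : fderiv ℝ (fun w => (g w).im) z0 v = Real.sin θ * fderiv ℝ u z0 v := by
    have h9 : (fun w => (g w).im) =ᶠ[𝓝 z0] fun z => u z * Real.sin θ + w0 * Real.cos θ := by
      filter_upwards [ball_mem_nhds z0 hr] with z hz
      exact him z hz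
    rw [h9.fderiv_eq]
    have h10 := ((hud.mul_const (Real.sin θ)).add_const (w0 * Real.cos θ)).fderiv
    rw [h10]
    simp
  rw [e1, e2, hre z0 hz0b, him z0 hz0b]
  simp only [hF]
  ring

theorem deg_re (c z : ℂ) : HasFDerivAt (fun z : ℂ => (z - c).re) reCLM z := by
  have h : (fun z : ℂ => (z - c).re) = fun z : ℂ => reCLM z - c.re := by
    ext z
    simp
  rw [h]
  exact reCLM.hasFDerivAt.sub_const _

theorem deg_im (c z : ℂ) : HasFDerivAt (fun z : ℂ => (z - c).im) imCLM z := by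
  have h : (fun z : ℂ => (z - c).im) = fun z : ℂ => imCLM z - c.im := by
    ext z
    simp
  rw [h]
  exact imCLM.hasFDerivAt.sub_const _

theorem deg_two_le : (2 : WithTop ℕ∞) ≤ ∞ :=
  show ((2 : ℕ∞) : WithTop ℕ∞) ≤ ((⊤ : ℕ∞) : WithTop ℕ∞) from WithTop.coe_le_coe.2 le_top

theorem deg_one_le : (1 : WithTop ℕ∞) ≤ ∞ :=
  show ((1 : ℕ∞) : WithTop ℕ∞) ≤ ((⊤ : ℕ∞) : WithTop ℕ∞) from WithTop.coe_le_coe.2 le_top

/-- The two functions whose curl is the integrand. -/
theorem deg_core (hE : IsCompact E) (hΘ : Test E Θ) {g : ℂ → ℂ}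
    (hg : ContDiffOn ℝ ∞ g Eᶜ) (hfr : Framed E Θ g)
    (hinf : ∃ c : ℂ, ∃ R : ℝ, ∀ z, R ≤ ‖z‖ → g z = z - c) {a b : ℝ → ℝ}
    (ha : ContDiff ℝ ∞ a) (hb : ContDiff ℝ ∞ b) :
    ∃ (c : ℂ) (P Q : ℂ → ℝ), ContDiff ℝ 1 P ∧ ContDiff ℝ 1 Q ∧ HasCompactSupport P ∧
      HasCompactSupport Q ∧ ∀ z, fderiv ℝ Q z 1 - fderiv ℝ P z I
        = indicator Eᶜ (fun z => a (g z).re * b (g z).im * jac g z) z
          - a (z - c).re * b (z - c).im := by
  obtain ⟨c, R, hR⟩ := hinf
  obtain ⟨W, hWc, hW0, hWf⟩ := hfr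
  have hev := (hΘ.lc.and hW0).and hWf
  obtain ⟨U, hU, hEU, hUp⟩ := eventually_nhdsSet_iff_exists.mp hev
  obtain ⟨L, hL, hEL, hLU⟩ := exists_compact_between hE hU hEU
  obtain ⟨χ, hχ1, hχ0, -⟩ := exists_contMDiffMap_one_nhds_of_subset_interior
    (modelWithCornersSelf ℝ ℂ) (n := (⊤ : ℕ∞)) hE.isClosed hEL
  have hχd : ContDiff ℝ ∞ χ := χ.contMDiff.contDiff
  obtain ⟨N, hN, hEN, hχN⟩ := eventually_nhdsSet_iff_exists.mp hχ1
  set A : ℝ → ℝ := fun x => ∫ s in (0 : ℝ)..x, a s with hAdef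
  obtain ⟨hA, hA'⟩ := deg_prim a ha
  have hEc : IsOpen Eᶜ := hE.isClosed.isOpen_compl
  -- the pieces
  set Y : ℂ → ℝ := fun z => (g z).im with hY
  set S : ℂ → ℝ := fun z => A (g z).re * b (g z).im with hS
  set H : ℂ → ℝ := degH A b Θ W g with hH
  set M : ℂ → ℝ := fun z => χ z * H z with hM
  set T : ℂ → ℝ := fun z => A (z - c).re * b (z - c).im with hT
  set p : ℂ → ℝ := fun z => S z * fderiv ℝ Y z 1 - fderiv ℝ M z 1 with hp
  set q : ℂ → ℝ := fun z => S z * fderiv ℝ Y z I - fderiv ℝ M z I with hq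
  have hVo : IsOpen (U ∩ Eᶜ) := hU.inter hEc
  have hloc : ∀ z, z ∈ U → z ∉ E → ContDiffAt ℝ ∞ H z ∧
      ∀ v, fderiv ℝ H z v = S z * fderiv ℝ Y z v := fun z hzU hzE => by
    have := deg_local (Θ := Θ) (W := W) (A := A) (b := b) hVo (hg.mono inter_subset_right) hA hb
      (hΘ.smooth.differentiable (by simp)) (hWc.differentiable (by simp))
      (fun x hx => (hUp x hx.1).1.1) (fun x hx => (hUp x hx.1).1.2)
      (fun x hx => (hUp x hx.1).2 hx.2) (z0 := z) ⟨hzU, hzE⟩
    exact this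
  have hgat : ∀ z, z ∉ E → ContDiffAt ℝ ∞ g z := fun z hz => hg.contDiffAt (hEc.mem_nhds hz)
  have hYc : ∀ z, z ∉ E → ContDiffAt ℝ ∞ Y z := fun z hz =>
    imCLM.contDiff.contDiffAt.comp z (hgat z hz)
  have hXc : ∀ z, z ∉ E → ContDiffAt ℝ ∞ (fun z => (g z).re) z := fun z hz =>
    reCLM.contDiff.contDiffAt.comp z (hgat z hz)
  have hSc : ∀ z, z ∉ E → ContDiffAt ℝ ∞ S z := fun z hz =>
    (hA.contDiffAt.comp z (hXc z hz)).mul (hb.contDiffAt.comp z (hYc z hz))
  have hMc : ∀ z, z ∉ E → ContDiffAt ℝ ∞ M z := fun z hz => by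
    by_cases hzU : z ∈ U
    · exact hχd.contDiffAt.mul (hloc z hzU hz).1
    · have h1 : M =ᶠ[𝓝 z] fun _ => 0 := by
        filter_upwards [hL.isClosed.isOpen_compl.mem_nhds (fun h => hzU (hLU h))] with w hw
        simp only [hM, hχ0 w hw, zero_mul]
      exact contDiffAt_const.congr_of_eventuallyEq h1
  have hDc : ∀ (φ : ℂ → ℝ) (z v : ℂ), ContDiffAt ℝ ∞ φ z →
      ContDiffAt ℝ 1 (fun w => fderiv ℝ φ w v) z := fun φ z v h =>
    (h.fderiv_right (m := 1) (by rw [one_add_one_eq_two]; exact deg_two_le)).clm_apply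
      contDiffAt_const
  have hpq : ∀ (v z : ℂ), z ∉ E →
      ContDiffAt ℝ 1 (fun z => S z * fderiv ℝ Y z v - fderiv ℝ M z v) z := fun v z hz =>
    (((hSc z hz).of_le deg_one_le).mul (hDc Y z v (hYc z hz))).sub
      (hDc M z v (hMc z hz))
  have hvan : ∀ (v z : ℂ), z ∈ U ∩ N → z ∉ E → S z * fderiv ℝ Y z v - fderiv ℝ M z v = 0 :=
    fun v z hz hzE => by
    have h1 : M =ᶠ[𝓝 z] H := by
      filter_upwards [hN.mem_nhds hz.2] with w hw
      simp only [hM, hχN w hw, one_mul]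
    rw [h1.fderiv_eq, (hloc z hz.1 hzE).2 v, sub_self]
  have hind : ∀ v z : ℂ, z ∈ E →
      indicator Eᶜ (fun z => S z * fderiv ℝ Y z v - fderiv ℝ M z v) =ᶠ[𝓝 z] fun _ => 0 :=
    fun v z hz => by
    filter_upwards [(hU.inter hN).mem_nhds ⟨hEU hz, hEN hz⟩] with w hw
    by_cases hwE : w ∈ E
    · exact indicator_of_notMem (show w ∉ Eᶜ from fun h => h hwE) _
    · rw [indicator_of_mem (show w ∈ Eᶜ from hwE)]
      exact hvan v w hw hwE
  have hind2 : ∀ v z : ℂ, z ∉ E →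
      indicator Eᶜ (fun z => S z * fderiv ℝ Y z v - fderiv ℝ M z v)
        =ᶠ[𝓝 z] fun z => S z * fderiv ℝ Y z v - fderiv ℝ M z v := fun v z hz => by
    filter_upwards [hEc.mem_nhds hz] with w hw
    exact indicator_of_mem hw _
  have hindc : ∀ v : ℂ, ContDiff ℝ 1
      (indicator Eᶜ (fun z => S z * fderiv ℝ Y z v - fderiv ℝ M z v)) := fun v => by
    rw [contDiff_iff_contDiffAt]
    intro z
    by_cases hz : z ∈ E
    · exact contDiffAt_const.congr_of_eventuallyEq (hind v z hz)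
    · exact (hpq v z hz).congr_of_eventuallyEq (hind2 v z hz)
  have hTc : ContDiff ℝ ∞ T := by
    have h1 : ContDiff ℝ ∞ (fun z : ℂ => (z - c).re) :=
      reCLM.contDiff.comp (contDiff_id.sub contDiff_const)
    have h2 : ContDiff ℝ ∞ (fun z : ℂ => (z - c).im) :=
      imCLM.contDiff.comp (contDiff_id.sub contDiff_const)
    exact (hA.comp h1).mul (hb.comp h2)
  -- behaviour near infinity
  obtain ⟨R1, hR1⟩ := hE.isBounded.subset_closedBall 0
  obtain ⟨R2, hR2⟩ := hL.isBounded.subset_closedBall 0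
  set R' := max (max R R1) R2 with hR'
  have hbig : ∀ z : ℂ, z ∉ closedBall (0 : ℂ) R' → z ∉ E ∧
      g =ᶠ[𝓝 z] (fun z => z - c) ∧ M =ᶠ[𝓝 z] fun _ => 0 := fun z hz => by
    have hzo : ∀ᶠ w in 𝓝 z, w ∉ closedBall (0 : ℂ) R' :=
      isClosed_closedBall.isOpen_compl.mem_nhds hz
    refine ⟨fun h => hz ?_, ?_, ?_⟩
    · exact closedBall_subset_closedBall ((le_max_right _ _).trans (le_max_left _ _)) (hR1 h)
    · filter_upwards [hzo] with w hw
      apply hR
      rw [mem_closedBall, dist_zero_right, not_le] at hw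
      exact ((le_max_left _ _).trans (le_max_left _ _)).trans hw.le
    · filter_upwards [hzo] with w hw
      have : w ∉ L := fun h => hw (closedBall_subset_closedBall (le_max_right _ _) (hR2 h))
      simp only [hM, hχ0 w this, zero_mul]
  have hYv : ∀ z : ℂ, z ∉ closedBall (0 : ℂ) R' → ∀ v : ℂ, fderiv ℝ Y z v = v.im :=
    fun z hz v => by
    obtain ⟨_, h1, _⟩ := hbig z hz
    have h2 : Y =ᶠ[𝓝 z] fun z => (z - c).im := by
      filter_upwards [h1] with w hw
      simp only [hY, hw]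
    rw [h2.fderiv_eq]
    have h3 := deg_im c z
    rw [h3.fderiv]
    rfl
  have hSz : ∀ z : ℂ, z ∉ closedBall (0 : ℂ) R' → S z = T z := fun z hz => by
    obtain ⟨_, h1, _⟩ := hbig z hz
    simp only [hS, hT, h1.self_of_nhds]
  have hMv : ∀ z : ℂ, z ∉ closedBall (0 : ℂ) R' → ∀ v : ℂ, fderiv ℝ M z v = 0 :=
    fun z hz v => by
    obtain ⟨_, _, h1⟩ := hbig z hz
    rw [h1.fderiv_eq]
    simp
  refine ⟨c, indicator Eᶜ p, fun z => indicator Eᶜ q z - T z, hindc 1,
    (hindc I).sub (hTc.of_le deg_one_le), ?_, ?_, fun z => ?_⟩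
  · refine HasCompactSupport.intro (isCompact_closedBall (0 : ℂ) R') fun z hz => ?_
    rw [indicator_of_mem (show z ∈ Eᶜ from (hbig z hz).1)]
    simp only [hp, hYv z hz, hMv z hz, one_im, mul_zero, sub_self]
  · refine HasCompactSupport.intro (isCompact_closedBall (0 : ℂ) R') fun z hz => ?_
    rw [indicator_of_mem (show z ∈ Eᶜ from (hbig z hz).1)]
    simp only [hq, hYv z hz, hMv z hz, I_im, mul_one, sub_zero, hSz z hz, sub_self]
  · -- the curl
    have hTd : fderiv ℝ T z 1 = a (z - c).re * b (z - c).im := by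
      have h1 := deg_re c z
      have h2 := deg_im c z
      have h3 := (hA' (z - c).re).comp_hasFDerivAt z h1
      have h4 := (((hb.differentiable (by simp)) (z - c).im).hasDerivAt).comp_hasFDerivAt z h2
      have h5 := (h3.mul h4).fderiv
      simp only [Function.comp_def] at h5
      have h6 : fderiv ℝ T z = _ := h5
      rw [h6]
      simp
      ring
    have hTdiff : DifferentiableAt ℝ T z := (hTc.differentiable (by simp)) z
    have hqd : DifferentiableAt ℝ (indicator Eᶜ q) z :=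
      ((hindc I).differentiable (by norm_num)) z
    have e1 : fderiv ℝ (fun z => indicator Eᶜ q z - T z) z 1
        = fderiv ℝ (indicator Eᶜ q) z 1 - a (z - c).re * b (z - c).im := by
      rw [fderiv_fun_sub hqd hTdiff]
      simp only [ContinuousLinearMap.sub_apply, hTd]
    rw [e1]
    by_cases hz : z ∈ E
    · have e2 : fderiv ℝ (indicator Eᶜ q) z 1 = 0 := by
        rw [(hind I z hz).fderiv_eq]; simp
      have e3 : fderiv ℝ (indicator Eᶜ p) z I = 0 := by
        rw [(hind 1 z hz).fderiv_eq]; simp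
      rw [e2, e3, indicator_of_notMem (show z ∉ Eᶜ from fun h => h hz)]
      ring
    · have e2 : fderiv ℝ (indicator Eᶜ q) z 1 = fderiv ℝ q z 1 := by
        rw [(hind2 I z hz).fderiv_eq]
      have e3 : fderiv ℝ (indicator Eᶜ p) z I = fderiv ℝ p z I := by
        rw [(hind2 1 z hz).fderiv_eq]
      rw [e2, e3, indicator_of_mem (show z ∈ Eᶜ from hz)]
      have dS : HasFDerivAt S (fderiv ℝ S z) z :=
        ((hSc z hz).differentiableAt (by simp)).hasFDerivAt
      have dY : ∀ v, HasFDerivAt (fun w => fderiv ℝ Y w v)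
          (fderiv ℝ (fun w => fderiv ℝ Y w v) z) z := fun v =>
        ((hDc Y z v (hYc z hz)).differentiableAt (by norm_num)).hasFDerivAt
      have dM : ∀ v, HasFDerivAt (fun w => fderiv ℝ M w v)
          (fderiv ℝ (fun w => fderiv ℝ M w v) z) z := fun v =>
        ((hDc M z v (hMc z hz)).differentiableAt (by norm_num)).hasFDerivAt
      have f1 : ∀ v w : ℂ, fderiv ℝ (fun z => S z * fderiv ℝ Y z v - fderiv ℝ M z v) z w
          = S z * fderiv ℝ (fun w => fderiv ℝ Y w v) z w + fderiv ℝ Y z v * fderiv ℝ S z w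
            - fderiv ℝ (fun w => fderiv ℝ M w v) z w := fun v w => by
        have f0 := ((dS.mul (dY v)).sub (dM v)).fderiv
        have f0' : fderiv ℝ (fun z => S z * fderiv ℝ Y z v - fderiv ℝ M z v) z = _ := f0
        rw [f0']
        simp
      have sY := deg_symm ((hYc z hz).of_le (m := 2) deg_two_le) 1 I
      have sM := deg_symm ((hMc z hz).of_le (m := 2) deg_two_le) 1 I
      -- derivative of `S`
      have gd : HasFDerivAt g (fderiv ℝ g z) z :=
        ((hgat z hz).differentiableAt (by simp)).hasFDerivAt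
      have dX : HasFDerivAt (fun z => (g z).re) (reCLM.comp (fderiv ℝ g z)) z :=
        (reCLM.hasFDerivAt (x := g z)).comp z gd
      have dY0 : HasFDerivAt Y (imCLM.comp (fderiv ℝ g z)) z :=
        (imCLM.hasFDerivAt (x := g z)).comp z gd
      have g1 : ∀ v, fderiv ℝ Y z v = (fderiv ℝ g z v).im := fun v => by
        rw [dY0.fderiv]; rfl
      have g2 : ∀ v, fderiv ℝ S z v = a (g z).re * b (g z).im * (fderiv ℝ g z v).re
          + A (g z).re * deriv b (g z).im * (fderiv ℝ g z v).im := fun v => by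
        have h3 := (hA' (g z).re).comp_hasFDerivAt z dX
        have h4 := (((hb.differentiable (by simp)) (g z).im).hasDerivAt).comp_hasFDerivAt z dY0
        have h5 := (h3.mul h4).fderiv
        simp only [Function.comp_def] at h5
        have h6 : fderiv ℝ S z = _ := h5
        rw [h6]
        simp [hY, hAdef]
        ring
      have f2 := f1 I 1
      have f3 := f1 1 I
      have f4 : fderiv ℝ q z 1 = _ := f2
      have f5 : fderiv ℝ p z I = _ := f3
      rw [f4, f5, sY, sM, g2, g2, g1, g1]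
      unfold jac
      ring

theorem deg_T_int (a b : ℝ → ℝ) (ha : Continuous a) (hb : Continuous b)
    (ca : HasCompactSupport a) (cb : HasCompactSupport b) (c : ℂ) :
    Integrable (fun z : ℂ => a (z - c).re * b (z - c).im) := by
  have h1 : Integrable (fun z : ℂ => a z.re * b z.im) := by
    have h := Complex.volume_preserving_equiv_real_prod.integrable_comp_emb
      Complex.measurableEquivRealProd.measurableEmbedding (g := fun p : ℝ × ℝ => a p.1 * b p.2)
    exact h.2 ((ha.integrable_of_hasCompactSupport ca).mul_prod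
      (hb.integrable_of_hasCompactSupport cb))
  exact h1.comp_sub_right c

theorem deg_both (hE : IsCompact E) (hΘ : Test E Θ) {g : ℂ → ℂ}
    (hg : ContDiffOn ℝ ∞ g Eᶜ) (hfr : Framed E Θ g)
    (hinf : ∃ c : ℂ, ∃ R : ℝ, ∀ z, R ≤ ‖z‖ → g z = z - c) {a b : ℝ → ℝ}
    (ha : ContDiff ℝ ∞ a) (hb : ContDiff ℝ ∞ b) (ca : HasCompactSupport a)
    (cb : HasCompactSupport b) :
    IntegrableOn (fun z => a (g z).re * b (g z).im * jac g z) Eᶜ ∧
    ∫ z in Eᶜ, a (g z).re * b (g z).im * jac g z = (∫ x, a x) * ∫ y, b y := by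
  obtain ⟨c, P, Q, hP, hQ, cP, cQ, h⟩ := deg_core hE hΘ hg hfr hinf ha hb
  obtain ⟨i1, z1⟩ := deg_stokes hQ cQ 1
  obtain ⟨i2, z2⟩ := deg_stokes hP cP I
  have i3 := deg_T_int a b ha.continuous hb.continuous ca cb c
  have hm : MeasurableSet Eᶜ := hE.isClosed.isOpen_compl.measurableSet
  have e : indicator Eᶜ (fun z => a (g z).re * b (g z).im * jac g z)
      = fun z => (fderiv ℝ Q z 1 - fderiv ℝ P z I) + a (z - c).re * b (z - c).im := by
    funext z
    rw [h z]
    ring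
  have i4 : Integrable (indicator Eᶜ (fun z => a (g z).re * b (g z).im * jac g z)) := by
    rw [e]
    exact (i1.sub i2).add i3
  refine ⟨(integrable_indicator_iff hm).1 i4, ?_⟩
  have e2 : ∫ z, (fderiv ℝ Q z 1 - fderiv ℝ P z I) = 0 := by
    rw [integral_sub i1 i2, z1, z2, sub_zero]
  have e3 : ∫ z, ((fderiv ℝ Q z 1 - fderiv ℝ P z I) + a (z - c).re * b (z - c).im)
      = (∫ z, (fderiv ℝ Q z 1 - fderiv ℝ P z I)) + ∫ z : ℂ, a (z - c).re * b (z - c).im :=
    integral_add (i1.sub i2) i3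
  rw [← integral_indicator hm, e, e3, e2, deg_prod, zero_add]

theorem integrableOn_degree (hE : IsCompact E) (hΘ : Test E Θ) {g : ℂ → ℂ}
    (hg : ContDiffOn ℝ ∞ g Eᶜ) (hfr : Framed E Θ g)
    (hinf : ∃ c : ℂ, ∃ R : ℝ, ∀ z, R ≤ ‖z‖ → g z = z - c) {a b : ℝ → ℝ}
    (ha : ContDiff ℝ ∞ a) (hb : ContDiff ℝ ∞ b) (ca : HasCompactSupport a)
    (cb : HasCompactSupport b) :
    IntegrableOn (fun z => a (g z).re * b (g z).im * jac g z) Eᶜ :=
  (deg_both hE hΘ hg hfr hinf ha hb ca cb).1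

theorem degree (hE : IsCompact E) (hΘ : Test E Θ) {g : ℂ → ℂ}
    (hg : ContDiffOn ℝ ∞ g Eᶜ) (hfr : Framed E Θ g)
    (hinf : ∃ c : ℂ, ∃ R : ℝ, ∀ z, R ≤ ‖z‖ → g z = z - c) {a b : ℝ → ℝ}
    (ha : ContDiff ℝ ∞ a) (hb : ContDiff ℝ ∞ b) (ca : HasCompactSupport a)
    (cb : HasCompactSupport b) :
    ∫ z in Eᶜ, a (g z).re * b (g z).im * jac g z = (∫ x, a x) * ∫ y, b y :=
  (deg_both hE hΘ hg hfr hinf ha hb ca cb).2

end Pool.Recti
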