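import Pool.Agent.Recti.Ortho

/-!
# The range of `∂̄` on the class `Cls E Θ` is dense

PROOF of `dense`.  In the real Hilbert space `L²(D; ℂ)` (`Lp ℂ 2 (volume.restrict Eᶜ)`, real inner
product `⟪u, v⟫ = Re ∫ conj u v`) the classes of `dbar φ`, `φ ∈ Cls`, form a real subspace (`dbar φ` is
square integrable by `norm_dbar_le` and `Cls.energy`).  If `g` is orthogonal to it then
`Re ∫ conj g dbar φ = 0` for all `φ`, so `conj g = 0` a.e. by `ortho`; so the subspace is dense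
(`Submodule.topologicalClosure_eq_top_iff`).
-/

set_option autoImplicit false

open Complex MeasureTheory Set Filter Topology Metric
open scoped ContDiff

namespace Pool.Recti

open Pool.Lib (dbar)

variable {E : Set ℂ} {Θ : ℂ → ℝ}

theorem dense_memLp (hE : IsCompact E) {φ : ℂ → ℂ} (hφ : Cls E Θ φ) :
    MemLp (dbar φ) 2 (volume.restrict Eᶜ) := by
  have hO := hE.isClosed.isOpen_compl
  have h1 : ContinuousOn (fderiv ℝ φ) Eᶜ :=
    hφ.smooth.continuousOn_fderiv_of_isOpen hO (by simp)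
  have h2 : ContinuousOn (dbar φ) Eᶜ := by
    have h3 : ContinuousOn (fun z => (fderiv ℝ φ z 1 + I * fderiv ℝ φ z I) / 2) Eᶜ := by
      apply ContinuousOn.div_const
      apply ContinuousOn.add
      · exact h1.clm_apply continuousOn_const
      · exact continuousOn_const.mul (h1.clm_apply continuousOn_const)
    exact h3
  have h4 : AEStronglyMeasurable (dbar φ) (volume.restrict Eᶜ) :=
    h2.aestronglyMeasurable hO.measurableSet
  rw [memLp_two_iff_integrable_sq_norm h4]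
  refine Integrable.mono' hφ.energy (h4.norm.pow 2) ?_
  refine Eventually.of_forall (fun z => ?_)
  rw [Real.norm_eq_abs, abs_of_nonneg (by positivity)]
  exact pow_le_pow_left₀ (norm_nonneg _) (norm_dbar_le φ z) 2

theorem dense_dbar_smul (c : ℝ) {φ : ℂ → ℂ} {z : ℂ} (hφ : DifferentiableAt ℝ φ z) :
    dbar (fun w => (c : ℂ) * φ w) z = (c : ℂ) * dbar φ z := by
  unfold Pool.Lib.dbar
  have h1 : fderiv ℝ (fun z => (c : ℂ) * φ z) z = (c : ℂ) • fderiv ℝ φ z :=
    fderiv_const_mul hφ _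
  rw [h1]
  simp only [FunLike.coe_smul, Pi.smul_apply, smul_eq_mul]
  ring

/-- the subspace of the classes of `dbar φ` -/
noncomputable def denseSub (hE : IsCompact E) (Θ : ℂ → ℝ) :
    Submodule ℝ (Lp ℂ 2 (volume.restrict Eᶜ)) where
  carrier := {u | ∃ φ : ℂ → ℂ, Cls E Θ φ ∧ (u : ℂ → ℂ) =ᵐ[volume.restrict Eᶜ] dbar φ}
  add_mem' := by
    rintro u v ⟨φ, hφ, hu⟩ ⟨ψ, hψ, hv⟩
    refine ⟨fun z => φ z + ψ z, hφ.add hE hψ, ?_⟩
    filter_upwards [hu, hv, Lp.coeFn_add u v,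
      ae_restrict_mem hE.isClosed.isOpen_compl.measurableSet] with z h1 h2 h3 hz
    rw [h3, Pi.add_apply, h1, h2,
      dbar_add (Cls.diffAt hE hφ.smooth hz) (Cls.diffAt hE hψ.smooth hz)]
  zero_mem' := by
    refine ⟨fun _ => 0, Cls.zero, ?_⟩
    filter_upwards [Lp.coeFn_zero ℂ 2 (volume.restrict Eᶜ)] with z h1
    rw [h1, Pi.zero_apply]
    exact (Pool.Lib.dbar_eq_zero (differentiableAt_const _)).symm
  smul_mem' := by
    rintro c u ⟨φ, hφ, hu⟩
    refine ⟨fun z => (c : ℂ) * φ z, hφ.smul hE c, ?_⟩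
    filter_upwards [hu, Lp.coeFn_smul c u,
      ae_restrict_mem hE.isClosed.isOpen_compl.measurableSet] with z h1 h3 hz
    rw [h3, Pi.smul_apply, h1, dense_dbar_smul c (Cls.diffAt hE hφ.smooth hz), real_smul]

theorem dense (hE : IsCompact E) (hD : IsConnected Eᶜ) (hΘ : Test E Θ) {κ : ℂ → ℂ}
    (hκ : MemLp κ 2 (volume.restrict Eᶜ)) {ε : ℝ} (hε : 0 < ε) :
    ∃ φ : ℂ → ℂ, Cls E Θ φ ∧ ∫ z in Eᶜ, ‖dbar φ z - κ z‖ ^ 2 ≤ ε := by
  have hbot : (denseSub hE Θ)ᗮ = ⊥ := by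
    rw [Submodule.eq_bot_iff]
    intro g hg
    have hgL : MemLp (fun z => (starRingEnd ℂ) ((g : ℂ → ℂ) z)) 2 (volume.restrict Eᶜ) :=
      (Lp.memLp g).star
    have h1 := ortho hE hD hΘ hgL (by
      intro φ hφ
      have hφL := dense_memLp hE hφ
      have h2 : inner ℝ (hφL.toLp (dbar φ)) g = 0 := by
        apply (Submodule.mem_orthogonal _ g).1 hg
        exact ⟨φ, hφ, hφL.coeFn_toLp⟩
      rw [L2.inner_def] at h2
      have h3 : Integrable (fun z => (starRingEnd ℂ) ((g : ℂ → ℂ) z) * dbar φ z)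
          (volume.restrict Eᶜ) := hgL.integrable_mul hφL
      have h4 : (∫ z in Eᶜ, (starRingEnd ℂ) ((g : ℂ → ℂ) z) * dbar φ z).re
          = ∫ z in Eᶜ, ((starRingEnd ℂ) ((g : ℂ → ℂ) z) * dbar φ z).re :=
        (reCLM.integral_comp_comm h3).symm
      rw [h4, ← h2]
      apply integral_congr_ae
      filter_upwards [hφL.coeFn_toLp] with z hz
      rw [hz, Complex.inner]
      simp only [mul_re, conj_re, conj_im]
      ring)
    apply Lp.ext
    filter_upwards [h1, Lp.coeFn_zero ℂ 2 (volume.restrict Eᶜ)] with z hz h0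
    rw [h0]
    have h5 : (starRingEnd ℂ) ((g : ℂ → ℂ) z) = 0 := hz
    simpa using h5
  have htop : (denseSub hE Θ).topologicalClosure = ⊤ :=
    (Submodule.topologicalClosure_eq_top_iff).2 hbot
  have hmem : hκ.toLp κ ∈ closure ((denseSub hE Θ : Submodule ℝ _) : Set (Lp ℂ 2 _)) := by
    rw [← Submodule.topologicalClosure_coe, htop]
    exact Submodule.mem_top
  obtain ⟨u, ⟨φ, hφ, hu⟩, hdist⟩ := Metric.mem_closure_iff.1 hmem (Real.sqrt ε)
    (Real.sqrt_pos.2 hε)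
  refine ⟨φ, hφ, ?_⟩
  have h6 : ∫ z in Eᶜ, ‖dbar φ z - κ z‖ ^ 2 = ‖u - hκ.toLp κ‖ ^ 2 := by
    rw [← real_inner_self_eq_norm_sq, L2.inner_def]
    apply integral_congr_ae
    filter_upwards [hu, hκ.coeFn_toLp, Lp.coeFn_sub u (hκ.toLp κ)] with z h1 h2 h3
    rw [h3, Pi.sub_apply, h1, h2, real_inner_self_eq_norm_sq]
  rw [h6, ← dist_eq_norm, dist_comm]
  calc (dist (hκ.toLp κ) u) ^ 2 ≤ (Real.sqrt ε) ^ 2 :=
        pow_le_pow_left₀ dist_nonneg hdist.le 2
    _ = ε := Real.sq_sqrt hε.le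

end Pool.Recti
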