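import Pool.Agent.Recti.Defs
import Pool.Agent.Lib.Conformal

/-!
# Holomorphic functions near infinity

PROOFS.
* `decay`: For `R < ‖z‖` and a closed disc `B(z, r)` in the domain the mean value property and
  Cauchy-Schwarz give `‖h z‖² ≤ (1/(π r²)) ∫_{B(z,r)} ‖h‖²`.  With `r = ‖z‖/2` (`‖z‖` large) the integral
  tends to `0`, so `z h(z) → 0` at infinity.  Then `k ζ = h (1/ζ) / ζ` has a removable singularity at
  `0` with value `0`, so `m ζ = h (1/ζ) / ζ²` is holomorphic on `‖ζ‖ < 1/R` (removable singularity).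
  On `‖ζ‖ = 1/(2R)`: `‖h(1/ζ)‖ ≤ A / R` (disc of radius `R`, `1/√π ≤ 1`), so `‖m‖ ≤ 4 R A` there, and
  by the maximum principle on `‖ζ‖ ≤ 1/(2R)`.
* `exists_limit`: along a ray, `‖f (t z) - f z‖ ≤ ∫_1^t C/(s² ‖z‖) ds ≤ C/‖z‖`, so the limits along
  rays exist; they agree because `‖f z - f z'‖ ≤ 2 π ‖z‖ C/‖z‖²` for `‖z‖ = ‖z'‖` (or: `ζ ↦ f (1/ζ)` has bounded
  derivative `-F(1/ζ)/ζ²` on a punctured disc, which extends holomorphically, so it has a holomorphic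
  extension to the disc, whose derivative is bounded by `C`).
* `image_bound`: Let `V = {w | R + δ < ‖w‖}` (preconnected) and `S = V ∩ f '' {z | R < ‖z‖}`.  `S` is open
  (open mapping), nonempty, and relatively closed in `V`: if `f z_k → w ∈ V`, `R < ‖z_k‖`, then `z_k` is
  bounded (`‖f z_k - z_k‖ ≤ δ`), take a limit point `z`, `R ≤ ‖z‖`, `f z = w`; `‖z‖ = R` would give
  `‖w‖ ≤ R + δ`.  So `V ⊆ f '' {R < ‖z‖}` and by injectivity `f z ∉ V` for `‖z‖ ≤ R`.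
* `tendsto_atInfty_of`: trivial from the bound.
-/

set_option autoImplicit false

open Complex MeasureTheory Set Filter Topology Metric
open scoped ContDiff

namespace Pool.Recti

namespace InftyAux

/-- the mean value estimate on circles -/
theorem circle_mean {h : ℂ → ℂ} {z : ℂ} {r s : ℝ} (hs : 0 < s) (hsr : s < r)
    (hd : DifferentiableOn ℂ h (ball z r)) :
    2 * Real.pi * ‖h z‖ ^ 2 ≤ ∫ θ in (-Real.pi)..Real.pi, ‖h (circleMap z s θ)‖ ^ 2 := by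
  have hsub : closedBall z s ⊆ ball z r := closedBall_subset_ball hsr
  have hd2 : DiffContOnCl ℂ (fun w => h w ^ 2) (ball z |s|) := by
    rw [abs_of_pos hs]
    have : DifferentiableOn ℂ (fun w => h w ^ 2) (closure (ball z s)) := by
      rw [closure_ball z hs.ne']
      exact (hd.mono hsub).pow 2
    exact this.diffContOnCl
  have hcircle := DiffContOnCl.circleAverage hd2
  rw [Real.circleAverage] at hcircle
  have hcont : Continuous fun θ : ℝ => h (circleMap z s θ) := by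
    have h1 : ContinuousOn h (closedBall z s) := hd.continuousOn.mono hsub
    exact h1.comp_continuous (continuous_circleMap z s) fun θ =>
      circleMap_mem_closedBall z hs.le θ
  have hper : Function.Periodic (fun θ : ℝ => ‖h (circleMap z s θ)‖ ^ 2) (2 * Real.pi) := by
    intro θ
    simp only [periodic_circleMap z s θ]
  have hshift : ∫ θ in (-Real.pi)..Real.pi, ‖h (circleMap z s θ)‖ ^ 2 =
      ∫ θ in (0 : ℝ)..(2 * Real.pi), ‖h (circleMap z s θ)‖ ^ 2 := by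
    have := hper.intervalIntegral_add_eq (-Real.pi) 0
    rw [show -Real.pi + 2 * Real.pi = Real.pi by ring, zero_add] at this
    exact this
  rw [hshift]
  have h1 : ‖∫ θ in (0 : ℝ)..(2 * Real.pi), h (circleMap z s θ) ^ 2‖ ≤
      ∫ θ in (0 : ℝ)..(2 * Real.pi), ‖h (circleMap z s θ) ^ 2‖ :=
    intervalIntegral.norm_integral_le_integral_norm Real.two_pi_pos.le
  have h2 : ∫ θ in (0 : ℝ)..(2 * Real.pi), h (circleMap z s θ) ^ 2 =
      (2 * Real.pi) • h z ^ 2 := by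
    rw [← hcircle, smul_smul, mul_inv_cancel₀ Real.two_pi_pos.ne', one_smul]
  rw [h2, norm_smul, Real.norm_of_nonneg Real.two_pi_pos.le, norm_pow] at h1
  refine h1.trans (le_of_eq ?_)
  simp only [norm_pow]

end InftyAux

open InftyAux

/-- the mean value estimate -/
theorem norm_sq_le_integral {h : ℂ → ℂ} {z : ℂ} {r : ℝ} (hr : 0 < r)
    (hd : DifferentiableOn ℂ h (ball z r)) (hint : IntegrableOn (fun w => ‖h w‖ ^ 2) (ball z r)) :
    ‖h z‖ ^ 2 ≤ (1 / (Real.pi * r ^ 2)) * ∫ w in ball z r, ‖h w‖ ^ 2 := by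
  have hpi := Real.pi_pos
  obtain ⟨G, hG⟩ : ∃ G : ℂ → ENNReal, G = (ball z r).indicator fun w => ENNReal.ofReal (‖h w‖ ^ 2) :=
    ⟨_, rfl⟩
  have hGm : Measurable G := by
    classical
    have h1 : ContinuousOn (fun w => ENNReal.ofReal (‖h w‖ ^ 2)) (ball z r) :=
      ENNReal.continuous_ofReal.comp_continuousOn ((hd.continuousOn.norm).pow 2)
    have h2 : Measurable ((ball z r).piecewise (fun w => ENNReal.ofReal (‖h w‖ ^ 2)) 0) :=
      h1.measurable_piecewise continuousOn_const measurableSet_ball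
    rw [hG, ← Set.piecewise_eq_indicator]
    exact h2
  have e1 : ENNReal.ofReal (∫ w in ball z r, ‖h w‖ ^ 2) = ∫⁻ w, G (z + w) := by
    rw [ofReal_integral_eq_lintegral_ofReal hint (Eventually.of_forall fun w => by positivity),
      lintegral_add_left_eq_self G z, hG, lintegral_indicator measurableSet_ball]
  have hcm : ∀ p : ℝ × ℝ, z + Complex.polarCoord.symm p = circleMap z p.1 p.2 := by
    intro p
    rw [Complex.polarCoord_symm_apply, circleMap, Complex.exp_mul_I]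
    push_cast
    ring
  have hcmc : Continuous fun p : ℝ × ℝ => circleMap z p.1 p.2 := by
    unfold circleMap
    fun_prop
  have e2 : ∫⁻ p in polarCoord.target, ENNReal.ofReal p.1 * G (circleMap z p.1 p.2) =
      ∫⁻ w, G (z + w) := by
    rw [← Complex.lintegral_comp_polarCoord_symm]
    refine lintegral_congr fun p => ?_
    rw [hcm, smul_eq_mul]
  have hsub : Ioo (0 : ℝ) r ×ˢ Ioo (-Real.pi) Real.pi ⊆ polarCoord.target := by
    rw [polarCoord_target]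
    exact prod_mono Ioo_subset_Ioi_self Subset.rfl
  have hKm : Measurable fun p : ℝ × ℝ => ENNReal.ofReal p.1 * G (circleMap z p.1 p.2) :=
    measurable_fst.ennreal_ofReal.mul (hGm.comp hcmc.measurable)
  have e3 : ∫⁻ s in Ioo (0 : ℝ) r, ∫⁻ θ in Ioo (-Real.pi) Real.pi,
      ENNReal.ofReal s * G (circleMap z s θ) ≤ ∫⁻ w, G (z + w) := by
    rw [← e2]
    refine le_trans (le_of_eq ?_) (lintegral_mono_set hsub)
    rw [Measure.volume_eq_prod, ← Measure.prod_restrict, lintegral_prod _ hKm.aemeasurable]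
  have e4 : ∫⁻ s in Ioo (0 : ℝ) r, ENNReal.ofReal (s * (2 * Real.pi * ‖h z‖ ^ 2)) ≤
      ∫⁻ s in Ioo (0 : ℝ) r, ∫⁻ θ in Ioo (-Real.pi) Real.pi,
      ENNReal.ofReal s * G (circleMap z s θ) := by
    refine setLIntegral_mono' measurableSet_Ioo fun s hs => ?_
    have hmem : ∀ θ : ℝ, circleMap z s θ ∈ ball z r := fun θ =>
      closedBall_subset_ball hs.2 (circleMap_mem_closedBall z hs.1.le θ)
    have hcont : Continuous fun θ : ℝ => ‖h (circleMap z s θ)‖ ^ 2 :=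
      ((hd.continuousOn.comp_continuous (continuous_circleMap z s) hmem).norm).pow 2
    have hint2 : IntegrableOn (fun θ : ℝ => ‖h (circleMap z s θ)‖ ^ 2) (Ioo (-Real.pi) Real.pi) :=
      (hcont.integrableOn_Icc (a := -Real.pi) (b := Real.pi)).mono_set Ioo_subset_Icc_self
    have e5 : ∫⁻ θ in Ioo (-Real.pi) Real.pi, ENNReal.ofReal s * G (circleMap z s θ) =
        ENNReal.ofReal (s * ∫ θ in Ioo (-Real.pi) Real.pi, ‖h (circleMap z s θ)‖ ^ 2) := by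
      rw [ENNReal.ofReal_mul hs.1.le, lintegral_const_mul' _ _ ENNReal.ofReal_ne_top,
        ofReal_integral_eq_lintegral_ofReal hint2 (Eventually.of_forall fun w => by positivity)]
      congr 1
      refine lintegral_congr fun θ => ?_
      rw [hG, indicator_of_mem (hmem θ)]
    rw [e5]
    apply ENNReal.ofReal_le_ofReal
    apply mul_le_mul_of_nonneg_left _ hs.1.le
    have := circle_mean hs.1 hs.2 hd
    rwa [intervalIntegral.integral_of_le (by linarith), integral_Ioc_eq_integral_Ioo] at this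
  have e6 : ∫⁻ s in Ioo (0 : ℝ) r, ENNReal.ofReal (s * (2 * Real.pi * ‖h z‖ ^ 2)) =
      ENNReal.ofReal (Real.pi * r ^ 2 * ‖h z‖ ^ 2) := by
    have hint3 : IntegrableOn (fun s : ℝ => s * (2 * Real.pi * ‖h z‖ ^ 2)) (Ioo 0 r) :=
      ((continuous_id.mul continuous_const).integrableOn_Icc (a := (0 : ℝ)) (b := r)).mono_set
        Ioo_subset_Icc_self
    rw [← ofReal_integral_eq_lintegral_ofReal hint3]
    · congr 1
      rw [← integral_Ioc_eq_integral_Ioo, ← intervalIntegral.integral_of_le hr.le,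
        intervalIntegral.integral_mul_const, integral_id]
      ring
    · filter_upwards [ae_restrict_mem measurableSet_Ioo] with s hs
      have := hs.1
      positivity
  have e7 : ENNReal.ofReal (Real.pi * r ^ 2 * ‖h z‖ ^ 2) ≤
      ENNReal.ofReal (∫ w in ball z r, ‖h w‖ ^ 2) := by
    rw [e1, ← e6]
    exact e4.trans e3
  have h0 : 0 ≤ ∫ w in ball z r, ‖h w‖ ^ 2 := integral_nonneg fun w => by positivity
  rw [ENNReal.ofReal_le_ofReal_iff h0] at e7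
  rw [one_div, ← div_eq_inv_mul, le_div_iff₀ (by positivity)]
  linarith

theorem decay {h : ℂ → ℂ} {R A : ℝ} (hR : 0 < R) (hA : 0 ≤ A)
    (hd : DifferentiableOn ℂ h {z | R < ‖z‖})
    (hint : IntegrableOn (fun z => ‖h z‖ ^ 2) {z | R < ‖z‖})
    (hle : ∫ z in {z | R < ‖z‖}, ‖h z‖ ^ 2 ≤ A ^ 2) {z : ℂ} (hz : 2 * R ≤ ‖z‖) :
    ‖h z‖ ≤ 4 * R * A / ‖z‖ ^ 2 := by
  have hpi := Real.pi_pos
  have hpi3 := Real.pi_gt_three
  have hopen : ∀ ρ : ℝ, IsOpen {z : ℂ | ρ < ‖z‖} := fun ρ => isOpen_lt continuous_const continuous_norm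
  have hballR : ∀ (w : ℂ) (r ρ : ℝ), ρ + r ≤ ‖w‖ → ball w r ⊆ {z : ℂ | ρ < ‖z‖} := by
    intro w r ρ hr v hv
    rw [mem_ball, dist_eq_norm] at hv
    have h1 : ‖w‖ ≤ ‖v‖ + ‖v - w‖ := by
      have := norm_sub_le v (v - w)
      rw [sub_sub_cancel] at this
      exact this
    show ρ < ‖v‖
    linarith
  -- the tails
  obtain ⟨T, hT⟩ : ∃ T : ℕ → ℝ, T = fun n : ℕ => ∫ w in {z : ℂ | R < ‖z‖ ∧ (n : ℝ) < ‖z‖},
      ‖h w‖ ^ 2 := ⟨_, rfl⟩
  have hTlim : Tendsto T atTop (𝓝 0) := by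
    have h1 : Tendsto T atTop (𝓝 (∫ w in ⋂ n : ℕ, {z : ℂ | R < ‖z‖ ∧ (n : ℝ) < ‖z‖}, ‖h w‖ ^ 2)) := by
      rw [hT]
      apply tendsto_setIntegral_of_antitone
      · intro n
        exact ((hopen R).inter (hopen n)).measurableSet
      · intro m n hmn v hv
        refine ⟨hv.1, lt_of_le_of_lt ?_ hv.2⟩
        exact_mod_cast hmn
      · exact ⟨0, hint.mono_set fun v hv => hv.1⟩
    have h2 : (⋂ n : ℕ, {z : ℂ | R < ‖z‖ ∧ (n : ℝ) < ‖z‖}) = ∅ := by
      rw [eq_empty_iff_forall_notMem]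
      intro v hv
      rw [mem_iInter] at hv
      obtain ⟨n, hn⟩ := exists_nat_gt ‖v‖
      have := (hv n).2
      linarith
    rw [h2, setIntegral_empty] at h1
    exact h1
  -- `w * h w` tends to zero at infinity
  have hsmall : ∀ ε > 0, ∃ ρ : ℝ, 0 < ρ ∧ ∀ w : ℂ, ρ < ‖w‖ → ‖w‖ * ‖h w‖ ≤ ε := by
    intro ε hε
    obtain ⟨n, hn⟩ := (hTlim.eventually (gt_mem_nhds (show 0 < ε ^ 2 / 2 by positivity))).exists
    refine ⟨2 * R + 2 * n + 1, by positivity, fun w hw => ?_⟩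
    have hn0 : (0 : ℝ) ≤ n := Nat.cast_nonneg n
    have hw0 : 0 < ‖w‖ := by linarith
    have hsub1 : ball w (‖w‖ / 2) ⊆ {z : ℂ | R < ‖z‖} := hballR w _ R (by linarith)
    have hsub2 : ball w (‖w‖ / 2) ⊆ {z : ℂ | R < ‖z‖ ∧ (n : ℝ) < ‖z‖} := fun v hv =>
      ⟨hsub1 hv, hballR w (‖w‖ / 2) n (by linarith) hv⟩
    have h1 := norm_sq_le_integral (half_pos hw0) (hd.mono hsub1) (hint.mono_set hsub1)
    have h2 : ∫ v in ball w (‖w‖ / 2), ‖h v‖ ^ 2 ≤ T n := by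
      rw [hT]
      apply setIntegral_mono_set (hint.mono_set fun v hv => hv.1)
      · exact Eventually.of_forall fun v => by positivity
      · exact hsub2.eventuallyLE
    have h3 : ‖h w‖ ^ 2 ≤ (1 / (Real.pi * (‖w‖ / 2) ^ 2)) * (ε ^ 2 / 2) :=
      h1.trans (mul_le_mul_of_nonneg_left (h2.trans hn.le) (by positivity))
    have h4 : (‖w‖ * ‖h w‖) ^ 2 ≤ ε ^ 2 := by
      have h5 : (‖w‖ * ‖h w‖) ^ 2 ≤ ‖w‖ ^ 2 * ((1 / (Real.pi * (‖w‖ / 2) ^ 2)) * (ε ^ 2 / 2)) := by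
        rw [mul_pow]
        exact mul_le_mul_of_nonneg_left h3 (by positivity)
      have h6 : ‖w‖ ^ 2 * ((1 / (Real.pi * (‖w‖ / 2) ^ 2)) * (ε ^ 2 / 2)) = (2 / Real.pi) * ε ^ 2 := by
        field_simp
      have h7 : 2 / Real.pi ≤ 1 := by
        rw [div_le_one hpi]
        linarith
      rw [h6] at h5
      nlinarith [sq_nonneg ε]
    exact (sq_le_sq₀ (by positivity) hε.le).mp h4
  -- the inverted function
  obtain ⟨k, hk⟩ : ∃ k : ℂ → ℂ, k = fun ζ => h ζ⁻¹ / ζ ^ 2 := ⟨_, rfl⟩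
  have hinv : ∀ ζ : ℂ, ζ ∈ ball (0 : ℂ) R⁻¹ \ {0} → R < ‖ζ⁻¹‖ := by
    rintro ζ ⟨hζ, hζ0⟩
    rw [mem_ball_zero_iff] at hζ
    have h0 : 0 < ‖ζ‖ := norm_pos_iff.mpr hζ0
    rw [norm_inv]
    exact (lt_inv_comm₀ hR h0).mpr hζ
  have hkd : DifferentiableOn ℂ k (ball 0 R⁻¹ \ {0}) := by
    rw [hk]
    have hne : ∀ ζ ∈ ball (0 : ℂ) R⁻¹ \ {0}, ζ ≠ 0 := fun ζ hζ => hζ.2
    have h1 : DifferentiableOn ℂ (fun ζ : ℂ => ζ⁻¹) (ball 0 R⁻¹ \ {0}) :=
      differentiableOn_id.inv hne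
    have h2 : DifferentiableOn ℂ (fun ζ : ℂ => h ζ⁻¹) (ball 0 R⁻¹ \ {0}) :=
      hd.comp h1 fun ζ hζ => hinv ζ hζ
    exact h2.div (differentiableOn_id.pow 2) fun ζ hζ => pow_ne_zero 2 (hne ζ hζ)
  have hko : (fun ζ => k ζ - k 0) =o[𝓝[≠] 0] fun ζ => (ζ - 0)⁻¹ := by
    rw [Asymptotics.isLittleO_iff]
    intro ε hε
    obtain ⟨ρ, hρ, hs⟩ := hsmall ε hε
    have hev : ∀ᶠ ζ in 𝓝[≠] (0 : ℂ), ζ ∈ ball (0 : ℂ) ρ⁻¹ \ {0} := by
      apply inter_mem
      · exact mem_nhdsWithin_of_mem_nhds (ball_mem_nhds 0 (inv_pos.mpr hρ))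
      · exact self_mem_nhdsWithin
    filter_upwards [hev] with ζ hζ
    have hζ0 : ζ ≠ 0 := hζ.2
    have h0 : 0 < ‖ζ‖ := norm_pos_iff.mpr hζ0
    have h1 : ρ < ‖ζ⁻¹‖ := by
      have := hζ.1
      rw [mem_ball_zero_iff] at this
      rw [norm_inv]
      exact (lt_inv_comm₀ hρ h0).mpr this
    have h2 := hs ζ⁻¹ h1
    have hk0 : k 0 = 0 := by rw [hk]; simp
    rw [hk0, sub_zero, sub_zero, hk]
    simp only [norm_div, norm_pow, norm_inv]
    rw [norm_inv] at h2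
    rw [div_le_iff₀ (by positivity)]
    have h3 : ε * ‖ζ‖⁻¹ * ‖ζ‖ ^ 2 = ε * ‖ζ‖ := by
      field_simp
    rw [h3]
    have h4 := mul_le_mul_of_nonneg_right h2 h0.le
    calc ‖h ζ⁻¹‖ = ‖ζ‖⁻¹ * ‖h ζ⁻¹‖ * ‖ζ‖ := by field_simp
      _ ≤ ε * ‖ζ‖ := h4
  have hmem0 : ball (0 : ℂ) R⁻¹ ∈ 𝓝 (0 : ℂ) := ball_mem_nhds 0 (inv_pos.mpr hR)
  have hm := differentiableOn_update_limUnder_of_isLittleO hmem0 hkd hko
  obtain ⟨m, hmdef⟩ : ∃ m : ℂ → ℂ, m = Function.update k 0 (limUnder (𝓝[≠] 0) k) := ⟨_, rfl⟩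
  rw [← hmdef] at hm
  have hmk : ∀ ζ : ℂ, ζ ≠ 0 → m ζ = h ζ⁻¹ / ζ ^ 2 := by
    intro ζ hζ
    rw [hmdef, Function.update_of_ne hζ, hk]
  have hhalf : (2 * R)⁻¹ < R⁻¹ := by
    rw [inv_lt_inv₀ (by positivity) hR]
    linarith
  have h2R : (0 : ℝ) < (2 * R)⁻¹ := by positivity
  have hdc : DiffContOnCl ℂ m (ball 0 (2 * R)⁻¹) := by
    have : DifferentiableOn ℂ m (closure (ball 0 (2 * R)⁻¹)) := by
      rw [closure_ball _ h2R.ne']
      exact hm.mono (closedBall_subset_ball hhalf)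
    exact this.diffContOnCl
  have hfr : ∀ ζ ∈ frontier (ball (0 : ℂ) (2 * R)⁻¹), ‖m ζ‖ ≤ 4 * R * A := by
    intro ζ hζ
    rw [frontier_ball _ h2R.ne', mem_sphere_zero_iff_norm] at hζ
    have hζ0 : ζ ≠ 0 := by
      intro h0
      rw [h0, norm_zero] at hζ
      exact h2R.ne hζ
    have hn : ‖ζ⁻¹‖ = 2 * R := by rw [norm_inv, hζ, inv_inv]
    have hsub : ball ζ⁻¹ R ⊆ {z : ℂ | R < ‖z‖} := hballR _ R R (by rw [hn]; linarith)
    have h1 := norm_sq_le_integral hR (hd.mono hsub) (hint.mono_set hsub)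
    have h2 : ∫ v in ball ζ⁻¹ R, ‖h v‖ ^ 2 ≤ A ^ 2 := by
      refine le_trans ?_ hle
      apply setIntegral_mono_set hint
      · exact Eventually.of_forall fun v => by positivity
      · exact hsub.eventuallyLE
    have h3 : ‖h ζ⁻¹‖ ^ 2 ≤ (A / R) ^ 2 := by
      have h5 : (1 / (Real.pi * R ^ 2)) ≤ 1 / R ^ 2 := by
        apply one_div_le_one_div_of_le (by positivity)
        have : 0 < R ^ 2 := by positivity
        nlinarith
      calc ‖h ζ⁻¹‖ ^ 2 ≤ (1 / (Real.pi * R ^ 2)) * ∫ v in ball ζ⁻¹ R, ‖h v‖ ^ 2 := h1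
        _ ≤ (1 / (Real.pi * R ^ 2)) * A ^ 2 := mul_le_mul_of_nonneg_left h2 (by positivity)
        _ ≤ (1 / R ^ 2) * A ^ 2 := mul_le_mul_of_nonneg_right h5 (by positivity)
        _ = (A / R) ^ 2 := by rw [div_pow]; ring
    have h4 : ‖h ζ⁻¹‖ ≤ A / R := (sq_le_sq₀ (norm_nonneg _) (by positivity)).mp h3
    rw [hmk ζ hζ0, norm_div, norm_pow, hζ, div_le_iff₀ (by positivity)]
    refine h4.trans (le_of_eq ?_)
    field_simp
    ring
  have hz0 : 0 < ‖z‖ := by linarith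
  have hzne : z ≠ 0 := norm_pos_iff.mp hz0
  have hzcl : z⁻¹ ∈ closure (ball (0 : ℂ) (2 * R)⁻¹) := by
    rw [closure_ball _ h2R.ne', mem_closedBall_zero_iff, norm_inv]
    exact inv_anti₀ (by positivity) hz
  have hfin := norm_le_of_forall_mem_frontier_norm_le isBounded_ball hdc hfr hzcl
  rw [hmk z⁻¹ (inv_ne_zero hzne), inv_inv, norm_div, norm_pow, norm_inv,
    div_le_iff₀ (by positivity)] at hfin
  rw [le_div_iff₀ (by positivity)]
  calc ‖h z‖ * ‖z‖ ^ 2 ≤ (4 * R * A * ‖z‖⁻¹ ^ 2) * ‖z‖ ^ 2 :=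
        mul_le_mul_of_nonneg_right hfin (by positivity)
    _ = 4 * R * A := by field_simp

namespace InftyAux

/-- the estimate along a ray -/
theorem ray_le {f F : ℂ → ℂ} {R C : ℝ} (hR : 0 < R)
    (hf : ∀ z, R < ‖z‖ → HasDerivAt f (F z) z) (hF : ∀ z, R < ‖z‖ → ‖F z‖ ≤ C / ‖z‖ ^ 2)
    {z : ℂ} (hz : R < ‖z‖) {T : ℝ} (hT : 1 ≤ T) : ‖f (T * z) - f z‖ ≤ C / ‖z‖ := by
  have hz0 : 0 < ‖z‖ := hR.trans hz
  have hC : 0 ≤ C := by
    have h1 := (norm_nonneg _).trans (hF z hz)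
    by_contra hcon
    push Not at hcon
    have := div_neg_of_neg_of_pos hcon (show 0 < ‖z‖ ^ 2 by positivity)
    linarith
  have hnt : ∀ t : ℝ, 1 ≤ t → ‖(t : ℂ) * z‖ = t * ‖z‖ := by
    intro t ht
    rw [norm_mul, Complex.norm_real, Real.norm_of_nonneg (by linarith)]
  have hnR : ∀ t : ℝ, 1 ≤ t → R < ‖(t : ℂ) * z‖ := by
    intro t ht
    rw [hnt t ht]
    nlinarith
  have hder : ∀ t : ℝ, 1 ≤ t →
      HasDerivAt (fun t : ℝ => f ((t : ℂ) * z) - f z) (F ((t : ℂ) * z) * z) t := by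
    intro t ht
    have h1 : HasDerivAt (fun t : ℝ => (t : ℂ) * z) z t := by
      have : HasDerivAt (fun t : ℝ => (t : ℂ)) 1 t := ofRealCLM.hasDerivAt
      simpa using this.mul_const z
    exact ((hf _ (hnR t ht)).comp t h1).sub_const _
  have hB : ∀ t : ℝ, 1 ≤ t →
      HasDerivAt (fun t : ℝ => C / ‖z‖ * (1 - t⁻¹)) (C / ‖z‖ * (t ^ 2)⁻¹) t := by
    intro t ht
    have h1 : HasDerivAt (fun t : ℝ => t⁻¹) (-(t ^ 2)⁻¹) t := hasDerivAt_inv (by linarith)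
    have h2 := (h1.const_sub 1).const_mul (C / ‖z‖)
    rw [neg_neg] at h2
    exact h2
  have key := image_norm_le_of_norm_deriv_right_le_deriv_boundary'
    (f := fun t : ℝ => f ((t : ℂ) * z) - f z) (f' := fun t : ℝ => F ((t : ℂ) * z) * z)
    (a := 1) (b := T) (B := fun t : ℝ => C / ‖z‖ * (1 - t⁻¹))
    (B' := fun t : ℝ => C / ‖z‖ * (t ^ 2)⁻¹)
    (fun t ht => (hder t ht.1).continuousAt.continuousWithinAt)
    (fun t ht => (hder t ht.1).hasDerivWithinAt)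
    (by simp)
    (fun t ht => (hB t ht.1).continuousAt.continuousWithinAt)
    (fun t ht => (hB t ht.1).hasDerivWithinAt)
    (by
      intro t ht
      have ht0 : 0 < t := by linarith [ht.1]
      rw [norm_mul]
      have h1 := hF _ (hnR t ht.1)
      rw [hnt t ht.1] at h1
      calc ‖F ((t : ℂ) * z)‖ * ‖z‖ ≤ C / (t * ‖z‖) ^ 2 * ‖z‖ :=
            mul_le_mul_of_nonneg_right h1 hz0.le
        _ = C / ‖z‖ * (t ^ 2)⁻¹ := by
            field_simp)
  have h1 : ‖f ((T : ℂ) * z) - f z‖ ≤ C / ‖z‖ * (1 - T⁻¹) := key (x := T) ⟨hT, le_rfl⟩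
  refine h1.trans ?_
  have h2 : 0 ≤ T⁻¹ := by positivity
  have h3 : 0 ≤ C / ‖z‖ := by positivity
  nlinarith

/-- the estimate along an arc -/
theorem arc_le {f F : ℂ → ℂ} {R C : ℝ} (hR : 0 < R)
    (hf : ∀ z, R < ‖z‖ → HasDerivAt f (F z) z) (hF : ∀ z, R < ‖z‖ → ‖F z‖ ≤ C / ‖z‖ ^ 2)
    {z : ℂ} (hz : R < ‖z‖) : ‖f z - f (‖z‖ : ℂ)‖ ≤ C / ‖z‖ * Real.pi := by
  have hz0 : 0 < ‖z‖ := hR.trans hz
  have hn : ∀ θ : ℝ, ‖(‖z‖ : ℂ) * exp (θ * I)‖ = ‖z‖ := by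
    intro θ
    rw [norm_mul, Complex.norm_real, norm_norm, Complex.norm_exp_ofReal_mul_I, mul_one]
  have hder : ∀ θ : ℝ, HasDerivAt (fun θ : ℝ => f ((‖z‖ : ℂ) * exp (θ * I)))
      (F ((‖z‖ : ℂ) * exp (θ * I)) * ((‖z‖ : ℂ) * (exp (θ * I) * I))) θ := by
    intro θ
    have h1 : HasDerivAt (fun θ : ℝ => (‖z‖ : ℂ) * exp (θ * I)) ((‖z‖ : ℂ) * (exp (θ * I) * I)) θ := by
      have h2 : HasDerivAt (fun θ : ℝ => (θ : ℂ)) 1 θ := ofRealCLM.hasDerivAt
      have h3 := ((h2.mul_const I).cexp).const_mul (‖z‖ : ℂ)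
      rw [one_mul] at h3
      exact h3
    exact (hf _ (by rw [hn θ]; exact hz)).comp θ h1
  have hbd : ∀ θ : ℝ, ‖F ((‖z‖ : ℂ) * exp (θ * I)) * ((‖z‖ : ℂ) * (exp (θ * I) * I))‖ ≤ C / ‖z‖ := by
    intro θ
    rw [norm_mul, norm_mul, norm_mul, Complex.norm_real, norm_norm,
      Complex.norm_exp_ofReal_mul_I, norm_I, mul_one, mul_one]
    have h1 := hF _ (show R < ‖(‖z‖ : ℂ) * exp (θ * I)‖ by rw [hn θ]; exact hz)
    rw [hn θ] at h1
    calc _ ≤ C / ‖z‖ ^ 2 * ‖z‖ := mul_le_mul_of_nonneg_right h1 hz0.le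
      _ = C / ‖z‖ := by field_simp
  have key := Convex.norm_image_sub_le_of_norm_hasDerivWithin_le (s := univ)
    (f := fun θ : ℝ => f ((‖z‖ : ℂ) * exp (θ * I)))
    (f' := fun θ : ℝ => F ((‖z‖ : ℂ) * exp (θ * I)) * ((‖z‖ : ℂ) * (exp (θ * I) * I)))
    (C := C / ‖z‖) (x := 0) (y := arg z) (fun θ _ => (hder θ).hasDerivWithinAt)
    (fun θ _ => hbd θ) convex_univ (mem_univ _) (mem_univ _)
  simp only [ofReal_zero, zero_mul, exp_zero, mul_one, sub_zero] at key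
  rw [norm_mul_exp_arg_mul_I] at key
  refine key.trans ?_
  have hC : 0 ≤ C / ‖z‖ := (norm_nonneg _).trans (hbd 0)
  apply mul_le_mul_of_nonneg_left _ hC
  rw [Real.norm_eq_abs]
  exact abs_arg_le_pi z

end InftyAux

open InftyAux

theorem exists_limit {f F : ℂ → ℂ} {R C : ℝ} (hR : 0 < R)
    (hf : ∀ z, R < ‖z‖ → HasDerivAt f (F z) z) (hF : ∀ z, R < ‖z‖ → ‖F z‖ ≤ C / ‖z‖ ^ 2) :
    ∃ c : ℂ, ∀ z, R < ‖z‖ → ‖f z - c‖ ≤ C / ‖z‖ := by
  have hρR : ∀ n : ℕ, R < R + 1 + n := fun n => by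
    have : (0 : ℝ) ≤ n := Nat.cast_nonneg n
    linarith
  have hρ0 : ∀ n : ℕ, 0 < R + 1 + (n : ℝ) := fun n => hR.trans (hρR n)
  have hnorm : ∀ n : ℕ, ‖((R + 1 + n : ℝ) : ℂ)‖ = R + 1 + n := fun n => by
    rw [Complex.norm_real, Real.norm_of_nonneg (hρ0 n).le]
  obtain ⟨u, hu⟩ : ∃ u : ℕ → ℂ, ∀ n, u n = f ((R + 1 + n : ℝ) : ℂ) := ⟨_, fun _ => rfl⟩
  have hinvlim : Tendsto (fun n : ℕ => (R + 1 + (n : ℝ))⁻¹) atTop (𝓝 0) := by
    apply tendsto_inv_atTop_zero.comp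
    exact tendsto_atTop_add_const_left _ _ tendsto_natCast_atTop_atTop
  have hlim0 : ∀ a : ℝ, Tendsto (fun n : ℕ => a / (R + 1 + (n : ℝ))) atTop (𝓝 0) := by
    intro a
    have := hinvlim.const_mul a
    rw [mul_zero] at this
    simpa only [div_eq_mul_inv] using this
  have hcauchy : CauchySeq u := by
    refine cauchySeq_of_le_tendsto_0' (fun n : ℕ => C / (R + 1 + (n : ℝ))) ?_ (hlim0 C)
    intro n m hnm
    have hnm' : (n : ℝ) ≤ m := by exact_mod_cast hnm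
    rw [dist_comm, dist_eq_norm, hu, hu]
    have h1 := ray_le hR hf hF (z := ((R + 1 + n : ℝ) : ℂ)) (by rw [hnorm n]; exact hρR n)
      (T := (R + 1 + m) / (R + 1 + n)) (by rw [le_div_iff₀ (hρ0 n)]; linarith)
    rw [hnorm n, ← ofReal_mul, div_mul_cancel₀ _ (hρ0 n).ne'] at h1
    exact h1
  obtain ⟨c, hc⟩ := cauchySeq_tendsto_of_complete hcauchy
  refine ⟨c, fun z hz => ?_⟩
  have hz0 : 0 < ‖z‖ := hR.trans hz
  have h1 : Tendsto (fun n => ‖f z - u n‖) atTop (𝓝 ‖f z - c‖) := (hc.const_sub (f z)).norm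
  have h2 : Tendsto (fun n : ℕ => C / ‖z‖ + (C * Real.pi) / (R + 1 + (n : ℝ))) atTop
      (𝓝 (C / ‖z‖ + 0)) := (hlim0 (C * Real.pi)).const_add _
  rw [add_zero] at h2
  apply le_of_tendsto_of_tendsto h1 h2
  obtain ⟨N, hN⟩ := exists_nat_gt ‖z‖
  filter_upwards [eventually_ge_atTop N] with n hn
  have hn' : (N : ℝ) ≤ n := by exact_mod_cast hn
  have hT : 1 ≤ (R + 1 + (n : ℝ)) / ‖z‖ := by
    rw [le_div_iff₀ hz0]
    linarith
  have h3 := ray_le hR hf hF hz hT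
  obtain ⟨w, hw⟩ : ∃ w : ℂ, w = (((R + 1 + (n : ℝ)) / ‖z‖ : ℝ) : ℂ) * z := ⟨_, rfl⟩
  rw [← hw] at h3
  have hwn : ‖w‖ = R + 1 + n := by
    rw [hw, norm_mul, Complex.norm_real, Real.norm_of_nonneg (by positivity),
      div_mul_cancel₀ _ hz0.ne']
  have h4 := arc_le hR hf hF (z := w) (by rw [hwn]; exact hρR n)
  rw [hwn] at h4
  rw [hu]
  calc ‖f z - f ((R + 1 + n : ℝ) : ℂ)‖ = ‖(f z - f w) + (f w - f ((R + 1 + n : ℝ) : ℂ))‖ := by
        rw [sub_add_sub_cancel]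
    _ ≤ ‖f z - f w‖ + ‖f w - f ((R + 1 + n : ℝ) : ℂ)‖ := norm_add_le _ _
    _ ≤ C / ‖z‖ + (C * Real.pi) / (R + 1 + (n : ℝ)) := by
        rw [norm_sub_rev (f z)]
        apply add_le_add h3
        refine h4.trans (le_of_eq ?_)
        ring

theorem image_bound {E : Set ℂ} {f : ℂ → ℂ} (hf : Nrm E f) {R δ : ℝ} (hR : 0 < R)
    (hE : E ⊆ ball 0 R) (hb : ∀ z, R ≤ ‖z‖ → ‖f z - z‖ ≤ δ) {z : ℂ} (hz : z ∈ Eᶜ)
    (hzR : ‖z‖ ≤ R) : ‖f z‖ ≤ R + δ := by
  have hδ : 0 ≤ δ := by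
    refine (norm_nonneg _).trans (hb (R : ℂ) ?_)
    rw [Complex.norm_real, Real.norm_of_nonneg hR.le]
  have hEo : IsOpen Eᶜ := hf.compact.isClosed.isOpen_compl
  have hout : ∀ w : ℂ, R ≤ ‖w‖ → w ∈ Eᶜ := by
    intro w hw hwE
    have := hE hwE
    rw [mem_ball_zero_iff] at this
    linarith
  have hUo : IsOpen {w : ℂ | R < ‖w‖} := isOpen_lt continuous_const continuous_norm
  have hopen : IsOpen (f '' {w : ℂ | R < ‖w‖}) :=
    Pool.Lib.isOpen_image_of_injOn hEo hf.diff hf.inj hUo fun w hw => hout w (le_of_lt hw)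
  -- the image of the closed exterior is closed
  have hclosed : IsClosed (f '' {w : ℂ | R ≤ ‖w‖}) := by
    rw [← closure_subset_iff_isClosed]
    intro w hw
    obtain ⟨M, hM⟩ : ∃ M : ℝ, M = ‖w‖ + 1 + δ := ⟨_, rfl⟩
    have hK : IsCompact (f '' ({v : ℂ | R ≤ ‖v‖} ∩ closedBall 0 M)) := by
      apply IsCompact.image_of_continuousOn
      · exact (isCompact_closedBall 0 M).inter_left (isClosed_le continuous_const continuous_norm)
      · exact hf.diff.continuousOn.mono fun v hv => hout v hv.1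
    have hsub : f '' {v : ℂ | R ≤ ‖v‖} ∩ ball w 1 ⊆ f '' ({v : ℂ | R ≤ ‖v‖} ∩ closedBall 0 M) := by
      rintro _ ⟨⟨v, hv, rfl⟩, hv2⟩
      refine ⟨v, ⟨hv, ?_⟩, rfl⟩
      rw [mem_closedBall_zero_iff, hM]
      rw [mem_ball, dist_eq_norm] at hv2
      have h1 := hb v hv
      have h2 : v = w + (f v - w) - (f v - v) := by ring
      calc ‖v‖ = ‖w + (f v - w) - (f v - v)‖ := by rw [← h2]
        _ ≤ ‖w + (f v - w)‖ + ‖f v - v‖ := norm_sub_le _ _
        _ ≤ ‖w‖ + ‖f v - w‖ + ‖f v - v‖ := by gcongr; exact norm_add_le _ _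
        _ ≤ ‖w‖ + 1 + δ := by linarith
    have h3 : w ∈ closure (f '' {v : ℂ | R ≤ ‖v‖} ∩ ball w 1) := by
      rw [mem_closure_iff_nhds]
      intro t ht
      rw [mem_closure_iff_nhds] at hw
      obtain ⟨x, hx1, hx2⟩ := hw (t ∩ ball w 1) (inter_mem ht (ball_mem_nhds w one_pos))
      exact ⟨x, hx1.1, hx2, hx1.2⟩
    have h4 := closure_mono hsub h3
    rw [hK.isClosed.closure_eq] at h4
    exact image_mono inter_subset_left h4
  -- the exterior of a disc is preconnected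
  have hV : IsPreconnected {w : ℂ | R + δ < ‖w‖} := by
    have h1 : {w : ℂ | R + δ < ‖w‖} =
        (fun p : ℝ × ℝ => (p.1 : ℂ) * exp (p.2 * I)) '' (Ioi (R + δ) ×ˢ univ) := by
      ext w
      constructor
      · intro hw
        refine ⟨(‖w‖, arg w), ⟨hw, mem_univ _⟩, ?_⟩
        exact norm_mul_exp_arg_mul_I w
      · rintro ⟨⟨s, θ⟩, ⟨hs, _⟩, rfl⟩
        have hs' : R + δ < s := hs
        show R + δ < ‖(s : ℂ) * exp (θ * I)‖
        rw [norm_mul, Complex.norm_real, Complex.norm_exp_ofReal_mul_I, mul_one,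
          Real.norm_of_nonneg (by linarith)]
        exact hs'
    rw [h1]
    apply IsPreconnected.image
    · exact isPreconnected_Ioi.prod isPreconnected_univ
    · apply Continuous.continuousOn
      fun_prop
  have hVsub : {w : ℂ | R + δ < ‖w‖} ⊆ f '' {w : ℂ | R < ‖w‖} := by
    rw [isPreconnected_iff_subset_of_disjoint] at hV
    have hcov : {w : ℂ | R + δ < ‖w‖} ⊆
        f '' {w : ℂ | R < ‖w‖} ∪ (f '' {w : ℂ | R ≤ ‖w‖})ᶜ := by
      intro w hw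
      by_cases hwf : w ∈ f '' {w : ℂ | R ≤ ‖w‖}
      · left
        obtain ⟨v, hv, rfl⟩ := hwf
        refine ⟨v, ?_, rfl⟩
        rcases (show R ≤ ‖v‖ from hv).lt_or_eq with h5 | h5
        · exact h5
        · exfalso
          have h6 := hb v hv
          have h7 : ‖f v‖ ≤ ‖v‖ + ‖f v - v‖ := by
            have := norm_add_le v (f v - v)
            rw [add_sub_cancel] at this
            exact this
          have h8 : R + δ < ‖f v‖ := hw
          linarith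
      · right
        exact hwf
    have hdis : {w : ℂ | R + δ < ‖w‖} ∩
        (f '' {w : ℂ | R < ‖w‖} ∩ (f '' {w : ℂ | R ≤ ‖w‖})ᶜ) = ∅ := by
      rw [eq_empty_iff_forall_notMem]
      rintro w ⟨_, ⟨v, hv, rfl⟩, hw2⟩
      exact hw2 ⟨v, le_of_lt (show R < ‖v‖ from hv), rfl⟩
    rcases hV _ _ hopen hclosed.isOpen_compl hcov hdis with h | h
    · exact h
    · exfalso
      obtain ⟨x, hx⟩ : ∃ x : ℂ, x = ((R + 2 * δ + 1 : ℝ) : ℂ) := ⟨_, rfl⟩
      have hxn : ‖x‖ = R + 2 * δ + 1 := by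
        rw [hx, Complex.norm_real, Real.norm_of_nonneg (by linarith)]
      have hxR : R ≤ ‖x‖ := by linarith
      have h5 := hb x hxR
      have h6 : ‖x‖ ≤ ‖f x‖ + ‖f x - x‖ := by
        have := norm_sub_le (f x) (f x - x)
        rw [sub_sub_cancel] at this
        exact this
      have h7 : f x ∈ {w : ℂ | R + δ < ‖w‖} := by
        show R + δ < ‖f x‖
        linarith
      exact h h7 ⟨x, hxR, rfl⟩
  by_contra hcon
  push Not at hcon
  obtain ⟨v, hv, hvz⟩ := hVsub (show f z ∈ {w : ℂ | R + δ < ‖w‖} from hcon)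
  have hvR : R < ‖v‖ := hv
  have := hf.inj (hout v hvR.le) hz hvz
  rw [this] at hvR
  linarith

end Pool.Recti
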