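import Pool.Agent.Recti.Exist2
import Pool.Agent.Recti.Infty

/-!
# Existence of the variational map and of its structured approximants

PROOF of `exists_map`.  `D = Eᶜ`.  Fix `ζ : ℂ → ℂ` smooth, `ζ z = z` for `‖z‖ ≥ R`, `ζ = 0` near `E`
(`ζ z = c z * z` with a cutoff `c`; `E ⊆ ball 0 R` is compact; if `E` is empty take e.g. `ζ z = z`).
`dbar ζ` has compact support (for `‖z‖ > R`, `dbar ζ = 0`).  The constants below depend only on `E, R, ζ`.
`exists_var` gives `f1` and `φ k`; `A0² = ∫_D ‖dbar ζ‖²`.  For `‖z‖ > R`, `dz ζ = 1`, so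
`∫_{‖z‖>R} ‖deriv f1 - 1‖² ≤ A0²`; `decay` and `exists_limit` (with `2R` for `R`; `f1 z - z` has derivative
`deriv f1 - 1`) give `c1` with `‖f1 z - z - c1‖ ≤ 4 R A0 / ‖z‖` for `‖z‖ > 2R`, also for `‖z‖ = 2R` by continuity.
`f = f1 - c1` has the same derivative.
`∫_{D ∩ ball 0 (4R)} ‖deriv f‖² ≤ 2 ∫_{ball 0 (4R)} ‖dz ζ‖² + 2 A0²`.
The approximants: `exists_app` (for `f`; its hypotheses only involve `deriv f = deriv f1`).
-/

set_option autoImplicit false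

open Complex MeasureTheory Set Filter Topology Metric
open scoped ContDiff Manifold

namespace Pool.Recti

open Pool.Lib (dbar)

/-- A smooth function which vanishes near `E` and is the identity outside the ball. -/
theorem exists_zeta {E : Set ℂ} (hE : IsCompact E) {R : ℝ} (hER : E ⊆ ball 0 R) :
    ∃ ζ : ℂ → ℂ, ContDiff ℝ ∞ ζ ∧ (∀ᶠ z in 𝓝ˢ E, ζ z = 0) ∧ ∀ z, R ≤ ‖z‖ → ζ z = z := by
  obtain ⟨c, h0, h1, -⟩ := exists_contMDiffMap_zero_one_nhds_of_isClosed (n := ⊤) 𝓘(ℝ, ℂ)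
    hE.isClosed (isOpen_ball (x := (0 : ℂ)) (ε := R)).isClosed_compl
    (disjoint_left.mpr fun x hx hx' => hx' (hER hx))
  refine ⟨fun z => (c z : ℂ) * z, ?_, ?_, ?_⟩
  · have hc : ContDiff ℝ ∞ (fun z => c z) := contMDiff_iff_contDiff.mp c.contMDiff
    exact (ofRealCLM.contDiff.comp hc).mul contDiff_id
  · filter_upwards [h0] with z hz
    rw [hz]; simp
  · intro z hz
    have : c z = 1 := h1.self_of_nhdsSet _ (by simpa using hz)
    show (c z : ℂ) * z = z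
    rw [this]; simp

theorem dbar_zeta_support {ζ : ℂ → ℂ} {R : ℝ} (h : ∀ z, R ≤ ‖z‖ → ζ z = z) :
    HasCompactSupport (dbar ζ) := by
  refine HasCompactSupport.intro (isCompact_closedBall (0 : ℂ) R) ?_
  intro z hz
  have hz' : R < ‖z‖ := by simpa using hz
  have h1 : ζ =ᶠ[𝓝 z] fun w => w := by
    have : {w : ℂ | R < ‖w‖} ∈ 𝓝 z := (isOpen_lt continuous_const continuous_norm).mem_nhds hz'
    filter_upwards [this] with w hw
    exact h w (le_of_lt hw)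
  rw [Pool.Lib.dbar_congr h1]
  exact Pool.Lib.dbar_eq_zero differentiableAt_id

theorem dz_zeta {ζ : ℂ → ℂ} {R : ℝ} (h : ∀ z, R ≤ ‖z‖ → ζ z = z) {z : ℂ} (hz : R < ‖z‖) :
    dz ζ z = 1 := by
  have h1 : ζ =ᶠ[𝓝 z] fun w => w := by
    have : {w : ℂ | R < ‖w‖} ∈ 𝓝 z := (isOpen_lt continuous_const continuous_norm).mem_nhds hz
    filter_upwards [this] with w hw
    exact h w (le_of_lt hw)
  rw [dz_congr h1, dz_eq_deriv (f := fun w : ℂ => w) differentiableAt_id]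
  simp

theorem continuous_dz {g : ℂ → ℂ} (hg : ContDiff ℝ 1 g) : Continuous (dz g) := by
  have h := hg.continuous_fderiv one_ne_zero
  unfold dz
  fun_prop

/-- normalisation at infinity -/
theorem normalise {E : Set ℂ} {R : ℝ} (hR : 0 < R) (hE : IsCompact E) (hER : E ⊆ ball 0 R)
    {f1 : ℂ → ℂ} (hf : DifferentiableOn ℂ f1 Eᶜ) {A0 : ℝ} (hA0 : 0 ≤ A0)
    (hint : IntegrableOn (fun z => ‖deriv f1 z - 1‖ ^ 2) {z | R < ‖z‖})
    (hle : ∫ z in {z | R < ‖z‖}, ‖deriv f1 z - 1‖ ^ 2 ≤ A0 ^ 2) :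
    ∃ c : ℂ, ∀ z, 2 * R ≤ ‖z‖ → ‖f1 z - c - z‖ ≤ 4 * R * A0 / ‖z‖ := by
  have hopen : IsOpen Eᶜ := hE.isClosed.isOpen_compl
  have hsub : ∀ z : ℂ, R < ‖z‖ → z ∈ Eᶜ := by
    intro z hz hzE
    have := hER hzE
    rw [mem_ball_zero_iff] at this
    linarith
  have hdd : DifferentiableOn ℂ (deriv f1) Eᶜ := hf.deriv hopen
  have hdec : ∀ z : ℂ, 2 * R ≤ ‖z‖ → ‖deriv f1 z - 1‖ ≤ 4 * R * A0 / ‖z‖ ^ 2 := by
    intro z hz
    exact decay hR hA0 (fun w hw => ((hdd w (hsub w hw)).mono (fun v hv => hsub v hv)).sub_const 1)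
      hint hle hz
  obtain ⟨c, hc⟩ := exists_limit (f := fun z => f1 z - z) (F := fun z => deriv f1 z - 1)
    (R := 2 * R) (C := 4 * R * A0) (by positivity) (fun z hz =>
      ((hf.differentiableAt (hopen.mem_nhds (hsub z (by linarith)))).hasDerivAt).sub (hasDerivAt_id z))
    (fun z hz => hdec z hz.le)
  refine ⟨c, fun z hz => ?_⟩
  rcases hz.lt_or_eq with hz | hz
  · have := hc z hz
    rwa [show f1 z - c - z = f1 z - z - c by ring]
  · have hz0 : 0 < ‖z‖ := by rw [← hz]; positivity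
    have hfc : ContinuousAt f1 z :=
      (hf.differentiableAt (hopen.mem_nhds (hsub z (by linarith)))).continuousAt
    have ht : Tendsto (fun t : ℝ => (t : ℂ) * z) (𝓝[>] 1) (𝓝 z) := by
      have : Tendsto (fun t : ℝ => (t : ℂ) * z) (𝓝 1) (𝓝 ((1 : ℝ) * z)) :=
        ((continuous_ofReal.mul continuous_const).tendsto _)
      rw [ofReal_one, one_mul] at this
      exact this.mono_left nhdsWithin_le_nhds
    have h1 : Tendsto (fun t : ℝ => ‖f1 ((t : ℂ) * z) - c - (t : ℂ) * z‖) (𝓝[>] 1)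
        (𝓝 ‖f1 z - c - z‖) :=
      (((hfc.tendsto.comp ht).sub_const c).sub ht).norm
    have h2 : Tendsto (fun t : ℝ => 4 * R * A0 / ‖(t : ℂ) * z‖) (𝓝[>] 1)
        (𝓝 (4 * R * A0 / ‖z‖)) :=
      tendsto_const_nhds.div ht.norm hz0.ne'
    refine le_of_tendsto_of_tendsto h1 h2 ?_
    filter_upwards [self_mem_nhdsWithin] with t ht1
    have ht1' : (1 : ℝ) < t := ht1
    have hn : ‖(t : ℂ) * z‖ = t * ‖z‖ := by
      rw [norm_mul, norm_real, Real.norm_eq_abs, abs_of_pos (by linarith)]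
    have := hc ((t : ℂ) * z) (by rw [hn, hz]; nlinarith)
    rwa [show f1 ((t : ℂ) * z) - c - (t : ℂ) * z = f1 ((t : ℂ) * z) - (t : ℂ) * z - c by ring]

theorem exists_map {E : Set ℂ} (hE : IsCompact E) (hD : IsConnected Eᶜ) {R : ℝ} (hR : 0 < R)
    (hER : E ⊆ ball 0 R) :
    ∃ A : ℝ, 0 ≤ A ∧ ∀ Θ : ℂ → ℝ, Test E Θ → ∃ f : ℂ → ℂ, DifferentiableOn ℂ f Eᶜ ∧
      (∀ z, 2 * R ≤ ‖z‖ → ‖f z - z‖ ≤ A / ‖z‖) ∧
      IntegrableOn (fun z => ‖deriv f z‖ ^ 2) (Eᶜ ∩ ball 0 (4 * R)) ∧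
      ∫ z in Eᶜ ∩ ball 0 (4 * R), ‖deriv f z‖ ^ 2 ≤ A ∧
      ∀ Q : Set ℂ, IsCompact Q → Q ⊆ Eᶜ → ∀ ε : ℝ, 0 < ε → ∃ g : ℂ → ℂ, App E Θ f Q ε g := by
  obtain ⟨ζ, hζ, hζ0, hζ1⟩ := exists_zeta hE hER
  have hcs := dbar_zeta_support hζ1
  have hopen : IsOpen Eᶜ := hE.isClosed.isOpen_compl
  have hζ1' : ContDiff ℝ 1 ζ := hζ.of_le (by exact_mod_cast le_top)
  set J : ℝ := ∫ z in Eᶜ, ‖dbar ζ z‖ ^ 2 with hJ
  have hJ0 : 0 ≤ J := integral_nonneg fun z => by positivity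
  set B : ℝ := ∫ z in Eᶜ ∩ ball 0 (4 * R), ‖dz ζ z‖ ^ 2 with hB
  have hB0 : 0 ≤ B := integral_nonneg fun z => by positivity
  set A0 : ℝ := Real.sqrt J with hA0
  have hA00 : 0 ≤ A0 := Real.sqrt_nonneg _
  have hA0sq : A0 ^ 2 = J := Real.sq_sqrt hJ0
  refine ⟨4 * R * A0 + (2 * B + 2 * J), by positivity, ?_⟩
  intro Θ hΘ
  obtain ⟨f1, φ, hf1, hφ, hint, hle, hl1, hl2⟩ := exists_var hE hD hΘ hζ hcs
  rw [← hJ] at hle
  have hsub : ∀ z : ℂ, R < ‖z‖ → z ∈ Eᶜ := by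
    intro z hz hzE
    have := hER hzE
    rw [mem_ball_zero_iff] at this
    linarith
  have hms : MeasurableSet {z : ℂ | R < ‖z‖} :=
    (isOpen_lt continuous_const continuous_norm).measurableSet
  have hEq : EqOn (fun z => ‖dz ζ z - deriv f1 z‖ ^ 2) (fun z => ‖deriv f1 z - 1‖ ^ 2)
      {z : ℂ | R < ‖z‖} := by
    intro z hz
    show ‖dz ζ z - deriv f1 z‖ ^ 2 = ‖deriv f1 z - 1‖ ^ 2
    rw [dz_zeta hζ1 hz, norm_sub_rev]
  have hint1 : IntegrableOn (fun z => ‖deriv f1 z - 1‖ ^ 2) {z : ℂ | R < ‖z‖} :=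
    (hint.mono_set (fun z hz => hsub z hz)).congr_fun hEq hms
  have hle1 : ∫ z in {z : ℂ | R < ‖z‖}, ‖deriv f1 z - 1‖ ^ 2 ≤ A0 ^ 2 := by
    rw [← setIntegral_congr_fun hms hEq, hA0sq]
    refine le_trans (setIntegral_mono_set hint ?_ ?_) hle
    · exact Eventually.of_forall fun z => by positivity
    · exact Eventually.of_forall fun z hz => hsub z hz
  obtain ⟨c, hc⟩ := normalise hR hE hER hf1 hA00 hint1 hle1
  have hder : ∀ z, deriv (fun z => f1 z - c) z = deriv f1 z := fun z => deriv_sub_const c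
  have hdiff : DifferentiableOn ℂ (fun z => f1 z - c) Eᶜ := hf1.sub_const c
  have hint4 : IntegrableOn (fun z => ‖dz ζ z‖ ^ 2) (Eᶜ ∩ ball 0 (4 * R)) := by
    have : IntegrableOn (fun z => ‖dz ζ z‖ ^ 2) (closedBall (0 : ℂ) (4 * R)) :=
      (((continuous_dz hζ1').norm.pow 2).continuousOn).integrableOn_compact
        (isCompact_closedBall _ _)
    exact this.mono_set (inter_subset_right.trans ball_subset_closedBall)
  have hint5 : IntegrableOn (fun z => ‖dz ζ z - deriv f1 z‖ ^ 2) (Eᶜ ∩ ball 0 (4 * R)) :=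
    hint.mono_set inter_subset_left
  have hms4 : MeasurableSet (Eᶜ ∩ ball (0 : ℂ) (4 * R)) :=
    (hopen.inter isOpen_ball).measurableSet
  have hdc : ContinuousOn (deriv f1) Eᶜ := (hf1.deriv hopen).continuousOn
  have hpt : ∀ z, ‖deriv f1 z‖ ^ 2 ≤ 2 * ‖dz ζ z‖ ^ 2 + 2 * ‖dz ζ z - deriv f1 z‖ ^ 2 := by
    intro z
    have h1 : ‖deriv f1 z‖ ≤ ‖dz ζ z‖ + ‖dz ζ z - deriv f1 z‖ := by
      have := norm_sub_le (dz ζ z) (dz ζ z - deriv f1 z)
      rwa [sub_sub_cancel] at this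
    have h0 : 0 ≤ ‖deriv f1 z‖ := norm_nonneg _
    nlinarith [sq_nonneg (‖dz ζ z‖ - ‖dz ζ z - deriv f1 z‖)]
  have hint6 : IntegrableOn (fun z => 2 * ‖dz ζ z‖ ^ 2 + 2 * ‖dz ζ z - deriv f1 z‖ ^ 2)
      (Eᶜ ∩ ball 0 (4 * R)) := (hint4.const_mul 2).add (hint5.const_mul 2)
  have hint7 : IntegrableOn (fun z => ‖deriv f1 z‖ ^ 2) (Eᶜ ∩ ball 0 (4 * R)) := by
    refine Integrable.mono' hint6 ?_ ?_
    · exact ((hdc.mono inter_subset_left).norm.pow 2).aestronglyMeasurable hms4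
    · refine Eventually.of_forall fun z => ?_
      rw [Real.norm_eq_abs, abs_of_nonneg (by positivity)]
      exact hpt z
  refine ⟨fun z => f1 z - c, hdiff, ?_, ?_, ?_, ?_⟩
  · intro z hz
    have hz0 : 0 < ‖z‖ := lt_of_lt_of_le (by positivity) hz
    refine (hc z hz).trans ?_
    apply div_le_div_of_nonneg_right _ hz0.le
    linarith
  · simp only [hder]
    exact hint7
  · simp only [hder]
    calc ∫ z in Eᶜ ∩ ball 0 (4 * R), ‖deriv f1 z‖ ^ 2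
        ≤ ∫ z in Eᶜ ∩ ball 0 (4 * R), (2 * ‖dz ζ z‖ ^ 2 + 2 * ‖dz ζ z - deriv f1 z‖ ^ 2) :=
          integral_mono hint7 hint6 hpt
      _ = 2 * B + 2 * ∫ z in Eᶜ ∩ ball 0 (4 * R), ‖dz ζ z - deriv f1 z‖ ^ 2 := by
          rw [integral_add (hint4.const_mul 2) (hint5.const_mul 2), integral_const_mul,
            integral_const_mul]
      _ ≤ 2 * B + 2 * J := by
          have : ∫ z in Eᶜ ∩ ball 0 (4 * R), ‖dz ζ z - deriv f1 z‖ ^ 2 ≤ J := by
            refine le_trans (setIntegral_mono_set hint ?_ ?_) hle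
            · exact Eventually.of_forall fun z => by positivity
            · exact Eventually.of_forall fun z hz => hz.1
          linarith
      _ ≤ 4 * R * A0 + (2 * B + 2 * J) := by
          have : 0 ≤ 4 * R * A0 := by positivity
          linarith
  · intro Q hQ hQE ε hε
    refine exists_app hE hD hΘ hζ hζ0 ⟨R, hζ1⟩ hdiff hφ ?_ hl1 ?_ hQ hQE hε
    · simp only [hder]
      exact hint
    · simp only [hder]
      exact hl2

end Pool.Recti
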