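import Pool.Agent.Recti.Dense

/-!
# The variational map

PROOF of `exists_var`.  `D = Eᶜ`.
By `dense` pick `φ k ∈ Cls E Θ` with `∫_D ‖dbar (φ k) - dbar ζ‖² ≤ 1/(k+1)` (`dbar ζ` is continuous, with compact
support, so it is in `L²(D)`).  By `integral_norm_sq_eq` applied to `φ k - φ l` (`Cls.sub`) `dz (φ k)` is a Cauchy sequence in
`L²(D)` (`Lp ℂ 2 (volume.restrict Eᶜ)`); let `b` be its limit.
`∫_D ‖b‖² = lim ∫ ‖dz (φ k)‖² = lim ∫ ‖dbar (φ k)‖² = ∫_D ‖dbar ζ‖²`.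
Let `F = dz ζ - b` (locally integrable on `D`).  For a complex test function `χ` and `g_k = ζ - φ k`,
`∫_D F dbar χ = lim ∫ dz g_k dbar χ = lim ∫ dbar g_k dz χ = lim ∫ (dbar ζ - dbar (φ k)) dz χ = 0`
(`integral_wedge` with `A = g_k`, `B = χ`; `dbar χ, dz χ` are bounded with compact support so integration against them is
continuous on `L²(D)`).  By `exists_primitive_of_weak` there is `f` holomorphic on `D` with `F = deriv f` a.e. on `D`,
so `b = dz ζ - deriv f` a.e. on `D`.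
-/

set_option autoImplicit false

open Complex MeasureTheory Set Filter Topology Metric
open scoped ContDiff

namespace Pool.Recti

open Pool.Lib (dbar)

variable {E : Set ℂ} {Θ : ℂ → ℝ}

/-! ## `L²` helpers -/

theorem ev_inner_self (x : ℂ) : inner ℂ x x = ((‖x‖ ^ 2 : ℝ) : ℂ) := by
  rw [inner_self_eq_norm_sq_to_K]
  norm_cast

theorem ev_norm_sq {μ : Measure ℂ} (f : Lp ℂ 2 μ) : ‖f‖ ^ 2 = ∫ a, ‖f a‖ ^ 2 ∂μ := by
  have h := MeasureTheory.L2.inner_def (𝕜 := ℂ) f f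
  have h2 : inner ℂ f f = ((‖f‖ ^ 2 : ℝ) : ℂ) := by
    rw [inner_self_eq_norm_sq_to_K]
    norm_cast
  simp only [ev_inner_self] at h
  rw [integral_complex_ofReal, h2] at h
  exact_mod_cast h

theorem ev_toLp_sub {μ : Measure ℂ} {u v : ℂ → ℂ} (hu : MemLp u 2 μ) (hv : MemLp v 2 μ) :
    ‖hu.toLp u - hv.toLp v‖ ^ 2 = ∫ a, ‖u a - v a‖ ^ 2 ∂μ := by
  rw [ev_norm_sq]
  refine integral_congr_ae ?_
  filter_upwards [Lp.coeFn_sub (hu.toLp u) (hv.toLp v), hu.coeFn_toLp, hv.coeFn_toLp]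
    with a h1 h2 h3
  rw [h1, Pi.sub_apply, h2, h3]

theorem ev_toLp {μ : Measure ℂ} {u : ℂ → ℂ} (hu : MemLp u 2 μ) :
    ‖hu.toLp u‖ ^ 2 = ∫ a, ‖u a‖ ^ 2 ∂μ := by
  rw [ev_norm_sq]
  refine integral_congr_ae ?_
  filter_upwards [hu.coeFn_toLp] with a h2
  rw [h2]

/-- integration against a fixed `L²` function is continuous -/
theorem ev_tendsto_integral {μ : Measure ℂ} {U : ℕ → Lp ℂ 2 μ} {b : Lp ℂ 2 μ}
    (hU : Tendsto U atTop (𝓝 b)) {v : ℂ → ℂ} (hv : MemLp v 2 μ) :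
    Tendsto (fun k => ∫ a, U k a * v a ∂μ) atTop (𝓝 (∫ a, b a * v a ∂μ)) := by
  have hv' : MemLp (fun a => (starRingEnd ℂ) (v a)) 2 μ := by
    refine (memLp_congr_norm ?_ hv.1 (Filter.Eventually.of_forall fun a => ?_)).2 hv
    · exact (Complex.continuous_conj.comp_aestronglyMeasurable hv.1)
    · exact Complex.norm_conj _
  have key : ∀ f : Lp ℂ 2 μ, inner ℂ (hv'.toLp _) f = ∫ a, f a * v a ∂μ := by
    intro f
    rw [MeasureTheory.L2.inner_def]
    refine integral_congr_ae ?_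
    filter_upwards [hv'.coeFn_toLp] with a h1
    rw [h1, RCLike.inner_apply]
    simp
  simp only [← key]
  exact tendsto_const_nhds.inner hU

theorem ev_integrable_mul {μ : Measure ℂ} {u v : ℂ → ℂ} (hu : MemLp u 2 μ) (hv : MemLp v 2 μ) :
    Integrable (fun a => u a * v a) μ := hu.integrable_mul hv

/-! ## the derivatives -/

theorem ev_cont_dz {U : Set ℂ} (hU : IsOpen U) {φ : ℂ → ℂ} (h : ContDiffOn ℝ 1 φ U) :
    ContinuousOn (dz φ) U ∧ ContinuousOn (dbar φ) U := by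
  have h1 : ContinuousOn (fderiv ℝ φ) U := h.continuousOn_fderiv_of_isOpen hU le_rfl
  have h2 : ContinuousOn (fun z => fderiv ℝ φ z 1) U := h1.clm_apply continuousOn_const
  have h3 : ContinuousOn (fun z => fderiv ℝ φ z I) U := h1.clm_apply continuousOn_const
  constructor
  · exact (h2.sub (continuousOn_const.mul h3)).div_const 2
  · exact (h2.add (continuousOn_const.mul h3)).div_const 2

theorem ev_memLp (hE : IsCompact E) {φ : ℂ → ℂ} (hφ : Cls E Θ φ) :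
    MemLp (dz φ) 2 (volume.restrict Eᶜ) ∧ MemLp (dbar φ) 2 (volume.restrict Eᶜ) := by
  have hU : IsOpen Eᶜ := hE.isClosed.isOpen_compl
  obtain ⟨h1, h2⟩ := ev_cont_dz hU (hφ.smooth.of_le (by norm_cast))
  have m1 : AEStronglyMeasurable (dz φ) (volume.restrict Eᶜ) :=
    h1.aestronglyMeasurable hU.measurableSet
  have m2 : AEStronglyMeasurable (dbar φ) (volume.restrict Eᶜ) :=
    h2.aestronglyMeasurable hU.measurableSet
  constructor
  · rw [memLp_two_iff_integrable_sq_norm m1]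
    refine hφ.energy.mono' (m1.norm.pow 2) (Filter.Eventually.of_forall fun z => ?_)
    rw [Real.norm_of_nonneg (by positivity)]
    exact pow_le_pow_left₀ (norm_nonneg _) (norm_dz_le φ z) 2
  · rw [memLp_two_iff_integrable_sq_norm m2]
    refine hφ.energy.mono' (m2.norm.pow 2) (Filter.Eventually.of_forall fun z => ?_)
    rw [Real.norm_of_nonneg (by positivity)]
    exact pow_le_pow_left₀ (norm_nonneg _) (norm_dbar_le φ z) 2

theorem ev_cont_of (φ : ℂ → ℂ) (h : ContDiff ℝ 1 φ) : Continuous (dz φ) ∧ Continuous (dbar φ) := by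
  have := ev_cont_dz isOpen_univ (contDiffOn_univ.2 h)
  exact ⟨continuousOn_univ.1 this.1, continuousOn_univ.1 this.2⟩

theorem ev_memLp_of_compact {u : ℂ → ℂ} (hu : Continuous u) (hc : HasCompactSupport u)
    (S : Set ℂ) : MemLp u 2 (volume.restrict S) :=
  (hu.memLp_of_hasCompactSupport hc).restrict S

theorem ev_test_supp {χ : ℂ → ℂ} (hχ : Test E χ) :
    HasCompactSupport (dz χ) ∧ HasCompactSupport (dbar χ) := by
  have h : HasCompactSupport (fderiv ℝ χ) := hχ.comp.fderiv ℝ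
  constructor
  · refine h.mono fun z hz h0 => hz ?_
    simp [dz, h0]
  · refine h.mono fun z hz h0 => hz ?_
    simp [dbar, h0]

theorem ev_isometry (hE : IsCompact E) (hΘ : Test E Θ) {φ ψ : ℂ → ℂ} (hφ : Cls E Θ φ)
    (hψ : Cls E Θ ψ) :
    ∫ z in Eᶜ, ‖dz φ z - dz ψ z‖ ^ 2 = ∫ z in Eᶜ, ‖dbar φ z - dbar ψ z‖ ^ 2 := by
  have hU : IsOpen Eᶜ := hE.isClosed.isOpen_compl
  have hd : ∀ f : ℂ → ℂ, Cls E Θ f → ∀ z ∈ Eᶜ, DifferentiableAt ℝ f z := fun f hf z hz =>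
    (hf.smooth.differentiableOn (by simp)).differentiableAt (hU.mem_nhds hz)
  have h := integral_norm_sq_eq hE hΘ (Cls.sub hE hφ hψ)
  have h1 : ∫ z in Eᶜ, ‖dz (fun w => φ w - ψ w) z‖ ^ 2 = ∫ z in Eᶜ, ‖dz φ z - dz ψ z‖ ^ 2 := by
    refine setIntegral_congr_fun hU.measurableSet fun z hz => ?_
    simp only [dz_sub (hd φ hφ z hz) (hd ψ hψ z hz)]
  have h2 : ∫ z in Eᶜ, ‖dbar (fun w => φ w - ψ w) z‖ ^ 2 =
      ∫ z in Eᶜ, ‖dbar φ z - dbar ψ z‖ ^ 2 := by
    refine setIntegral_congr_fun hU.measurableSet fun z hz => ?_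
    simp only [dbar_sub (hd φ hφ z hz) (hd ψ hψ z hz)]
  rw [← h1, ← h2]
  exact h

theorem ev_wedge (hE : IsCompact E) {A χ : ℂ → ℂ} (hA : ContDiffOn ℝ 1 A Eᶜ)
    (hχ : Test E χ) : ∫ z in Eᶜ, dz A z * dbar χ z = ∫ z in Eᶜ, dbar A z * dz χ z := by
  refine integral_wedge hE hA ((hχ.smooth.of_le (by norm_cast)).contDiffOn) ?_ ?_
  · filter_upwards [hχ.lc] with z hz _ using hz
  · obtain ⟨R, hR⟩ := (hχ.comp.fderiv ℝ).isCompact.isBounded.subset_ball (0 : ℂ)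
    refine ⟨R, fun z hz => ?_⟩
    by_contra hne
    have h1 := hR (subset_closure (Function.mem_support.2 hne))
    rw [mem_ball_zero_iff] at h1
    linarith

theorem exists_var (hE : IsCompact E) (hD : IsConnected Eᶜ) (hΘ : Test E Θ) {ζ : ℂ → ℂ}
    (hζ : ContDiff ℝ ∞ ζ) (hc : HasCompactSupport (dbar ζ)) :
    ∃ (f : ℂ → ℂ) (φ : ℕ → ℂ → ℂ), DifferentiableOn ℂ f Eᶜ ∧ (∀ k, Cls E Θ (φ k)) ∧
      IntegrableOn (fun z => ‖dz ζ z - deriv f z‖ ^ 2) Eᶜ ∧
      ∫ z in Eᶜ, ‖dz ζ z - deriv f z‖ ^ 2 ≤ ∫ z in Eᶜ, ‖dbar ζ z‖ ^ 2 ∧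
      Tendsto (fun k => ∫ z in Eᶜ, ‖dbar (φ k) z - dbar ζ z‖ ^ 2) atTop (𝓝 0) ∧
      Tendsto (fun k => ∫ z in Eᶜ, ‖dz (φ k) z - (dz ζ z - deriv f z)‖ ^ 2) atTop (𝓝 0) := by
  have hU : IsOpen Eᶜ := hE.isClosed.isOpen_compl
  have hζ1 : ContDiff ℝ 1 ζ := hζ.of_le (by norm_cast)
  obtain ⟨hcz, hcb⟩ := ev_cont_of ζ hζ1
  have mζ : MemLp (dbar ζ) 2 (volume.restrict Eᶜ) := ev_memLp_of_compact hcb hc _
  have hex : ∀ k : ℕ, ∃ φ : ℂ → ℂ, Cls E Θ φ ∧
      ∫ z in Eᶜ, ‖dbar φ z - dbar ζ z‖ ^ 2 ≤ 1 / ((k : ℝ) + 1) := fun k =>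
    dense hE hD hΘ mζ (by positivity)
  choose φ hφ hφe using hex
  have ht1 : Tendsto (fun k => ∫ z in Eᶜ, ‖dbar (φ k) z - dbar ζ z‖ ^ 2) atTop (𝓝 0) :=
    squeeze_zero (fun k => integral_nonneg fun z => by positivity) hφe
      tendsto_one_div_add_atTop_nhds_zero_nat
  -- the `L²` classes
  set U : ℕ → Lp ℂ 2 (volume.restrict Eᶜ) := fun k => (ev_memLp hE (hφ k)).1.toLp _ with hUdef
  set V : ℕ → Lp ℂ 2 (volume.restrict Eᶜ) := fun k => (ev_memLp hE (hφ k)).2.toLp _ with hVdef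
  set Z : Lp ℂ 2 (volume.restrict Eᶜ) := mζ.toLp _ with hZdef
  have hV : Tendsto V atTop (𝓝 Z) := by
    rw [tendsto_iff_norm_sub_tendsto_zero]
    have h1 : Tendsto (fun k => Real.sqrt (∫ z in Eᶜ, ‖dbar (φ k) z - dbar ζ z‖ ^ 2)) atTop
        (𝓝 0) := by
      have := ht1.sqrt
      rwa [Real.sqrt_zero] at this
    refine h1.congr fun k => ?_
    rw [← ev_toLp_sub (ev_memLp hE (hφ k)).2 mζ, Real.sqrt_sq (norm_nonneg _)]
  have hUV : ∀ k l, ‖U k - U l‖ = ‖V k - V l‖ := by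
    intro k l
    have h1 : ‖U k - U l‖ ^ 2 = ‖V k - V l‖ ^ 2 := by
      rw [hUdef, hVdef, ev_toLp_sub, ev_toLp_sub]
      exact ev_isometry hE hΘ (hφ k) (hφ l)
    exact (pow_left_inj₀ (norm_nonneg _) (norm_nonneg _) two_ne_zero).1 h1
  have hUc : CauchySeq U := by
    have hVc : CauchySeq V := hV.cauchySeq
    rw [Metric.cauchySeq_iff] at hVc ⊢
    intro ε hε
    obtain ⟨N, hN⟩ := hVc ε hε
    refine ⟨N, fun m hm n hn => ?_⟩
    rw [dist_eq_norm, hUV, ← dist_eq_norm]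
    exact hN m hm n hn
  obtain ⟨b, hb⟩ := cauchySeq_tendsto_of_complete hUc
  have hnorm : ‖b‖ = ‖Z‖ := by
    have h1 : Tendsto (fun k => ‖U k‖) atTop (𝓝 ‖b‖) := hb.norm
    have h2 : Tendsto (fun k => ‖V k‖) atTop (𝓝 ‖Z‖) := hV.norm
    have h3 : ∀ k, ‖U k‖ = ‖V k‖ := by
      intro k
      have h4 : ‖U k‖ ^ 2 = ‖V k‖ ^ 2 := by
        rw [hUdef, hVdef, ev_toLp, ev_toLp]
        exact integral_norm_sq_eq hE hΘ (hφ k)
      exact (pow_left_inj₀ (norm_nonneg _) (norm_nonneg _) two_ne_zero).1 h4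
    simp only [h3] at h1
    exact tendsto_nhds_unique h1 h2
  have hbm : MemLp b 2 (volume.restrict Eᶜ) := Lp.memLp b
  -- the function `F`
  have hFloc : LocallyIntegrableOn (fun z => dz ζ z - b z) Eᶜ := by
    have h1 : LocallyIntegrableOn (dz ζ) Eᶜ :=
      hcz.locallyIntegrable.locallyIntegrableOn _
    have h2 : LocallyIntegrableOn (fun z => b z) Eᶜ := by
      have h3 : LocallyIntegrable (fun z => b z) (volume.restrict Eᶜ) :=
        hbm.locallyIntegrable (by norm_num)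
      exact locallyIntegrableOn_of_locallyIntegrable_restrict h3
    exact h1.sub h2
  have hw : ∀ χ : ℂ → ℂ, Test E χ → ∫ z in Eᶜ, (dz ζ z - b z) * dbar χ z = 0 := by
    intro χ hχ
    obtain ⟨s1, s2⟩ := ev_test_supp hχ
    obtain ⟨c1, c2⟩ := ev_cont_of χ (hχ.smooth.of_le (by norm_cast))
    have m1 : MemLp (dz χ) 2 (volume.restrict Eᶜ) := ev_memLp_of_compact c1 s1 _
    have m2 : MemLp (dbar χ) 2 (volume.restrict Eᶜ) := ev_memLp_of_compact c2 s2 _
    have l1 := ev_tendsto_integral hb m2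
    have l2 := ev_tendsto_integral hV m1
    have e1 : ∀ k, ∫ z in Eᶜ, U k z * dbar χ z = ∫ z in Eᶜ, V k z * dz χ z := by
      intro k
      have e2 : ∫ z in Eᶜ, U k z * dbar χ z = ∫ z in Eᶜ, dz (φ k) z * dbar χ z := by
        refine integral_congr_ae ?_
        filter_upwards [(ev_memLp hE (hφ k)).1.coeFn_toLp] with z h1
        rw [hUdef]
        simp only [h1]
      have e3 : ∫ z in Eᶜ, V k z * dz χ z = ∫ z in Eᶜ, dbar (φ k) z * dz χ z := by
        refine integral_congr_ae ?_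
        filter_upwards [(ev_memLp hE (hφ k)).2.coeFn_toLp] with z h1
        rw [hVdef]
        simp only [h1]
      rw [e2, e3]
      exact ev_wedge hE ((hφ k).smooth.of_le (by norm_cast)) hχ
    simp only [e1] at l1
    have e4 := tendsto_nhds_unique l1 l2
    have e5 : ∫ z in Eᶜ, Z z * dz χ z = ∫ z in Eᶜ, dbar ζ z * dz χ z := by
      refine integral_congr_ae ?_
      filter_upwards [mζ.coeFn_toLp] with z h1
      rw [hZdef]
      simp only [h1]
    have e6 := ev_wedge hE hζ1.contDiffOn hχ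
    have i1 : IntegrableOn (fun z => dz ζ z * dbar χ z) Eᶜ := by
      have : Integrable (fun z => dz ζ z * dbar χ z) :=
        (hcz.mul c2).integrable_of_hasCompactSupport s2.mul_left
      exact this.integrableOn
    have i2 : IntegrableOn (fun z => b z * dbar χ z) Eᶜ := ev_integrable_mul hbm m2
    have e7 : ∫ z in Eᶜ, (dz ζ z - b z) * dbar χ z =
        (∫ z in Eᶜ, dz ζ z * dbar χ z) - ∫ z in Eᶜ, b z * dbar χ z := by
      rw [← integral_sub i1 i2]
      refine integral_congr_ae (Filter.Eventually.of_forall fun z => ?_)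
      simp only []
      ring
    rw [e7, e6, e4, e5, sub_self]
  obtain ⟨f, hf, hFf⟩ := exists_primitive_of_weak hE hFloc hw
  have hbf : (fun z => b z) =ᵐ[volume.restrict Eᶜ] fun z => dz ζ z - deriv f z := by
    filter_upwards [hFf] with z hz
    rw [← hz]
    ring
  have mf : MemLp (fun z => dz ζ z - deriv f z) 2 (volume.restrict Eᶜ) := hbm.ae_eq hbf
  refine ⟨f, φ, hf, hφ, ?_, ?_, ht1, ?_⟩
  · exact (memLp_two_iff_integrable_sq_norm mf.1).1 mf
  · have h1 : ∫ z in Eᶜ, ‖dz ζ z - deriv f z‖ ^ 2 = ‖b‖ ^ 2 := by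
      rw [ev_norm_sq]
      refine integral_congr_ae ?_
      filter_upwards [hbf] with z hz
      rw [hz]
    rw [h1, hnorm, ev_toLp]
  · have h1 : Tendsto (fun k => ‖U k - b‖ ^ 2) atTop (𝓝 0) := by
      have := (tendsto_iff_norm_sub_tendsto_zero.1 hb).pow 2
      simpa using this
    refine h1.congr fun k => ?_
    rw [ev_norm_sq]
    refine integral_congr_ae ?_
    filter_upwards [hbf, Lp.coeFn_sub (U k) b, (ev_memLp hE (hφ k)).1.coeFn_toLp]
      with z h2 h3 h4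
    rw [h3, Pi.sub_apply, h2, hUdef]
    simp only [h4]

end Pool.Recti
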