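import Pool.Agent.Recti.Defs

/-!
# A Poincaré inequality on domains

PROOF of `poincare`.
Local: for a ball `B ⊆ U` (closed ball inside `U`, or `h` just `C^1` on `B`) there is a constant `c_B` (the
average of `h` over `B`) with `∫_B ‖h - c_B‖² ≤ C_B ∫_B ‖fderiv ℝ h‖²`: by Cauchy-Schwarz
`∫_B ‖h - c_B‖² ≤ (1/|B|) ∫_B ∫_B ‖h x - h y‖²` and
`‖h x - h y‖² ≤ diam² ∫_0^1 ‖∇h (y + t (x - y))‖² dt`; for `t ≤ 1/2` substitute in `y` (factor `4`), for
`t ≥ 1/2` in `x`.  (Or use squares `[a, a + s] × [b, b + s]` and move along horizontal and then vertical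
segments: `∫∫ ‖h p - h q‖² ≤ 2 s⁴ ∫ ‖∇h‖²`.  Note that `‖h - c‖²` is integrable on compact subsets of `U`
by continuity, so it is convenient to shrink the ball/square a little.)
Global: fix a base ball `B0` with closed ball in `U` (if `Q` is empty or `U` is empty the statement is
trivial) and `c =` average of `h` over `B0`.  Let `S` be the set of `z ∈ U` which have a
ball `B_z` around them and a constant `C_z` with `∫_{B_z} ‖h - c‖² ≤ C_z ∫_U ‖∇h‖²` for all admissible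
`h`.  `S` is open, contains the centre of `B0`, and is closed in `U`: if `z ∈ U` is in the closure of `S`
take a ball `B` around `z` with closed ball in `U`, a point `z' ∈ S ∩ B` and a ball `B' ⊆ B ∩ B_{z'}`; then
`|B'| ‖c_B - c‖² ≤ 2 ∫_{B'} ‖h - c_B‖² + 2 ∫_{B'} ‖h - c‖² ≤ C ∫_U ‖∇h‖²`.  As `U` is preconnected, `S = U`; cover
`Q` by finitely many of the `B_z`.
-/

set_option autoImplicit false

open Complex MeasureTheory Set Filter Topology Metric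
open scoped ContDiff

namespace Pool.Recti

/-! ### Auxiliary lemmas -/

theorem PI_cs {a b : ℝ} (hab : a < b) {G : ℝ → ℝ} (hG : ContinuousOn G (Icc a b)) :
    (∫ x in Icc a b, G x) ^ 2 ≤ (b - a) * ∫ x in Icc a b, G x ^ 2 := by
  have hL : 0 < b - a := sub_pos.mpr hab
  have hv : (volume.restrict (Icc a b)).real univ = b - a := by
    rw [measureReal_restrict_apply_univ, Real.volume_real_Icc_of_le hab.le]
  have hi1 : IntegrableOn G (Icc a b) := hG.integrableOn_compact isCompact_Icc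
  have hi2 : IntegrableOn (fun x => G x ^ 2) (Icc a b) :=
    (hG.pow 2).integrableOn_compact isCompact_Icc
  set I1 := ∫ x in Icc a b, G x with hI1
  set J := ∫ x in Icc a b, G x ^ 2 with hJ
  have h0 : 0 ≤ ∫ x in Icc a b, (G x - I1 / (b - a)) ^ 2 :=
    integral_nonneg (fun x => sq_nonneg _)
  have h1 : ∫ x in Icc a b, (G x - I1 / (b - a)) ^ 2
      = J - 2 * (I1 / (b - a)) * I1 + (b - a) * (I1 / (b - a)) ^ 2 := by
    have e : ∀ x, (G x - I1 / (b - a)) ^ 2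
        = (G x ^ 2 - (2 * (I1 / (b - a))) * G x) + (I1 / (b - a)) ^ 2 := by
      intro x; ring
    simp_rw [e]
    have hi3 : IntegrableOn (fun x => (2 * (I1 / (b - a))) * G x) (Icc a b) :=
      hi1.const_mul _
    have hi4 : IntegrableOn (fun x => G x ^ 2 - (2 * (I1 / (b - a))) * G x) (Icc a b) :=
      hi2.sub hi3
    rw [integral_add hi4 (integrable_const _),
      integral_sub hi2 hi3, integral_const_mul, integral_const, hv]
    simp only [smul_eq_mul]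
    rw [← hI1, ← hJ]
  rw [h1] at h0
  have h2 : J - 2 * (I1 / (b - a)) * I1 + (b - a) * (I1 / (b - a)) ^ 2
      = ((b - a) * J - I1 ^ 2) / (b - a) := by
    field_simp
    ring
  rw [h2] at h0
  have h3 := (div_nonneg_iff.mp h0)
  rcases h3 with ⟨h3, _⟩ | ⟨_, h3⟩
  · linarith
  · linarith

theorem PI_one {a b : ℝ} (hab : a < b) {g g' : ℝ → ℂ} {G : ℝ → ℝ}
    (hg : ∀ x ∈ Icc a b, HasDerivAt g (g' x) x) (hg' : ContinuousOn g' (Icc a b))
    (hG : ContinuousOn G (Icc a b)) (hle : ∀ x ∈ Icc a b, ‖g' x‖ ≤ G x)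
    {x y : ℝ} (hx : x ∈ Icc a b) (hy : y ∈ Icc a b) :
    ‖g x - g y‖ ^ 2 ≤ (b - a) * ∫ t in Icc a b, G t ^ 2 := by
  have hsub : uIcc y x ⊆ Icc a b := uIcc_subset_Icc hy hx
  have h1 : ∫ t in y..x, g' t = g x - g y :=
    intervalIntegral.integral_eq_sub_of_hasDerivAt (fun t ht => hg t (hsub ht))
      ((hg'.mono hsub).intervalIntegrable)
  have h2 : ‖g x - g y‖ ≤ ∫ t in Icc a b, G t := by
    rw [← h1]
    refine (intervalIntegral.norm_integral_le_integral_norm_uIoc).trans ?_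
    have hs2 : uIoc y x ⊆ Icc a b := uIoc_subset_uIcc.trans hsub
    have i1 : IntegrableOn (fun t => ‖g' t‖) (Icc a b) :=
      hg'.norm.integrableOn_compact isCompact_Icc
    have i2 : IntegrableOn G (Icc a b) := hG.integrableOn_compact isCompact_Icc
    calc ∫ t in uIoc y x, ‖g' t‖ ≤ ∫ t in Icc a b, ‖g' t‖ :=
          setIntegral_mono_set i1 (Eventually.of_forall (fun t => norm_nonneg _))
            (LE.le.eventuallyLE hs2)
      _ ≤ ∫ t in Icc a b, G t := setIntegral_mono_on i1 i2 measurableSet_Icc hle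
  calc ‖g x - g y‖ ^ 2 ≤ (∫ t in Icc a b, G t) ^ 2 := by
        exact pow_le_pow_left₀ (norm_nonneg _) h2 2
    _ ≤ _ := PI_cs hab hG

theorem PI_tr (a b c d : ℝ) (f : ℂ → ℝ) :
    ∫ z in Icc a b ×ℂ Icc c d, f z
      = ∫ p : ℝ × ℝ, f ((p.1 : ℂ) + (p.2 : ℂ) * I)
          ∂((volume.restrict (Icc a b)).prod (volume.restrict (Icc c d))) := by
  have h1 := Complex.volume_preserving_equiv_real_prod.setIntegral_preimage_emb
    Complex.measurableEquivRealProd.measurableEmbedding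
    (fun p : ℝ × ℝ => f ((p.1 : ℂ) + (p.2 : ℂ) * I)) (Icc a b ×ˢ Icc c d)
  rw [Measure.volume_eq_prod, ← Measure.prod_restrict] at h1
  rw [← h1]
  have h2 : Complex.measurableEquivRealProd ⁻¹' (Icc a b ×ˢ Icc c d) = Icc a b ×ℂ Icc c d := by
    ext z
    simp [Complex.mem_reProdIm]
    tauto
  rw [h2]
  refine integral_congr_ae (Eventually.of_forall (fun z => ?_))
  simp only [Complex.measurableEquivRealProd_apply, Complex.re_add_im]

theorem PI_sq {U : Set ℂ} (hU : IsOpen U) {a b c d : ℝ} (hab : a < b) (hcd : c < d)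
    (hK : Icc a b ×ℂ Icc c d ⊆ U) (h : ℂ → ℂ) (hh : ContDiffOn ℝ 1 h U) :
    ∃ q : ℂ, ∫ z in Icc a b ×ℂ Icc c d, ‖h z - q‖ ^ 2
      ≤ (2 * (b - a) ^ 2 + 2 * (d - c) ^ 2)
          * ∫ z in Icc a b ×ℂ Icc c d, ‖fderiv ℝ h z‖ ^ 2 := by
  have hL : 0 < b - a := sub_pos.mpr hab
  have hM : 0 < d - c := sub_pos.mpr hcd
  have hv : (volume.restrict (Icc a b)).real univ = b - a := by
    rw [measureReal_restrict_apply_univ, Real.volume_real_Icc_of_le hab.le]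
  have hw : (volume.restrict (Icc c d)).real univ = d - c := by
    rw [measureReal_restrict_apply_univ, Real.volume_real_Icc_of_le hcd.le]
  set μ := volume.restrict (Icc a b) with hμ
  set ν := volume.restrict (Icc c d) with hν
  have hfd : ContinuousOn (fderiv ℝ h) U := hh.continuousOn_fderiv_of_isOpen hU le_rfl
  have hmem : ∀ x ∈ Icc a b, ∀ y ∈ Icc c d, ((x : ℂ) + (y : ℂ) * I) ∈ U := by
    intro x hx y hy
    apply hK
    rw [Complex.mem_reProdIm]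
    constructor
    · simpa using hx
    · simpa using hy
  have hphi : Continuous (fun p : ℝ × ℝ => ((p.1 : ℂ) + (p.2 : ℂ) * I)) := by fun_prop
  have hmaps : MapsTo (fun p : ℝ × ℝ => ((p.1 : ℂ) + (p.2 : ℂ) * I))
      (Icc a b ×ˢ Icc c d) U := by
    rintro ⟨x, y⟩ ⟨hx, hy⟩
    exact hmem x hx y hy
  set G : ℝ × ℝ → ℝ := fun p => ‖fderiv ℝ h ((p.1 : ℂ) + (p.2 : ℂ) * I)‖ with hG
  have hGc : ContinuousOn G (Icc a b ×ˢ Icc c d) :=
    (hfd.comp hphi.continuousOn hmaps).norm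
  have hcomp : IsCompact (Icc a b ×ˢ Icc c d) := isCompact_Icc.prod isCompact_Icc
  have hG2i : Integrable (fun p => G p ^ 2) (μ.prod ν) := by
    have := (hGc.pow 2).integrableOn_compact (μ := (volume : Measure (ℝ × ℝ))) hcomp
    rw [IntegrableOn, Measure.volume_eq_prod, ← Measure.prod_restrict] at this
    exact this
  set J := ∫ p, G p ^ 2 ∂(μ.prod ν) with hJ
  have hJ0 : 0 ≤ J := integral_nonneg (fun p => sq_nonneg _)
  have hA : ∫ y, (∫ x, G (x, y) ^ 2 ∂μ) ∂ν = J := by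
    rw [hJ, integral_prod_symm _ hG2i]
  have hAi : Integrable (fun y => ∫ x, G (x, y) ^ 2 ∂μ) ν := hG2i.integral_prod_right
  have hB : ∫ x, (∫ y, G (x, y) ^ 2 ∂ν) ∂μ = J := by
    rw [hJ, integral_prod _ hG2i]
  have hBi : Integrable (fun x => ∫ y, G (x, y) ^ 2 ∂ν) μ := hG2i.integral_prod_left
  obtain ⟨x0, hx0, hx0B⟩ : ∃ x0 ∈ Icc a b, (∫ y, G (x0, y) ^ 2 ∂ν) ≤ (b - a)⁻¹ * J := by
    have h1 : volume (Icc a b) ≠ 0 := by
      rw [Real.volume_Icc]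
      simpa using hab
    have h2 : volume (Icc a b) ≠ ⊤ := by
      rw [Real.volume_Icc]
      exact ENNReal.ofReal_ne_top
    obtain ⟨x0, hx0, h3⟩ := exists_le_setAverage h1 h2 hBi
    refine ⟨x0, hx0, h3.trans (le_of_eq ?_)⟩
    rw [setAverage_eq, Real.volume_real_Icc_of_le hab.le, smul_eq_mul]
    rw [← hμ, hB]
  refine ⟨h ((x0 : ℂ) + (c : ℂ) * I), ?_⟩
  set q := h ((x0 : ℂ) + (c : ℂ) * I) with hq
  set B0 := ∫ y, G (x0, y) ^ 2 ∂ν with hB0
  -- derivative along lines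
  have hder : ∀ z ∈ U, HasFDerivAt h (fderiv ℝ h z) z := by
    intro z hz
    exact ((hh.differentiableOn one_ne_zero).differentiableAt (hU.mem_nhds hz)).hasFDerivAt
  have hhor : ∀ y ∈ Icc c d, ∀ x ∈ Icc a b,
      ‖h ((x : ℂ) + (y : ℂ) * I) - h ((x0 : ℂ) + (y : ℂ) * I)‖ ^ 2
        ≤ (b - a) * ∫ t in Icc a b, G (t, y) ^ 2 := by
    intro y hy x hx
    have hline : ContinuousOn (fun t : ℝ => fderiv ℝ h ((t : ℂ) + (y : ℂ) * I)) (Icc a b) := by
      refine hfd.comp (by fun_prop) ?_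
      intro t ht
      exact hmem t ht y hy
    refine PI_one hab (g := fun t : ℝ => h ((t : ℂ) + (y : ℂ) * I))
      (g' := fun t : ℝ => fderiv ℝ h ((t : ℂ) + (y : ℂ) * I) 1) (G := fun t => G (t, y))
      ?_ ?_ ?_ ?_ hx hx0
    · intro t ht
      have h1 : HasDerivAt (fun t : ℝ => ((t : ℂ) + (y : ℂ) * I)) 1 t := by
        exact (Complex.ofRealCLM.hasDerivAt (x := t)).add_const _
      have h2 := (hder _ (hmem t ht y hy)).comp_hasDerivAt t h1
      exact h2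
    · exact hline.clm_apply continuousOn_const
    · exact hline.norm
    · intro t ht
      have := (fderiv ℝ h ((t : ℂ) + (y : ℂ) * I)).le_opNorm 1
      simpa using this
  have hver : ∀ y ∈ Icc c d,
      ‖h ((x0 : ℂ) + (y : ℂ) * I) - q‖ ^ 2 ≤ (d - c) * B0 := by
    intro y hy
    have hline : ContinuousOn (fun t : ℝ => fderiv ℝ h ((x0 : ℂ) + (t : ℂ) * I)) (Icc c d) := by
      refine hfd.comp (by fun_prop) ?_
      intro t ht
      exact hmem x0 hx0 t ht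
    refine PI_one hcd (g := fun t : ℝ => h ((x0 : ℂ) + (t : ℂ) * I))
      (g' := fun t : ℝ => fderiv ℝ h ((x0 : ℂ) + (t : ℂ) * I) I) (G := fun t => G (x0, t))
      ?_ ?_ ?_ ?_ hy (left_mem_Icc.mpr hcd.le)
    · intro t ht
      have h1 : HasDerivAt (fun t : ℝ => ((x0 : ℂ) + (t : ℂ) * I)) I t := by
        have h0 := ((Complex.ofRealCLM.hasDerivAt (x := t)).mul_const I).const_add (x0 : ℂ)
        simpa using h0
      have h2 := (hder _ (hmem x0 hx0 t ht)).comp_hasDerivAt t h1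
      exact h2
    · exact hline.clm_apply continuousOn_const
    · exact hline.norm
    · intro t ht
      have := (fderiv ℝ h ((x0 : ℂ) + (t : ℂ) * I)).le_opNorm I
      simpa using this
  have hpt : ∀ x ∈ Icc a b, ∀ y ∈ Icc c d,
      ‖h ((x : ℂ) + (y : ℂ) * I) - q‖ ^ 2
        ≤ 2 * (b - a) * (∫ t in Icc a b, G (t, y) ^ 2) + 2 * (d - c) * B0 := by
    intro x hx y hy
    have h1 := hhor y hy x hx
    have h2 := hver y hy
    have h3 : ‖h ((x : ℂ) + (y : ℂ) * I) - q‖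
        ≤ ‖h ((x : ℂ) + (y : ℂ) * I) - h ((x0 : ℂ) + (y : ℂ) * I)‖
          + ‖h ((x0 : ℂ) + (y : ℂ) * I) - q‖ := norm_sub_le_norm_sub_add_norm_sub _ _ _
    have h4 := norm_nonneg (h ((x : ℂ) + (y : ℂ) * I) - q)
    nlinarith [sq_nonneg (‖h ((x : ℂ) + (y : ℂ) * I) - h ((x0 : ℂ) + (y : ℂ) * I)‖
      - ‖h ((x0 : ℂ) + (y : ℂ) * I) - q‖)]
  rw [PI_tr, PI_tr]
  rw [← hμ, ← hν]
  have hcont : ContinuousOn (fun p : ℝ × ℝ => ‖h ((p.1 : ℂ) + (p.2 : ℂ) * I) - q‖ ^ 2)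
      (Icc a b ×ˢ Icc c d) :=
    (((hh.continuousOn.comp hphi.continuousOn hmaps).sub continuousOn_const).norm).pow 2
  have hint : Integrable (fun p : ℝ × ℝ => ‖h ((p.1 : ℂ) + (p.2 : ℂ) * I) - q‖ ^ 2)
      (μ.prod ν) := by
    have := hcont.integrableOn_compact (μ := (volume : Measure (ℝ × ℝ))) hcomp
    rw [IntegrableOn, Measure.volume_eq_prod, ← Measure.prod_restrict] at this
    exact this
  have hint2 : Integrable (fun p : ℝ × ℝ =>
      2 * (b - a) * (∫ t in Icc a b, G (t, p.2) ^ 2) + 2 * (d - c) * B0) (μ.prod ν) := by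
    refine Integrable.add ?_ (integrable_const _)
    exact (hAi.comp_snd μ).const_mul _
  have hae : ∀ᵐ p ∂(μ.prod ν), p ∈ Icc a b ×ˢ Icc c d := by
    rw [hμ, hν, Measure.prod_restrict]
    exact ae_restrict_mem (measurableSet_Icc.prod measurableSet_Icc)
  have hmono : ∫ p, ‖h ((p.1 : ℂ) + (p.2 : ℂ) * I) - q‖ ^ 2 ∂(μ.prod ν)
      ≤ ∫ p : ℝ × ℝ, (2 * (b - a) * (∫ t in Icc a b, G (t, p.2) ^ 2) + 2 * (d - c) * B0)
          ∂(μ.prod ν) := by
    refine integral_mono_ae hint hint2 ?_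
    filter_upwards [hae] with p hp
    exact hpt p.1 hp.1 p.2 hp.2
  have hval : ∫ p : ℝ × ℝ, (2 * (b - a) * (∫ t in Icc a b, G (t, p.2) ^ 2)
      + 2 * (d - c) * B0) ∂(μ.prod ν)
      = 2 * (b - a) * ((b - a) * J) + (b - a) * (d - c) * (2 * (d - c) * B0) := by
    rw [integral_add ((hAi.comp_snd μ).const_mul _) (integrable_const _)]
    rw [integral_const_mul, integral_fun_snd (fun y => ∫ t in Icc a b, G (t, y) ^ 2)]
    rw [integral_const, hv, smul_eq_mul, smul_eq_mul]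
    rw [← hμ, hA]
    have : (μ.prod ν).real univ = (b - a) * (d - c) := by
      rw [← univ_prod_univ, measureReal_prod_prod, hv, hw]
    rw [this]
  calc ∫ p : ℝ × ℝ, ‖h ((p.1 : ℂ) + (p.2 : ℂ) * I) - q‖ ^ 2 ∂(μ.prod ν)
      ≤ 2 * (b - a) * ((b - a) * J) + (b - a) * (d - c) * (2 * (d - c) * B0) := by
        rw [← hval]; exact hmono
    _ ≤ 2 * (b - a) * ((b - a) * J)
        + (b - a) * (d - c) * (2 * (d - c) * ((b - a)⁻¹ * J)) := by
        gcongr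
    _ = (2 * (b - a) ^ 2 + 2 * (d - c) ^ 2) * J := by
        field_simp
    _ = _ := by rw [hJ]

/-- The set `V` satisfies the Poincaré inequality relative to `U`. -/
def PGood (U V : Set ℂ) : Prop :=
  IsOpen V ∧ (∃ K : Set ℂ, IsCompact K ∧ V ⊆ K ∧ K ⊆ U) ∧
    ∃ C : ℝ, 0 ≤ C ∧ ∀ h : ℂ → ℂ, ContDiffOn ℝ 1 h U →
      IntegrableOn (fun z => ‖fderiv ℝ h z‖ ^ 2) U →
      ∃ c : ℂ, ∫ z in V, ‖h z - c‖ ^ 2 ≤ C * ∫ z in U, ‖fderiv ℝ h z‖ ^ 2

theorem PI_int {U V K : Set ℂ} (hK : IsCompact K) (hVK : V ⊆ K) (hKU : K ⊆ U)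
    {h : ℂ → ℂ} (hh : ContDiffOn ℝ 1 h U) (c : ℂ) :
    IntegrableOn (fun z => ‖h z - c‖ ^ 2) V := by
  have h1 : ContinuousOn (fun z => ‖h z - c‖ ^ 2) K :=
    (((hh.continuousOn.mono hKU).sub continuousOn_const).norm).pow 2
  exact (h1.integrableOn_compact hK).mono_set hVK

theorem PI_union {U V1 V2 : Set ℂ} (h1 : PGood U V1) (h2 : PGood U V2)
    (hne : (V1 ∩ V2).Nonempty) : PGood U (V1 ∪ V2) := by
  obtain ⟨ho1, ⟨K1, hK1, hVK1, hKU1⟩, C1, hC1, hg1⟩ := h1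
  obtain ⟨ho2, ⟨K2, hK2, hVK2, hKU2⟩, C2, hC2, hg2⟩ := h2
  refine ⟨ho1.union ho2, ⟨K1 ∪ K2, hK1.union hK2, union_subset_union hVK1 hVK2,
    union_subset hKU1 hKU2⟩, ?_⟩
  have hmpos : 0 < volume.real (V1 ∩ V2) := by
    have ha : 0 < volume (V1 ∩ V2) := (ho1.inter ho2).measure_pos volume hne
    have hb : volume (V1 ∩ V2) ≠ ⊤ :=
      ne_top_of_le_ne_top hK1.measure_lt_top.ne (measure_mono (inter_subset_left.trans hVK1))
    exact ENNReal.toReal_pos ha.ne' hb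
  have hV2fin : volume V2 ≠ ⊤ :=
    ne_top_of_le_ne_top hK2.measure_lt_top.ne (measure_mono hVK2)
  have hWfin : volume (V1 ∩ V2) ≠ ⊤ :=
    ne_top_of_le_ne_top hV2fin (measure_mono inter_subset_right)
  set m := volume.real (V1 ∩ V2) with hm
  set M := volume.real V2 with hM
  have hM0 : 0 ≤ M := measureReal_nonneg
  refine ⟨C1 + 2 * C2 + 4 * M * (C1 + C2) / m, by positivity, ?_⟩
  intro h hh hi
  obtain ⟨c1, hc1⟩ := hg1 h hh hi
  obtain ⟨c2, hc2⟩ := hg2 h hh hi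
  refine ⟨c1, ?_⟩
  set E := ∫ z in U, ‖fderiv ℝ h z‖ ^ 2 with hE
  have hi11 := PI_int hK1 hVK1 hKU1 hh c1
  have hi21 := PI_int hK2 hVK2 hKU2 hh c1
  have hi22 := PI_int hK2 hVK2 hKU2 hh c2
  have key : m * ‖c1 - c2‖ ^ 2 ≤ 2 * (C1 + C2) * E := by
    have e1 : m * ‖c1 - c2‖ ^ 2 = ∫ z in V1 ∩ V2, ‖c1 - c2‖ ^ 2 := by
      rw [setIntegral_const, smul_eq_mul]
    have hw1 : IntegrableOn (fun z => ‖h z - c1‖ ^ 2) (V1 ∩ V2) := hi11.mono_set inter_subset_left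
    have hw2 : IntegrableOn (fun z => ‖h z - c2‖ ^ 2) (V1 ∩ V2) := hi22.mono_set inter_subset_right
    have e2 : ∫ z in V1 ∩ V2, ‖c1 - c2‖ ^ 2
        ≤ ∫ z in V1 ∩ V2, (2 * ‖h z - c1‖ ^ 2 + 2 * ‖h z - c2‖ ^ 2) := by
      refine integral_mono (integrableOn_const hWfin) ((hw1.const_mul 2).add (hw2.const_mul 2)) ?_
      intro z
      have h3 : ‖c1 - c2‖ ≤ ‖h z - c1‖ + ‖h z - c2‖ := by
        have : c1 - c2 = (h z - c2) - (h z - c1) := by ring
        rw [this]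
        have := norm_sub_le (h z - c2) (h z - c1)
        linarith
      have h4 := norm_nonneg (c1 - c2)
      simp only
      nlinarith [sq_nonneg (‖h z - c1‖ - ‖h z - c2‖)]
    have e3 : ∫ z in V1 ∩ V2, (2 * ‖h z - c1‖ ^ 2 + 2 * ‖h z - c2‖ ^ 2)
        = 2 * (∫ z in V1 ∩ V2, ‖h z - c1‖ ^ 2) + 2 * (∫ z in V1 ∩ V2, ‖h z - c2‖ ^ 2) := by
      rw [integral_add (hw1.const_mul 2) (hw2.const_mul 2), integral_const_mul,
        integral_const_mul]
    have e4 : ∫ z in V1 ∩ V2, ‖h z - c1‖ ^ 2 ≤ ∫ z in V1, ‖h z - c1‖ ^ 2 :=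
      setIntegral_mono_set hi11 (Eventually.of_forall (fun z => sq_nonneg _))
        (LE.le.eventuallyLE inter_subset_left)
    have e5 : ∫ z in V1 ∩ V2, ‖h z - c2‖ ^ 2 ≤ ∫ z in V2, ‖h z - c2‖ ^ 2 :=
      setIntegral_mono_set hi22 (Eventually.of_forall (fun z => sq_nonneg _))
        (LE.le.eventuallyLE inter_subset_right)
    rw [e1]
    linarith
  have hdist : ‖c1 - c2‖ ^ 2 ≤ 2 * (C1 + C2) * E / m := by
    rw [le_div_iff₀ hmpos]
    linarith
  have hsecond : ∫ z in V2, ‖h z - c1‖ ^ 2 ≤ 2 * (C2 * E) + 2 * M * ‖c1 - c2‖ ^ 2 := by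
    have f1 : ∫ z in V2, ‖h z - c1‖ ^ 2
        ≤ ∫ z in V2, (2 * ‖h z - c2‖ ^ 2 + 2 * ‖c1 - c2‖ ^ 2) := by
      refine integral_mono hi21 ((hi22.const_mul 2).add (integrableOn_const hV2fin)) ?_
      intro z
      have h3 : ‖h z - c1‖ ≤ ‖h z - c2‖ + ‖c1 - c2‖ := by
        have : h z - c1 = (h z - c2) - (c1 - c2) := by ring
        rw [this]
        exact norm_sub_le _ _
      have h4 := norm_nonneg (h z - c1)
      simp only
      nlinarith [sq_nonneg (‖h z - c2‖ - ‖c1 - c2‖)]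
    have f2 : ∫ z in V2, (2 * ‖h z - c2‖ ^ 2 + 2 * ‖c1 - c2‖ ^ 2)
        = 2 * (∫ z in V2, ‖h z - c2‖ ^ 2) + M * (2 * ‖c1 - c2‖ ^ 2) := by
      rw [integral_add (hi22.const_mul 2) (integrableOn_const hV2fin), integral_const_mul,
        setIntegral_const, smul_eq_mul]
    rw [f2] at f1
    linarith
  have hun : ∫ z in V1 ∪ V2, ‖h z - c1‖ ^ 2
      ≤ (∫ z in V1, ‖h z - c1‖ ^ 2) + ∫ z in V2, ‖h z - c1‖ ^ 2 := by
    have g1 : V1 ∪ V2 = V1 ∪ (V2 \ V1) := by rw [union_sdiff_self]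
    have g2 : ∫ z in V1 ∪ V2, ‖h z - c1‖ ^ 2
        = (∫ z in V1, ‖h z - c1‖ ^ 2) + ∫ z in V2 \ V1, ‖h z - c1‖ ^ 2 := by
      rw [g1]
      exact setIntegral_union disjoint_sdiff_right (ho2.measurableSet.diff ho1.measurableSet)
        hi11 (hi21.mono_set sdiff_subset)
    have g3 : ∫ z in V2 \ V1, ‖h z - c1‖ ^ 2 ≤ ∫ z in V2, ‖h z - c1‖ ^ 2 :=
      setIntegral_mono_set hi21 (Eventually.of_forall (fun z => sq_nonneg _))
        (LE.le.eventuallyLE sdiff_subset)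
    linarith
  have hfin : 2 * M * ‖c1 - c2‖ ^ 2 ≤ 2 * M * (2 * (C1 + C2) * E / m) :=
    mul_le_mul_of_nonneg_left hdist (by positivity)
  have hlast : (C1 + 2 * C2 + 4 * M * (C1 + C2) / m) * E
      = C1 * E + 2 * (C2 * E) + 2 * M * (2 * (C1 + C2) * E / m) := by
    field_simp
    ring
  rw [hlast]
  linarith

theorem PI_local {U : Set ℂ} (hU : IsOpen U) {z : ℂ} (hz : z ∈ U) :
    ∃ V : Set ℂ, PGood U V ∧ z ∈ V := by
  obtain ⟨ε, hε, hball⟩ := Metric.isOpen_iff.mp hU z hz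
  set s := ε / 4 with hs
  have hs0 : 0 < s := by positivity
  set a := z.re - s with ha
  set b := z.re + s with hb
  set c := z.im - s with hc
  set d := z.im + s with hd
  have hab : a < b := by linarith
  have hcd : c < d := by linarith
  have hKU : Icc a b ×ℂ Icc c d ⊆ U := by
    intro w hw
    rw [Complex.mem_reProdIm] at hw
    apply hball
    rw [mem_ball, Complex.dist_eq]
    have h1 := Complex.norm_le_abs_re_add_abs_im (w - z)
    have h2 : |(w - z).re| ≤ s := by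
      rw [Complex.sub_re, abs_le]
      constructor <;> linarith [hw.1.1, hw.1.2]
    have h3 : |(w - z).im| ≤ s := by
      rw [Complex.sub_im, abs_le]
      constructor <;> linarith [hw.2.1, hw.2.2]
    linarith
  have hsub : Ioo a b ×ℂ Ioo c d ⊆ Icc a b ×ℂ Icc c d := by
    intro w hw
    rw [Complex.mem_reProdIm] at hw ⊢
    exact ⟨Ioo_subset_Icc_self hw.1, Ioo_subset_Icc_self hw.2⟩
  have hKc : IsCompact (Icc a b ×ℂ Icc c d) := isCompact_Icc.reProdIm isCompact_Icc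
  refine ⟨Ioo a b ×ℂ Ioo c d, ⟨isOpen_Ioo.reProdIm isOpen_Ioo,
    ⟨Icc a b ×ℂ Icc c d, hKc, hsub, hKU⟩,
    2 * (b - a) ^ 2 + 2 * (d - c) ^ 2, by positivity, ?_⟩, ?_⟩
  · intro h hh hi
    obtain ⟨q, hq⟩ := PI_sq hU hab hcd hKU h hh
    refine ⟨q, ?_⟩
    have hi1 := PI_int hKc (subset_refl _) hKU hh q
    calc ∫ z in Ioo a b ×ℂ Ioo c d, ‖h z - q‖ ^ 2
        ≤ ∫ z in Icc a b ×ℂ Icc c d, ‖h z - q‖ ^ 2 :=
          setIntegral_mono_set hi1 (Eventually.of_forall (fun z => sq_nonneg _))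
            (LE.le.eventuallyLE hsub)
      _ ≤ _ := hq
      _ ≤ (2 * (b - a) ^ 2 + 2 * (d - c) ^ 2) * ∫ z in U, ‖fderiv ℝ h z‖ ^ 2 := by
          refine mul_le_mul_of_nonneg_left ?_ (by positivity)
          exact setIntegral_mono_set hi (Eventually.of_forall (fun z => sq_nonneg _))
            (LE.le.eventuallyLE hKU)
  · rw [Complex.mem_reProdIm]
    exact ⟨⟨by linarith, by linarith⟩, ⟨by linarith, by linarith⟩⟩

theorem poincare {U : Set ℂ} (hU : IsOpen U) (hc : IsPreconnected U) {Q : Set ℂ}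
    (hQ : IsCompact Q) (hQU : Q ⊆ U) :
    ∃ C : ℝ, 0 ≤ C ∧ ∀ h : ℂ → ℂ, ContDiffOn ℝ 1 h U →
      IntegrableOn (fun z => ‖fderiv ℝ h z‖ ^ 2) U →
      ∃ c : ℂ, ∫ z in Q, ‖h z - c‖ ^ 2 ≤ C * ∫ z in U, ‖fderiv ℝ h z‖ ^ 2 := by
  rcases Q.eq_empty_or_nonempty with hQe | ⟨z0, hz0⟩
  · subst hQe
    exact ⟨0, le_rfl, fun h _ _ => ⟨0, by simp⟩⟩
  have hz0U : z0 ∈ U := hQU hz0
  set S : Set ℂ := {z | z ∈ U ∧ ∃ V : Set ℂ, PGood U V ∧ z0 ∈ V ∧ z ∈ V} with hS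
  set T : Set ℂ := {z | z ∈ U ∧ ¬ ∃ V : Set ℂ, PGood U V ∧ z0 ∈ V ∧ z ∈ V} with hT
  have hgsub : ∀ V : Set ℂ, PGood U V → V ⊆ U := by
    rintro V ⟨_, ⟨K, _, h1, h2⟩, _⟩
    exact h1.trans h2
  have hSo : IsOpen S := by
    rw [isOpen_iff_mem_nhds]
    rintro z ⟨hzU, V, hV, hz0V, hzV⟩
    filter_upwards [hV.1.mem_nhds hzV] with w hw
    exact ⟨hgsub V hV hw, V, hV, hz0V, hw⟩
  have hTo : IsOpen T := by
    rw [isOpen_iff_mem_nhds]
    rintro z ⟨hzU, hno⟩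
    obtain ⟨W, hW, hzW⟩ := PI_local hU hzU
    filter_upwards [hW.1.mem_nhds hzW] with w hw
    refine ⟨hgsub W hW hw, ?_⟩
    rintro ⟨V, hV, hz0V, hwV⟩
    exact hno ⟨V ∪ W, PI_union hV hW ⟨w, hwV, hw⟩, Or.inl hz0V, Or.inr hzW⟩
  have hdisj : Disjoint S T := by
    rw [Set.disjoint_left]
    rintro z ⟨_, h1⟩ ⟨_, h2⟩
    exact h2 h1
  have hcov : U ⊆ S ∪ T := by
    intro z hz
    by_cases h : ∃ V : Set ℂ, PGood U V ∧ z0 ∈ V ∧ z ∈ V
    · exact Or.inl ⟨hz, h⟩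
    · exact Or.inr ⟨hz, h⟩
  have hz0S : z0 ∈ S := by
    obtain ⟨W, hW, hzW⟩ := PI_local hU hz0U
    exact ⟨hz0U, W, hW, hzW, hzW⟩
  have hUS : U ⊆ S := hc.subset_left_of_subset_union hSo hTo hdisj hcov ⟨z0, hz0U, hz0S⟩
  have hne : Nonempty {V : Set ℂ // PGood U V ∧ z0 ∈ V} := by
    obtain ⟨W, hW, hzW⟩ := PI_local hU hz0U
    exact ⟨⟨W, hW, hzW⟩⟩
  obtain ⟨⟨V, hV, hz0V⟩, hQV⟩ := hQ.elim_directed_cover
    (fun V : {V : Set ℂ // PGood U V ∧ z0 ∈ V} => V.1) (fun V => V.2.1.1) (by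
      intro z hz
      obtain ⟨_, V, hV, h1, h2⟩ := hUS (hQU hz)
      exact mem_iUnion.mpr ⟨⟨V, hV, h1⟩, h2⟩) (by
      rintro ⟨V1, hV1, h1⟩ ⟨V2, hV2, h2⟩
      exact ⟨⟨V1 ∪ V2, PI_union hV1 hV2 ⟨z0, h1, h2⟩, Or.inl h1⟩, subset_union_left,
        subset_union_right⟩)
  obtain ⟨_, ⟨K, hK, hVK, hKU⟩, C, hC, hg⟩ := hV
  refine ⟨C, hC, fun h hh hi => ?_⟩
  obtain ⟨c, hcc⟩ := hg h hh hi
  refine ⟨c, le_trans ?_ hcc⟩
  exact setIntegral_mono_set (PI_int hK hVK hKU hh c)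
    (Eventually.of_forall (fun z => sq_nonneg _)) (LE.le.eventuallyLE hQV)

end Pool.Recti
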