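import Pool.Agent.Recti.Exist1
import Pool.Agent.Recti.Poincare

/-!
# Structured approximants of the variational map

PROOF of `exists_app`.  `D = Eᶜ`.  `g_k = ζ - φ k`, `h_k = g_k - f` is smooth on `D`,
`dz h_k = (dz ζ - deriv f) - dz (φ k)`, `dbar h_k = dbar ζ - dbar (φ k)` on `D`, so
`∫_D ‖fderiv ℝ h_k‖² → 0` (`norm_fderiv_le`; all functions are square integrable on `D`: `Cls.energy`, `norm_dz_le`,
`norm_dbar_le`).  Let `ψ` be smooth with compact support in `D`, `ψ = 1` near `Q`, values in `[0,1]`.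
`poincare` on `D` with the compact set `tsupport ψ` gives constants `c_k` with `∫_{tsupport ψ} ‖h_k - c_k‖² → 0`.
Put `g = f + (1 - ψ) (h_k - c_k)` with `k` large: `g = f` on `Q`; off `tsupport ψ`, `g = ζ - φ k - c_k`.
* Infinity: there `g z = z - c_k`.
* Frame: near `E` (`ζ = 0` there), `g = -φ k - c_k`, so `Im (e^{-iΘ} g) = -W_k - Im (e^{-iΘ} c_k)`, which is the
  restriction of a globally smooth function which is locally constant near `E`.
* Smooth: on `D` all of `f` (holomorphic), `ψ`, `ζ`, `φ k` are smooth.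
* Energy: `fderiv (g - f) = (1 - ψ) fderiv h_k - (h_k - c_k) fderiv ψ` on `D`, so
  `∫_D ‖fderiv (g - f)‖² ≤ 2 ∫_D ‖fderiv h_k‖² + 2 (sup ‖fderiv ψ‖)² ∫_{tsupport ψ} ‖h_k - c_k‖² → 0`.
-/

set_option autoImplicit false

open Complex MeasureTheory Set Filter Topology Metric
open scoped ContDiff

namespace Pool.Recti

open Pool.Lib (dbar)

variable {E : Set ℂ} {Θ : ℂ → ℝ}

private lemma ex2_bump {Q D : Set ℂ} (hQ : IsCompact Q) (hD : IsOpen D) (h : Q ⊆ D) :
    ∃ ψ : ℂ → ℝ, ContDiff ℝ ∞ ψ ∧ HasCompactSupport ψ ∧ tsupport ψ ⊆ D ∧ (∀ z ∈ Q, ψ z = 1) ∧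
      ∀ z, ψ z ∈ Icc (0 : ℝ) 1 := by
  obtain ⟨K, hK, hQK, hKD⟩ := exists_compact_between hQ hD h
  obtain ⟨f, h1, h0, hf⟩ := exists_contMDiffMap_one_nhds_of_subset_interior (n := (⊤ : ℕ∞))
    (modelWithCornersSelf ℝ ℂ) hQ.isClosed hQK
  have hsupp : Function.support (f : ℂ → ℝ) ⊆ K := by
    intro x hx
    by_contra hxK
    exact hx (h0 x hxK)
  refine ⟨f, f.contMDiff.contDiff, HasCompactSupport.intro hK h0,
    (closure_minimal hsupp hK.isClosed).trans hKD, fun z hz => ?_, hf⟩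
  exact h1.self_of_nhdsSet z hz

private lemma ex2_dz_sub {f g : ℂ → ℂ} {z : ℂ} (hf : DifferentiableAt ℝ f z)
    (hg : DifferentiableAt ℝ g z) : dz (fun w => f w - g w) z = dz f z - dz g z := by
  unfold dz
  have h : fderiv ℝ (fun w => f w - g w) z = fderiv ℝ f z - fderiv ℝ g z := fderiv_sub hf hg
  rw [h]
  simp only [sub_apply]
  ring

private lemma ex2_dbar_sub {f g : ℂ → ℂ} {z : ℂ} (hf : DifferentiableAt ℝ f z)
    (hg : DifferentiableAt ℝ g z) : dbar (fun w => f w - g w) z = dbar f z - dbar g z := by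
  unfold Pool.Lib.dbar
  have h : fderiv ℝ (fun w => f w - g w) z = fderiv ℝ f z - fderiv ℝ g z := fderiv_sub hf hg
  rw [h]
  simp only [sub_apply]
  ring

private lemma ex2_dz_cont {D : Set ℂ} (hD : IsOpen D) {f : ℂ → ℂ} (hf : ContDiffOn ℝ ∞ f D) :
    ContinuousOn (dz f) D := by
  have h := hf.continuousOn_fderiv_of_isOpen hD (by norm_num)
  unfold dz
  fun_prop

private lemma ex2_dbar_cont {D : Set ℂ} (hD : IsOpen D) {f : ℂ → ℂ} (hf : ContDiffOn ℝ ∞ f D) :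
    ContinuousOn (dbar f) D := by
  have h := hf.continuousOn_fderiv_of_isOpen hD (by norm_num)
  unfold Pool.Lib.dbar
  fun_prop

private lemma ex2_sq (a b : ℝ) : (a + b) ^ 2 ≤ 2 * a ^ 2 + 2 * b ^ 2 := by
  nlinarith [sq_nonneg (a - b)]

theorem exists_app (hE : IsCompact E) (hD : IsConnected Eᶜ) (hΘ : Test E Θ) {ζ : ℂ → ℂ}
    (hζ : ContDiff ℝ ∞ ζ) (hζ0 : ∀ᶠ z in 𝓝ˢ E, ζ z = 0) (hζ1 : ∃ R : ℝ, ∀ z, R ≤ ‖z‖ → ζ z = z)
    {f : ℂ → ℂ} {φ : ℕ → ℂ → ℂ} (hf : DifferentiableOn ℂ f Eᶜ) (hφ : ∀ k, Cls E Θ (φ k))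
    (hint : IntegrableOn (fun z => ‖dz ζ z - deriv f z‖ ^ 2) Eᶜ)
    (h1 : Tendsto (fun k => ∫ z in Eᶜ, ‖dbar (φ k) z - dbar ζ z‖ ^ 2) atTop (𝓝 0))
    (h2 : Tendsto (fun k => ∫ z in Eᶜ, ‖dz (φ k) z - (dz ζ z - deriv f z)‖ ^ 2) atTop (𝓝 0))
    {Q : Set ℂ} (hQ : IsCompact Q) (hQE : Q ⊆ Eᶜ) {ε : ℝ} (hε : 0 < ε) :
    ∃ g : ℂ → ℂ, App E Θ f Q ε g := by
  have hDo : IsOpen Eᶜ := hE.isClosed.isOpen_compl
  have hDm : MeasurableSet Eᶜ := hDo.measurableSet
  have hfR : ContDiffOn ℝ ∞ f Eᶜ := (hf.contDiffOn hDo).restrict_scalars ℝ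
  have hdf : ContinuousOn (deriv f) Eᶜ :=
    ((hf.contDiffOn (n := 1) hDo).continuousOn_deriv_of_isOpen hDo le_rfl)
  set h : ℕ → ℂ → ℂ := fun k z => ζ z - φ k z - f z with hh
  have hhs : ∀ k, ContDiffOn ℝ ∞ (h k) Eᶜ := fun k =>
    (hζ.contDiffOn.sub (hφ k).smooth).sub hfR
  -- differentiability
  have dA : ∀ {u : ℂ → ℂ}, ContDiffOn ℝ ∞ u Eᶜ → ∀ z ∈ Eᶜ, DifferentiableAt ℝ u z := by
    intro u hu z hz
    exact (hu.contDiffAt (hDo.mem_nhds hz)).differentiableAt (by norm_num)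
  -- pointwise estimate
  have hpt : ∀ k, ∀ z ∈ Eᶜ, ‖fderiv ℝ (h k) z‖ ^ 2 ≤
      2 * ‖dz (φ k) z - (dz ζ z - deriv f z)‖ ^ 2 + 2 * ‖dbar (φ k) z - dbar ζ z‖ ^ 2 := by
    intro k z hz
    have a1 := dA hζ.contDiffOn z hz
    have a2 := dA (hφ k).smooth z hz
    have a3 := dA hfR z hz
    have a4 : DifferentiableAt ℂ f z := hf.differentiableAt (hDo.mem_nhds hz)
    have a12 : DifferentiableAt ℝ (fun w => ζ w - φ k w) z := a1.sub a2
    have e1 : dz (h k) z = -(dz (φ k) z - (dz ζ z - deriv f z)) := by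
      rw [hh]
      simp only []
      rw [ex2_dz_sub a12 a3, ex2_dz_sub a1 a2, dz_eq_deriv a4]
      ring
    have e2 : dbar (h k) z = -(dbar (φ k) z - dbar ζ z) := by
      rw [hh]
      simp only []
      rw [ex2_dbar_sub a12 a3, ex2_dbar_sub a1 a2, Pool.Lib.dbar_eq_zero a4]
      ring
    have e3 := norm_fderiv_le (h k) z
    rw [e1, e2, norm_neg, norm_neg] at e3
    exact (pow_le_pow_left₀ (norm_nonneg _) e3 2).trans (ex2_sq _ _)
  -- integrability
  have hdbc : HasCompactSupport (dbar ζ) := by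
    obtain ⟨R, hR⟩ := hζ1
    refine HasCompactSupport.intro (isCompact_closedBall (0 : ℂ) R) fun z hz => ?_
    have hz' : R < ‖z‖ := by simpa using hz
    have hev : ζ =ᶠ[𝓝 z] fun w => w := by
      have : ∀ᶠ w in 𝓝 z, R < ‖w‖ := continuous_norm.continuousAt.eventually_const_lt hz'
      filter_upwards [this] with w hw
      exact hR w hw.le
    rw [Pool.Lib.dbar_congr hev]
    exact Pool.Lib.dbar_eq_zero differentiableAt_id
  have hdbζ : Continuous (dbar ζ) := Pool.Lib.continuous_dbar (hζ.of_le (by norm_num))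
  have hi0 : Integrable fun z => ‖dbar ζ z‖ ^ 2 := by
    refine Continuous.integrable_of_hasCompactSupport (hdbζ.norm.pow 2) ?_
    exact hdbc.comp_left (g := fun w => ‖w‖ ^ 2) (by simp)
  have hi1 : ∀ k, IntegrableOn (fun z => ‖dbar (φ k) z - dbar ζ z‖ ^ 2) Eᶜ := by
    intro k
    have b : IntegrableOn (fun z => 2 * ‖fderiv ℝ (φ k) z‖ ^ 2 + 2 * ‖dbar ζ z‖ ^ 2) Eᶜ :=
      ((hφ k).energy.const_mul 2).add ((hi0.const_mul 2).integrableOn)
    refine Integrable.mono' b ?_ ?_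
    · refine ContinuousOn.aestronglyMeasurable ?_ hDm
      exact ((ex2_dbar_cont hDo (hφ k).smooth).sub hdbζ.continuousOn).norm.pow 2
    · refine Eventually.of_forall fun z => ?_
      rw [Real.norm_of_nonneg (by positivity)]
      have c1 : ‖dbar (φ k) z - dbar ζ z‖ ≤ ‖fderiv ℝ (φ k) z‖ + ‖dbar ζ z‖ :=
        (norm_sub_le _ _).trans (add_le_add (norm_dbar_le _ _) le_rfl)
      exact (pow_le_pow_left₀ (norm_nonneg _) c1 2).trans (ex2_sq _ _)
  have hi2 : ∀ k, IntegrableOn (fun z => ‖dz (φ k) z - (dz ζ z - deriv f z)‖ ^ 2) Eᶜ := by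
    intro k
    have b : IntegrableOn (fun z => 2 * ‖fderiv ℝ (φ k) z‖ ^ 2 +
        2 * ‖dz ζ z - deriv f z‖ ^ 2) Eᶜ :=
      ((hφ k).energy.const_mul 2).add (hint.const_mul 2)
    refine Integrable.mono' b ?_ ?_
    · refine ContinuousOn.aestronglyMeasurable ?_ hDm
      exact ((ex2_dz_cont hDo (hφ k).smooth).sub
        ((ex2_dz_cont hDo hζ.contDiffOn).sub hdf)).norm.pow 2
    · refine Eventually.of_forall fun z => ?_
      rw [Real.norm_of_nonneg (by positivity)]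
      have c1 : ‖dz (φ k) z - (dz ζ z - deriv f z)‖ ≤
          ‖fderiv ℝ (φ k) z‖ + ‖dz ζ z - deriv f z‖ :=
        (norm_sub_le _ _).trans (add_le_add (norm_dz_le _ _) le_rfl)
      exact (pow_le_pow_left₀ (norm_nonneg _) c1 2).trans (ex2_sq _ _)
  have hsum : ∀ k, IntegrableOn (fun z => 2 * ‖dz (φ k) z - (dz ζ z - deriv f z)‖ ^ 2 +
      2 * ‖dbar (φ k) z - dbar ζ z‖ ^ 2) Eᶜ := fun k =>
    ((hi2 k).const_mul 2).add ((hi1 k).const_mul 2)
  have hcont : ∀ k, ContinuousOn (fun z => fderiv ℝ (h k) z) Eᶜ := fun k =>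
    (hhs k).continuousOn_fderiv_of_isOpen hDo (by norm_num)
  have hih : ∀ k, IntegrableOn (fun z => ‖fderiv ℝ (h k) z‖ ^ 2) Eᶜ := by
    intro k
    refine Integrable.mono' (hsum k) ?_ ?_
    · exact ((hcont k).norm.pow 2).aestronglyMeasurable hDm
    · refine (ae_restrict_iff' hDm).2 (Eventually.of_forall fun z hz => ?_)
      rw [Real.norm_of_nonneg (by positivity)]
      exact hpt k z hz
  have hJ : ∀ k, ∫ z in Eᶜ, ‖fderiv ℝ (h k) z‖ ^ 2 ≤
      2 * (∫ z in Eᶜ, ‖dz (φ k) z - (dz ζ z - deriv f z)‖ ^ 2) +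
      2 * ∫ z in Eᶜ, ‖dbar (φ k) z - dbar ζ z‖ ^ 2 := by
    intro k
    rw [← integral_const_mul, ← integral_const_mul,
      ← integral_add ((hi2 k).const_mul 2) ((hi1 k).const_mul 2)]
    exact setIntegral_mono_on (hih k) (hsum k) hDm (hpt k)
  -- cutoff
  obtain ⟨ψ, hψs, hψc, hψD, hψ1, hψI⟩ := ex2_bump hQ hDo hQE
  obtain ⟨C, hC0, hC⟩ := poincare hDo hD.isPreconnected hψc.isCompact hψD
  obtain ⟨M, hM⟩ : ∃ M, ∀ z, ‖fderiv ℝ ψ z‖ ≤ M := by
    have hc : Continuous (fderiv ℝ ψ) := hψs.continuous_fderiv (by norm_num)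
    exact hc.bounded_above_of_compact_support (hψc.fderiv ℝ)
  have hM0 : 0 ≤ M := (norm_nonneg _).trans (hM 0)
  -- choice of `k`
  obtain ⟨k, hk⟩ : ∃ k, (2 + 2 * M ^ 2 * C) *
      (2 * (∫ z in Eᶜ, ‖dz (φ k) z - (dz ζ z - deriv f z)‖ ^ 2) +
      2 * ∫ z in Eᶜ, ‖dbar (φ k) z - dbar ζ z‖ ^ 2) ≤ ε := by
    have hl : Tendsto (fun k => (2 + 2 * M ^ 2 * C) *
      (2 * (∫ z in Eᶜ, ‖dz (φ k) z - (dz ζ z - deriv f z)‖ ^ 2) +
      2 * ∫ z in Eᶜ, ‖dbar (φ k) z - dbar ζ z‖ ^ 2)) atTop (𝓝 0) := by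
      have := ((h2.const_mul 2).add (h1.const_mul 2)).const_mul (2 + 2 * M ^ 2 * C)
      simpa using this
    exact ((hl.eventually (gt_mem_nhds hε)).exists).imp fun k hk => hk.le
  obtain ⟨c, hc⟩ := hC (h k) ((hhs k).of_le (by norm_num)) (hih k)
  have hoff : ∀ z, z ∉ tsupport ψ → ψ z = 0 := fun z hz => image_eq_zero_of_notMem_tsupport hz
  set g : ℂ → ℂ := fun z => f z + (1 - ψ z) • (h k z - c) with hg
  -- derivative of the difference
  have hder : ∀ z ∈ Eᶜ, fderiv ℝ (fun w => g w - f w) z =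
      (1 - ψ z) • fderiv ℝ (h k) z + (-(fderiv ℝ ψ z)).smulRight (h k z - c) := by
    intro z hz
    have e1 : (fun w => g w - f w) = fun w => (1 - ψ w) • (h k w - c) := by
      funext w
      simp only [hg]
      ring
    rw [e1]
    have a1 : HasFDerivAt (h k) (fderiv ℝ (h k) z) z := (dA (hhs k) z hz).hasFDerivAt
    have a2 : HasFDerivAt ψ (fderiv ℝ ψ z) z :=
      (hψs.differentiable (by norm_num) z).hasFDerivAt
    exact ((a2.const_sub 1).smul (a1.sub_const c)).fderiv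
  have hbd : ∀ z ∈ Eᶜ, ‖fderiv ℝ (fun w => g w - f w) z‖ ^ 2 ≤
      2 * ‖fderiv ℝ (h k) z‖ ^ 2 +
        (tsupport ψ).indicator (fun z => 2 * M ^ 2 * ‖h k z - c‖ ^ 2) z := by
    intro z hz
    rw [hder z hz]
    by_cases hzt : z ∈ tsupport ψ
    · rw [indicator_of_mem hzt]
      have b1 : ‖(1 - ψ z) • fderiv ℝ (h k) z‖ ≤ ‖fderiv ℝ (h k) z‖ := by
        rw [norm_smul]
        refine mul_le_of_le_one_left (norm_nonneg _) ?_
        rw [Real.norm_eq_abs, abs_le]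
        have := hψI z
        constructor <;> linarith [this.1, this.2]
      have b2 : ‖(-(fderiv ℝ ψ z)).smulRight (h k z - c)‖ ≤ M * ‖h k z - c‖ := by
        rw [ContinuousLinearMap.norm_smulRight_apply, norm_neg]
        exact mul_le_mul_of_nonneg_right (hM z) (norm_nonneg _)
      have b3 := (norm_add_le _ _).trans (add_le_add b1 b2)
      refine (pow_le_pow_left₀ (norm_nonneg _) b3 2).trans ((ex2_sq _ _).trans (le_of_eq ?_))
      ring
    · rw [indicator_of_notMem hzt]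
      have b0 : ψ z = 0 := hoff z hzt
      have b1 : fderiv ℝ ψ z = 0 := by
        have : z ∉ tsupport (fderiv ℝ ψ) := fun hc => hzt (tsupport_fderiv_subset ℝ hc)
        exact image_eq_zero_of_notMem_tsupport this
      rw [b0, b1]
      have b2 : (-(0 : ℂ →L[ℝ] ℝ)).smulRight (h k z - c) = 0 := by
        ext
        simp
      rw [b2, sub_zero, one_smul, add_zero, add_zero]
      nlinarith [sq_nonneg ‖fderiv ℝ (h k) z‖]
  have hts : MeasurableSet (tsupport ψ) := (isClosed_tsupport ψ).measurableSet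
  have hic : IntegrableOn (fun z => 2 * M ^ 2 * ‖h k z - c‖ ^ 2) (tsupport ψ) := by
    refine ContinuousOn.integrableOn_compact hψc.isCompact ?_
    have : ContinuousOn (h k) (tsupport ψ) := (hhs k).continuousOn.mono hψD
    fun_prop
  have hic2 : IntegrableOn ((tsupport ψ).indicator
      (fun z => 2 * M ^ 2 * ‖h k z - c‖ ^ 2)) Eᶜ :=
    ((integrable_indicator_iff hts).2 hic).integrableOn
  have hib : IntegrableOn (fun z => 2 * ‖fderiv ℝ (h k) z‖ ^ 2 +
        (tsupport ψ).indicator (fun z => 2 * M ^ 2 * ‖h k z - c‖ ^ 2) z) Eᶜ :=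
    ((hih k).const_mul 2).add hic2
  have hgs : ContDiffOn ℝ ∞ g Eᶜ :=
    hfR.add ((contDiffOn_const.sub hψs.contDiffOn).smul ((hhs k).sub contDiffOn_const))
  have hig : IntegrableOn (fun z => ‖fderiv ℝ (fun w => g w - f w) z‖ ^ 2) Eᶜ := by
    refine Integrable.mono' hib ?_ ?_
    · refine ContinuousOn.aestronglyMeasurable ?_ hDm
      exact (((hgs.sub hfR).continuousOn_fderiv_of_isOpen hDo (by norm_num)).norm.pow 2)
    · refine (ae_restrict_iff' hDm).2 (Eventually.of_forall fun z hz => ?_)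
      rw [Real.norm_of_nonneg (by positivity)]
      exact hbd z hz
  refine ⟨g, hgs, ?_, ?_, ?_, hig, ?_⟩
  · intro z hz
    simp [hg, hψ1 z hz]
  · -- frame
    obtain ⟨W, hW1, hW2, hW3⟩ := (hφ k).frame
    refine ⟨fun z => -W z - (exp (-(Θ z * I)) * c).im, ?_, ?_, ?_⟩
    · have hΘs := hΘ.smooth
      have : ContDiff ℝ ∞ fun z => (exp (-(Θ z * I)) * c).im := by
        have hx : ContDiff ℝ ∞ fun z => exp (-(Θ z * I)) * c := by
          refine ContDiff.mul ?_ contDiff_const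
          refine ContDiff.cexp ?_
          exact ((Complex.ofRealCLM.contDiff.comp hΘs).mul contDiff_const).neg
        exact Complex.imCLM.contDiff.comp hx
      exact hW1.neg.sub this
    · have hΘl : ∀ᶠ z in 𝓝ˢ E, fderiv ℝ Θ z = 0 := hΘ.lc
      have hWl : ∀ᶠ z in 𝓝ˢ E, fderiv ℝ W z = 0 := hW2
      show ∀ᶠ z in 𝓝ˢ E, _
      filter_upwards [hΘl, hWl] with z a1 a2
      have d1 : HasFDerivAt Θ (0 : ℂ →L[ℝ] ℝ) z := by
        rw [← a1]
        exact (hΘ.smooth.differentiable (by norm_num) z).hasFDerivAt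
      have d2 : HasFDerivAt W (0 : ℂ →L[ℝ] ℝ) z := by
        rw [← a2]
        exact (hW1.differentiable (by norm_num) z).hasFDerivAt
      have d3 : HasDerivAt (fun t : ℝ => (exp (-((t : ℂ) * I)) * c).im)
          (deriv (fun t : ℝ => (exp (-((t : ℂ) * I)) * c).im) (Θ z)) (Θ z) := by
        have : Differentiable ℝ fun t : ℝ => (exp (-((t : ℂ) * I)) * c).im := by
          have hcd : ContDiff ℝ ∞ fun t : ℝ => (exp (-((t : ℂ) * I)) * c).im := by
            have hx : ContDiff ℝ ∞ fun t : ℝ => exp (-((t : ℂ) * I)) * c := by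
              refine ContDiff.mul ?_ contDiff_const
              refine ContDiff.cexp ?_
              exact (Complex.ofRealCLM.contDiff.mul contDiff_const).neg
            exact Complex.imCLM.contDiff.comp hx
          exact hcd.differentiable (by norm_num)
        exact (this (Θ z)).hasDerivAt
      have d4 := d3.comp_hasFDerivAt z d1
      have d5 := (d2.neg.sub d4).fderiv
      have e5 : (fun z => -W z - (exp (-(Θ z * I)) * c).im) =
          (fun z => -W z) - ((fun t : ℝ => (exp (-((t : ℂ) * I)) * c).im) ∘ Θ) := rfl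
      rw [e5]
      refine d5.trans ?_
      simp
    · have hnt : ∀ᶠ z in 𝓝ˢ E, z ∉ tsupport ψ := by
        have : (tsupport ψ)ᶜ ∈ 𝓝ˢ E :=
          (isClosed_tsupport ψ).isOpen_compl.mem_nhdsSet.2 fun z hz hzt => hψD hzt hz
        exact this
      filter_upwards [hW3, hζ0, hnt] with z a1 a2 a3 hz
      have e1 : g z = -φ k z - c := by
        simp only [hg, hh]
        rw [hoff z a3, a2, sub_zero, one_smul]
        ring
      rw [e1, ← a1 hz]
      have e2 : exp (-(Θ z * I)) * (-φ k z - c) =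
          -(exp (-(Θ z * I)) * φ k z) - exp (-(Θ z * I)) * c := by ring
      rw [e2, sub_im, neg_im]
  · obtain ⟨R1, hR1⟩ := hζ1
    obtain ⟨R2, hR2⟩ := (hφ k).bdd
    obtain ⟨R3, hR3⟩ := hψc.isCompact.isBounded.subset_ball (0 : ℂ)
    refine ⟨c, max R1 (max R2 R3), fun z hz => ?_⟩
    have a1 := hR1 z ((le_max_left _ _).trans hz)
    have a2 := hR2 z (((le_max_left _ _).trans (le_max_right _ _)).trans hz)
    have a3 : z ∉ tsupport ψ := by
      intro hzt
      have := hR3 hzt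
      rw [mem_ball_zero_iff] at this
      exact absurd (((le_max_right _ _).trans (le_max_right _ _)).trans hz) (not_le.2 this)
    simp only [hg, hh]
    rw [hoff z a3, a1, a2, sub_zero, one_smul]
    ring
  · have s1 := setIntegral_mono_on hig hib hDm hbd
    have s2 : ∫ z in Eᶜ, (2 * ‖fderiv ℝ (h k) z‖ ^ 2 +
        (tsupport ψ).indicator (fun z => 2 * M ^ 2 * ‖h k z - c‖ ^ 2) z) =
        2 * (∫ z in Eᶜ, ‖fderiv ℝ (h k) z‖ ^ 2) +
          2 * M ^ 2 * ∫ z in tsupport ψ, ‖h k z - c‖ ^ 2 := by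
      rw [integral_add ((hih k).const_mul 2) hic2, integral_const_mul, setIntegral_indicator hts,
        inter_eq_self_of_subset_right hψD, integral_const_mul]
    rw [s2] at s1
    have s3 := hJ k
    have s4 : 2 * M ^ 2 * ∫ z in tsupport ψ, ‖h k z - c‖ ^ 2 ≤
        2 * M ^ 2 * (C * ∫ z in Eᶜ, ‖fderiv ℝ (h k) z‖ ^ 2) :=
      mul_le_mul_of_nonneg_left hc (by positivity)
    have s5 : (2 + 2 * M ^ 2 * C) * ∫ z in Eᶜ, ‖fderiv ℝ (h k) z‖ ^ 2 ≤
        (2 + 2 * M ^ 2 * C) *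
      (2 * (∫ z in Eᶜ, ‖dz (φ k) z - (dz ζ z - deriv f z)‖ ^ 2) +
      2 * ∫ z in Eᶜ, ‖dbar (φ k) z - dbar ζ z‖ ^ 2) :=
      mul_le_mul_of_nonneg_left s3 (by positivity)
    linarith

end Pool.Recti
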