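import Pool.Agent.Recti.Defs

/-!
# Locally constant extensions and cutoffs

PROOFS.
* `exists_test_of_finite`: the (finitely many) sets `E_j = {z ∈ E | c z = c_j}` are disjoint, compact,
  with union `E`; choose smooth compactly supported `χ_j` with `χ_j = 1` near `E_j` and `0` near the other
  `E_i` (Mathlib `exists_contMDiffMap_one_nhds_of_subset_interior`, or
  `exists_contDiff_tsupport_subset`-type results); `w = Σ c_j χ_j`.
* `exists_cutoff`: in the compact Hausdorff space `E` the component of `x` is the intersection of the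
  clopen sets containing it (`connectedComponent_eq_iInter_isClopen`), so by compactness there is a
  clopen `A ⊆ E` with `connectedComponentIn E x ⊆ A ⊆ N`.  `A` and `E \ A` are compact and disjoint; take a
  smooth `χ` with values in `[0,1]`, `χ = 1` near `A`, support in `N \ (nbhd of E \ A)`, compact.
* `eventually_eq_of_lc`: a smooth function with zero derivative on a ball is constant there, so near
  each point `y` of `E`, `w` is constantly `w y`; and on a connected subset of `E` it is constant.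
-/

set_option autoImplicit false

open Complex MeasureTheory Set Filter Topology Metric
open scoped ContDiff

namespace Pool.Recti

variable {E : Set ℂ}

theorem exists_cut {A N : Set ℂ} (hA : IsCompact A) (hN : IsOpen N) (hAN : A ⊆ N) :
    ∃ χ : ℂ → ℝ, ContDiff ℝ ∞ χ ∧ HasCompactSupport χ ∧ (∀ z, 0 ≤ χ z ∧ χ z ≤ 1) ∧
      tsupport χ ⊆ N ∧ ∀ᶠ z in 𝓝ˢ A, χ z = 1 := by
  obtain ⟨ρ, hρ⟩ := hA.isBounded.subset_ball 0
  have hcl : IsClosed (Nᶜ ∪ (ball (0 : ℂ) ρ)ᶜ) := hN.isClosed_compl.union isOpen_ball.isClosed_compl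
  have hd : Disjoint (Nᶜ ∪ (ball (0 : ℂ) ρ)ᶜ) A := by
    rw [Set.disjoint_left]
    rintro z (h2 | h2) h1
    · exact h2 (hAN h1)
    · exact h2 (hρ h1)
  obtain ⟨F, hF0, hF1, hF⟩ := exists_contMDiffMap_zero_one_nhds_of_isClosed
    (n := ⊤) (modelWithCornersSelf ℝ ℂ) hcl hA.isClosed hd
  have h0 : ∀ z ∈ Nᶜ ∪ (ball (0 : ℂ) ρ)ᶜ, (fun z => F z) =ᶠ[𝓝 z] fun _ => 0 := fun z hz =>
    Filter.Eventually.filter_mono (nhds_le_nhdsSet hz) hF0
  refine ⟨fun z => F z, F.contMDiff.contDiff, ?_, fun z => hF z, ?_, hF1⟩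
  · refine HasCompactSupport.intro (isCompact_closedBall (0 : ℂ) ρ) fun z hz => ?_
    exact (h0 z (Or.inr fun h1 => hz (ball_subset_closedBall h1))).self_of_nhds
  · intro z hz
    by_contra hzN
    exact (notMem_tsupport_iff_eventuallyEq.mpr (h0 z (Or.inl hzN))) hz

theorem fderiv_eventually_zero {F : Type*} [NormedAddCommGroup F] [NormedSpace ℝ F] {w : ℂ → F}
    {c : F} {z : ℂ} (h : w =ᶠ[𝓝 z] fun _ => c) : ∀ᶠ y in 𝓝 z, fderiv ℝ w y = 0 := by
  have h1 := h.fderiv (𝕜 := ℝ)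
  filter_upwards [h1] with y hy
  rw [hy]
  simp

theorem exists_test_of_finite (hE : IsCompact E) {c : ℂ → ℝ} (hc : ContinuousOn c E)
    (hfin : (c '' E).Finite) : ∃ w : ℂ → ℝ, Test E w ∧ ∀ z ∈ E, w z = c z := by
  classical
  have hcomp : ∀ T : Set ℝ, IsClosed T → IsCompact (E ∩ c ⁻¹' T) := fun T hT =>
    hE.of_isClosed_subset (hc.preimage_isClosed_of_isClosed hE.isClosed hT) inter_subset_left
  have hopen : ∀ v : ℝ, IsOpen (E ∩ c ⁻¹' (((hfin.toFinset.erase v : Finset ℝ)) : Set ℝ))ᶜ :=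
    fun v => (hcomp _ (Finset.finite_toSet _).isClosed).isClosed.isOpen_compl
  have hsub : ∀ v : ℝ, E ∩ c ⁻¹' {v} ⊆
      (E ∩ c ⁻¹' (((hfin.toFinset.erase v : Finset ℝ)) : Set ℝ))ᶜ := by
    rintro v z ⟨hz, hzv⟩ ⟨_, hz2⟩
    have h1 : c z = v := hzv
    have h2 : c z ∈ hfin.toFinset.erase v := hz2
    rw [h1] at h2
    exact Finset.notMem_erase v _ h2
  choose χ hχs hχc _ hχt hχ1 using fun v : ℝ =>
    exists_cut (hcomp {v} isClosed_singleton) (hopen v) (hsub v)
  have key : ∀ z ∈ E, (fun y => ∑ v ∈ hfin.toFinset, v * χ v y) =ᶠ[𝓝 z] fun _ => c z := by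
    intro z hz
    have hmem : c z ∈ hfin.toFinset := by
      rw [Set.Finite.mem_toFinset]
      exact ⟨z, hz, rfl⟩
    have h1 : ∀ᶠ y in 𝓝 z, χ (c z) y = 1 :=
      (hχ1 (c z)).filter_mono (nhds_le_nhdsSet (show z ∈ E ∩ c ⁻¹' {c z} from ⟨hz, rfl⟩))
    have h2 : ∀ᶠ y in 𝓝 z, ∀ v ∈ hfin.toFinset.erase (c z), χ v y = 0 := by
      rw [eventually_all_finset]
      intro v hv
      have hne : v ≠ c z := Finset.ne_of_mem_erase hv
      have h3 : z ∉ tsupport (χ v) := fun h4 =>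
        hχt v h4 ⟨hz, by
          show c z ∈ (((hfin.toFinset.erase v : Finset ℝ)) : Set ℝ)
          exact Finset.mem_coe.2 (Finset.mem_erase.2 ⟨hne.symm, hmem⟩)⟩
      exact notMem_tsupport_iff_eventuallyEq.mp h3
    filter_upwards [h1, h2] with y hy1 hy2
    rw [← Finset.add_sum_erase _ _ hmem, hy1, mul_one]
    rw [Finset.sum_eq_zero fun v hv => by rw [hy2 v hv, mul_zero], add_zero]
  refine ⟨fun y => ∑ v ∈ hfin.toFinset, v * χ v y, ⟨?_, ?_, ?_⟩, fun z hz => (key z hz).self_of_nhds⟩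
  · exact ContDiff.sum fun v _ => contDiff_const.mul (hχs v)
  · refine HasCompactSupport.intro' (K := ⋃ v ∈ hfin.toFinset, tsupport (χ v)) ?_ ?_ ?_
    · exact hfin.toFinset.isCompact_biUnion fun v _ => hχc v
    · exact (hfin.toFinset.isCompact_biUnion fun v _ => hχc v).isClosed
    · intro z hz
      refine Finset.sum_eq_zero fun v hv => ?_
      have h1 : z ∉ tsupport (χ v) := fun h2 => hz (mem_biUnion hv h2)
      rw [image_eq_zero_of_notMem_tsupport h1, mul_zero]
  · unfold LC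
    rw [eventually_nhdsSet_iff_forall]
    exact fun z hz => fderiv_eventually_zero (key z hz)

theorem exists_clopen (hE : IsCompact E) {x : ℂ} (hx : x ∈ E) {N : Set ℂ} (hN : IsOpen N)
    (hsub : connectedComponentIn E x ⊆ N) :
    ∃ A B : Set ℂ, IsCompact A ∧ IsCompact B ∧ A ∪ B = E ∧ Disjoint A B ∧
      connectedComponentIn E x ⊆ A ∧ A ⊆ N := by
  have : CompactSpace E := isCompact_iff_compactSpace.mp hE
  obtain ⟨s, hs2⟩ : ∃ s : {s : Set E // IsClopen s ∧ (⟨x, hx⟩ : E) ∈ s},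
      s.1 ⊆ (↑) ⁻¹' N := by
    have : Nonempty {s : Set E // IsClopen s ∧ (⟨x, hx⟩ : E) ∈ s} := ⟨⟨univ, isClopen_univ, trivial⟩⟩
    have := exists_subset_nhds_of_isCompact
      (V := fun s : {s : Set E // IsClopen s ∧ (⟨x, hx⟩ : E) ∈ s} => s.1) (U := (↑) ⁻¹' N) ?_ ?_ ?_
    · obtain ⟨s, hs⟩ := this
      exact ⟨s, hs⟩
    · intro a b
      refine ⟨⟨a.1 ∩ b.1, a.2.1.inter b.2.1, a.2.2, b.2.2⟩, ?_, ?_⟩
      · exact inter_subset_left
      · exact inter_subset_right
    · exact fun s => s.2.1.isClosed.isCompact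
    · intro y hy
      refine (hN.preimage continuous_subtype_val).mem_nhds ?_
      apply hsub
      rw [connectedComponentIn_eq_image hx]
      refine ⟨y, ?_, rfl⟩
      rw [connectedComponent_eq_iInter_isClopen]
      exact hy
  refine ⟨(↑) '' s.1, (↑) '' s.1ᶜ, s.2.1.isClosed.isCompact.image continuous_subtype_val,
    s.2.1.isOpen.isClosed_compl.isCompact.image continuous_subtype_val, ?_, ?_, ?_, ?_⟩
  · rw [← image_union, union_compl_self, image_univ, Subtype.range_coe]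
  · exact (disjoint_image_iff Subtype.val_injective).2 disjoint_compl_right
  · rw [connectedComponentIn_eq_image hx]
    exact image_mono (s.2.1.connectedComponent_subset s.2.2)
  · rintro _ ⟨y, hy, rfl⟩
    exact hs2 hy

theorem exists_cutoff (hE : IsCompact E) {x : ℂ} (hx : x ∈ E) {N : Set ℂ} (hN : IsOpen N)
    (hsub : connectedComponentIn E x ⊆ N) :
    ∃ χ : ℂ → ℝ, Test E χ ∧ (∀ z, 0 ≤ χ z ∧ χ z ≤ 1) ∧ tsupport χ ⊆ N ∧
      (∀ᶠ z in 𝓝ˢ (connectedComponentIn E x), χ z = 1) ∧ ∀ y ∈ E, χ y = 0 ∨ χ y = 1 := by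
  obtain ⟨A, B, hA, hB, hAB, hd, hxA, hAN⟩ := exists_clopen hE hx hN hsub
  obtain ⟨χ, h1, h2, h3, h4, h5⟩ := exists_cut hA (hN.inter hB.isClosed.isOpen_compl)
    (fun z hz => ⟨hAN hz, fun hzB => Set.disjoint_left.1 hd hz hzB⟩)
  have hA1 : ∀ z ∈ A, χ =ᶠ[𝓝 z] fun _ => 1 := fun z hz => h5.filter_mono (nhds_le_nhdsSet hz)
  have hB0 : ∀ z ∈ B, χ =ᶠ[𝓝 z] fun _ => 0 := fun z hz =>
    notMem_tsupport_iff_eventuallyEq.mp fun h6 => (h4 h6).2 hz
  refine ⟨χ, ⟨h1, h2, ?_⟩, h3, fun z hz => (h4 hz).1, h5.filter_mono (nhdsSet_mono hxA), ?_⟩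
  · unfold LC
    rw [eventually_nhdsSet_iff_forall]
    intro z hz
    rw [← hAB] at hz
    rcases hz with hz | hz
    · exact fderiv_eventually_zero (hA1 z hz)
    · exact fderiv_eventually_zero (hB0 z hz)
  · intro z hz
    rw [← hAB] at hz
    rcases hz with hz | hz
    · exact Or.inr (hA1 z hz).self_of_nhds
    · exact Or.inl (hB0 z hz).self_of_nhds

theorem eventually_eq_of_lc {F : Type*} [NormedAddCommGroup F] [NormedSpace ℝ F] {w : ℂ → F}
    (hw : Differentiable ℝ w) (hl : LC E w) {y : ℂ} (hy : y ∈ E) :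
    ∀ᶠ z in 𝓝 y, w z = w y := by
  unfold LC at hl
  rw [eventually_nhdsSet_iff_forall] at hl
  obtain ⟨ε, hε, h⟩ := Metric.eventually_nhds_iff_ball.1 (hl y hy)
  refine Filter.mem_of_superset (ball_mem_nhds y hε) fun z hz => ?_
  exact isOpen_ball.is_const_of_fderiv_eq_zero (convex_ball y ε).isPreconnected
    hw.differentiableOn (fun u hu => h u hu) hz (mem_ball_self hε)

theorem eq_of_lc_of_component {F : Type*} [NormedAddCommGroup F] [NormedSpace ℝ F] {w : ℂ → F}
    (hw : Differentiable ℝ w) (hl : LC E w) {x y : ℂ} (hx : x ∈ E)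
    (hy : y ∈ connectedComponentIn E x) : w y = w x := by
  have : PreconnectedSpace (connectedComponentIn E x) :=
    isPreconnected_iff_preconnectedSpace.mp isPreconnected_connectedComponentIn
  have hlc : IsLocallyConstant (fun z : connectedComponentIn E x => w z) := by
    rw [IsLocallyConstant.iff_eventually_eq]
    intro z
    have h1 := eventually_eq_of_lc hw hl (connectedComponentIn_subset E x z.2)
    exact continuous_subtype_val.continuousAt.eventually h1
  exact hlc.apply_eq_of_preconnectedSpace ⟨y, hy⟩ ⟨x, mem_connectedComponentIn hx⟩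

end Pool.Recti
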