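import Pool.Agent.Recti.FSa

/-!
# The straightness lemma, local version

PROOF of `straight_of_local`: reduce to `straight_of_approx`.  Let `η : ℝ → ℝ` be smooth, `η = 1` on `[3/8, ∞)`, `0` on `(-∞, 1/4]`.
Given `v, W` put `v' z = η (χ z) * v z` for `z ∉ E`, and near `E` use `η (χ z) * W z`: the function
`v' z = η (χ z) * (if z ∈ O then W z else v z)`, where `O` is an open neighbourhood of `E` on which
`z ∉ E → χ z ≠ 0 → v z = W z`, `fderiv W = 0`, `fderiv χ = 0`, is `C^2` on `ℂ` (on `{χ ≠ 0} ∩ Eᶜ` it equals `η (χ) v`, near a point with `χ = 0` it vanishes,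
near a point of `E` it equals `η (χ) W`), locally constant near `E` and has compact support.  On
`{z ∈ Eᶜ | 1/2 < χ z}` we have `v' = v` near the point; at `χ z = 1/2` also `v' z = v z`.
-/

set_option autoImplicit false

open Complex MeasureTheory Set Filter Topology Metric
open scoped ContDiff

namespace Pool.Recti

variable {E : Set ℂ} {f : ℂ → ℂ}

theorem straight_of_local (h : Nrm E f) {x : ℂ} (hx : x ∈ E) {θ₀ R C : ℝ} (hER : E ⊆ ball 0 R)
    (hint : IntegrableOn (fun z => ‖deriv f z‖ ^ 2) (Eᶜ ∩ ball 0 R))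
    (hv : ∀ ε : ℝ, 0 < ε → ∀ N : Set ℂ, IsOpen N → connectedComponentIn E x ⊆ N →
      ∃ χ v W : ℂ → ℝ, Test E χ ∧ tsupport χ ⊆ N ∧ χ x = 1 ∧ (∀ y ∈ E, χ y = 0 ∨ χ y = 1) ∧
        ContDiffOn ℝ 2 v (Eᶜ ∩ {z | χ z ≠ 0}) ∧ ContDiff ℝ 2 W ∧ LC E W ∧
        (∀ᶠ z in 𝓝ˢ E, z ∉ E → χ z ≠ 0 → v z = W z) ∧
        IntegrableOn (fun z => ‖fderiv ℝ v z‖ ^ 2) (Eᶜ ∩ {z | 1 / 2 < χ z}) ∧
        ∫ z in Eᶜ ∩ {z | 1 / 2 < χ z}, ‖fderiv ℝ v z‖ ^ 2 ≤ C ∧
        ∀ z ∈ Eᶜ, χ z = 1 / 2 → |v z - (exp (-(θ₀ * I)) * f z).im| ≤ ε) :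
    ∃ c : ℝ, ∀ p ∈ LK E f x, (exp (-(θ₀ * I)) * p).im = c := by
  classical
  refine straight_of_approx h hx hER hint (C := C) fun ε hε N hN hKN => ?_
  obtain ⟨χ, v, W, hχ, hχN, hχx, hχE, hvs, hW, hWlc, hvW, hi, hiC, hb⟩ := hv ε hε N hN hKN
  refine ⟨χ, ?_⟩
  obtain ⟨η, hηs, hη0, hη1⟩ : ∃ η : ℝ → ℝ, ContDiff ℝ ∞ η ∧ (∀ t, t ≤ 1 / 4 → η t = 0) ∧
      ∀ t, 3 / 8 ≤ t → η t = 1 := by
    refine ⟨fun t => Real.smoothTransition (8 * t - 2), ?_, fun t ht => ?_, fun t ht => ?_⟩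
    · exact Real.smoothTransition.contDiff.comp ((contDiff_const.mul contDiff_id).sub contDiff_const)
    · exact Real.smoothTransition.zero_of_nonpos (by linarith)
    · exact Real.smoothTransition.one_of_one_le (by linarith)
  have hχc : Continuous χ := hχ.smooth.continuous
  have hEc : IsOpen Eᶜ := h.compact.isClosed.isOpen_compl
  obtain ⟨O, hO, hEO, hOP⟩ : ∃ O : Set ℂ, IsOpen O ∧ E ⊆ O ∧ ∀ z ∈ O,
      (z ∉ E → χ z ≠ 0 → v z = W z) ∧ fderiv ℝ W z = 0 ∧ fderiv ℝ χ z = 0 := by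
    have h1 := (hvW.and (hWlc.and hχ.lc))
    obtain ⟨O, hO, hEO, h2⟩ := mem_nhdsSet_iff_exists.mp h1
    exact ⟨O, hO, hEO, fun z hz => h2 hz⟩
  have hηχ : ContDiff ℝ 2 (fun z => η (χ z)) :=
    (contDiff_infty.mp hηs 2).comp (contDiff_infty.mp hχ.smooth 2)
  set v' : ℂ → ℝ := fun z => η (χ z) * (if z ∈ O then W z else v z) with hv'
  have e1 : ∀ z ∈ O, v' =ᶠ[𝓝 z] fun w => η (χ w) * W w := fun z hz => by
    filter_upwards [hO.mem_nhds hz] with w hw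
    simp only [hv', hw, if_true]
  have hU : IsOpen (Eᶜ ∩ {z | χ z ≠ 0}) := hEc.inter (isOpen_ne_fun hχc continuous_const)
  have e2' : ∀ z ∈ Eᶜ ∩ {z | χ z ≠ 0}, v' z = η (χ z) * v z := fun z hz => by
    by_cases hzO : z ∈ O
    · simp only [hv', hzO, if_true]
      rw [(hOP z hzO).1 hz.1 hz.2]
    · simp only [hv', hzO, if_false]
  have e2 : ∀ z ∈ Eᶜ ∩ {z | χ z ≠ 0}, v' =ᶠ[𝓝 z] fun w => η (χ w) * v w := fun z hz => by
    filter_upwards [hU.mem_nhds hz] with w hw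
    exact e2' w hw
  have e3 : ∀ z, χ z = 0 → v' =ᶠ[𝓝 z] fun _ => 0 := fun z hz => by
    have h1 : ∀ᶠ w in 𝓝 z, χ w < 1 / 4 :=
      hχc.continuousAt.eventually_lt continuousAt_const (by rw [hz]; norm_num)
    filter_upwards [h1] with w hw
    simp only [hv', hη0 _ hw.le, zero_mul]
  have hS : IsOpen (Eᶜ ∩ {z | 1 / 2 < χ z}) := hEc.inter (isOpen_lt continuous_const hχc)
  have e4 : ∀ z ∈ Eᶜ ∩ {z | 1 / 2 < χ z}, fderiv ℝ v' z = fderiv ℝ v z := fun z hz => by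
    apply Filter.EventuallyEq.fderiv_eq
    filter_upwards [hS.mem_nhds hz] with w hw
    have hw2 : 1 / 2 < χ w := hw.2
    rw [e2' w ⟨hw.1, fun h0 => by rw [h0] at hw2; norm_num at hw2⟩, hη1 _ (by linarith), one_mul]
  refine ⟨v', hχ, hχN, hχx, hχE, ?_, ?_, ?_, ?_, ?_, ?_⟩
  · rw [contDiff_iff_contDiffAt]
    intro z
    by_cases hzO : z ∈ O
    · exact (hηχ.mul hW).contDiffAt.congr_of_eventuallyEq (e1 z hzO)
    · by_cases hz0 : χ z = 0
      · exact contDiffAt_const.congr_of_eventuallyEq (e3 z hz0)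
      · have hzU : z ∈ Eᶜ ∩ {z | χ z ≠ 0} := ⟨fun hzE => hzO (hEO hzE), hz0⟩
        exact (hηχ.contDiffAt.mul (hvs.contDiffAt (hU.mem_nhds hzU))).congr_of_eventuallyEq
          (e2 z hzU)
  · refine hχ.comp.mono' fun z hz => subset_tsupport χ ?_
    intro h0
    apply hz
    simp only [hv', h0]
    rw [hη0 0 (by norm_num), zero_mul]
  · have h1 : O ∈ 𝓝ˢ E := hO.mem_nhdsSet.mpr hEO
    filter_upwards [h1] with z hz
    rw [(e1 z hz).fderiv_eq]
    have h2 : HasFDerivAt χ (0 : ℂ →L[ℝ] ℝ) z := by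
      rw [← (hOP z hz).2.2]
      exact (hχ.smooth.differentiable (by simp) z).hasFDerivAt
    have h3 : HasFDerivAt W (0 : ℂ →L[ℝ] ℝ) z := by
      rw [← (hOP z hz).2.1]
      exact (hW.differentiable (by simp) z).hasFDerivAt
    have h4 : HasFDerivAt (fun w => η (χ w)) (0 : ℂ →L[ℝ] ℝ) z := by
      have h5 := (hηs.differentiable (by simp) (χ z)).hasDerivAt.comp_hasFDerivAt z h2
      rw [smul_zero] at h5
      exact h5
    have h6 := h4.mul h3
    rw [smul_zero, smul_zero, add_zero] at h6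
    exact h6.fderiv
  · refine hi.congr_fun (fun z hz => ?_) hS.measurableSet
    simp only [e4 z hz]
  · refine le_trans (le_of_eq ?_) hiC
    refine setIntegral_congr_fun hS.measurableSet fun z hz => ?_
    simp only [e4 z hz]
  · intro z hz hz2
    rw [e2' z ⟨hz, by rw [mem_ofPred_eq, hz2]; norm_num⟩, hz2, hη1 _ (by norm_num), one_mul]
    exact hb z hz hz2

end Pool.Recti
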