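import Pool.Agent.Recti.LKmod

/-!
# The straightness lemma

PROOF of `straight_of_approx`.  Put `K = connectedComponentIn E x`, `L = LK E f x` (nonempty, compact, preconnected),
`e = e^{i θ₀}`, and use the coordinates `p = e (s + i t)` (`(s, t) ↦ e (s + i t)` is measure preserving), so
`t = Im (e^{-iθ₀} p)`.  Suppose that `t` is not constant on `L`; by connectedness it takes all values of
some interval `[a, b]`, `a < b`, on `L`.  Choose `ε` and a neighbourhood `N` of `K` (see below), `N` bounded,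
take `χ, v` as in the hypothesis, `X, V` their partners (`exists_corr`; `χ` is a test function).
For `t ∈ [a, b]` pick `p0 = e (s0 + i t) ∈ L`.  `X = 1` at `p0` (`X p0 = χ x = 1`), and `X = 0` far to the left on the
line.  Let `s1 < s0` be the largest `s ≤ s0` with `X (e (s + i t)) = 1/2` (so `X > 1/2` on `(s1, s0]`),
`p1 = e (s1 + i t)`.  `p1 ∉ Om E f`: otherwise `p1 ∈ LK E f y` for some `y ∈ E` (`exists_mem_LK`) and `X p1 = χ y ∈ {0, 1}`.
So `p1 = f z1`, `χ z1 = 1/2`, `|V p1 - t| = |v z1 - t| ≤ ε`.  `V p0 = v x`.  So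
  `|t - v x| - ε ≤ |V p0 - V p1| ≤ ∫_{s1}^{s0} |∂_s V| ds ≤ ∫_{s : e (s + i t) ∈ f '' S} ‖fderiv V‖ ds`,
`S = {z ∈ Eᶜ | 1/2 < χ z}` (`fderiv V = 0` on `Om E f`).
Integrate over `t ∈ [a, b]`, `∫_a^b |t - c| dt ≥ (b - a)²/4`:
  `(b - a)²/4 - ε (b - a) ≤ ∫_{f '' S} ‖fderiv V‖ = ∫_S ‖fderiv V (f z)‖ ‖f' z‖² = ∫_S ‖fderiv v z‖ ‖f' z‖`
(change of variables for the injective holomorphic `f`; `v = V ∘ f` gives `‖fderiv v z‖ = ‖fderiv V (f z)‖ ‖f' z‖`)
  `≤ √(∫_S ‖fderiv v‖²) √(∫_S ‖f'‖²) ≤ √C √(∫_{Eᶜ ∩ N} ‖f'‖²)`.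
As `N` shrinks to `K` (`N = {dist (., K) < 1/m}`, `K ⊆ ball 0 R`) `∫_{Eᶜ ∩ N} ‖f'‖² → 0` since `⋂ N_m = K` is disjoint
from `Eᶜ`.  Choose `N` and `ε` so that this contradicts `(b - a)²/4 > 0`.
-/

set_option autoImplicit false

open Complex MeasureTheory Set Filter Topology Metric
open scoped ContDiff

namespace Pool.Recti

variable {E : Set ℂ} {f : ℂ → ℂ}

/-- The point `e^{iθ₀} (s + i t)`. -/
noncomputable def fsaPt (θ₀ s t : ℝ) : ℂ := exp (θ₀ * I) * (s + t * I)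

theorem fsaPt_im (θ₀ s t : ℝ) : (exp (-(θ₀ * I)) * fsaPt θ₀ s t).im = t := by
  unfold fsaPt
  rw [← mul_assoc, ← Complex.exp_add]
  simp

theorem fsaPt_surj (θ₀ : ℝ) (p : ℂ) :
    p = fsaPt θ₀ (exp (-(θ₀ * I)) * p).re (exp (-(θ₀ * I)) * p).im := by
  unfold fsaPt
  rw [re_add_im, ← mul_assoc, ← Complex.exp_add]
  simp

theorem fsaPt_norm (θ₀ s t : ℝ) : |s| ≤ ‖fsaPt θ₀ s t‖ := by
  unfold fsaPt
  rw [norm_mul, norm_exp_ofReal_mul_I, one_mul]
  calc |s| = |((s : ℂ) + t * I).re| := by simp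
    _ ≤ _ := abs_re_le_norm _

theorem fsaPt_continuous (θ₀ t : ℝ) : Continuous (fun s : ℝ => fsaPt θ₀ s t) := by
  unfold fsaPt
  fun_prop

theorem fsaPt_hasDerivAt (θ₀ s t : ℝ) :
    HasDerivAt (fun s : ℝ => fsaPt θ₀ s t) (exp (θ₀ * I)) s := by
  unfold fsaPt
  have h1 : HasDerivAt (fun s : ℝ => ((s : ℂ) + t * I)) 1 s := by
    simpa using (hasDerivAt_id s).ofReal_comp.add_const ((t : ℂ) * I)
  simpa using h1.const_mul (exp (θ₀ * I))

theorem fsaPt_lintegral (θ₀ : ℝ) (G : ℂ → ENNReal) :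
    ∫⁻ z : ℂ, G z = ∫⁻ q : ℝ × ℝ, G (fsaPt θ₀ q.1 q.2) := by
  have hu : ‖exp (θ₀ * I)‖ = 1 := norm_exp_ofReal_mul_I θ₀
  let u : Circle := ⟨exp (θ₀ * I), by simp [Submonoid.unitSphere, hu]⟩
  have h1 : MeasurePreserving (rotation u) (volume : Measure ℂ) volume :=
    (rotation u).measurePreserving
  have h2 : MeasurePreserving (measurableEquivRealProd.symm) (volume : Measure (ℝ × ℝ)) volume :=
    volume_preserving_equiv_real_prod.symm _
  have h3 := h1.lintegral_comp_emb (rotation u).toHomeomorph.toMeasurableEquiv.measurableEmbedding G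
  rw [← h3, ← h2.lintegral_comp_emb measurableEquivRealProd.symm.measurableEmbedding]
  congr 1
  funext q
  congr 1
  rw [rotation_apply]
  show exp (θ₀ * I) * _ = fsaPt θ₀ q.1 q.2
  unfold fsaPt
  congr 1
  rw [measurableEquivRealProd_symm_apply]
  apply Complex.ext <;> simp

/-- The line argument. -/
theorem fsa_line (h : Nrm E f) {x : ℂ} {θ₀ : ℝ} {ε : ℝ} {χ v X V : ℂ → ℝ}
    (hX : Corr E f χ X) (hV : Corr E f v V) (hχx : χ x = 1) (hχ : ∀ y ∈ E, χ y = 0 ∨ χ y = 1)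
    (hlev : ∀ z ∈ Eᶜ, χ z = 1 / 2 → |v z - (exp (-(θ₀ * I)) * f z).im| ≤ ε)
    {p : ℂ} (hp : p ∈ LK E f x) :
    ENNReal.ofReal (|(exp (-(θ₀ * I)) * p).im - v x| - ε) ≤
      ∫⁻ s : ℝ, (f '' (Eᶜ ∩ {z | 1 / 2 < χ z})).indicator
        (fun q => ENNReal.ofReal ‖fderiv ℝ V q‖)
        (fsaPt θ₀ s (exp (-(θ₀ * I)) * p).im) := by
  obtain ⟨t, ht⟩ : ∃ t, t = (exp (-(θ₀ * I)) * p).im := ⟨_, rfl⟩
  obtain ⟨s0, hs0⟩ : ∃ s0, s0 = (exp (-(θ₀ * I)) * p).re := ⟨_, rfl⟩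
  have hp0 : p = fsaPt θ₀ s0 t := by rw [hs0, ht]; exact fsaPt_surj θ₀ p
  rw [← ht]
  have hXp : X (fsaPt θ₀ s0 t) = 1 := by rw [← hp0, hp.2 χ X hX, hχx]
  have hVp : V (fsaPt θ₀ s0 t) = v x := by rw [← hp0, hp.2 v V hV]
  have hXc : Continuous (fun s : ℝ => X (fsaPt θ₀ s t)) :=
    hX.smooth'.continuous.comp (fsaPt_continuous θ₀ t)
  -- the last point to the left
  let A : Set ℝ := {s | s ≤ s0 ∧ X (fsaPt θ₀ s t) ≤ 1 / 2}
  have hAc : IsClosed A :=
    (isClosed_le continuous_id continuous_const).inter (isClosed_le hXc continuous_const)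
  have hAb : BddAbove A := ⟨s0, fun s hs => hs.1⟩
  have hAn : A.Nonempty := by
    obtain ⟨B, hB⟩ := hX.comp'.isCompact.isBounded.subset_closedBall (0 : ℂ)
    refine ⟨min s0 (-(|B| + 1)), min_le_left _ _, ?_⟩
    have hz : X (fsaPt θ₀ (min s0 (-(|B| + 1))) t) = 0 := by
      by_contra hne
      have hmem := hB (subset_tsupport _ (Function.mem_support.mpr hne))
      rw [mem_closedBall, dist_zero_right] at hmem
      have h1 := (fsaPt_norm θ₀ (min s0 (-(|B| + 1))) t).trans hmem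
      have h2 : |B| + 1 ≤ |min s0 (-(|B| + 1))| := by
        rw [le_abs]; right
        have := min_le_right s0 (-(|B| + 1))
        linarith
      have h3 := le_abs_self B
      linarith
    rw [hz]; norm_num
  obtain ⟨s1, hs1⟩ : ∃ s1, s1 = sSup A := ⟨_, rfl⟩
  have hs1A : s1 ∈ A := by rw [hs1]; exact hAc.csSup_mem hAn hAb
  have hgt : ∀ s, s1 < s → s ≤ s0 → 1 / 2 < X (fsaPt θ₀ s t) := by
    intro s h1 h2
    by_contra hcon
    have : s ∈ A := ⟨h2, not_lt.mp hcon⟩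
    have := le_csSup hAb this
    rw [← hs1] at this
    linarith
  have hlt : s1 < s0 := by
    refine lt_of_le_of_ne hs1A.1 ?_
    intro he
    have := hs1A.2
    rw [he, hXp] at this
    norm_num at this
  have hX1 : X (fsaPt θ₀ s1 t) = 1 / 2 := by
    refine le_antisymm hs1A.2 ?_
    have h1 : Tendsto (fun s : ℝ => X (fsaPt θ₀ s t)) (𝓝[>] s1) (𝓝 (X (fsaPt θ₀ s1 t))) :=
      (hXc.tendsto s1).mono_left nhdsWithin_le_nhds
    refine ge_of_tendsto h1 ?_
    filter_upwards [Ioc_mem_nhdsGT hlt] with s hs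
    exact (hgt s hs.1 hs.2).le
  have hnot : fsaPt θ₀ s1 t ∉ Om E f := by
    intro hmem
    obtain ⟨y, hy, hpy⟩ := exists_mem_LK h hmem
    have h1 := hpy.2 χ X hX
    rw [hX1] at h1
    rcases hχ y hy with h2 | h2
    · rw [h2] at h1; norm_num at h1
    · rw [h2] at h1; norm_num at h1
  obtain ⟨z1, hz1, hfz1⟩ : fsaPt θ₀ s1 t ∈ f '' Eᶜ := by
    by_contra hcon
    exact hnot hcon
  have hχ1 : χ z1 = 1 / 2 := by rw [← hX.eq z1 hz1, hfz1, hX1]
  have hl := hlev z1 hz1 hχ1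
  rw [hfz1, fsaPt_im, ← hV.eq z1 hz1, hfz1] at hl
  -- the integral
  have hVc : ContDiff ℝ 2 V := hV.smooth'
  have hVd : ∀ q, DifferentiableAt ℝ V q := fun q => (hVc.differentiable (by norm_num)) q
  have hVfc : Continuous (fderiv ℝ V) := hVc.continuous_fderiv (by norm_num)
  have hder : ∀ s : ℝ, HasDerivAt (fun s : ℝ => V (fsaPt θ₀ s t))
      (fderiv ℝ V (fsaPt θ₀ s t) (exp (θ₀ * I))) s := fun s =>
    (hVd (fsaPt θ₀ s t)).hasFDerivAt.comp_hasDerivAt s (fsaPt_hasDerivAt θ₀ s t)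
  have hdc : Continuous (fun s : ℝ => fderiv ℝ V (fsaPt θ₀ s t) (exp (θ₀ * I))) :=
    (hVfc.comp (fsaPt_continuous θ₀ t)).clm_apply continuous_const
  have hFTC : ∫ s in s1..s0, fderiv ℝ V (fsaPt θ₀ s t) (exp (θ₀ * I)) =
      V (fsaPt θ₀ s0 t) - V (fsaPt θ₀ s1 t) :=
    intervalIntegral.integral_eq_sub_of_hasDerivAt (fun s _ => hder s)
      (hdc.intervalIntegrable _ _)
  have hb1 : |V (fsaPt θ₀ s0 t) - V (fsaPt θ₀ s1 t)| ≤
      ∫ s in Ioc s1 s0, ‖fderiv ℝ V (fsaPt θ₀ s t)‖ := by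
    rw [← hFTC, intervalIntegral.integral_of_le hlt.le, ← Real.norm_eq_abs]
    refine (norm_integral_le_integral_norm _).trans ?_
    apply setIntegral_mono_on
    · exact (hdc.norm.integrableOn_Icc (a := s1) (b := s0)).mono_set Ioc_subset_Icc_self
    · exact ((hVfc.comp (fsaPt_continuous θ₀ t)).norm.integrableOn_Icc
        (a := s1) (b := s0)).mono_set Ioc_subset_Icc_self
    · exact measurableSet_Ioc
    · intro s _
      refine ((fderiv ℝ V (fsaPt θ₀ s t)).le_opNorm _).trans ?_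
      rw [norm_exp_ofReal_mul_I, mul_one]
  have hb2 : ENNReal.ofReal (∫ s in Ioc s1 s0, ‖fderiv ℝ V (fsaPt θ₀ s t)‖) =
      ∫⁻ s in Ioc s1 s0, ENNReal.ofReal ‖fderiv ℝ V (fsaPt θ₀ s t)‖ := by
    rw [ofReal_integral_eq_lintegral_ofReal]
    · exact ((hVfc.comp (fsaPt_continuous θ₀ t)).norm.integrableOn_Icc
        (a := s1) (b := s0)).mono_set Ioc_subset_Icc_self
    · exact Eventually.of_forall fun s => norm_nonneg _
  have hV0 : ∀ q ∈ Om E f, fderiv ℝ V q = 0 := by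
    intro q hq
    have hl' := hV.lc'
    unfold LC at hl'
    exact (eventually_nhdsSet_iff_forall.mp hl' q hq).self_of_nhds
  have hb3 : ∫⁻ s in Ioc s1 s0, ENNReal.ofReal ‖fderiv ℝ V (fsaPt θ₀ s t)‖ ≤
      ∫⁻ s in Ioc s1 s0, (f '' (Eᶜ ∩ {z | 1 / 2 < χ z})).indicator
        (fun q => ENNReal.ofReal ‖fderiv ℝ V q‖) (fsaPt θ₀ s t) := by
    apply setLIntegral_mono' measurableSet_Ioc
    intro s hs
    by_cases hmem : fsaPt θ₀ s t ∈ Om E f
    · rw [hV0 _ hmem]; simp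
    · have hmem' : fsaPt θ₀ s t ∈ f '' Eᶜ := by
        by_contra hcon; exact hmem hcon
      obtain ⟨z, hz, hfz⟩ := hmem'
      have hχz : 1 / 2 < χ z := by
        rw [← hX.eq z hz, hfz]; exact hgt s hs.1 hs.2
      rw [indicator_of_mem (show fsaPt θ₀ s t ∈ f '' (Eᶜ ∩ {z | 1 / 2 < χ z}) from
        ⟨z, ⟨hz, hχz⟩, hfz⟩)]
  have hfin : |t - v x| - ε ≤ |V (fsaPt θ₀ s0 t) - V (fsaPt θ₀ s1 t)| := by
    rw [hVp]
    have h1 : |t - v x| ≤ |v x - V (fsaPt θ₀ s1 t)| + |V (fsaPt θ₀ s1 t) - t| := by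
      rw [abs_sub_comm t (v x)]
      exact abs_sub_le _ _ _
    linarith
  calc ENNReal.ofReal (|t - v x| - ε)
      ≤ ENNReal.ofReal (∫ s in Ioc s1 s0, ‖fderiv ℝ V (fsaPt θ₀ s t)‖) :=
        ENNReal.ofReal_le_ofReal (hfin.trans hb1)
    _ ≤ _ := hb2.le.trans hb3
    _ ≤ _ := setLIntegral_le_lintegral _ _

/-- The change of variables. -/
theorem fsa_change (h : Nrm E f) {v V : ℂ → ℝ} (hV : Corr E f v V) {S : Set ℂ}
    (hS : MeasurableSet S) (hSE : S ⊆ Eᶜ) :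
    ∫⁻ q in f '' S, ENNReal.ofReal ‖fderiv ℝ V q‖ ≤
      ∫⁻ z in S, ENNReal.ofReal (‖fderiv ℝ v z‖ * ‖deriv f z‖) := by
  have hop : IsOpen Eᶜ := h.compact.isClosed.isOpen_compl
  have hd : ∀ z ∈ S, HasDerivAt f (deriv f z) z := fun z hz =>
    ((h.diff z (hSE hz)).differentiableAt (hop.mem_nhds (hSE hz))).hasDerivAt
  have hf' : ∀ z ∈ S, HasFDerivWithinAt f
      ((ContinuousLinearMap.toSpanSingleton ℂ (deriv f z)).restrictScalars ℝ) S z := fun z hz =>
    ((hd z hz).hasFDerivAt.restrictScalars ℝ).hasFDerivWithinAt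
  rw [lintegral_image_eq_lintegral_abs_det_fderiv_mul volume hS hf' (h.inj.mono hSE)]
  apply setLIntegral_mono' hS
  intro z hz
  have hdet : |((ContinuousLinearMap.toSpanSingleton ℂ (deriv f z)).restrictScalars ℝ).det| =
      ‖deriv f z‖ ^ 2 := by
    have h1 : ((ContinuousLinearMap.toSpanSingleton ℂ (deriv f z)).restrictScalars ℝ).det =
        ‖deriv f z‖ ^ 2 := by
      unfold ContinuousLinearMap.det
      rw [← LinearMap.det_toMatrix Complex.basisOneI, Matrix.det_fin_two]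
      simp only [LinearMap.toMatrix_apply, Complex.coe_basisOneI, Complex.coe_basisOneI_repr]
      simp
      rw [← Complex.normSq_eq_norm_sq, Complex.normSq_apply]
    rw [h1, abs_of_nonneg (by positivity)]
  rw [hdet, ← ENNReal.ofReal_mul (by positivity)]
  apply ENNReal.ofReal_le_ofReal
  by_cases h0 : deriv f z = 0
  · rw [h0]; simp
  have hpos : 0 < ‖deriv f z‖ := norm_pos_iff.mpr h0
  have hVd : DifferentiableAt ℝ V (f z) := (hV.smooth'.differentiable (by norm_num)) _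
  have hcomp : fderiv ℝ v z = (fderiv ℝ V (f z)).comp
      ((ContinuousLinearMap.toSpanSingleton ℂ (deriv f z)).restrictScalars ℝ) := by
    have h1 : HasFDerivAt (fun w => V (f w)) ((fderiv ℝ V (f z)).comp
      ((ContinuousLinearMap.toSpanSingleton ℂ (deriv f z)).restrictScalars ℝ)) z :=
      hVd.hasFDerivAt.comp z ((hd z hz).hasFDerivAt.restrictScalars ℝ)
    have h2 : (fun w => V (f w)) =ᶠ[𝓝 z] v := by
      filter_upwards [hop.mem_nhds (hSE hz)] with w hw using hV.eq w hw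
    rw [← h2.fderiv_eq]
    exact h1.fderiv
  have hle : ‖fderiv ℝ V (f z)‖ * ‖deriv f z‖ ≤ ‖fderiv ℝ v z‖ := by
    rw [← le_div_iff₀ hpos]
    apply ContinuousLinearMap.opNorm_le_bound _ (by positivity)
    intro w
    have h3 : fderiv ℝ V (f z) w = fderiv ℝ v z (w / deriv f z) := by
      rw [hcomp]
      simp [div_mul_cancel₀ _ h0]
    rw [h3]
    refine ((fderiv ℝ v z).le_opNorm _).trans (le_of_eq ?_)
    rw [norm_div]
    field_simp
  nlinarith [norm_nonneg (fderiv ℝ V (f z)), norm_nonneg (deriv f z)]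

theorem fsa_isClosed_component (hE : IsCompact E) {x : ℂ} (hx : x ∈ E) :
    IsClosed (connectedComponentIn E x) := by
  have h1 : closure (connectedComponentIn E x) ⊆ E :=
    hE.isClosed.closure_subset_iff.mpr (connectedComponentIn_subset E x)
  have h2 : closure (connectedComponentIn E x) ⊆ connectedComponentIn E x :=
    isPreconnected_connectedComponentIn.closure.subset_connectedComponentIn
      (subset_closure (mem_connectedComponentIn hx)) h1
  exact isClosed_of_closure_subset h2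

/-- Small neighbourhoods of a component. -/
theorem fsa_small (h : Nrm E f) {x : ℂ} (hx : x ∈ E) {R : ℝ} (hER : E ⊆ ball 0 R)
    (hint : IntegrableOn (fun z => ‖deriv f z‖ ^ 2) (Eᶜ ∩ ball 0 R)) {η : ℝ} (hη : 0 < η) :
    ∃ N : Set ℂ, IsOpen N ∧ connectedComponentIn E x ⊆ N ∧ N ⊆ ball 0 R ∧
      ∫ z in Eᶜ ∩ N, ‖deriv f z‖ ^ 2 < η := by
  have hKc := fsa_isClosed_component h.compact hx
  let s : ℕ → Set ℂ := fun n => (Eᶜ ∩ ball 0 R) ∩ thickening (1 / ((n : ℝ) + 1))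
    (connectedComponentIn E x)
  have hop : IsOpen Eᶜ := h.compact.isClosed.isOpen_compl
  have hsm : ∀ n, MeasurableSet (s n) := fun n =>
    ((hop.inter isOpen_ball).inter isOpen_thickening).measurableSet
  have hanti : Antitone s := by
    intro m n hmn
    apply inter_subset_inter_right
    apply thickening_mono
    apply one_div_le_one_div_of_le (by positivity)
    have : (m : ℝ) ≤ n := by exact_mod_cast hmn
    linarith
  have hlim := tendsto_setIntegral_of_antitone (μ := volume) (f := fun z => ‖deriv f z‖ ^ 2)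
    hsm hanti ⟨0, hint.mono_set inter_subset_left⟩
  have hempty : (⋂ n, s n) = ∅ := by
    rw [eq_empty_iff_forall_notMem]
    intro z hz
    rw [mem_iInter] at hz
    have hzE : z ∈ Eᶜ := (hz 0).1.1
    have hzK : z ∈ closure (connectedComponentIn E x) := by
      rw [Metric.mem_closure_iff]
      intro ε hε
      obtain ⟨n, hn⟩ := exists_nat_one_div_lt hε
      have := (hz n).2
      rw [mem_thickening_iff] at this
      obtain ⟨y, hy, hd⟩ := this
      exact ⟨y, hy, hd.trans hn⟩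
    rw [hKc.closure_eq] at hzK
    exact hzE (connectedComponentIn_subset E x hzK)
  rw [hempty] at hlim
  simp only [Measure.restrict_empty, integral_zero_measure] at hlim
  obtain ⟨n, hn⟩ := (hlim.eventually (gt_mem_nhds hη)).exists
  refine ⟨ball 0 R ∩ thickening (1 / ((n : ℝ) + 1)) (connectedComponentIn E x),
    isOpen_ball.inter isOpen_thickening, ?_, inter_subset_left, ?_⟩
  · exact subset_inter ((connectedComponentIn_subset E x).trans hER)
      (self_subset_thickening (by positivity) _)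
  · rw [← inter_assoc]; exact hn

theorem straight_of_approx (h : Nrm E f) {x : ℂ} (hx : x ∈ E) {θ₀ R C : ℝ} (hER : E ⊆ ball 0 R)
    (hint : IntegrableOn (fun z => ‖deriv f z‖ ^ 2) (Eᶜ ∩ ball 0 R))
    (hv : ∀ ε : ℝ, 0 < ε → ∀ N : Set ℂ, IsOpen N → connectedComponentIn E x ⊆ N →
      ∃ χ v : ℂ → ℝ, Test E χ ∧ tsupport χ ⊆ N ∧ χ x = 1 ∧ (∀ y ∈ E, χ y = 0 ∨ χ y = 1) ∧
        ContDiff ℝ 2 v ∧ HasCompactSupport v ∧ LC E v ∧
        IntegrableOn (fun z => ‖fderiv ℝ v z‖ ^ 2) (Eᶜ ∩ {z | 1 / 2 < χ z}) ∧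
        ∫ z in Eᶜ ∩ {z | 1 / 2 < χ z}, ‖fderiv ℝ v z‖ ^ 2 ≤ C ∧
        ∀ z ∈ Eᶜ, χ z = 1 / 2 → |v z - (exp (-(θ₀ * I)) * f z).im| ≤ ε) :
    ∃ c : ℝ, ∀ p ∈ LK E f x, (exp (-(θ₀ * I)) * p).im = c := by
  by_contra hcon
  push Not at hcon
  obtain ⟨p0, hp0⟩ := LK_nonempty h hx
  obtain ⟨p1, hp1, hne⟩ := hcon ((exp (-(θ₀ * I)) * p0).im)
  have hgc : Continuous (fun p : ℂ => (exp (-(θ₀ * I)) * p).im) := by fun_prop
  obtain ⟨a, b, hab, hall⟩ : ∃ a b : ℝ, a < b ∧ ∀ t ∈ Icc a b, ∃ p ∈ LK E f x,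
      (exp (-(θ₀ * I)) * p).im = t := by
    rcases lt_or_gt_of_ne hne with hlt | hlt
    · exact ⟨_, _, hlt, fun t ht => by
        have := (isPreconnected_LK h hx).intermediate_value hp1 hp0 hgc.continuousOn ht
        obtain ⟨p, hp, he⟩ := this
        exact ⟨p, hp, he⟩⟩
    · exact ⟨_, _, hlt, fun t ht => by
        have := (isPreconnected_LK h hx).intermediate_value hp0 hp1 hgc.continuousOn ht
        obtain ⟨p, hp, he⟩ := this
        exact ⟨p, hp, he⟩⟩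
  -- constants
  obtain ⟨κ, hκ⟩ : ∃ κ, κ = (b - a) ^ 2 / 32 := ⟨_, rfl⟩
  have hκ0 : 0 < κ := by rw [hκ]; have : 0 < b - a := by linarith
                         positivity
  obtain ⟨C', hC'⟩ : ∃ C', C' = |C| + 1 := ⟨_, rfl⟩
  have hC0 : 0 < C' := by rw [hC']; positivity
  have hCC : C ≤ C' := by rw [hC']; linarith [le_abs_self C]
  obtain ⟨δ, hδ⟩ : ∃ δ, δ = κ / C' := ⟨_, rfl⟩
  have hδ0 : 0 < δ := by rw [hδ]; positivity
  obtain ⟨N, hNo, hKN, hNR, hNη⟩ := fsa_small h hx hER hint (η := δ * κ / 2) (by positivity)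
  obtain ⟨χ, v, hχ, hχN, hχx, hχE, hvc, hvs, hvl, hvi, hvC, hlev⟩ :=
    hv ((b - a) / 8) (by linarith) N hNo hKN
  obtain ⟨X, hX⟩ := exists_corr h (contDiff_infty.mp hχ.smooth 2) hχ.comp hχ.lc
  obtain ⟨V, hV⟩ := exists_corr h hvc hvs hvl
  obtain ⟨S, hSdef⟩ : ∃ S : Set ℂ, S = Eᶜ ∩ {z | 1 / 2 < χ z} := ⟨_, rfl⟩
  have hop : IsOpen Eᶜ := h.compact.isClosed.isOpen_compl
  have hSo : IsOpen S := by
    rw [hSdef]
    exact hop.inter (isOpen_lt continuous_const hχ.smooth.continuous)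
  have hSE : S ⊆ Eᶜ := by rw [hSdef]; exact inter_subset_left
  have hSN : S ⊆ Eᶜ ∩ N := by
    rw [hSdef]
    rintro z ⟨h1, h2⟩
    refine ⟨h1, hχN (subset_tsupport _ ?_)⟩
    rw [Function.mem_support]
    intro h0
    have : (1 / 2 : ℝ) < χ z := h2
    rw [h0] at this
    norm_num at this
  have hfSo : MeasurableSet (f '' S) := by
    have hd : ∀ z ∈ S, HasFDerivWithinAt f
      ((ContinuousLinearMap.toSpanSingleton ℂ (deriv f z)).restrictScalars ℝ) S z := fun z hz =>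
      ((((h.diff z (hSE hz)).differentiableAt
        (hop.mem_nhds (hSE hz))).hasDerivAt).hasFDerivAt.restrictScalars ℝ).hasFDerivWithinAt
    exact measurable_image_of_fderivWithin hSo.measurableSet hd (h.inj.mono hSE)
  obtain ⟨G, hGdef⟩ : ∃ G : ℂ → ENNReal, G = (f '' S).indicator
    (fun q => ENNReal.ofReal ‖fderiv ℝ V q‖) := ⟨_, rfl⟩
  have hVfc : Continuous (fderiv ℝ V) := hV.smooth'.continuous_fderiv (by norm_num)
  have hGm : Measurable G := by
    rw [hGdef]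
    exact (hVfc.norm.measurable.ennreal_ofReal).indicator hfSo
  -- upper bound
  have hup : ∫⁻ q, G q ≤ ENNReal.ofReal (δ * C' / 2 + κ / 4) := by
    have hvi' : IntegrableOn (fun z => ‖fderiv ℝ v z‖ ^ 2) S := by rw [hSdef]; exact hvi
    have hfi' : IntegrableOn (fun z => ‖deriv f z‖ ^ 2) S :=
      hint.mono_set (hSN.trans (inter_subset_inter_right _ hNR))
    have e1 : ∫⁻ q, G q = ∫⁻ q in f '' S, ENNReal.ofReal ‖fderiv ℝ V q‖ := by
      rw [hGdef, lintegral_indicator hfSo]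
    have e2 : ∫⁻ z in S, ENNReal.ofReal (‖fderiv ℝ v z‖ * ‖deriv f z‖) ≤
        ∫⁻ z in S, ENNReal.ofReal (δ / 2 * ‖fderiv ℝ v z‖ ^ 2 + 1 / (2 * δ) * ‖deriv f z‖ ^ 2) := by
      apply lintegral_mono
      intro z
      apply ENNReal.ofReal_le_ofReal
      have h1 : 0 ≤ (δ * ‖fderiv ℝ v z‖ - ‖deriv f z‖) ^ 2 / (2 * δ) := by positivity
      have h2 : (δ * ‖fderiv ℝ v z‖ - ‖deriv f z‖) ^ 2 / (2 * δ) =
        δ / 2 * ‖fderiv ℝ v z‖ ^ 2 + 1 / (2 * δ) * ‖deriv f z‖ ^ 2 -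
          ‖fderiv ℝ v z‖ * ‖deriv f z‖ := by
        field_simp
        ring
      linarith
    have e3 : ∫⁻ z in S, ENNReal.ofReal
        (δ / 2 * ‖fderiv ℝ v z‖ ^ 2 + 1 / (2 * δ) * ‖deriv f z‖ ^ 2) =
        ENNReal.ofReal (∫ z in S,
          (δ / 2 * ‖fderiv ℝ v z‖ ^ 2 + 1 / (2 * δ) * ‖deriv f z‖ ^ 2)) := by
      rw [ofReal_integral_eq_lintegral_ofReal]
      · exact (hvi'.const_mul _).add (hfi'.const_mul _)
      · exact Eventually.of_forall fun z => by positivity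
    have e4 : ∫ z in S, (δ / 2 * ‖fderiv ℝ v z‖ ^ 2 + 1 / (2 * δ) * ‖deriv f z‖ ^ 2) ≤
        δ * C' / 2 + κ / 4 := by
      rw [integral_add (hvi'.const_mul _) (hfi'.const_mul _), integral_const_mul,
        integral_const_mul]
      have h1 : ∫ z in S, ‖fderiv ℝ v z‖ ^ 2 ≤ C' := by rw [hSdef]; exact hvC.trans hCC
      have h2 : ∫ z in S, ‖deriv f z‖ ^ 2 ≤ δ * κ / 2 := by
        refine le_trans ?_ hNη.le
        apply setIntegral_mono_set (hint.mono_set (inter_subset_inter_right _ hNR))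
        · exact Eventually.of_forall fun z => by positivity
        · exact hSN.eventuallyLE
      have h3 : 1 / (2 * δ) * ∫ z in S, ‖deriv f z‖ ^ 2 ≤ 1 / (2 * δ) * (δ * κ / 2) :=
        mul_le_mul_of_nonneg_left h2 (by positivity)
      have h4 : 1 / (2 * δ) * (δ * κ / 2) = κ / 4 := by field_simp; norm_num
      have h5 : δ / 2 * ∫ z in S, ‖fderiv ℝ v z‖ ^ 2 ≤ δ / 2 * C' :=
        mul_le_mul_of_nonneg_left h1 (by positivity)
      linarith
    calc ∫⁻ q, G q = ∫⁻ q in f '' S, ENNReal.ofReal ‖fderiv ℝ V q‖ := e1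
      _ ≤ _ := fsa_change h hV hSo.measurableSet hSE
      _ ≤ _ := e2
      _ = _ := e3
      _ ≤ _ := ENNReal.ofReal_le_ofReal e4
  -- lower bound
  obtain ⟨a', b', ha', hb', hlen, hfar⟩ : ∃ a' b' : ℝ, a ≤ a' ∧ b' ≤ b ∧ b' - a' = (b - a) / 4 ∧
      ∀ t ∈ Icc a' b', (b - a) / 4 ≤ |t - v x| := by
    by_cases hc : v x ≤ (a + b) / 2
    · refine ⟨b - (b - a) / 4, b, by linarith, le_rfl, by ring, fun t ht => ?_⟩
      rw [le_abs]; left
      linarith [ht.1]
    · refine ⟨a, a + (b - a) / 4, le_rfl, by linarith, by ring, fun t ht => ?_⟩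
      rw [le_abs]; right
      push Not at hc
      linarith [ht.2]
  have hlow : ENNReal.ofReal κ ≤ ∫⁻ q, G q := by
    rw [fsaPt_lintegral θ₀ G]
    have hGm2 : Measurable (fun q : ℝ × ℝ => G (fsaPt θ₀ q.1 q.2)) := by
      apply hGm.comp
      unfold fsaPt
      fun_prop
    rw [Measure.volume_eq_prod, lintegral_prod_symm' _ hGm2]
    have h1 : ∀ t ∈ Icc a' b', ENNReal.ofReal ((b - a) / 8) ≤
        ∫⁻ s : ℝ, G (fsaPt θ₀ s t) := by
      intro t ht
      obtain ⟨p, hp, hpt⟩ := hall t ⟨ha'.trans ht.1, ht.2.trans hb'⟩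
      have h2 := fsa_line h hX hV hχx hχE hlev hp
      rw [hpt] at h2
      rw [hGdef, hSdef]
      refine le_trans (ENNReal.ofReal_le_ofReal ?_) h2
      linarith [hfar t ht]
    calc ENNReal.ofReal κ = ENNReal.ofReal ((b - a) / 8) * volume (Icc a' b') := by
          rw [Real.volume_Icc, hlen, ← ENNReal.ofReal_mul (by linarith), hκ]
          congr 1
          ring
      _ = ∫⁻ _t in Icc a' b', ENNReal.ofReal ((b - a) / 8) := by
          rw [setLIntegral_const]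
      _ ≤ ∫⁻ t in Icc a' b', ∫⁻ s : ℝ, G (fsaPt θ₀ s t) :=
          setLIntegral_mono' measurableSet_Icc h1
      _ ≤ _ := setLIntegral_le_lintegral _ _
  have hfinal := hlow.trans hup
  rw [ENNReal.ofReal_le_ofReal_iff] at hfinal
  · have h1 : δ * C' / 2 = κ / 2 := by rw [hδ]; field_simp
    rw [h1] at hfinal
    linarith
  · positivity

end Pool.Recti
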