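import Pool.Agent.Recti.Infty
import Pool.Agent.Lib.Montel
import Pool.Agent.Lib.Hurwitz

/-!
# Compactness of a family of normalised univalent functions

PROOFS.
* `uniform_bound`: `image_bound` with radius `4 R` (or `2 R`) and `δ = A / (2 R)`.
* `exists_limit_map`: Montel (`Pool.Agent.Lib.Montel`) on `Eᶜ`: locally bounded by `uniform_bound`
  (for `‖z‖ ≥ 2R` the bound `‖f_n z - z‖ ≤ A/‖z‖` is explicit).  The limit `f` satisfies
  `‖f z - z‖ ≤ A/‖z‖` for `‖z‖ ≥ 2R`, so it is not constant, and Hurwitz (`injOn_or_eqOn_const`) gives injectivity.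
  The derivatives converge locally uniformly, so Fatou's lemma gives the energy bound
  (`‖deriv f‖²` is continuous on `Eᶜ`, hence a.e. strongly measurable; bound the `lintegral`).
-/

set_option autoImplicit false

open Complex MeasureTheory Set Filter Topology Metric
open scoped ContDiff

namespace Pool.Recti

/-- A normalised univalent function with explicit bounds. -/
structure Bd (E : Set ℂ) (R A : ℝ) (f : ℂ → ℂ) : Prop where
  nrm : Nrm E f
  posR : 0 < R
  posA : 0 ≤ A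
  sub : E ⊆ ball 0 R
  far : ∀ z, 2 * R ≤ ‖z‖ → ‖f z - z‖ ≤ A / ‖z‖
  int : IntegrableOn (fun z => ‖deriv f z‖ ^ 2) (Eᶜ ∩ ball 0 (4 * R))
  energy : ∫ z in Eᶜ ∩ ball 0 (4 * R), ‖deriv f z‖ ^ 2 ≤ A

theorem Bd.norm_le {E : Set ℂ} {R A : ℝ} {f : ℂ → ℂ} (h : Bd E R A f) {z : ℂ} (hz : z ∈ Eᶜ)
    (hzR : ‖z‖ ≤ 4 * R) : ‖f z‖ ≤ 4 * R + A / R := by
  have hR := h.posR
  have hA := h.posA
  have h4 : 0 < 4 * R := by linarith
  have hb : ∀ z, 4 * R ≤ ‖z‖ → ‖f z - z‖ ≤ A / (4 * R) := by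
    intro w hw
    refine (h.far w (by linarith)).trans ?_
    exact div_le_div_of_nonneg_left hA h4 hw
  have hsub : E ⊆ ball 0 (4 * R) := h.sub.trans (ball_subset_ball (by linarith))
  have h1 := image_bound h.nrm h4 hsub hb hz hzR
  have h2 : A / (4 * R) ≤ A / R := div_le_div_of_nonneg_left hA hR (by linarith)
  linarith

theorem exists_limit_map {E : Set ℂ} {R A : ℝ} {F : ℕ → ℂ → ℂ} (hF : ∀ n, Bd E R A (F n)) :
    ∃ f : ℂ → ℂ, ∃ s : ℕ → ℕ, StrictMono s ∧ Bd E R A f ∧
      TendstoLocallyUniformlyOn (fun k => F (s k)) f atTop Eᶜ := by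
  have hR : 0 < R := (hF 0).posR
  have hA : 0 ≤ A := (hF 0).posA
  have hEc : IsCompact E := (hF 0).nrm.compact
  have hsub : E ⊆ ball 0 R := (hF 0).sub
  have hO : IsOpen Eᶜ := hEc.isClosed.isOpen_compl
  have hconn : IsConnected Eᶜ := (hF 0).nrm.conn
  have hbdd : ∀ K ⊆ Eᶜ, IsCompact K → ∃ M : ℝ, ∀ n, ∀ z ∈ K, ‖F n z‖ ≤ M := by
    intro K hK hKc
    obtain ⟨B, hB⟩ := hKc.isBounded.exists_norm_le
    refine ⟨(4 * R + A / R) + (|B| + A / R), fun n z hz => ?_⟩
    have hAR : 0 ≤ A / R := div_nonneg hA hR.le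
    by_cases h4 : ‖z‖ ≤ 4 * R
    · have := (hF n).norm_le (hK hz) h4
      have hBn : 0 ≤ |B| := abs_nonneg _
      linarith
    · push Not at h4
      have h1 := (hF n).far z (by linarith)
      have h2 : A / ‖z‖ ≤ A / R := div_le_div_of_nonneg_left hA hR (by linarith)
      have h3 : ‖F n z‖ ≤ ‖F n z - z‖ + ‖z‖ := by
        have := norm_add_le (F n z - z) z
        simpa using this
      have h5 : ‖z‖ ≤ |B| := (hB z hz).trans (le_abs_self _)
      linarith
  obtain ⟨s, f, hs, hfd, hlim⟩ :=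
    Pool.Agent.Lib.Montel.montel hO (fun n => (hF n).nrm.diff) hbdd
  have hpt : ∀ z ∈ Eᶜ, Tendsto (fun k => F (s k) z) atTop (𝓝 (f z)) := fun z hz =>
    hlim.tendsto_at hz
  have hfarmem : ∀ z : ℂ, 2 * R ≤ ‖z‖ → z ∈ Eᶜ := by
    intro z hz hzE
    have := hsub hzE
    rw [mem_ball_zero_iff] at this
    linarith
  have hfar : ∀ z, 2 * R ≤ ‖z‖ → ‖f z - z‖ ≤ A / ‖z‖ := by
    intro z hz
    have h1 : Tendsto (fun k => ‖F (s k) z - z‖) atTop (𝓝 ‖f z - z‖) :=
      ((hpt z (hfarmem z hz)).sub_const z).norm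
    exact le_of_tendsto h1 (Eventually.of_forall fun k => (hF (s k)).far z hz)
  have hinf : Tendsto (fun z => f z - z) (cocompact ℂ) (𝓝 0) := by
    rw [tendsto_zero_iff_norm_tendsto_zero]
    have h1 : Tendsto (fun z : ℂ => A / ‖z‖) (cocompact ℂ) (𝓝 0) :=
      Tendsto.div_atTop tendsto_const_nhds tendsto_norm_cocompact_atTop
    refine squeeze_zero' (Eventually.of_forall fun z => norm_nonneg _) ?_ h1
    have h2 : ∀ᶠ z : ℂ in cocompact ℂ, 2 * R ≤ ‖z‖ :=
      tendsto_norm_cocompact_atTop.eventually (eventually_ge_atTop (2 * R))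
    filter_upwards [h2] with z hz using hfar z hz
  have hinj : InjOn f Eᶜ := by
    rcases Pool.Agent.Lib.Hurwitz.injOn_or_eqOn_const hO hconn.isPreconnected hlim
      (Eventually.of_forall fun k => (hF (s k)).nrm.diff)
      (Eventually.frequently (Eventually.of_forall fun k => (hF (s k)).nrm.inj)) with h | ⟨c, hc⟩
    · exact h
    · exfalso
      -- two points
      set T : ℝ := 2 * R + A / R + ‖c‖ + 1 with hT
      have hAR : 0 ≤ A / R := div_nonneg hA hR.le
      have hTpos : 0 < T := by have := norm_nonneg c; linarith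
      have hTn : ‖(T : ℂ)‖ = T := by
        rw [Complex.norm_real, Real.norm_eq_abs, abs_of_pos hTpos]
      have hT2 : 2 * R ≤ ‖(T : ℂ)‖ := by rw [hTn]; have := norm_nonneg c; linarith
      have h1 := hfar (T : ℂ) hT2
      rw [hc _ (hfarmem _ hT2), hTn] at h1
      have h2 : ‖(T : ℂ)‖ ≤ ‖c - T‖ + ‖c‖ := by
        have := norm_sub_le c (c - T)
        rw [sub_sub_cancel] at this
        linarith
      rw [hTn] at h2
      have h3 : A / T ≤ A / R := div_le_div_of_nonneg_left hA hR (by have := norm_nonneg c; linarith)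
      linarith
  have hderiv : ∀ z ∈ Eᶜ, Tendsto (fun k => deriv (F (s k)) z) atTop (𝓝 (deriv f z)) := by
    intro z hz
    have h1 := hlim.deriv (Eventually.of_forall fun k => (hF (s k)).nrm.diff) hO
    exact h1.tendsto_at hz
  set U : Set ℂ := Eᶜ ∩ ball 0 (4 * R) with hU
  have hUo : IsOpen U := hO.inter isOpen_ball
  have hUm : MeasurableSet U := hUo.measurableSet
  have hcont : ContinuousOn (fun z => ‖deriv f z‖ ^ 2) U := by
    have h1 : DifferentiableOn ℂ (deriv f) Eᶜ := hfd.deriv hO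
    exact ((h1.continuousOn.norm).pow 2).mono inter_subset_left
  have hmeas : AEStronglyMeasurable (fun z => ‖deriv f z‖ ^ 2) (volume.restrict U) :=
    hcont.aestronglyMeasurable hUm
  -- Fatou
  have hfatou : ∫⁻ z in U, ENNReal.ofReal (‖deriv f z‖ ^ 2) ≤ ENNReal.ofReal A := by
    have hle : ∀ k, ∫⁻ z in U, ENNReal.ofReal (‖deriv (F (s k)) z‖ ^ 2) ≤ ENNReal.ofReal A := by
      intro k
      rw [← ofReal_integral_eq_lintegral_ofReal (hF (s k)).int
        (Eventually.of_forall fun z => by positivity)]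
      exact ENNReal.ofReal_le_ofReal (hF (s k)).energy
    have hmk : ∀ k, AEMeasurable (fun z => ENNReal.ofReal (‖deriv (F (s k)) z‖ ^ 2))
        (volume.restrict U) := by
      intro k
      exact (hF (s k)).int.aestronglyMeasurable.aemeasurable.ennreal_ofReal
    have h1 : ∫⁻ z in U, liminf (fun k => ENNReal.ofReal (‖deriv (F (s k)) z‖ ^ 2)) atTop ≤
        liminf (fun k => ∫⁻ z in U, ENNReal.ofReal (‖deriv (F (s k)) z‖ ^ 2)) atTop :=
      lintegral_liminf_le' hmk
    have h2 : ∫⁻ z in U, ENNReal.ofReal (‖deriv f z‖ ^ 2) =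
        ∫⁻ z in U, liminf (fun k => ENNReal.ofReal (‖deriv (F (s k)) z‖ ^ 2)) atTop := by
      refine setLIntegral_congr_fun hUm fun z hz => ?_
      have h3 : Tendsto (fun k => ENNReal.ofReal (‖deriv (F (s k)) z‖ ^ 2)) atTop
          (𝓝 (ENNReal.ofReal (‖deriv f z‖ ^ 2))) :=
        ENNReal.tendsto_ofReal (((hderiv z hz.1).norm).pow 2)
      exact h3.liminf_eq.symm
    rw [h2]
    refine h1.trans ?_
    refine (liminf_le_liminf (Eventually.of_forall hle)).trans ?_
    simp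
  have hint : IntegrableOn (fun z => ‖deriv f z‖ ^ 2) U := by
    refine ⟨hmeas, ?_⟩
    rw [hasFiniteIntegral_iff_ofReal (Eventually.of_forall fun z => by positivity)]
    exact hfatou.trans_lt ENNReal.ofReal_lt_top
  have hen : ∫ z in U, ‖deriv f z‖ ^ 2 ≤ A := by
    rw [integral_eq_lintegral_of_nonneg_ae (Eventually.of_forall fun z => by positivity) hmeas]
    exact ENNReal.toReal_le_of_le_ofReal hA hfatou
  exact ⟨f, s, hs, ⟨⟨hEc, hconn, hfd, hinj, hinf⟩, hR, hA, hsub, hfar, hint, hen⟩, hlim⟩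

end Pool.Recti
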