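import Pool.Agent.Recti.Family
import Pool.Agent.Recti.FS
import Pool.Agent.Recti.BddApp
import Pool.Agent.Recti.Ext

/-!
# Straightness for maps with finitely many angles

PROOF of `straight_finite` (`Θ` a test function, `f` its map).  Apply `straight_of_local` with `θ₀ = Θ x`, radius
`4 R`, `C = 2 A + 2`.  Given `ε, N`: the set `N1` of the points of `N ∩ ball 0 (4R)` near which `Θ = Θ x` is open and
contains the component of `x` (`eventually_eq_of_lc`, `eq_of_lc_of_component`).  Take `χ` from `exists_cutoff` for `N1`,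
`Q = {z | χ z = 1/2}` (compact, disjoint from `E`), `g` from `exists_bounded_app` (`M` from `Bd.norm_le`, radius `4R`), and
`v = Im (e^{-iΘ x} g)`, `W` the function from `Framed`.  On `{χ ≠ 0} ⊆ N1` we have `Θ = Θ x`.
-/

set_option autoImplicit false

open Complex MeasureTheory Set Filter Topology Metric
open scoped ContDiff

namespace Pool.Recti

/-- `LK E f x` lies on a line of direction `e^{i t}`. -/
def Straight (E : Set ℂ) (f : ℂ → ℂ) (t : ℝ) (x : ℂ) : Prop :=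
  ∃ c : ℝ, ∀ p ∈ LK E f x, (exp (-(t * I)) * p).im = c

/-- The imaginary part of a multiple by a number of norm one does not increase the derivative. -/
theorem norm_fderiv_im_mul_le {g : ℂ → ℂ} {z e : ℂ} (he : ‖e‖ ≤ 1)
    (hg : DifferentiableAt ℝ g z) :
    ‖fderiv ℝ (fun w => (e * g w).im) z‖ ≤ ‖fderiv ℝ g z‖ := by
  have h1 : HasFDerivAt (fun w => (e * g w).im)
      (imCLM.comp ((ContinuousLinearMap.mul ℝ ℂ e).comp (fderiv ℝ g z))) z := by
    have h2 : HasFDerivAt (fun w => e * g w)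
        ((ContinuousLinearMap.mul ℝ ℂ e).comp (fderiv ℝ g z)) z :=
      (ContinuousLinearMap.mul ℝ ℂ e).hasFDerivAt.comp z hg.hasFDerivAt
    exact imCLM.hasFDerivAt.comp z h2
  rw [h1.fderiv]
  apply ContinuousLinearMap.opNorm_le_bound _ (norm_nonneg _)
  intro v
  have h3 : ‖(imCLM.comp ((ContinuousLinearMap.mul ℝ ℂ e).comp (fderiv ℝ g z))) v‖
      = |(e * (fderiv ℝ g z v)).im| := by
    rfl
  rw [h3]
  refine (abs_im_le_norm _).trans ?_
  rw [norm_mul]
  refine (mul_le_of_le_one_left (norm_nonneg _) he).trans ?_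
  exact (fderiv ℝ g z).le_opNorm v

theorem straight_finite {E : Set ℂ} {R A : ℝ} {Θ : ℂ → ℝ} {f : ℂ → ℂ} (hΘ : Test E Θ)
    (hf : Bd E R A f)
    (happ : ∀ Q : Set ℂ, IsCompact Q → Q ⊆ Eᶜ → ∀ ε : ℝ, 0 < ε → ∃ g : ℂ → ℂ, App E Θ f Q ε g)
    {x : ℂ} (hx : x ∈ E) : Straight E f (Θ x) x := by
  have hE : IsCompact E := hf.nrm.compact
  have hR := hf.posR
  have hA := hf.posA
  have hO : IsOpen Eᶜ := hE.isClosed.isOpen_compl
  have hER : E ⊆ ball 0 (4 * R) := hf.sub.trans (ball_subset_ball (by linarith))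
  have hM0 : 0 ≤ 4 * R + A / R := by positivity
  have hdΘ : Differentiable ℝ Θ := hΘ.smooth.differentiable (by simp)
  refine straight_of_local (C := 2 * A + 2) hf.nrm hx hER hf.int ?_
  intro ε hε N hN hsub
  let N1 : Set ℂ := (N ∩ ball 0 (4 * R)) ∩ {z | ∀ᶠ w in 𝓝 z, Θ w = Θ x}
  have hN1 : IsOpen N1 := (hN.inter isOpen_ball).inter isOpen_setOfPred_eventually_nhds
  have hsub1 : connectedComponentIn E x ⊆ N1 := by
    intro y hy
    have hyE : y ∈ E := connectedComponentIn_subset E x hy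
    refine ⟨⟨hsub hy, hER hyE⟩, ?_⟩
    have h1 := eventually_eq_of_lc hdΘ hΘ.lc hyE
    have h2 := eq_of_lc_of_component hdΘ hΘ.lc hx hy
    show ∀ᶠ w in 𝓝 y, Θ w = Θ x
    filter_upwards [h1] with z hz using hz.trans h2
  obtain ⟨χ, hχ, hχ01, hχN, hχ1, hχE⟩ := exists_cutoff hE hx hN1 hsub1
  have hχc : Continuous χ := hχ.smooth.continuous
  have hne : ∀ z, χ z ≠ 0 → z ∈ N1 := fun z hz => hχN (subset_tsupport _ hz)
  let Q : Set ℂ := {z | χ z = 1 / 2}
  have hQ : IsCompact Q := by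
    refine hχ.comp.isCompact.of_isClosed_subset (isClosed_eq hχc continuous_const) ?_
    intro z hz
    have hz' : χ z = 1 / 2 := hz
    refine subset_tsupport _ ?_
    rw [Function.mem_support, hz']
    norm_num
  have hQE : Q ⊆ Eᶜ := by
    intro z hz hzE
    have hz' : χ z = 1 / 2 := hz
    rcases hχE z hzE with h | h <;> rw [h] at hz' <;> norm_num at hz'
  obtain ⟨g, hgs, hgQ, hgF, hgb, hgi, hgA⟩ := exists_bounded_app hE hΘ hf.nrm.diff hER hM0
    (fun z hz hzR => hf.norm_le hz hzR.le) happ hf.int hf.energy hQ hQE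
  obtain ⟨W, hW, hWl, hWe⟩ := hgF
  have hOR : IsOpen (Eᶜ ∩ ball (0 : ℂ) (4 * R)) := hO.inter isOpen_ball
  have hgd : ∀ z ∈ Eᶜ ∩ ball (0 : ℂ) (4 * R), DifferentiableAt ℝ g z := fun z hz =>
    ((hgs z hz).contDiffAt (hOR.mem_nhds hz)).differentiableAt (by simp)
  have he : ‖exp (-(Θ x * I))‖ ≤ 1 := by
    rw [← neg_mul, ← ofReal_neg, norm_exp_ofReal_mul_I]
  have hle : ∀ z ∈ Eᶜ ∩ ball (0 : ℂ) (4 * R),
      ‖fderiv ℝ (fun w => (exp (-(Θ x * I)) * g w).im) z‖ ^ 2 ≤ ‖fderiv ℝ g z‖ ^ 2 := by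
    intro z hz
    have := norm_fderiv_im_mul_le he (hgd z hz)
    exact pow_le_pow_left₀ (norm_nonneg _) this 2
  have hSsub : Eᶜ ∩ {z | 1 / 2 < χ z} ⊆ Eᶜ ∩ ball (0 : ℂ) (4 * R) := by
    rintro z ⟨hz1, hz2⟩
    have hz3 : (1 : ℝ) / 2 < χ z := hz2
    refine ⟨hz1, (hne z ?_).1.2⟩
    intro h0
    rw [h0] at hz3
    norm_num at hz3
  have hSm : MeasurableSet (Eᶜ ∩ {z | 1 / 2 < χ z}) :=
    (hO.inter (isOpen_lt continuous_const hχc)).measurableSet
  have hgi' : IntegrableOn (fun z => ‖fderiv ℝ g z‖ ^ 2) (Eᶜ ∩ {z | 1 / 2 < χ z}) :=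
    hgi.mono_set hSsub
  have hvi : IntegrableOn
      (fun z => ‖fderiv ℝ (fun w => (exp (-(Θ x * I)) * g w).im) z‖ ^ 2)
      (Eᶜ ∩ {z | 1 / 2 < χ z}) := by
    refine Integrable.mono' hgi' ?_ ?_
    · exact ((measurable_fderiv ℝ
        (fun w => (exp (-(Θ x * I)) * g w).im)).norm.pow_const 2).aestronglyMeasurable
    · refine (ae_restrict_iff' hSm).2 (Eventually.of_forall fun z hz => ?_)
      rw [Real.norm_of_nonneg (by positivity)]
      exact hle z (hSsub hz)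
  have hle2 : (2 : WithTop ℕ∞) ≤ ∞ := WithTop.coe_le_coe.2 (le_top : (2 : ℕ∞) ≤ ⊤)
  refine ⟨χ, fun z => (exp (-(Θ x * I)) * g z).im, W, hχ, hχN.trans (fun z hz => hz.1.1), ?_,
    hχE, ?_, hW.of_le hle2, hWl, ?_, hvi, ?_, ?_⟩
  · exact hχ1.self_of_nhdsSet x (mem_connectedComponentIn hx)
  · have h1 : ContDiffOn ℝ 2 g (Eᶜ ∩ {z | χ z ≠ 0}) := by
      refine (hgs.of_le hle2).mono ?_
      rintro z ⟨hz1, hz2⟩
      exact ⟨hz1, (hne z hz2).1.2⟩
    exact imCLM.contDiff.comp_contDiffOn (contDiffOn_const.mul h1)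
  · filter_upwards [hWe] with z hz hzE hz0
    have h2 : Θ z = Θ x := (hne z hz0).2.self_of_nhds
    rw [← hz hzE, h2]
  · refine le_trans ?_ hgA
    refine le_trans (setIntegral_mono_on hvi hgi' hSm fun z hz => hle z (hSsub hz)) ?_
    exact setIntegral_mono_set hgi (Eventually.of_forall fun z => by positivity)
      (LE.le.eventuallyLE hSsub)
  · intro z hz hzh
    have hz0 : χ z ≠ 0 := by rw [hzh]; norm_num
    have hzR : ‖z‖ < 4 * R := mem_ball_zero_iff.1 (hne z hz0).1.2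
    show |(exp (-(Θ x * I)) * g z).im - (exp (-(Θ x * I)) * f z).im| ≤ ε
    rw [hgQ z hzh hzR, sub_self, abs_zero]
    exact hε.le

end Pool.Recti
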