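import Pool.Agent.Recti.Core

/-!
# Rectilinear slit maps with prescribed continuous slit directions

The domain is `D = Ĉ \ E`, `E` a compact plane set with connected complement; the space of
components of `E` with its quotient topology is Mathlib's `ConnectedComponents E`.
-/

set_option autoImplicit false

open Complex MeasureTheory Set Filter Topology Metric
open scoped ContDiff

namespace Pool.RectSlit

/-- The component `K` of `E` as a subset of the plane. -/
def carrier {E : Set ℂ} (K : ConnectedComponents E) : Set ℂ :=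
  {z | ∃ h : z ∈ E, ConnectedComponents.mk (⟨z, h⟩ : E) = K}

/-- `f` is a rectilinear slit map of `D = Ĉ \ E` (normalised by `f(z) = z + o(1)` at infinity, so that
`f(∞) = ∞`) which realises the angle assignment `θ`: `f` is holomorphic and injective on `ℂ \ E`, and to each component
`K` of `E` there corresponds a component `S K` of the complement of the image, which is a closed straight segment
(possibly a point) of direction `e^{iθ(K)}`; every component of the complement of the image arises from exactly one `K`;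
and a sequence in `ℂ \ E` accumulates only on `K` if and only if its image accumulates only on
`S K`. -/
structure Realises (E : Set ℂ) (θ : ConnectedComponents E → ℝ) (f : ℂ → ℂ)
    (S : ConnectedComponents E → Set ℂ) : Prop where
  holo : DifferentiableOn ℂ f Eᶜ
  inj : InjOn f Eᶜ
  infty : Tendsto (fun z => f z - z) (cocompact ℂ) (𝓝 0)
  slit : ∀ K, ∃ (a : ℂ) (l : ℝ), 0 ≤ l ∧ S K = segment ℝ a (a + l * exp (θ K * I))
  comp : ∀ K, ∀ p ∈ S K, connectedComponentIn (f '' Eᶜ)ᶜ p = S K
  cover : (f '' Eᶜ)ᶜ = ⋃ K, S K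
  disj : ∀ K K', K ≠ K' → Disjoint (S K) (S K')
  corr : ∀ K (u : ℕ → ℂ), (∀ n, u n ∉ E) →
    (Tendsto (fun n => infDist (u n) (carrier K)) atTop (𝓝 0) ↔
      Tendsto (fun n => infDist (f (u n)) (S K)) atTop (𝓝 0))

/-- Condition (i) at `K`: near `K` the angle function is the restriction of a continuous function which is `C^2` off `E`
with finite Dirichlet integral there. -/
def FiniteEnergyAt (E : Set ℂ) (θ : ConnectedComponents E → ℝ) (K : ConnectedComponents E) :
    Prop :=
  ∃ U : Set ℂ, IsOpen U ∧ carrier K ⊆ U ∧ ∃ Θ : ℂ → ℝ, ContinuousOn Θ U ∧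
    (∀ z : E, (z : ℂ) ∈ U → Θ z = θ (ConnectedComponents.mk z)) ∧ ContDiffOn ℝ 2 Θ (U \ E) ∧
    IntegrableOn (fun z => ‖fderiv ℝ Θ z‖ ^ 2) (U \ E)

/-- The open round annulus. -/
def annulus (c : ℂ) (r r' : ℝ) : Set ℂ := {z | r < ‖z - c‖ ∧ ‖z - c‖ < r'}

/-- Condition (ii) at `K`: `K` has a countable neighbourhood `𝒩` in the space of components such that for the
`K' ∈ 𝒜` the numbers `(θ K' - θ K)²` are summable, while the remaining `K' ∈ 𝒩`, `K' ≠ K`, are
surrounded by pairwise disjoint round annuli in the complement of `E` whose moduli dominate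
`(θ K' - θ K)²`. -/
def SeparatedAt (E : Set ℂ) (θ : ConnectedComponents E → ℝ) (K : ConnectedComponents E) : Prop :=
  ∃ 𝒩 ∈ 𝓝 K, 𝒩.Countable ∧ ∃ 𝒜 : Set (ConnectedComponents E),
    Summable (fun K' : {K' // K' ∈ 𝒩 ∧ K' ∈ 𝒜} => (θ K' - θ K) ^ 2) ∧
    ∃ (c : ConnectedComponents E → ℂ) (ρ ρ' : ConnectedComponents E → ℝ) (κ : ℝ), 0 < κ ∧
      (∀ K' ∈ 𝒩, K' ≠ K → K' ∉ 𝒜 →
        0 < ρ K' ∧ ρ K' < ρ' K' ∧ ρ' K' ≤ 1 ∧
        κ * (θ K' - θ K) ^ 2 ≤ Real.log (ρ' K' / ρ K') ∧
        carrier K' ⊆ closedBall (c K') (ρ K') ∧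
        Disjoint (annulus (c K') (ρ K') (ρ' K')) E) ∧
      ∀ K' ∈ 𝒩, ∀ K'' ∈ 𝒩, K' ≠ K → K'' ≠ K → K' ∉ 𝒜 → K'' ∉ 𝒜 → K' ≠ K'' →
        Disjoint (annulus (c K') (ρ K') (ρ' K')) (annulus (c K'') (ρ K'') (ρ' K''))

open Pool.Recti

/-- a compact preconnected subset of a line is a segment -/
theorem eq_segment {L : Set ℂ} (hL : IsCompact L) (hne : L.Nonempty) (hc : IsPreconnected L)
    {t c : ℝ} (h : ∀ p ∈ L, (exp (-(t * I)) * p).im = c) :
    ∃ (a : ℂ) (l : ℝ), 0 ≤ l ∧ L = segment ℝ a (a + l * exp (t * I)) := by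
  set e : ℂ := exp (t * I) with he
  have hee : exp (-(t * I)) * e = 1 := by rw [he, ← Complex.exp_add]; simp
  set g : ℂ → ℝ := fun p => (exp (-(t * I)) * p).re with hg
  have hgc : Continuous g := by rw [hg]; fun_prop
  have hrep : ∀ p ∈ L, p = e * ((g p : ℂ) + c * I) := by
    intro p hp
    have h1 : exp (-(t * I)) * p = (g p : ℂ) + c * I := by
      apply Complex.ext
      · simp [hg]
      · simp [h p hp]
    rw [← h1, ← mul_assoc, mul_comm e, hee, one_mul]
  obtain ⟨p0, hp0, hmin⟩ := hL.exists_isMinOn hne hgc.continuousOn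
  obtain ⟨p1, hp1, hmax⟩ := hL.exists_isMaxOn hne hgc.continuousOn
  have hle : g p0 ≤ g p1 := hmin hp1
  refine ⟨p0, g p1 - g p0, by linarith, ?_⟩
  ext p
  constructor
  · intro hp
    have h1 : g p0 ≤ g p := hmin hp
    have h2 : g p ≤ g p1 := hmax hp
    rcases hle.eq_or_lt with heq | hlt
    · have h3 : g p = g p0 := le_antisymm (by rw [heq]; exact h2) h1
      have h4 : p = p0 := by
        rw [hrep p hp, hrep p0 hp0, h3]
      rw [h4]
      exact left_mem_segment _ _ _
    · rw [segment_eq_image']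
      refine ⟨(g p - g p0) / (g p1 - g p0), ⟨by apply div_nonneg <;> linarith, ?_⟩, ?_⟩
      · rw [div_le_one (by linarith)]; linarith
      · have hne' : ((g p1 - g p0 : ℝ) : ℂ) ≠ 0 := by
          exact_mod_cast (by linarith : (0:ℝ) < g p1 - g p0).ne'
        have h8 : (g p1 : ℂ) - g p0 ≠ 0 := by
          have := hne'
          push_cast at this
          exact this
        have h0 := hrep p0 hp0
        have h5 : p0 + ((g p - g p0) / (g p1 - g p0)) • (p0 + ((g p1 - g p0 : ℝ) : ℂ) * e - p0) =
            p := by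
          rw [real_smul]
          push_cast
          have h6 : ((g p - g p0 : ℂ) / (g p1 - g p0)) * (p0 + (g p1 - g p0) * e - p0) =
              (g p - g p0) * e := by
            field_simp
            ring
          rw [h6]
          linear_combination h0 - hrep p hp
        exact h5
  · intro hp
    rw [segment_eq_image'] at hp
    obtain ⟨s, ⟨hs0, hs1⟩, hsp⟩ := hp
    -- the value of `g` is attained
    have hval : g p0 + s * (g p1 - g p0) ∈ Icc (g p0) (g p1) := by
      constructor
      · have : 0 ≤ s * (g p1 - g p0) := mul_nonneg hs0 (by linarith)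
        linarith
      · have : s * (g p1 - g p0) ≤ 1 * (g p1 - g p0) :=
          mul_le_mul_of_nonneg_right hs1 (by linarith)
        linarith
    obtain ⟨q, hq, hgq⟩ := hc.intermediate_value hp0 hp1 hgc.continuousOn hval
    have : p = q := by
      have h0 := hrep p0 hp0
      have h1 := hrep q hq
      rw [hgq] at h1
      rw [← hsp]
      simp only [real_smul]
      push_cast at h1 ⊢
      linear_combination h0 - h1
    rw [this]
    exact hq

theorem result_core (E : Set ℂ) (hE : IsCompact E) (hD : IsConnected Eᶜ)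
    (θ : ConnectedComponents E → ℝ) (hθ : Continuous θ) (hnull : volume (range θ) = 0)
    (hloc : ∀ K, FiniteEnergyAt E θ K ∨ SeparatedAt E θ K) :
    ∃ (f : ℂ → ℂ) (S : ConnectedComponents E → Set ℂ), Realises E θ f S := by
  classical
  -- the angle function on the plane
  set ϑ : ℂ → ℝ := fun z => if h : z ∈ E then θ (ConnectedComponents.mk ⟨z, h⟩) else 0 with hϑ
  have hϑE : ∀ z : E, ϑ z = θ (ConnectedComponents.mk z) := by
    intro z
    simp only [hϑ, dif_pos z.2]
  have hϑc : ContinuousOn ϑ E := by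
    rw [continuousOn_iff_continuous_domRestrict]
    have : E.domRestrict ϑ = fun z : E => θ (ConnectedComponents.mk z) := by
      funext z
      exact hϑE z
    rw [this]
    exact hθ.comp ConnectedComponents.isQuotientMap_coe.continuous
  have hϑ0 : volume (ϑ '' E) = 0 := by
    refine measure_mono_null ?_ hnull
    rintro _ ⟨z, hz, rfl⟩
    exact ⟨_, (hϑE ⟨z, hz⟩).symm⟩
  have hcar : ∀ (z : E), carrier (ConnectedComponents.mk z) = connectedComponentIn E z := by
    intro z
    ext w
    constructor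
    · rintro ⟨hw, h⟩
      exact (mk_eq_mk_iff hw z.2).mp h
    · intro hw
      have hwE : w ∈ E := connectedComponentIn_subset _ _ hw
      exact ⟨hwE, (mk_eq_mk_iff hwE z.2).mpr hw⟩
  have hloc' : ∀ x ∈ E, LocEnergy E ϑ x ∨ LocSep E ϑ x := by
    intro x hx
    rcases hloc (ConnectedComponents.mk ⟨x, hx⟩) with ⟨U, hU, hKU, Θ, hc, heq, hd, hint⟩ |
      ⟨𝒩, h𝒩, hcount, 𝒜, hsum, c, ρ, ρ', κ, hκ, hann, hpair⟩
    · left
      rw [hcar ⟨x, hx⟩] at hKU
      refine ⟨U, hU, hKU, Θ, hc, ?_, hd, hint⟩
      intro z hz hzU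
      rw [heq ⟨z, hz⟩ hzU, hϑE ⟨z, hz⟩]
    · right
      set K : ConnectedComponents E := ConnectedComponents.mk ⟨x, hx⟩ with hK
      obtain ⟨V, hV𝒩, hV, hKV⟩ := mem_nhds_iff.mp h𝒩
      obtain ⟨O', hO', hOO'⟩ := isOpen_induced_iff.mp (hV.preimage
        ConnectedComponents.isQuotientMap_coe.continuous)
      have hO'mem : ∀ z : E, (z : ℂ) ∈ O' ↔ ConnectedComponents.mk z ∈ V := by
        intro z
        have : z ∈ Subtype.val ⁻¹' O' ↔ z ∈ ConnectedComponents.mk ⁻¹' V := by rw [hOO']
        exact this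
      -- representatives
      have hrep : ∀ K' : ConnectedComponents E, ∃ z : E, ConnectedComponents.mk z = K' :=
        ConnectedComponents.surjective_coe
      choose pt hpt using hrep
      set cls : ℂ → ConnectedComponents E := fun z =>
        if h : z ∈ E then ConnectedComponents.mk ⟨z, h⟩ else K with hcls
      have hclsE : ∀ z : E, cls z = ConnectedComponents.mk z := by
        intro z
        simp only [hcls, dif_pos z.2]
      set T : Set ℂ := (fun K' => (pt K' : ℂ)) '' {K' | K' ∈ V ∧ K' ≠ K} with hT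
      have hTmem : ∀ r ∈ T, ∃ K', K' ∈ V ∧ K' ≠ K ∧ r = pt K' ∧ cls r = K' := by
        rintro r ⟨K', ⟨h1, h2⟩, rfl⟩
        exact ⟨K', h1, h2, rfl, by rw [hclsE, hpt]⟩
      have hTE : T ⊆ E := by
        rintro r ⟨K', -, rfl⟩
        exact (pt K').2
      have hTc : T.Countable := (hcount.mono (fun K' hK' => hV𝒩 hK'.1)).image _
      have hTϑ : ∀ r ∈ T, ϑ r = θ (cls r) := by
        intro r hr
        rw [hϑE ⟨r, hTE hr⟩, hclsE ⟨r, hTE hr⟩]
      have hϑx : ϑ x = θ K := hϑE ⟨x, hx⟩
      refine ⟨O', T, {r | cls r ∈ 𝒜}, fun r => c (cls r), fun r => ρ (cls r),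
        fun r => ρ' (cls r), κ, ?_, ?_⟩
      · refine ⟨hO', ?_, hTc, hTE, ?_⟩
        · intro z hz
          have hzE : z ∈ E := connectedComponentIn_subset _ _ hz
          rw [hO'mem ⟨z, hzE⟩, (mk_eq_mk_iff hzE hx).mpr hz]
          exact hKV
        · intro y hy hyO hyx
          have h1 : ConnectedComponents.mk (⟨y, hy⟩ : E) ∈ V := (hO'mem ⟨y, hy⟩).mp hyO
          have h2 : ConnectedComponents.mk (⟨y, hy⟩ : E) ≠ K := fun h =>
            hyx ((mk_eq_mk_iff hy hx).mp h)
          refine ⟨pt (ConnectedComponents.mk ⟨y, hy⟩), ⟨_, ⟨h1, h2⟩, rfl⟩, ?_⟩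
          have h3 := hpt (ConnectedComponents.mk ⟨y, hy⟩)
          exact (mk_eq_mk_iff hy (pt _).2).mp h3.symm
      · have key : ∀ r ∈ T, r ∉ {r | cls r ∈ 𝒜} →
            cls r ∈ 𝒩 ∧ cls r ≠ K ∧ cls r ∉ 𝒜 := by
          intro r hr hrA
          obtain ⟨K', h1, h2, -, h4⟩ := hTmem r hr
          rw [h4]
          refine ⟨hV𝒩 h1, h2, fun h => hrA ?_⟩
          change cls r ∈ 𝒜
          rw [h4]; exact h
        refine ⟨hTc, hTE, ?_, ?_, hκ, ?_, ?_, ?_, ?_, ?_, ?_, ?_⟩
        · intro r hr hrx
          obtain ⟨K', h1, h2, h3, h4⟩ := hTmem r hr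
          apply h2
          have h5 := (mk_eq_mk_iff (hTE hr) hx).mpr hrx
          rw [← h4, hclsE ⟨r, hTE hr⟩]
          exact h5
        · have hi : ∀ r : {r : ℂ // r ∈ T ∧ r ∈ {r | cls r ∈ 𝒜}}, cls r ∈ 𝒩 ∧ cls r ∈ 𝒜 := by
            intro r
            obtain ⟨K', h1, h2, h3, h4⟩ := hTmem r r.2.1
            exact ⟨by rw [h4]; exact hV𝒩 h1, r.2.2⟩
          have hinj : Function.Injective
              (fun r : {r : ℂ // r ∈ T ∧ r ∈ {r | cls r ∈ 𝒜}} =>
                (⟨cls r, hi r⟩ : {K' // K' ∈ 𝒩 ∧ K' ∈ 𝒜})) := by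
            intro r s hrs
            have h1 : cls r = cls s := congrArg Subtype.val hrs
            obtain ⟨K', -, -, h3, h4⟩ := hTmem r r.2.1
            obtain ⟨K'', -, -, h3', h4'⟩ := hTmem s s.2.1
            apply Subtype.ext
            rw [h3, h3', ← h4, ← h4', h1]
          refine (hsum.comp_injective hinj).congr ?_
          intro r
          simp only [Function.comp]
          rw [hTϑ r r.2.1, hϑx]
        · intro r hr hrA
          obtain ⟨h1, h2, h3⟩ := key r hr hrA
          exact (hann _ h1 h2 h3).1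
        · intro r hr hrA
          obtain ⟨h1, h2, h3⟩ := key r hr hrA
          exact (hann _ h1 h2 h3).2.1
        · intro r hr hrA
          obtain ⟨h1, h2, h3⟩ := key r hr hrA
          exact (hann _ h1 h2 h3).2.2.1
        · intro r hr hrA
          obtain ⟨h1, h2, h3⟩ := key r hr hrA
          rw [hTϑ r hr, hϑx]
          exact (hann _ h1 h2 h3).2.2.2.1
        · intro r hr hrA
          obtain ⟨h1, h2, h3⟩ := key r hr hrA
          have h4 := (hann _ h1 h2 h3).2.2.2.2.1 (show r ∈ carrier (cls r) from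
            ⟨hTE hr, (hclsE ⟨r, hTE hr⟩).symm⟩)
          rw [mem_closedBall, dist_eq_norm] at h4
          exact h4
        · intro r hr hrA z hz1 hz2 hzE
          obtain ⟨h1, h2, h3⟩ := key r hr hrA
          exact disjoint_left.mp (hann _ h1 h2 h3).2.2.2.2.2 ⟨hz1, hz2⟩ hzE
        · intro r hr s hs hrA hsA hrs
          obtain ⟨h1, h2, h3⟩ := key r hr hrA
          obtain ⟨h1', h2', h3'⟩ := key s hs hsA
          have hne : cls r ≠ cls s := by
            intro h
            apply hrs
            obtain ⟨K', -, -, h5, h6⟩ := hTmem r hr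
            obtain ⟨K'', -, -, h5', h6'⟩ := hTmem s hs
            rw [h5, h5', ← h6, ← h6', h]
          exact hpair _ h1 _ h1' h2 h2' h3 h3' hne
  obtain ⟨f, hf, hstr⟩ := core hE hD hϑc hϑ0 hloc'
  have hrep : ∀ K' : ConnectedComponents E, ∃ z : E, ConnectedComponents.mk z = K' :=
    ConnectedComponents.surjective_coe
  choose pt hpt using hrep
  have hcarpt : ∀ K, carrier K = connectedComponentIn E (pt K) := by
    intro K
    rw [← hcar (pt K), hpt]
  refine ⟨f, fun K => LK E f (pt K), hf.diff, hf.inj, hf.infty, ?_, ?_, ?_, ?_, ?_⟩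
  · intro K
    obtain ⟨c, hc⟩ := hstr (pt K) (pt K).2
    have := eq_segment (isCompact_LK hf (pt K)) (LK_nonempty hf (pt K).2)
      (isPreconnected_LK hf (pt K).2) hc
    rw [hϑE, hpt] at this
    exact this
  · intro K p hp
    exact LK_eq_component hf (pt K).2 hp
  · ext p
    constructor
    · intro hp
      obtain ⟨x, hx, hpx⟩ := exists_mem_LK hf hp
      refine mem_iUnion.mpr ⟨ConnectedComponents.mk ⟨x, hx⟩, ?_⟩
      have h1 := hpt (ConnectedComponents.mk ⟨x, hx⟩)
      have h2 := (mk_eq_mk_iff (pt (ConnectedComponents.mk ⟨x, hx⟩)).2 hx).mp h1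
      rw [LK_eq_of_component hx h2]
      exact hpx
    · intro hp
      obtain ⟨K, hK⟩ := mem_iUnion.mp hp
      exact hK.1
  · intro K K' hKK'
    apply LK_disjoint hf (pt K).2 (pt K').2
    intro h
    apply hKK'
    rw [← hpt K, ← hpt K']
    exact ((mk_eq_mk_iff (pt K').2 (pt K).2).mpr h).symm
  · intro K u hu
    rw [hcarpt K]
    have hcompK : IsCompact (connectedComponentIn E (pt K : ℂ)) := by
      have : CompactSpace E := isCompact_iff_compactSpace.mp hE
      rw [connectedComponentIn_eq_image (pt K).2]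
      exact isClosed_connectedComponent.isCompact.image continuous_subtype_val
    have hneK : (connectedComponentIn E (pt K : ℂ)).Nonempty :=
      ⟨pt K, mem_connectedComponentIn (pt K).2⟩
    have hneL : (LK E f (pt K)).Nonempty := LK_nonempty hf (pt K).2
    have hcL : IsCompact (LK E f (pt K)) := isCompact_LK hf _
    -- general fact
    have gen : ∀ (C : Set ℂ) (_ : IsCompact C) (_ : C.Nonempty) (v : ℕ → ℂ),
        Tendsto (fun n => infDist (v n) C) atTop (𝓝 0) ↔
          ∀ O : Set ℂ, IsOpen O → C ⊆ O → ∀ᶠ n in atTop, v n ∈ O := by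
      intro C hC hCne v
      constructor
      · intro h O hO hCO
        obtain ⟨δ, hδ, hthick⟩ := hC.exists_thickening_subset_open hO hCO
        filter_upwards [h.eventually_lt_const hδ] with n hn
        apply hthick
        rw [mem_thickening_iff_infDist_lt hCne]
        exact hn
      · intro h
        rw [Metric.tendsto_atTop']
        intro ε hε
        have h1 := h (thickening ε C) isOpen_thickening (self_subset_thickening hε C)
        obtain ⟨N, hN⟩ := eventually_atTop.mp h1
        refine ⟨N, fun n hn => ?_⟩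
        have := hN n hn.le
        rw [mem_thickening_iff_infDist_lt hCne] at this
        rw [dist_zero_right, Real.norm_eq_abs, abs_of_nonneg infDist_nonneg]
        exact this
    rw [gen _ hcompK hneK u, gen _ hcL hneL (fun n => f (u n))]
    constructor
    · intro h V hV hLV
      obtain ⟨O, hO, hKO, hOV, -⟩ := nhds_image hf (pt K).2 hV hLV
      filter_upwards [h O hO hKO] with n hn
      exact hOV _ hn (hu n)
    · intro h O hO hKO
      obtain ⟨V, hV, hLV, hVO, -⟩ := nhds_preimage hf (pt K).2 hO hKO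
      filter_upwards [h V hV hLV] with n hn
      exact hVO _ (hu n) hn

end Pool.RectSlit
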