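import Pool.Agent.Recti.Stokes

/-!
# The isometry `‖∂φ‖ = ‖∂̄φ‖` on the class `Cls E Θ`

PROOF of `integral_norm_sq_eq`.  `‖dz φ‖² - ‖dbar φ‖² = jac φ` (`jac_eq`), so one must show that
`∫_{Eᶜ} jac φ = 0` (all three functions are integrable: dominated by `‖fderiv ℝ φ z‖ ^ 2`).
On `Eᶜ` write `φ = e^{iΘ} (u + i w)` with `u + i w = e^{-iΘ} φ` (`u, w` real, smooth on `Eᶜ`,
zero for large `‖z‖`).  Then
  `jac φ = Q_x - P_y` with `P = u w_x + (u² + w²)/2 Θ_x`, `Q = u w_y + (u² + w²)/2 Θ_y`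
(on `Eᶜ`; direct computation: `jac φ = Im (conj φ_x φ_y)` and
`φ_x = e^{iΘ} ((u_x - w Θ_x) + i (w_x + u Θ_x))`, same with `y`; mixed second derivatives of `w`, `Θ`
commute).
Near `E` (in `Eᶜ`) we have `w = W` with `∇W = 0` and `∇Θ = 0`, so `P = Q = 0` there; for large
`‖z‖`, `u = w = 0` so `P = Q = 0`.  Hence `integral_curl_compl` applies (cast the real functions
`P, Q` to `ℂ`).
-/

set_option autoImplicit false

open Complex MeasureTheory Set Filter Topology Metric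
open scoped ContDiff

namespace Pool.Recti

open Pool.Lib (dbar)

variable {E : Set ℂ} {Θ : ℂ → ℝ}

private theorem isom_one_le : (1 : WithTop ℕ∞) ≤ ∞ := by exact_mod_cast le_top

private theorem isom_two_le : (1 : WithTop ℕ∞) + 1 ≤ ∞ := by
  rw [one_add_one_eq_two]
  change ((2 : ℕ∞) : WithTop ℕ∞) ≤ ((⊤ : ℕ∞) : WithTop ℕ∞)
  exact WithTop.coe_le_coe.mpr le_top

/-- The function in the moving frame. -/
private noncomputable def isomG (Θ : ℂ → ℝ) (φ : ℂ → ℂ) (z : ℂ) : ℂ := exp (-(Θ z * I)) * φ z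

/-- The form `u dw + (u² + w²)/2 dΘ` evaluated at the vector `v`. -/
private noncomputable def isomP (Θ : ℂ → ℝ) (φ : ℂ → ℂ) (v : ℂ) (z : ℂ) : ℝ :=
  (isomG Θ φ z).re * fderiv ℝ (fun y => (isomG Θ φ y).im) z v +
    ((isomG Θ φ z).re ^ 2 + (isomG Θ φ z).im ^ 2) / 2 * fderiv ℝ Θ z v

private theorem isomG_contDiffOn {φ : ℂ → ℂ} (hΘ : ContDiff ℝ ∞ Θ)
    (hφ : ContDiffOn ℝ ∞ φ Eᶜ) : ContDiffOn ℝ ∞ (isomG Θ φ) Eᶜ := by
  unfold isomG
  apply ContDiffOn.mul _ hφ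
  apply ContDiff.contDiffOn
  apply ContDiff.cexp
  apply ContDiff.neg
  apply ContDiff.mul _ contDiff_const
  exact ofRealCLM.contDiff.comp hΘ

private theorem isomP_contDiffOn {φ : ℂ → ℂ} (hE : IsOpen Eᶜ) (hΘ : ContDiff ℝ ∞ Θ)
    (hφ : ContDiffOn ℝ ∞ φ Eᶜ) (v : ℂ) : ContDiffOn ℝ 1 (isomP Θ φ v) Eᶜ := by
  have hG := isomG_contDiffOn (E := E) hΘ hφ
  have hu : ContDiffOn ℝ ∞ (fun z => (isomG Θ φ z).re) Eᶜ :=
    reCLM.contDiff.comp_contDiffOn hG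
  have hw : ContDiffOn ℝ ∞ (fun z => (isomG Θ φ z).im) Eᶜ :=
    imCLM.contDiff.comp_contDiffOn hG
  have hw1 : ContDiffOn ℝ 1 (fderiv ℝ (fun z => (isomG Θ φ z).im)) Eᶜ :=
    hw.fderiv_of_isOpen (m := 1) hE isom_two_le
  have hΘ1 : ContDiff ℝ 1 (fderiv ℝ Θ) :=
    hΘ.fderiv_right (m := 1) isom_two_le
  have hu1 := hu.of_le isom_one_le
  have hw0 := hw.of_le isom_one_le
  unfold isomP
  apply ContDiffOn.add
  · exact hu1.mul (hw1.clm_apply contDiffOn_const)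
  · apply ContDiffOn.mul
    · exact ((hu1.pow 2).add (hw0.pow 2)).div_const 2
    · exact hΘ1.contDiffOn.clm_apply contDiffOn_const

private theorem isom_curl {φ : ℂ → ℂ} (hE : IsOpen Eᶜ) (hΘ : ContDiff ℝ ∞ Θ)
    (hφ : ContDiffOn ℝ ∞ φ Eᶜ) {z : ℂ} (hz : z ∈ Eᶜ) :
    fderiv ℝ (isomP Θ φ I) z 1 - fderiv ℝ (isomP Θ φ 1) z I = jac φ z := by
  have hG := isomG_contDiffOn (E := E) hΘ hφ
  have hGz : ContDiffAt ℝ ∞ (isomG Θ φ) z := hG.contDiffAt (hE.mem_nhds hz)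
  have hwz : ContDiffAt ℝ ∞ (fun z => (isomG Θ φ z).im) z :=
    imCLM.contDiff.contDiffAt.comp z hGz
  have hGd : HasFDerivAt (isomG Θ φ) (fderiv ℝ (isomG Θ φ) z) z :=
    (hGz.differentiableAt (by simp)).hasFDerivAt
  have hu : HasFDerivAt (fun z => (isomG Θ φ z).re) (reCLM.comp (fderiv ℝ (isomG Θ φ) z)) z :=
    reCLM.hasFDerivAt.comp z hGd
  have hw : HasFDerivAt (fun z => (isomG Θ φ z).im) (imCLM.comp (fderiv ℝ (isomG Θ φ) z)) z :=
    imCLM.hasFDerivAt.comp z hGd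
  have hw2 : HasFDerivAt (fderiv ℝ (fun z => (isomG Θ φ z).im))
      (fderiv ℝ (fderiv ℝ (fun z => (isomG Θ φ z).im)) z) z := by
    apply DifferentiableAt.hasFDerivAt
    exact (hwz.fderiv_right (m := 1) isom_two_le).differentiableAt (by simp)
  have hΘz : HasFDerivAt Θ (fderiv ℝ Θ z) z :=
    (hΘ.contDiffAt.differentiableAt (by simp)).hasFDerivAt
  have hΘ2 : HasFDerivAt (fderiv ℝ Θ) (fderiv ℝ (fderiv ℝ Θ) z) z := by
    apply DifferentiableAt.hasFDerivAt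
    exact (hΘ.contDiffAt.fderiv_right (m := 1) isom_two_le).differentiableAt (by simp)
  -- symmetry of the second derivatives
  have sw : fderiv ℝ (fderiv ℝ (fun z => (isomG Θ φ z).im)) z 1 I =
      fderiv ℝ (fderiv ℝ (fun z => (isomG Θ φ z).im)) z I 1 :=
    (hwz.isSymmSndFDerivAt (by simpa [one_add_one_eq_two] using isom_two_le)) 1 I
  have sΘ : fderiv ℝ (fderiv ℝ Θ) z 1 I = fderiv ℝ (fderiv ℝ Θ) z I 1 :=
    (hΘ.contDiffAt.isSymmSndFDerivAt (by simpa [one_add_one_eq_two] using isom_two_le)) 1 I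
  -- derivative of the form
  have key : ∀ v a : ℂ, fderiv ℝ (isomP Θ φ v) z a =
      (isomG Θ φ z).re * fderiv ℝ (fderiv ℝ (fun z => (isomG Θ φ z).im)) z a v +
      (fderiv ℝ (isomG Θ φ) z a).re * (fderiv ℝ (isomG Θ φ) z v).im +
      (((isomG Θ φ z).re ^ 2 + (isomG Θ φ z).im ^ 2) / 2 * fderiv ℝ (fderiv ℝ Θ) z a v +
      ((isomG Θ φ z).re * (fderiv ℝ (isomG Θ φ) z a).re +
        (isomG Θ φ z).im * (fderiv ℝ (isomG Θ φ) z a).im) * fderiv ℝ Θ z v) := by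
    intro v a
    have e1 : HasFDerivAt (fun y => fderiv ℝ (fun z => (isomG Θ φ z).im) y v)
        ((fderiv ℝ (fderiv ℝ (fun z => (isomG Θ φ z).im)) z).flip v) z := by
      simpa using hw2.clm_apply (hasFDerivAt_const v z)
    have e2 : HasFDerivAt (fun y => fderiv ℝ Θ y v) ((fderiv ℝ (fderiv ℝ Θ) z).flip v) z := by
      simpa using hΘ2.clm_apply (hasFDerivAt_const v z)
    have e3 := (hu.mul e1).add ((((hu.mul hu).add (hw.mul hw)).mul_const (1 / 2 : ℝ)).mul e2)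
    have e4 := e3.congr_of_eventuallyEq (f₁ := isomP Θ φ v) (Eventually.of_forall fun y => by
      simp only [isomP, Pi.add_apply, Pi.mul_apply]
      ring)
    rw [e4.fderiv]
    simp only [add_apply, smul_apply, hw.fderiv,
      ContinuousLinearMap.comp_apply, ContinuousLinearMap.flip_apply, Pi.add_apply, Pi.mul_apply,
      smul_eq_mul, reCLM_apply, imCLM_apply]
    ring
  -- derivative of φ
  have hφe : φ =ᶠ[𝓝 z] fun y => exp (Θ y * I) * isomG Θ φ y := by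
    refine Eventually.of_forall fun y => ?_
    simp only [isomG]
    rw [← mul_assoc, ← Complex.exp_add, add_neg_cancel, Complex.exp_zero, one_mul]
  have hφd : ∀ a : ℂ, fderiv ℝ φ z a = exp (Θ z * I) * (fderiv ℝ (isomG Θ φ) z a +
      fderiv ℝ Θ z a * I * isomG Θ φ z) := by
    intro a
    have f1 : HasFDerivAt (fun y => ((Θ y : ℝ) : ℂ)) (ofRealCLM.comp (fderiv ℝ Θ z)) z :=
      ofRealCLM.hasFDerivAt.comp z hΘz
    have f2 := ((f1.mul_const I).cexp).mul hGd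
    have f3 := f2.congr_of_eventuallyEq (f₁ := φ) (hφe.trans (Eventually.of_forall fun y => rfl))
    rw [f3.fderiv]
    simp only [add_apply, smul_apply, ContinuousLinearMap.comp_apply, smul_eq_mul,
      ofRealCLM_apply]
    ring
  have hexp : (exp (Θ z * I)).re ^ 2 + (exp (Θ z * I)).im ^ 2 = 1 := by
    rw [exp_ofReal_mul_I_re, exp_ofReal_mul_I_im]
    exact Real.cos_sq_add_sin_sq (Θ z)
  rw [key I 1, key 1 I, sw, sΘ]
  unfold jac
  rw [hφd 1, hφd I]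
  simp only [mul_re, mul_im, add_re, add_im, ofReal_re, ofReal_im, I_re, I_im, mul_zero, mul_one,
    zero_mul, sub_zero, add_zero, zero_add, zero_sub]
  set c := (exp (Θ z * I)).re
  set s := (exp (Θ z * I)).im
  set u := (isomG Θ φ z).re
  set w := (isomG Θ φ z).im
  set ux := (fderiv ℝ (isomG Θ φ) z 1).re
  set uy := (fderiv ℝ (isomG Θ φ) z I).re
  set wx := (fderiv ℝ (isomG Θ φ) z 1).im
  set wy := (fderiv ℝ (isomG Θ φ) z I).im
  set tx := fderiv ℝ Θ z 1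
  set ty := fderiv ℝ Θ z I
  linear_combination (-((ux - tx * w) * (wy + ty * u) - (uy - ty * w) * (wx + tx * u))) * hexp

private theorem isomP_near {φ : ℂ → ℂ} (hE : IsOpen Eᶜ) (hΘ : Test E Θ) (hφ : Cls E Θ φ)
    (v : ℂ) : ∀ᶠ z in 𝓝ˢ E, z ∉ E → isomP Θ φ v z = 0 := by
  obtain ⟨W, -, hW, hfr⟩ := hφ.frame
  have hfr' : ∀ᶠ z in 𝓝ˢ E, ∀ᶠ y in 𝓝 z, y ∉ E → (exp (-(Θ y * I)) * φ y).im = W y := by
    obtain ⟨U, hU, hEU, hUp⟩ := eventually_nhdsSet_iff_exists.mp hfr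
    refine eventually_nhdsSet_iff_exists.mpr ⟨U, hU, hEU, fun x hx => ?_⟩
    filter_upwards [hU.mem_nhds hx] with y hy using hUp y hy
  filter_upwards [hW, hΘ.lc, hfr'] with z h1 h2 h3 h4
  have h5 : (fun y => (isomG Θ φ y).im) =ᶠ[𝓝 z] W := by
    filter_upwards [h3, hE.mem_nhds h4] with y hy hy'
    exact hy hy'
  unfold isomP
  rw [h5.fderiv_eq, h1, h2]
  simp

private theorem isomP_far {φ : ℂ → ℂ} (hφ : Cls E Θ φ) :
    ∃ R : ℝ, ∀ z, R ≤ ‖z‖ → isomP Θ φ 1 z = 0 ∧ isomP Θ φ I z = 0 := by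
  obtain ⟨R, hR⟩ := hφ.bdd
  refine ⟨R, fun z hz => ?_⟩
  have h1 : isomG Θ φ z = 0 := by simp [isomG, hR z hz]
  unfold isomP
  rw [h1]
  simp

private theorem isom_fderiv_ofReal {f : ℂ → ℝ} {z : ℂ} (hf : DifferentiableAt ℝ f z) (a : ℂ) :
    fderiv ℝ (fun y => ((f y : ℝ) : ℂ)) z a = ((fderiv ℝ f z a : ℝ) : ℂ) := by
  have f1 : HasFDerivAt (fun y => ((f y : ℝ) : ℂ)) (ofRealCLM.comp (fderiv ℝ f z)) z :=
    ofRealCLM.hasFDerivAt.comp z hf.hasFDerivAt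
  rw [f1.fderiv]
  simp

theorem integral_norm_sq_eq (hE : IsCompact E) (hΘ : Test E Θ) {φ : ℂ → ℂ} (hφ : Cls E Θ φ) :
    ∫ z in Eᶜ, ‖dz φ z‖ ^ 2 = ∫ z in Eᶜ, ‖dbar φ z‖ ^ 2 := by
  have hO : IsOpen Eᶜ := hE.isClosed.isOpen_compl
  have hO' : MeasurableSet Eᶜ := hO.measurableSet
  have hfc : ContinuousOn (fderiv ℝ φ) Eᶜ :=
    (hφ.smooth.fderiv_of_isOpen (m := 1) hO isom_two_le).continuousOn
  have hzc : ContinuousOn (dz φ) Eᶜ := by
    unfold dz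
    exact ((hfc.clm_apply continuousOn_const).sub
      (continuousOn_const.mul (hfc.clm_apply continuousOn_const))).div_const 2
  have hbc : ContinuousOn (dbar φ) Eᶜ := by
    unfold dbar
    exact ((hfc.clm_apply continuousOn_const).add
      (continuousOn_const.mul (hfc.clm_apply continuousOn_const))).div_const 2
  have i1 : IntegrableOn (fun z => ‖dz φ z‖ ^ 2) Eᶜ := by
    refine Integrable.mono' hφ.energy ((hzc.norm.pow 2).aestronglyMeasurable hO') ?_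
    refine Eventually.of_forall fun z => ?_
    rw [Real.norm_of_nonneg (by positivity)]
    exact pow_le_pow_left₀ (norm_nonneg _) (norm_dz_le φ z) 2
  have i2 : IntegrableOn (fun z => ‖dbar φ z‖ ^ 2) Eᶜ := by
    refine Integrable.mono' hφ.energy ((hbc.norm.pow 2).aestronglyMeasurable hO') ?_
    refine Eventually.of_forall fun z => ?_
    rw [Real.norm_of_nonneg (by positivity)]
    exact pow_le_pow_left₀ (norm_nonneg _) (norm_dbar_le φ z) 2
  have h1 : ∫ z in Eᶜ, jac φ z = 0 := by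
    have hC : ∀ v, ContDiffOn ℝ 1 (fun z => ((isomP Θ φ v z : ℝ) : ℂ)) Eᶜ := fun v =>
      ofRealCLM.contDiff.comp_contDiffOn (isomP_contDiffOn hO hΘ.smooth hφ.smooth v)
    have hN : ∀ v, ∀ᶠ z in 𝓝ˢ E, z ∉ E → ((isomP Θ φ v z : ℝ) : ℂ) = 0 := fun v => by
      filter_upwards [isomP_near hO hΘ hφ v] with z hz hz'
      rw [hz hz', ofReal_zero]
    have hF : ∃ R : ℝ, ∀ z, R ≤ ‖z‖ →
        ((isomP Θ φ 1 z : ℝ) : ℂ) = 0 ∧ ((isomP Θ φ I z : ℝ) : ℂ) = 0 := by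
      obtain ⟨R, hR⟩ := isomP_far hφ
      exact ⟨R, fun z hz => ⟨by rw [(hR z hz).1, ofReal_zero], by rw [(hR z hz).2, ofReal_zero]⟩⟩
    have h2 := integral_curl_compl hE (hC 1) (hC I) (hN 1) (hN I) hF
    have h3 : ∫ z in Eᶜ, ((jac φ z : ℝ) : ℂ) = 0 := by
      rw [← h2]
      refine setIntegral_congr_fun hO' fun z hz => ?_
      have hd : ∀ v, DifferentiableAt ℝ (isomP Θ φ v) z := fun v =>
        ((isomP_contDiffOn hO hΘ.smooth hφ.smooth v).differentiableOn one_ne_zero).differentiableAt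
          (hO.mem_nhds hz)
      change ((jac φ z : ℝ) : ℂ) = fderiv ℝ (fun y => ((isomP Θ φ I y : ℝ) : ℂ)) z 1 -
        fderiv ℝ (fun y => ((isomP Θ φ 1 y : ℝ) : ℂ)) z I
      rw [isom_fderiv_ofReal (hd I), isom_fderiv_ofReal (hd 1), ← ofReal_sub,
        isom_curl hO hΘ.smooth hφ.smooth hz]
    have h5 : ∫ z in Eᶜ, ((jac φ z : ℝ) : ℂ) = ((∫ z in Eᶜ, jac φ z : ℝ) : ℂ) :=
      integral_complex_ofReal
    rw [h5] at h3
    exact_mod_cast h3
  have h4 : ∫ z in Eᶜ, (‖dz φ z‖ ^ 2 - ‖dbar φ z‖ ^ 2) = 0 := by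
    rw [← h1]
    exact integral_congr_ae (Eventually.of_forall fun z => (jac_eq φ z).symm)
  rw [integral_sub i1 i2] at h4
  linarith

end Pool.Recti
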