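import Pool.Agent.Recti.Transfer

/-!
# The component correspondence

`LK E f x = {p ∈ Om E f | W p = w x for all corresponding pairs (w, W)}`.

PROOFS (use `exists_corr`, `exists_corr_back`, `exists_cutoff`, `eventually_eq_of_lc`; a test
function is in particular `C^2`).
* products/sums/real multiples of corresponding pairs correspond (`ContDiff.mul` etc.; `LC` by the
  product rule).
* `LK_eq_of_component`: `w` is constant on components (`eq_of_lc_of_component`).
* `LK_nonempty`: there are `z_n ∈ Eᶜ` converging to a point `x'` of `connectedComponentIn E x` (otherwise the component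
  would be contained in the interior of `E` and, being closed and (balls are connected) open, would be all of
  `ℂ`).  `f z_n` is bounded (`exists_bound_of_bound`); a limit point `p` is in `Om E f` (if `p = f z`, then by
  injectivity and openness `z_n → z` along the subsequence - use `exists_inverse`/
  `Pool.Lib.continuousOn_invFunOn` - but `z ∈ Eᶜ`, contradiction).  `W p = lim W (f z_n) = lim w z_n = w x' = w x`.
* `isClosed`/compact: intersection of closed conditions in the compact `Om E f`.
* `exists_mem_LK`: first let `p` be in the frontier of `Om E f`.  Then `p = lim f z_n` with `z_n ∈ Eᶜ`, the `z_n` are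
  bounded (`exists_bound_of_bound'`), so `z_n → y` along a subsequence, `y ∈ E` (if `y ∈ Eᶜ` then
  `p = f y`), and `W p = lim W (f z_n) = lim w z_n = w y` for all corresponding pairs: `p ∈ LK E f y`.
  For a general `p ∈ Om E f` let `q` be the first frontier point on the ray `p + t`, `t ≥ 0` (`Om E f` is compact);
  the segment `[p, q]` is contained in `Om E f`, so every `W` is constant on it (`∇W = 0` on `Om E f`) and
  `p ∈ LK E f y` for the same `y`.
* `LK_disjoint`: if `y ∉ connectedComponentIn E x`, `exists_cutoff` with `N = {y's component}ᶜ` gives a test function with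
  `χ x = 1`, `χ y = 0`.
-/

set_option autoImplicit false

open Complex MeasureTheory Set Filter Topology Metric
open scoped ContDiff

namespace Pool.Recti

variable {E : Set ℂ} {f : ℂ → ℂ}

theorem lka_exit {K : Set ℂ} (hK : IsCompact K) {p : ℂ} (hp : p ∈ K) :
    ∃ q ∈ connectedComponentIn K p, q ∈ closure Kᶜ := by
  by_contra hcon
  push Not at hcon
  have hC : IsClosed (connectedComponentIn K p) := by
    have h1 : closure (connectedComponentIn K p) ⊆ connectedComponentIn K p := by
      refine IsPreconnected.subset_connectedComponentIn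
        isPreconnected_connectedComponentIn.closure ?_ ?_
      · exact subset_closure (mem_connectedComponentIn hp)
      · exact closure_minimal (connectedComponentIn_subset K p) hK.isClosed
    exact isClosed_of_closure_subset h1
  have hO : IsOpen (connectedComponentIn K p) := by
    rw [Metric.isOpen_iff]
    intro q hq
    have h1 : q ∈ interior K := by
      have h2 := hcon q hq
      rw [closure_compl] at h2
      exact not_not.1 h2
    rw [mem_interior_iff_mem_nhds, Metric.mem_nhds_iff] at h1
    obtain ⟨ε, hε, hb⟩ := h1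
    refine ⟨ε, hε, ?_⟩
    rw [connectedComponentIn_eq hq]
    exact (convex_ball q ε).isPreconnected.subset_connectedComponentIn (mem_ball_self hε) hb
  have h1 := IsClopen.eq_univ ⟨hC, hO⟩ ⟨p, mem_connectedComponentIn hp⟩
  refine hK.ne_univ ?_
  rw [← univ_subset_iff, ← h1]
  exact connectedComponentIn_subset K p

theorem lka_diff {w W : ℂ → ℝ} (hc : Corr E f w W) : Differentiable ℝ w :=
  hc.smooth.differentiable (by norm_num)

theorem lka_diff' {w W : ℂ → ℝ} (hc : Corr E f w W) : Differentiable ℝ W :=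
  hc.smooth'.differentiable (by norm_num)

theorem lka_bdd {u : ℕ → ℂ} {a : ℂ} (hu : Tendsto u atTop (𝓝 a)) : ∃ r : ℝ, ∀ n, ‖u n‖ ≤ r := by
  obtain ⟨r, hr⟩ := hu.norm.bddAbove_range
  exact ⟨r, fun n => hr ⟨n, rfl⟩⟩

theorem lka_sub {u : ℕ → ℂ} {r : ℝ} (hu : ∀ n, ‖u n‖ ≤ r) :
    ∃ a : ℂ, ∃ φ : ℕ → ℕ, StrictMono φ ∧ Tendsto (u ∘ φ) atTop (𝓝 a) := by
  obtain ⟨a, -, φ, hφ, ha⟩ := (isCompact_closedBall (0 : ℂ) r).tendsto_subseq (x := u) (by
    intro n
    rw [mem_closedBall_zero_iff]
    exact hu n)
  exact ⟨a, φ, hφ, ha⟩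

theorem LK_eq_of_component {x y : ℂ} (hx : x ∈ E) (hy : y ∈ connectedComponentIn E x) :
    LK E f y = LK E f x := by
  have key : ∀ w W, Corr E f w W → w y = w x := fun w W hc =>
    eq_of_lc_of_component (lka_diff hc) hc.lc hx hy
  ext p
  constructor
  · rintro ⟨hp, h⟩
    exact ⟨hp, fun w W hc => (h w W hc).trans (key w W hc)⟩
  · rintro ⟨hp, h⟩
    exact ⟨hp, fun w W hc => (h w W hc).trans (key w W hc).symm⟩

theorem LK_nonempty (h : Nrm E f) {x : ℂ} (hx : x ∈ E) : (LK E f x).Nonempty := by
  have hE : IsCompact E := h.compact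
  obtain ⟨x', hx', hcl⟩ := lka_exit hE hx
  have hxE : x' ∈ E := connectedComponentIn_subset E x hx'
  obtain ⟨z, hz, hlim⟩ := mem_closure_iff_seq_limit.1 hcl
  obtain ⟨r, hr⟩ := lka_bdd hlim
  obtain ⟨r', hr'⟩ := exists_bound_of_bound h r
  obtain ⟨p, φ, hφ, hp⟩ := lka_sub (u := fun n => f (z n)) (fun n => hr' (z n) (hz n) (hr n))
  have hlim2 : Tendsto (fun n => z (φ n)) atTop (𝓝 x') := hlim.comp hφ.tendsto_atTop
  have hp2 : Tendsto (fun n => f (z (φ n))) atTop (𝓝 p) := hp
  refine ⟨p, ?_, ?_⟩
  · rintro ⟨y, hy, rfl⟩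
    have hU : IsOpen Eᶜ := hE.isClosed.isOpen_compl
    have hc := Pool.Lib.continuousOn_invFunOn hU h.diff h.inj
    have h1 : Tendsto (fun n => Function.invFunOn f Eᶜ (f (z (φ n)))) atTop
        (𝓝 (Function.invFunOn f Eᶜ (f y))) := by
      refine (hc (f y) (mem_image_of_mem f hy)).tendsto.comp ?_
      rw [tendsto_nhdsWithin_iff]
      exact ⟨hp2, Eventually.of_forall fun n => mem_image_of_mem f (hz (φ n))⟩
    rw [h.inj.leftInvOn_invFunOn hy] at h1
    have h2 : (fun n => Function.invFunOn f Eᶜ (f (z (φ n)))) = fun n => z (φ n) := by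
      funext n
      exact h.inj.leftInvOn_invFunOn (hz (φ n))
    rw [h2] at h1
    have h3 := tendsto_nhds_unique h1 hlim2
    rw [h3] at hy
    exact hy hxE
  · intro w W hc
    have h1 : Tendsto (fun n => W (f (z (φ n)))) atTop (𝓝 (W p)) :=
      ((lka_diff' hc).continuous.tendsto p).comp hp2
    have h2 : Tendsto (fun n => w (z (φ n))) atTop (𝓝 (w x')) :=
      ((lka_diff hc).continuous.tendsto x').comp hlim2
    have h3 : (fun n => W (f (z (φ n)))) = fun n => w (z (φ n)) := by
      funext n
      exact hc.eq _ (hz (φ n))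
    rw [h3] at h1
    rw [tendsto_nhds_unique h1 h2]
    exact eq_of_lc_of_component (lka_diff hc) hc.lc hx hx'

theorem isCompact_LK (h : Nrm E f) (x : ℂ) : IsCompact (LK E f x) := by
  have h1 : LK E f x = Om E f ∩ ⋂ (w : ℂ → ℝ) (W : ℂ → ℝ) (_ : Corr E f w W),
      {p | W p = w x} := by
    ext p
    simp only [LK, mem_setOf_eq, mem_inter_iff, mem_iInter]
  rw [h1]
  refine (isCompact_Om h).inter_right ?_
  refine isClosed_iInter fun w => isClosed_iInter fun W => isClosed_iInter fun hc => ?_
  exact isClosed_eq (lka_diff' hc).continuous continuous_const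

theorem exists_mem_LK (h : Nrm E f) {p : ℂ} (hp : p ∈ Om E f) : ∃ x ∈ E, p ∈ LK E f x := by
  have hE : IsCompact E := h.compact
  obtain ⟨q, hq, hcl⟩ := lka_exit (isCompact_Om h) hp
  have hqO : q ∈ Om E f := connectedComponentIn_subset _ p hq
  have hcc : (Om E f)ᶜ = f '' Eᶜ := by
    unfold Om
    rw [compl_compl]
  rw [hcc] at hcl
  obtain ⟨u, hu, hlim⟩ := mem_closure_iff_seq_limit.1 hcl
  choose z hz hzu using hu
  obtain ⟨r, hr⟩ := lka_bdd hlim
  obtain ⟨r', hr'⟩ := exists_bound_of_bound' h r
  obtain ⟨y, φ, hφ, hy⟩ := lka_sub (u := z) (fun n => hr' (z n) (hz n) (by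
    rw [hzu n]
    exact hr n))
  have hy2 : Tendsto (fun n => z (φ n)) atTop (𝓝 y) := hy
  have hlim2 : Tendsto (fun n => f (z (φ n))) atTop (𝓝 q) := by
    have h1 : (fun n => f (z (φ n))) = fun n => u (φ n) := by
      funext n
      exact hzu (φ n)
    rw [h1]
    exact hlim.comp hφ.tendsto_atTop
  have hyE : y ∈ E := by
    by_contra hyn
    have hU : IsOpen Eᶜ := hE.isClosed.isOpen_compl
    have hf : ContinuousAt f y := (h.diff.differentiableAt (hU.mem_nhds hyn)).continuousAt
    have h1 : Tendsto (fun n => f (z (φ n))) atTop (𝓝 (f y)) := hf.tendsto.comp hy2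
    have h2 := tendsto_nhds_unique h1 hlim2
    rw [← h2] at hqO
    exact hqO ⟨y, hyn, rfl⟩
  refine ⟨y, hyE, hp, fun w W hc => ?_⟩
  have h1 : Tendsto (fun n => W (f (z (φ n)))) atTop (𝓝 (W q)) :=
    ((lka_diff' hc).continuous.tendsto q).comp hlim2
  have h2 : Tendsto (fun n => w (z (φ n))) atTop (𝓝 (w y)) :=
    ((lka_diff hc).continuous.tendsto y).comp hy2
  have h3 : (fun n => W (f (z (φ n)))) = fun n => w (z (φ n)) := by
    funext n
    exact hc.eq _ (hz (φ n))
  rw [h3] at h1
  rw [← tendsto_nhds_unique h1 h2]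
  exact (eq_of_lc_of_component (lka_diff' hc) hc.lc' hp hq).symm

theorem LK_disjoint (h : Nrm E f) {x y : ℂ} (hx : x ∈ E) (hy : y ∈ E)
    (hxy : y ∉ connectedComponentIn E x) : Disjoint (LK E f x) (LK E f y) := by
  have hE : IsCompact E := h.compact
  obtain ⟨χ, hχ, -, hsupp, hone, -⟩ := exists_cutoff hE hx (N := {y}ᶜ)
    isClosed_singleton.isOpen_compl (by
      intro z hz hzy
      rw [mem_singleton_iff] at hzy
      rw [hzy] at hz
      exact hxy hz)
  have h0 : χ y = 0 := by
    refine image_eq_zero_of_notMem_tsupport fun hy' => ?_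
    exact hsupp hy' rfl
  have h1 : χ x = 1 := hone.self_of_nhdsSet x (mem_connectedComponentIn hx)
  obtain ⟨W, hc⟩ := exists_corr h (hχ.smooth.of_le (by norm_cast)) hχ.comp hχ.lc
  rw [Set.disjoint_left]
  rintro p ⟨-, h2⟩ ⟨-, h3⟩
  have h4 := h2 χ W hc
  have h5 := h3 χ W hc
  rw [h4, h0, h1] at h5
  exact one_ne_zero h5

end Pool.Recti
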