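import Pool.Agent.Recti.LKa

/-!
# The component correspondence, second part

PROOFS (use `exists_corr`, `exists_corr_back`, `exists_cutoff`, `exists_test_of_finite`, `eventually_eq_of_lc`,
and the file `LKa`).
* `isPreconnected_LK`: suppose `LK E f x = A ∪ B`, `A, B` nonempty, disjoint, compact.  The sets
  `{p ∈ Om E f | W p = w x}` are clopen in `Om E f` (each `W` is locally constant near `Om E f`), with
  intersection `LK E f x`; finite intersections are of the same kind.
  So by compactness there is a clopen `P ⊆ Om E f` with `LK ⊆ P ⊆ U_A ∪ U_B` (`U_A ⊇ A`, `U_B ⊇ B` disjoint open).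
  `P ∩ U_A` is clopen in `Om E f`; the function `1` on it and `0` on the rest of `Om E f` extends
  to a test function `W` for `Om E f` (`exists_test_of_finite`), and `exists_corr_back` gives `w`; then `W` is
  constant (`= w x`) on `LK E f x`, but `W = 1` on `A`, `0` on `B`.
* `LK_eq_component`: `LK E f x` is preconnected, and it is the intersection of clopen subsets of `Om E f`.
* `nhds_image`: `exists_cutoff` for the compact set `Om E f` (component `LK E f x`, neighbourhood `V`) gives a test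
  function `W` with `W = 1` on `LK E f x`, `tsupport W ⊆ V`; let `w` be its partner; `w = 1` on the component of `x`;
  `O = {z | 1/2 < w z}`.
* `nhds_preimage`: `exists_cutoff` for `E`, partner `W`, `V = {p | 1/2 < W p}`.
-/

set_option autoImplicit false

open Complex MeasureTheory Set Filter Topology Metric
open scoped ContDiff

namespace Pool.Recti

variable {E : Set ℂ} {f : ℂ → ℂ}

theorem LKmod_test_two {K : Set ℂ} {χ : ℂ → ℝ} (h : Test K χ) : ContDiff ℝ 2 χ :=
  h.smooth.of_le (by norm_cast)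

theorem LKmod_corr_test (h : Nrm E f) {W : ℂ → ℝ} (hW : Test (Om E f) W) :
    ∃ w : ℂ → ℝ, Corr E f w W :=
  exists_corr_back h (LKmod_test_two hW) hW.comp hW.lc

theorem isPreconnected_LK (h : Nrm E f) {x : ℂ} (hx : x ∈ E) : IsPreconnected (LK E f x) := by
  classical
  have hKc : IsCompact (LK E f x) := isCompact_LK h x
  rw [isPreconnected_iff_subset_of_fully_disjoint_closed hKc.isClosed]
  intro u v hu hv huv hd
  obtain ⟨U, V, hU, hV, huU, hvV, hUV⟩ := normal_separation hu hv hd
  by_contra hcon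
  rw [not_or, not_subset, not_subset] at hcon
  obtain ⟨⟨b, hbL, hbu⟩, ⟨a, haL, hav⟩⟩ := hcon
  have hau : a ∈ u := (huv haL).resolve_right hav
  have hbv : b ∈ v := (huv hbL).resolve_left hbu
  have hOm : IsCompact (Om E f) := isCompact_Om h
  -- the pairs
  let ι := {p : (ℂ → ℝ) × (ℂ → ℝ) // Corr E f p.1 p.2}
  have hS : IsCompact (Om E f \ (U ∪ V)) := hOm.diff (hU.union hV)
  obtain ⟨t, ht⟩ := hS.elim_finite_subcover (fun i : ι => {q : ℂ | i.1.2 q ≠ i.1.1 x})
    (fun i => by
      have hc : Continuous i.1.2 := i.2.smooth'.continuous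
      exact isOpen_ne_fun hc continuous_const)
    (by
      intro q hq
      by_contra hq2
      simp only [mem_iUnion, mem_setOf_eq, not_exists, not_not] at hq2
      have hqL : q ∈ LK E f x := ⟨hq.1, fun w W hc => hq2 ⟨(w, W), hc⟩⟩
      rcases huv hqL with h1 | h1
      · exact hq.2 (Or.inl (huU h1))
      · exact hq.2 (Or.inr (hvV h1)))
  -- the clopen set
  let P : Set ℂ := {q | ∀ i ∈ t, i.1.2 q = i.1.1 x}
  have hPUV : ∀ q ∈ Om E f, q ∈ P → q ∈ U ∪ V := by
    intro q hq hqP
    by_contra hq2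
    have := ht ⟨hq, hq2⟩
    simp only [mem_iUnion, mem_setOf_eq, exists_prop] at this
    obtain ⟨i, hi, hne⟩ := this
    exact hne (hqP i hi)
  have hPev : ∀ q ∈ Om E f, q ∈ P → ∀ᶠ q' in 𝓝 q, q' ∈ P := by
    intro q hq hqP
    have h1 : ∀ i ∈ t, ∀ᶠ q' in 𝓝 q, i.1.2 q' = i.1.1 x := by
      intro i hi
      have h2 := eventually_eq_of_lc (i.2.smooth'.differentiable (by norm_num)) i.2.lc' hq
      filter_upwards [h2] with q' hq'
      rw [hq', hqP i hi]
    have h3 := (Filter.eventually_all_finset t).2 h1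
    filter_upwards [h3] with q' hq' using hq'
  have hPev' : ∀ q ∈ Om E f, q ∉ P → ∀ᶠ q' in 𝓝 q, q' ∉ P := by
    intro q hq hqP
    simp only [P, mem_setOf_eq, not_forall] at hqP
    obtain ⟨i, hi, hne⟩ := hqP
    have hc : Continuous i.1.2 := i.2.smooth'.continuous
    have h2 : ∀ᶠ q' in 𝓝 q, i.1.2 q' ≠ i.1.1 x :=
      (isOpen_ne_fun hc continuous_const).mem_nhds hne
    filter_upwards [h2] with q' hq' hq2
    exact hq' (hq2 i hi)
  let c : ℂ → ℝ := fun q => if q ∈ P ∧ q ∈ U then 1 else 0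
  have hc : ContinuousOn c (Om E f) := by
    intro q hq
    apply ContinuousAt.continuousWithinAt
    by_cases hqP : q ∈ P
    · rcases hPUV q hq hqP with hqU | hqV
      · have h1 : c =ᶠ[𝓝 q] fun _ => 1 := by
          filter_upwards [hPev q hq hqP, hU.mem_nhds hqU] with q' h2 h3
          exact if_pos ⟨h2, h3⟩
        exact continuousAt_const.congr h1.symm
      · have h1 : c =ᶠ[𝓝 q] fun _ => 0 := by
          filter_upwards [hV.mem_nhds hqV] with q' h3
          exact if_neg (fun h4 => (Set.disjoint_left.1 hUV) h4.2 h3)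
        exact continuousAt_const.congr h1.symm
    · have h1 : c =ᶠ[𝓝 q] fun _ => 0 := by
        filter_upwards [hPev' q hq hqP] with q' h3
        exact if_neg (fun h4 => h3 h4.1)
      exact continuousAt_const.congr h1.symm
  have hfin : (c '' Om E f).Finite := by
    apply Set.Finite.subset (Set.toFinite ({0, 1} : Set ℝ))
    rintro _ ⟨q, _, rfl⟩
    by_cases h1 : q ∈ P ∧ q ∈ U
    · right; exact if_pos h1
    · left; exact if_neg h1
  obtain ⟨W, hW, hWc⟩ := exists_test_of_finite hOm hc hfin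
  obtain ⟨w, hw⟩ := LKmod_corr_test h hW
  have ha : W a = w x := haL.2 w W hw
  have hb : W b = w x := hbL.2 w W hw
  have haP : a ∈ P := fun i _ => haL.2 _ _ i.2
  have ha1 : c a = 1 := if_pos ⟨haP, huU hau⟩
  have hb0 : c b = 0 := if_neg (fun h4 => (Set.disjoint_left.1 hUV) h4.2 (hvV hbv))
  rw [hWc a haL.1, ha1] at ha
  rw [hWc b hbL.1, hb0] at hb
  rw [← hb] at ha
  exact one_ne_zero ha

theorem LK_eq_component (h : Nrm E f) {x p : ℂ} (hx : x ∈ E) (hp : p ∈ LK E f x) :
    connectedComponentIn (Om E f) p = LK E f x := by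
  apply Subset.antisymm
  · intro q hq
    refine ⟨connectedComponentIn_subset _ _ hq, fun w W hc => ?_⟩
    rw [eq_of_lc_of_component (hc.smooth'.differentiable (by norm_num)) hc.lc' hp.1 hq]
    exact hp.2 w W hc
  · exact (isPreconnected_LK h hx).subset_connectedComponentIn hp (fun q hq => hq.1)

theorem nhds_image (h : Nrm E f) {x : ℂ} (hx : x ∈ E) {V : Set ℂ} (hV : IsOpen V)
    (hLV : LK E f x ⊆ V) :
    ∃ O : Set ℂ, IsOpen O ∧ connectedComponentIn E x ⊆ O ∧ (∀ z ∈ O, z ∉ E → f z ∈ V) ∧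
      ∀ y ∈ E, y ∈ O → LK E f y ⊆ V := by
  obtain ⟨p, hp⟩ := LK_nonempty h hx
  have hcomp := LK_eq_component h hx hp
  obtain ⟨W, hW, -, hWV, hW1, -⟩ := exists_cutoff (isCompact_Om h) hp.1 hV (by rw [hcomp]; exact hLV)
  obtain ⟨w, hw⟩ := LKmod_corr_test h hW
  have hWp : W p = 1 := by
    rw [hcomp] at hW1
    exact hW1.self_of_nhdsSet p hp
  have hwx : w x = 1 := by rw [← hp.2 w W hw, hWp]
  have hV' : ∀ q, 1 / 2 < W q → q ∈ V := by
    intro q hq
    apply hWV
    apply subset_tsupport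
    rw [Function.mem_support]
    intro h0
    rw [h0] at hq
    norm_num at hq
  refine ⟨{z | 1 / 2 < w z}, isOpen_lt continuous_const hw.smooth.continuous, ?_, ?_, ?_⟩
  · intro y hy
    have := eq_of_lc_of_component (hw.smooth.differentiable (by norm_num)) hw.lc hx hy
    show 1 / 2 < w y
    rw [this, hwx]
    norm_num
  · intro z hz hzE
    apply hV'
    rw [hw.eq z hzE]
    exact hz
  · intro y _ hyO q hq
    apply hV'
    rw [hq.2 w W hw]
    exact hyO

theorem nhds_preimage (h : Nrm E f) {x : ℂ} (hx : x ∈ E) {O : Set ℂ} (hO : IsOpen O)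
    (hxO : connectedComponentIn E x ⊆ O) :
    ∃ V : Set ℂ, IsOpen V ∧ LK E f x ⊆ V ∧ (∀ z ∈ Eᶜ, f z ∈ V → z ∈ O) ∧
      ∀ y ∈ E, (LK E f y ∩ V).Nonempty → y ∈ O := by
  obtain ⟨w, hw, -, hwO, hw1, -⟩ := exists_cutoff h.compact hx hO hxO
  obtain ⟨W, hW⟩ := exists_corr h (LKmod_test_two hw) hw.comp hw.lc
  have hwx : w x = 1 := hw1.self_of_nhdsSet x (mem_connectedComponentIn hx)
  have hO' : ∀ q, 1 / 2 < w q → q ∈ O := by
    intro q hq
    apply hwO
    apply subset_tsupport
    rw [Function.mem_support]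
    intro h0
    rw [h0] at hq
    norm_num at hq
  refine ⟨{z | 1 / 2 < W z}, isOpen_lt continuous_const hW.smooth'.continuous, ?_, ?_, ?_⟩
  · intro p hp
    show 1 / 2 < W p
    rw [hp.2 w W hW, hwx]
    norm_num
  · intro z hz hzV
    apply hO'
    rw [← hW.eq z hz]
    exact hzV
  · rintro y _ ⟨q, hqL, hqV⟩
    apply hO'
    rw [← hqL.2 w W hW]
    exact hqV

end Pool.Recti
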