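import Pool.Agent.Recti.Chain
import Pool.Agent.Recti.LKmod

/-!
# The estimate along one line

`f, F` are normalised univalent functions on `Eᶜ`, `x ∈ E`, `T` a countable set of representatives of the components
of `E` (other than that of `x`) which meet `N0`; `e, a` are unimodular; lines are `s ↦ e (s + i t)`.

PROOF of `line_est`.  Let `G` be the inverse of `f` (`invFunOn f Eᶜ`, see `Pool/Agent/Lib/Conformal.lean`) on `f '' Eᶜ`,
`P s = e (s + i t)`, `P s0 ∈ LK E f x`, so `X (P s0) = χ x = 1`, while `X (P s) = 0` for `s` very negative.  Let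
`s1 < s0` be the largest `s ≤ s0` with `X (P s) = 1/2`; `X (P s) > 1/2` on `(s1, s0]`.
`P s1 ∉ Om E f` (otherwise `P s1 ∈ LK E f y`, `y ∈ E`, by `exists_mem_LK`, and `X (P s1) = χ y ∈ {0, 1}`); so
`P s1 = f z1` with `χ z1 = 1/2`.
Apply `chain` on `[s1, s0]` with `Λ = {s | P s ∈ Om E f}` (closed), `h s = Im (a F (G (P s)))` (off `Λ`),
`|h' s| ≤ ‖deriv F‖ / ‖deriv f‖` at `G (P s)` (`G' = 1 / f'`, `‖a‖ = ‖e‖ = 1`),
`ι = {r // r ∈ T} ⊕ Unit` or `Option T` (`none` for `x`), countable,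
`J r = ` the open interval `{u | ∃ p ∈ LK E F r, |u - Im (a p)| < ε r}` - it is convex because
`{Im (a p) | p ∈ LK E F r}` is an interval (`isPreconnected_LK`), of length at most `δ r`, so
`volume (J r) ≤ ofReal (δ r + 2 ε r)`; for `x`, `J = (cn - ε x, cn + ε x)`.
`rep s` for `s ∈ Λ`, `s ∈ [s1, s0]`: `P s ∈ LK E f y` for some `y ∈ E`, `X (P s) = χ y > 1/2` (`s ≠ s1`), so `χ y = 1`,
`y ∈ tsupport χ ⊆ N0`; if `y` is in the component of `x` take `none`, otherwise take `r ∈ T` whose component contains `y`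
(`LK E f y = LK E f r`, and `χ r = 1` because `χ` is constant on components, `eq_of_lc_of_component`).
`hloc`: let `s ∈ Λ` with representative `r` (or `x`).  `V = {q | Im (a q) ∈ J r}` is open and contains `LK E F r`.
`nhds_image` for `F` gives an open `O ⊇` component of `r`, with `F z ∈ V` for `z ∈ O \ E` and `LK E F y ⊆ V` for
`y ∈ E ∩ O`; `nhds_preimage` for `f` gives an open `V' ⊇ LK E f r` with `f z ∈ V' → z ∈ O`, and
`(LK E f y ∩ V').Nonempty → y ∈ O` for `y ∈ E`.  For `s'` close to `s`, `P s' ∈ V'`: if `s' ∉ Λ`, `P s' = f z`, `z ∈ O`,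
so `h s' = Im (a F z) ∈ J r`; if `s' ∈ Λ`, `P s' ∈ LK E f r'` with `r' = rep s'`, `r' ∈ O`, so `LK E F r' ⊆ V` and
`J r'` contains `Im (a p)` for `p ∈ LK E F r'` (nonempty, `LK_nonempty`), which lies in `J r`.
`c = cn ∈ J none`, `rep s0 = none` (`LK_disjoint`).
Conclusion: `|h s1 - cn| ≤ ∫⁻ ... + Σ volume (J i)`, `|h s1 - t| ≤ η` by `hη` (`t = Im (e⁻¹ P s1)`, `e⁻¹ e = 1`), the sum over
`i = rep s` is at most the term of `none` plus the sum over the `r ∈ T` with `χ r = 1` whose `LK E f r` meets the line;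
and for `s ∈ [s1, s0] \ Λ`, `s ≠ s1`, we have `P s ∈ f '' (Eᶜ ∩ {1/2 < χ})`.
-/

set_option autoImplicit false

open Complex MeasureTheory Set Filter Topology Metric Function
open scoped ContDiff

namespace Pool.Recti

/-- `T` is a countable set of representatives of the components, other than that of `x`, which
meet the neighbourhood `N0` of the component of `x`. -/
structure Reps (E : Set ℂ) (x : ℂ) (N0 T : Set ℂ) : Prop where
  isOpen : IsOpen N0
  sub : connectedComponentIn E x ⊆ N0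
  countable : T.Countable
  mem : T ⊆ E
  cover : ∀ y ∈ E, y ∈ N0 → y ∉ connectedComponentIn E x →
    ∃ r ∈ T, y ∈ connectedComponentIn E r

theorem le_tsum_option {β : Type*} (g : Option β → ENNReal) :
    ∑' i, g i = g none + ∑' b, g (some b) := by
  rw [ENNReal.tsum_eq_add_tsum_ite none]
  congr 1
  refine (Function.Injective.tsum_eq (Option.some_injective β) ?_).symm.trans ?_
  · intro i hi
    rw [Function.mem_support] at hi
    cases i with
    | none => simp at hi
    | some b => exact ⟨b, rfl⟩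
  · simp

/-- The base point of an index. -/
def lineBase (x : ℂ) (T : Set ℂ) : Option T → ℂ
  | none => x
  | some r => r

/-- The open interval of an index. -/
def lineJ (E : Set ℂ) (F : ℂ → ℂ) (x a : ℂ) (T : Set ℂ) (ε : ℂ → ℝ) (i : Option T) : Set ℝ :=
  {u | ∃ p ∈ LK E F (lineBase x T i), |u - (a * p).im| < ε (lineBase x T i)}

theorem lineJ_isOpen (E : Set ℂ) (F : ℂ → ℂ) (x a : ℂ) (T : Set ℂ) (ε : ℂ → ℝ)
    (i : Option T) : IsOpen (lineJ E F x a T ε i) := by
  have h : lineJ E F x a T ε i =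
      ⋃ p ∈ LK E F (lineBase x T i), {u : ℝ | |u - (a * p).im| < ε (lineBase x T i)} := by
    ext u
    simp [lineJ]
  rw [h]
  refine isOpen_biUnion fun p _ => ?_
  exact isOpen_lt (by fun_prop) continuous_const

theorem lineJ_ordConnected {E : Set ℂ} {F : ℂ → ℂ} (hF : Nrm E F) {x : ℂ} {a : ℂ} {T : Set ℂ}
    {ε : ℂ → ℝ} {i : Option T} (hb : lineBase x T i ∈ E) :
    (lineJ E F x a T ε i).OrdConnected := by
  have h : lineJ E F x a T ε i =
      (fun q : ℂ × ℝ => (a * q.1).im + q.2) ''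
        (LK E F (lineBase x T i) ×ˢ ball (0 : ℝ) (ε (lineBase x T i))) := by
    ext u
    constructor
    · rintro ⟨p, hp, hu⟩
      refine ⟨(p, u - (a * p).im), ⟨hp, ?_⟩, ?_⟩
      · rw [mem_ball_zero_iff, Real.norm_eq_abs]
        exact hu
      · simp
    · rintro ⟨⟨p, v⟩, ⟨hp, hv⟩, rfl⟩
      refine ⟨p, hp, ?_⟩
      rw [mem_ball_zero_iff, Real.norm_eq_abs] at hv
      simpa using hv
  rw [h]
  refine IsPreconnected.ordConnected ?_
  refine ((isPreconnected_LK hF hb).prod (convex_ball _ _).isPreconnected).image _ ?_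
  exact Continuous.continuousOn (by fun_prop)

theorem lineJ_mem {E : Set ℂ} {F : ℂ → ℂ} {x a : ℂ} {T : Set ℂ} {ε : ℂ → ℝ}
    (hε : ∀ r, 0 < ε r) {i : Option T} {p : ℂ} (hp : p ∈ LK E F (lineBase x T i)) :
    (a * p).im ∈ lineJ E F x a T ε i :=
  ⟨p, hp, by simpa using hε _⟩

theorem lineJ_volume {E : Set ℂ} {F : ℂ → ℂ} {x a : ℂ} {T : Set ℂ} {ε : ℂ → ℝ} {i : Option T}
    {d : ℝ} (hd : ∀ p ∈ LK E F (lineBase x T i), ∀ q ∈ LK E F (lineBase x T i),
      |(a * p).im - (a * q).im| ≤ d) :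
    volume (lineJ E F x a T ε i) ≤ ENNReal.ofReal (d + 2 * ε (lineBase x T i)) := by
  refine (Real.volume_le_diam _).trans ?_
  refine Metric.ediam_le ?_
  rintro u ⟨p, hp, hu⟩ v ⟨q, hq, hv⟩
  rw [edist_dist, Real.dist_eq]
  refine ENNReal.ofReal_le_ofReal ?_
  have h1 := hd p hp q hq
  rw [abs_lt] at hu hv
  rw [abs_le] at h1 ⊢
  constructor <;> linarith [h1.1, h1.2, hu.1, hu.2, hv.1, hv.2]

theorem line_est {E : Set ℂ} {f F : ℂ → ℂ} (hf : Nrm E f) (hF : Nrm E F) {x : ℂ} (hx : x ∈ E)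
    {N0 T : Set ℂ} (hr : Reps E x N0 T) {χ X : ℂ → ℝ} (hχ : Test E χ) (hX : Corr E f χ X)
    (hsub : tsupport χ ⊆ N0) (hχ1 : χ x = 1) (hχE : ∀ y ∈ E, χ y = 0 ∨ χ y = 1)
    {e a : ℂ} (he : ‖e‖ = 1) (ha : ‖a‖ = 1) {cn : ℝ} (hcn : ∀ p ∈ LK E F x, (a * p).im = cn)
    {δ ε : ℂ → ℝ} (hδ : ∀ r ∈ T, ∀ p ∈ LK E F r, ∀ q ∈ LK E F r,
      |(a * p).im - (a * q).im| ≤ δ r) (hε : ∀ r, 0 < ε r)
    {η : ℝ} (hη : ∀ z ∈ Eᶜ, χ z = 1 / 2 → |(a * F z).im - (e⁻¹ * f z).im| ≤ η)
    {t s0 : ℝ} (hp : e * ((s0 : ℂ) + t * I) ∈ LK E f x) :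
    ENNReal.ofReal (|t - cn| - η) ≤
      (∫⁻ s in {s : ℝ | e * ((s : ℂ) + t * I) ∈ f '' (Eᶜ ∩ {z | 1 / 2 < χ z})},
        ENNReal.ofReal (‖deriv F (invFunOn f Eᶜ (e * ((s : ℂ) + t * I)))‖ /
          ‖deriv f (invFunOn f Eᶜ (e * ((s : ℂ) + t * I)))‖)) +
      ENNReal.ofReal (2 * ε x) +
      ∑' r : {r : ℂ // r ∈ T ∧ χ r = 1 ∧ ∃ s : ℝ, e * ((s : ℂ) + t * I) ∈ LK E f r},
        ENNReal.ofReal (δ r + 2 * ε r) := by
  classical
  have hEo : IsOpen Eᶜ := hf.compact.isClosed.isOpen_compl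
  set P : ℝ → ℂ := fun s => e * ((s : ℂ) + t * I) with hPdef
  have hPc : Continuous P := by
    simp only [hPdef]
    fun_prop
  set G : ℂ → ℂ := invFunOn f Eᶜ with hGdef
  set Λ : Set ℝ := {s | P s ∈ Om E f} with hΛdef
  have hΛ : IsClosed Λ := (isCompact_Om hf).isClosed.preimage hPc
  have hG : ∀ s, s ∉ Λ → G (P s) ∈ Eᶜ ∧ f (G (P s)) = P s := by
    intro s hs
    have h1 : P s ∈ f '' Eᶜ := by
      by_contra h
      exact hs h
    exact ⟨invFunOn_mem h1, invFunOn_eq h1⟩
  set h : ℝ → ℝ := fun s => (a * F (G (P s))).im with hhdef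
  set h' : ℝ → ℝ := fun s => (a * (deriv F (G (P s)) * ((deriv f (G (P s)))⁻¹ * e))).im with hh'def
  have hPd : ∀ s, HasDerivAt P e s := by
    intro s
    have h1 : HasDerivAt (fun s : ℝ => ((s : ℂ) + t * I)) 1 s :=
      (Complex.ofRealCLM.hasDerivAt (x := s)).add_const _ |>.congr_deriv (by simp)
    simpa using h1.const_mul e
  have hd : ∀ s ∈ Λᶜ, HasDerivAt h (h' s) s := by
    intro s hs
    obtain ⟨hg1, hg2⟩ := hG s hs
    have h1 : HasDerivAt G (deriv f (G (P s)))⁻¹ (P s) := by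
      have := Pool.Lib.hasDerivAt_invFunOn hEo hf.diff hf.inj hg1
      rw [hg2] at this
      exact this
    have h2 : HasDerivAt F (deriv F (G (P s))) (G (P s)) :=
      (hF.diff.differentiableAt (hEo.mem_nhds hg1)).hasDerivAt
    have h3 : HasDerivAt (fun p => F (G p)) (deriv F (G (P s)) * (deriv f (G (P s)))⁻¹) (P s) :=
      h2.comp (P s) h1
    have h4 : HasDerivAt (fun s => F (G (P s)))
        (deriv F (G (P s)) * (deriv f (G (P s)))⁻¹ * e) s :=
      ((h3.hasFDerivAt.restrictScalars ℝ).comp_hasDerivAt s (hPd s)).congr_deriv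
        (by simp [mul_comm])
    have h5 := h4.const_mul a
    have h6 := Complex.imCLM.hasFDerivAt.comp_hasDerivAt s h5
    refine h6.congr_deriv ?_
    simp only [hh'def, Complex.imCLM_apply]
    ring_nf
  have hXs : ∀ s, s ∉ Λ → X (P s) = χ (G (P s)) := by
    intro s hs
    obtain ⟨hg1, hg2⟩ := hG s hs
    rw [← hX.eq _ hg1, hg2]
  have hXP : Continuous fun s => X (P s) := hX.smooth'.continuous.comp hPc
  have hX0 : X (P s0) = 1 := by rw [hp.2 χ X hX, hχ1]
  -- far left
  obtain ⟨sl, hsl, hXl⟩ : ∃ s, s ≤ s0 ∧ X (P s) = 0 := by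
    obtain ⟨R, hR⟩ := hX.comp'.isBounded.subset_closedBall (0 : ℂ)
    refine ⟨min s0 (-(|R| + |t| + 1)), min_le_left _ _, ?_⟩
    by_contra hne
    have h1 := hR (subset_tsupport _ (Function.mem_support.2 hne))
    rw [mem_closedBall_zero_iff] at h1
    set s := min s0 (-(|R| + |t| + 1)) with hs
    have h2 : s ≤ -(|R| + |t| + 1) := min_le_right _ _
    have h3 : ‖P s‖ = ‖(s : ℂ) + t * I‖ := by
      simp only [hPdef, norm_mul, he, one_mul]
    have h4 : |s| ≤ ‖(s : ℂ) + t * I‖ := by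
      have := Complex.abs_re_le_norm ((s : ℂ) + t * I)
      simpa using this
    have h5 : |R| + |t| + 1 ≤ |s| := by
      rw [abs_of_nonpos (show s ≤ 0 by linarith [abs_nonneg R, abs_nonneg t])]
      linarith
    linarith [le_abs_self R, abs_nonneg t]
  -- the last crossing
  set S : Set ℝ := {s | s ≤ s0 ∧ X (P s) ≤ 1 / 2} with hSdef
  have hSc : IsClosed S := (isClosed_Iic).inter (isClosed_le hXP continuous_const)
  have hSn : S.Nonempty := ⟨sl, hsl, by rw [hXl]; norm_num⟩
  have hSb : BddAbove S := ⟨s0, fun s hs => hs.1⟩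
  obtain ⟨s1, hs1def⟩ : ∃ s1, s1 = sSup S := ⟨_, rfl⟩
  have hs1S : s1 ∈ S := by rw [hs1def]; exact hSc.csSup_mem hSn hSb
  have h01 : s1 ≤ s0 := hs1S.1
  have hgt : ∀ s, s1 < s → s ≤ s0 → 1 / 2 < X (P s) := by
    intro s hs hs'
    by_contra hcon
    rw [not_lt] at hcon
    have : s ≤ s1 := by rw [hs1def]; exact le_csSup hSb ⟨hs', hcon⟩
    linarith
  have hs10 : s1 < s0 := by
    rcases lt_or_eq_of_le h01 with h | h
    · exact h
    · exfalso
      have h1 := hs1S.2
      rw [h, hX0] at h1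
      norm_num at h1
  have hX1 : X (P s1) = 1 / 2 := by
    refine le_antisymm hs1S.2 ?_
    have h1 : Tendsto (fun s => X (P s)) (𝓝[>] s1) (𝓝 (X (P s1))) :=
      hXP.continuousWithinAt
    refine ge_of_tendsto h1 ?_
    have h2 : Ioc s1 s0 ∈ 𝓝[>] s1 := Ioc_mem_nhdsGT hs10
    filter_upwards [h2] with s hs
    exact (hgt s hs.1 hs.2).le
  have hs1Λ : s1 ∉ Λ := by
    intro hmem
    obtain ⟨y, hy, hpy⟩ := exists_mem_LK hf hmem
    have h1 := hpy.2 χ X hX
    rw [hX1] at h1
    rcases hχE y hy with h2 | h2 <;> rw [h2] at h1 <;> norm_num at h1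
  have hs0Λ : s0 ∈ Λ := hp.1
  -- the value at s1
  have hval : |h s1 - t| ≤ η := by
    obtain ⟨hg1, hg2⟩ := hG s1 hs1Λ
    have h1 := hη (G (P s1)) hg1 (by rw [← hXs s1 hs1Λ, hX1])
    rw [hg2] at h1
    have h2 : (e⁻¹ * P s1).im = t := by
      have he0 : e ≠ 0 := by
        intro h0
        rw [h0, norm_zero] at he
        exact zero_ne_one he
      simp only [hPdef]
      rw [inv_mul_cancel_left₀ he0]
      simp
    rw [h2] at h1
    exact h1
  -- representatives
  have hbE : ∀ i : Option T, lineBase x T i ∈ E := by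
    intro i
    cases i with
    | none => exact hx
    | some r => exact hr.mem r.2
  have hrepex : ∀ s ∈ Icc s1 s0 ∩ Λ, ∃ i : Option T,
      P s ∈ LK E f (lineBase x T i) ∧ χ (lineBase x T i) = 1 := by
    rintro s ⟨hs, hsΛ⟩
    obtain ⟨y, hy, hpy⟩ := exists_mem_LK hf hsΛ
    have h1 := hpy.2 χ X hX
    have hs1 : s1 < s := by
      rcases lt_or_eq_of_le hs.1 with h | h
      · exact h
      · exact absurd (h ▸ hsΛ) hs1Λ
    have h2 := hgt s hs1 hs.2
    have h3 : χ y = 1 := by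
      rcases hχE y hy with h | h
      · rw [h] at h1
        rw [h1] at h2
        norm_num at h2
      · exact h
    by_cases hyx : y ∈ connectedComponentIn E x
    · refine ⟨none, ?_, hχ1⟩
      change P s ∈ LK E f x
      rw [← LK_eq_of_component hx hyx]
      exact hpy
    · have hyN : y ∈ N0 := hsub (subset_tsupport _ (by
        rw [Function.mem_support, h3]
        exact one_ne_zero))
      obtain ⟨r, hrT, hyr⟩ := hr.cover y hy hyN hyx
      refine ⟨some ⟨r, hrT⟩, ?_, ?_⟩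
      · change P s ∈ LK E f r
        rw [← LK_eq_of_component (hr.mem hrT) hyr]
        exact hpy
      · change χ r = 1
        rw [← h3]
        exact (eq_of_lc_of_component (hχ.smooth.differentiable (by simp)) hχ.lc (hr.mem hrT)
          hyr).symm
  set rep : ℝ → Option T := fun s =>
    if hh : ∃ i : Option T, P s ∈ LK E f (lineBase x T i) ∧ χ (lineBase x T i) = 1
      then hh.choose else none with hrepdef
  have hrep : ∀ s ∈ Icc s1 s0 ∩ Λ,
      P s ∈ LK E f (lineBase x T (rep s)) ∧ χ (lineBase x T (rep s)) = 1 := by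
    intro s hs
    have hh := hrepex s hs
    simp only [hrepdef, dif_pos hh]
    exact hh.choose_spec
  have hJc : cn ∈ lineJ E F x a T ε (rep s0) := by
    have h1 := (hrep s0 ⟨⟨h01, le_rfl⟩, hs0Λ⟩).1
    have h2 : lineBase x T (rep s0) ∈ connectedComponentIn E x := by
      by_contra hcon
      exact (Set.disjoint_left.1 (LK_disjoint hf hx (hbE _) hcon)) hp h1
    obtain ⟨p, hpF⟩ := LK_nonempty hF hx
    have h3 : p ∈ LK E F (lineBase x T (rep s0)) := by
      rw [LK_eq_of_component hx h2]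
      exact hpF
    rw [← hcn p hpF]
    exact lineJ_mem hε h3
  have : Countable T := hr.countable.to_subtype
  have hmain := chain (ι := Option T) h01 hΛ (h := h) (h' := h')
    (fun s hs => hd s hs.2) (lineJ E F x a T ε) (fun i => lineJ_ordConnected hF (hbE i)) rep
    (by
      intro s _
      obtain ⟨p, hpF⟩ := LK_nonempty hF (hbE (rep s))
      exact ⟨_, lineJ_mem hε hpF⟩)
    (by
      intro s hs
      have hsr := (hrep s hs).1
      set V : Set ℂ := {q | (a * q).im ∈ lineJ E F x a T ε (rep s)} with hV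
      have hVo : IsOpen V := (lineJ_isOpen E F x a T ε (rep s)).preimage (by fun_prop)
      have hVs : LK E F (lineBase x T (rep s)) ⊆ V := fun q hq => lineJ_mem hε hq
      obtain ⟨O, hO, hcO, hO1, hO2⟩ := nhds_image hF (hbE (rep s)) hVo hVs
      obtain ⟨V', hV'o, hV's, hV1, hV2⟩ := nhds_preimage hf (hbE (rep s)) hO hcO
      have hev : ∀ᶠ s' in 𝓝 s, P s' ∈ V' :=
        hPc.continuousAt.eventually (hV'o.mem_nhds (hV's hsr))
      filter_upwards [hev] with s' hs' hI
      constructor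
      · intro hnΛ
        obtain ⟨hg1, hg2⟩ := hG s' hnΛ
        have h1 : G (P s') ∈ O := hV1 _ hg1 (by rw [hg2]; exact hs')
        exact hO1 _ h1 hg1
      · intro hΛ'
        have h1 := (hrep s' ⟨hI, hΛ'⟩).1
        have h2 : lineBase x T (rep s') ∈ O := hV2 _ (hbE _) ⟨P s', h1, hs'⟩
        have h3 := hO2 _ (hbE (rep s')) h2
        obtain ⟨p, hpF⟩ := LK_nonempty hF (hbE (rep s'))
        exact ⟨(a * p).im, h3 hpF, lineJ_mem hε hpF⟩)
    hs1Λ hs0Λ hJc
  have hstep1 : ENNReal.ofReal (|t - cn| - η) ≤ ENNReal.ofReal |h s1 - cn| := by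
    refine ENNReal.ofReal_le_ofReal ?_
    have h1 : |t - cn| ≤ |t - h s1| + |h s1 - cn| := abs_sub_le _ _ _
    rw [abs_sub_comm t (h s1)] at h1
    linarith
  refine hstep1.trans (hmain.trans ?_)
  rw [add_assoc]
  refine add_le_add ?_ ?_
  · -- the integral
    have hle : ∀ s, ENNReal.ofReal |h' s| ≤
        ENNReal.ofReal (‖deriv F (G (P s))‖ / ‖deriv f (G (P s))‖) := by
      intro s
      refine ENNReal.ofReal_le_ofReal ?_
      refine (Complex.abs_im_le_norm _).trans ?_
      rw [norm_mul, norm_mul, norm_mul, norm_inv, ha, he, one_mul, mul_one, div_eq_mul_inv]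
    refine (lintegral_mono hle).trans ?_
    refine lintegral_mono_set' ?_
    have hne : ∀ᵐ s ∂(volume : Measure ℝ), s ≠ s1 := by
      rw [ae_iff]
      simp
    filter_upwards [hne] with s hs1ne hs
    obtain ⟨hI, hnΛ⟩ := hs
    obtain ⟨hg1, hg2⟩ := hG s hnΛ
    have h1 : s1 < s := lt_of_le_of_ne hI.1 (Ne.symm hs1ne)
    refine ⟨G (P s), ⟨hg1, ?_⟩, hg2⟩
    change 1 / 2 < χ (G (P s))
    rw [← hXs s hnΛ]
    exact hgt s h1 hI.2
  · -- the sum
    set R := {r : ℂ // r ∈ T ∧ χ r = 1 ∧ ∃ s : ℝ, e * ((s : ℂ) + t * I) ∈ LK E f r} with hR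
    set w : Option R → ENNReal := fun i => match i with
      | none => ENNReal.ofReal (2 * ε x)
      | some r => ENNReal.ofReal (δ r + 2 * ε r) with hw
    have hQ : ∀ i : Option T, (∃ s ∈ Icc s1 s0 ∩ Λ, rep s = i) →
        χ (lineBase x T i) = 1 ∧ ∃ s : ℝ, P s ∈ LK E f (lineBase x T i) := by
      rintro i ⟨s, hs, rfl⟩
      exact ⟨(hrep s hs).2, s, (hrep s hs).1⟩
    set φ : {i : Option T // ∃ s ∈ Icc s1 s0 ∩ Λ, rep s = i} → Option R := fun i =>
      match i with
      | ⟨none, _⟩ => none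
      | ⟨some r, hri⟩ => some ⟨r, r.2, hQ (some r) hri⟩ with hφ
    have hφi : Function.Injective φ := by
      rintro ⟨i, hi⟩ ⟨j, hj⟩ hij
      cases i with
      | none =>
        cases j with
        | none => rfl
        | some r => simp [hφ] at hij
      | some q =>
        cases j with
        | none => simp [hφ] at hij
        | some r =>
          simp only [hφ, Option.some.injEq] at hij
          apply Subtype.ext
          simp only [Option.some.injEq]
          have h7 : (q : ℂ) = (r : ℂ) := congrArg (fun z : R => (z : ℂ)) hij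
          exact Subtype.ext h7
    have hsum := le_tsum_option w
    have hrhs : ENNReal.ofReal (2 * ε x) +
        ∑' r : R, ENNReal.ofReal (δ r + 2 * ε r) = ∑' i, w i := by
      rw [hsum]
    rw [hrhs]
    refine le_trans ?_ (ENNReal.tsum_comp_le_tsum_of_injective hφi w)
    refine ENNReal.tsum_le_tsum ?_
    rintro ⟨i, hi⟩
    cases i with
    | none =>
      change volume (lineJ E F x a T ε none) ≤ ENNReal.ofReal (2 * ε x)
      have h1 := lineJ_volume (E := E) (F := F) (x := x) (a := a) (T := T) (ε := ε) (i := none)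
        (d := 0) (by
          intro p hp q hq
          rw [hcn p hp, hcn q hq]
          simp)
      simpa [lineBase] using h1
    | some r =>
      change volume (lineJ E F x a T ε (some r)) ≤ ENNReal.ofReal (δ r + 2 * ε r)
      exact lineJ_volume (E := E) (F := F) (x := x) (a := a) (T := T) (ε := ε) (i := some r)
        (d := δ r) (fun p hp q hq => hδ r r.2 p hp q hq)

end Pool.Recti
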