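import Pool.Agent.Recti.Defs
import Pool.Agent.Lib.Conformal

/-!
# Topology of the image of a normalised univalent map

PROOFS.  `f '' Eᶜ` is open (`Pool.Lib.isOpen_image_of_injOn`) and connected.
* `isCompact_Om`: closed; bounded, because `f '' Eᶜ` contains a neighbourhood of infinity: for `r` large,
  `‖f z - z‖ ≤ 1` for `‖z‖ ≥ r` and `E ⊆ ball 0 r`.  `V = {w | r + 1 < ‖w‖}` is connected, `S = V ∩ f '' {‖z‖ > r}` is
  open, nonempty and relatively closed in `V` (if `f z_k → w ∈ V` with `‖z_k‖ > r`, the `z_k` are bounded, a limit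
  point `z` has `‖z‖ ≥ r`, `f z = w`, and `‖z‖ = r` would give `‖w‖ ≤ r + 1`), so `V ⊆ f '' Eᶜ`.
* `exists_bound_of_bound`, `exists_bound_of_bound'`: for a bounded set `B` the set `{z ∈ Eᶜ | f z ∈ B}` is bounded, and `f` maps bounded subsets
  of `Eᶜ` to bounded sets (`f z ∈ V` only for `‖z‖ > r`, by injectivity, for every large `r`).
-/

set_option autoImplicit false

open Complex MeasureTheory Set Filter Topology Metric
open scoped ContDiff

namespace Pool.Recti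

variable {E : Set ℂ} {f : ℂ → ℂ}

theorem omtop_large (h : Nrm E f) (r0 : ℝ) :
    ∃ r, r0 ≤ r ∧ 0 < r ∧ ∀ z, r ≤ ‖z‖ → z ∈ Eᶜ ∧ ‖f z - z‖ ≤ 1 := by
  have h1 : ∀ᶠ z in cocompact ℂ, z ∈ Eᶜ ∧ ‖f z - z‖ ≤ 1 := by
    have h2 : ∀ᶠ z in cocompact ℂ, f z - z ∈ closedBall (0 : ℂ) 1 :=
      h.infty.eventually (closedBall_mem_nhds 0 one_pos)
    filter_upwards [h.compact.compl_mem_cocompact, h2] with z hz1 hz2
    exact ⟨hz1, mem_closedBall_zero_iff.1 hz2⟩
  obtain ⟨r, hr⟩ := Metric.closedBall_compl_subset_of_mem_cocompact h1 0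
  refine ⟨max r0 (|r| + 1), le_max_left _ _,
    lt_of_lt_of_le (by positivity) (le_max_right _ _), fun z hz => ?_⟩
  have h3 : |r| + 1 ≤ ‖z‖ := (le_max_right _ _).trans hz
  refine hr ?_
  rw [mem_compl_iff, mem_closedBall_zero_iff, not_le]
  linarith [le_abs_self r]

theorem omtop_preconnected {r : ℝ} (hr : 0 ≤ r) : IsPreconnected {w : ℂ | r < ‖w‖} := by
  have h1 : {w : ℂ | r < ‖w‖} =
      (fun p : ℝ × ℝ => (p.1 : ℂ) * exp (p.2 * I)) '' (Ioi r ×ˢ univ) := by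
    ext w
    constructor
    · intro hw
      exact ⟨(‖w‖, arg w), ⟨hw, mem_univ _⟩, norm_mul_exp_arg_mul_I w⟩
    · rintro ⟨⟨s, t⟩, ⟨hs, -⟩, rfl⟩
      have hs' : r < s := hs
      change r < ‖(s : ℂ) * exp (t * I)‖
      rw [norm_mul, norm_exp_ofReal_mul_I, mul_one, norm_real, Real.norm_eq_abs]
      exact hs'.trans_le (le_abs_self s)
  rw [h1]
  refine IsPreconnected.image ?_ _ (by fun_prop)
  exact ((convex_Ioi r).prod convex_univ).isPreconnected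

theorem omtop_outer (h : Nrm E f) {r : ℝ} (hr : 0 < r)
    (hr1 : ∀ z, r ≤ ‖z‖ → z ∈ Eᶜ ∧ ‖f z - z‖ ≤ 1) :
    {w : ℂ | r + 1 < ‖w‖} ⊆ f '' {z | r < ‖z‖} := by
  have hUo : IsOpen (Eᶜ) := h.compact.isClosed.isOpen_compl
  have hVo : IsOpen {z : ℂ | r < ‖z‖} := isOpen_lt continuous_const continuous_norm
  have hVE : {z : ℂ | r < ‖z‖} ⊆ Eᶜ := fun z hz => (hr1 z (le_of_lt hz)).1
  have hu : IsOpen (f '' {z : ℂ | r < ‖z‖}) :=
    Pool.Lib.isOpen_image_of_injOn hUo h.diff h.inj hVo hVE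
  refine (omtop_preconnected (by linarith : (0 : ℝ) ≤ r + 1)).subset_of_closure_inter_subset
    hu ?_ ?_
  · have hz : ‖((r + 3 : ℝ) : ℂ)‖ = r + 3 := by
      rw [norm_real, Real.norm_eq_abs, abs_of_pos (by linarith)]
    refine ⟨f ((r + 3 : ℝ) : ℂ), ?_, ((r + 3 : ℝ) : ℂ), ?_, rfl⟩
    · have h2 := (hr1 ((r + 3 : ℝ) : ℂ) (by rw [hz]; linarith)).2
      have h3 : ‖((r + 3 : ℝ) : ℂ)‖ ≤ ‖f ((r + 3 : ℝ) : ℂ)‖ +
          ‖f ((r + 3 : ℝ) : ℂ) - ((r + 3 : ℝ) : ℂ)‖ := by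
        have h4 := norm_sub_le (f ((r + 3 : ℝ) : ℂ)) (f ((r + 3 : ℝ) : ℂ) - ((r + 3 : ℝ) : ℂ))
        rwa [sub_sub_cancel] at h4
      rw [hz] at h3
      change r + 1 < ‖f ((r + 3 : ℝ) : ℂ)‖
      linarith
    · change r < ‖((r + 3 : ℝ) : ℂ)‖
      rw [hz]
      linarith
  · rintro w ⟨hw1, hw2⟩
    have hw2' : r + 1 < ‖w‖ := hw2
    set K : Set ℂ := closedBall 0 (‖w‖ + 2) ∩ {z | r ≤ ‖z‖} with hK
    have hKc : IsCompact K :=
      (isCompact_closedBall _ _).inter_right (isClosed_le continuous_const continuous_norm)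
    have hKE : K ⊆ Eᶜ := fun z hz => (hr1 z hz.2).1
    have hfK : IsCompact (f '' K) := hKc.image_of_continuousOn (h.diff.continuousOn.mono hKE)
    have h2 : w ∈ closure (ball w 1 ∩ f '' {z | r < ‖z‖}) :=
      isOpen_ball.inter_closure ⟨mem_ball_self one_pos, hw1⟩
    have h3 : ball w 1 ∩ f '' {z | r < ‖z‖} ⊆ f '' K := by
      rintro _ ⟨hv, z, hz, rfl⟩
      have hz' : r < ‖z‖ := hz
      refine ⟨z, ⟨?_, hz'.le⟩, rfl⟩
      rw [mem_closedBall_zero_iff]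
      rw [mem_ball, dist_eq_norm] at hv
      have h4 := (hr1 z hz'.le).2
      have h5 : ‖z‖ ≤ ‖f z‖ + ‖f z - z‖ := by
        have h6 := norm_sub_le (f z) (f z - z)
        rwa [sub_sub_cancel] at h6
      have h7 : ‖f z‖ ≤ ‖f z - w‖ + ‖w‖ := by
        have h8 := norm_add_le (f z - w) w
        rwa [sub_add_cancel] at h8
      linarith
    have h4 : w ∈ f '' K := by
      have h5 := closure_mono h3 h2
      rwa [hfK.isClosed.closure_eq] at h5
    obtain ⟨z, hz, rfl⟩ := h4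
    refine ⟨z, ?_, rfl⟩
    change r < ‖z‖
    rcases lt_or_eq_of_le (show r ≤ ‖z‖ from hz.2) with h6 | h6
    · exact h6
    · exfalso
      have h7 := (hr1 z hz.2).2
      have h8 : ‖f z‖ ≤ ‖f z - z‖ + ‖z‖ := by
        have h9 := norm_add_le (f z - z) z
        rwa [sub_add_cancel] at h9
      linarith

theorem isOpen_image (h : Nrm E f) : IsOpen (f '' Eᶜ) := by
  exact Pool.Lib.isOpen_image_of_injOn h.compact.isClosed.isOpen_compl h.diff h.inj
    h.compact.isClosed.isOpen_compl subset_rfl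

theorem isCompact_Om (h : Nrm E f) : IsCompact (Om E f) := by
  obtain ⟨r, -, hr, hr1⟩ := omtop_large h 0
  refine Metric.isCompact_of_isClosed_isBounded (isOpen_image h).isClosed_compl ?_
  refine (isBounded_closedBall (x := (0 : ℂ)) (r := r + 1)).subset fun w hw => ?_
  rw [mem_closedBall_zero_iff]
  by_contra hc
  push Not at hc
  obtain ⟨z, hz, hzw⟩ := omtop_outer h hr hr1 hc
  exact hw ⟨z, (hr1 z (le_of_lt hz)).1, hzw⟩

theorem isConnected_compl_Om (h : Nrm E f) : IsConnected (Om E f)ᶜ := by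
  unfold Om
  rw [compl_compl]
  exact h.conn.image f h.diff.continuousOn

theorem exists_bound_of_bound (h : Nrm E f) (r : ℝ) :
    ∃ r' : ℝ, ∀ z ∈ Eᶜ, ‖z‖ ≤ r → ‖f z‖ ≤ r' := by
  obtain ⟨r1, hr01, hr, hr1⟩ := omtop_large h r
  refine ⟨r1 + 1, fun z hz hzr => ?_⟩
  by_contra hc
  push Not at hc
  obtain ⟨z', hz', hzz⟩ := omtop_outer h hr hr1 hc
  have h1 : z' = z := h.inj (hr1 z' (le_of_lt hz')).1 hz hzz
  rw [h1] at hz'
  exact absurd (hzr.trans hr01) (not_le.2 hz')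

theorem exists_bound_of_bound' (h : Nrm E f) (r : ℝ) :
    ∃ r' : ℝ, ∀ z ∈ Eᶜ, ‖f z‖ ≤ r → ‖z‖ ≤ r' := by
  obtain ⟨r1, -, -, hr1⟩ := omtop_large h 0
  refine ⟨max r1 (r + 1), fun z _ hzr => ?_⟩
  rcases le_total ‖z‖ r1 with h1 | h1
  · exact h1.trans (le_max_left _ _)
  · refine le_trans ?_ (le_max_right _ _)
    have h4 := (hr1 z h1).2
    have h5 : ‖z‖ ≤ ‖f z‖ + ‖f z - z‖ := by
      have h6 := norm_sub_le (f z) (f z - z)
      rwa [sub_sub_cancel] at h6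
    linarith

end Pool.Recti
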