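import Pool.Agent.Recti.Weyl
import Pool.Agent.Lib.HolomorphicPrimitives

/-!
# A weak criterion for the existence of a primitive

PROOF of `isExactOn_of_test` (modelled on `Pool.Lib.isExactOn_of_compact` and
`Pool.Lib.hasPrimitives_of_forall_notMem` in `Pool/Agent/Lib/HolomorphicPrimitives.lean`; copy and
adapt that code).  Put `W = Eᶜ`.  As there (`exh`, `isExactOn_of_components`, `isExactOn_iUnion`) it is
enough to find a primitive of `G` on an open preconnected set `Γ ⊆ interior K`, where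
`K = exh W ε R = {z | ∀ p ∈ E, ε ≤ dist z p, ‖z‖ ≤ R}` with `E ⊆ ball 0 R`.
Let `χ` be smooth with compact support in `W`, `χ = 1` near `K`, `g = χ G`, `c = dbar g = G dbar χ`, so
`G z = -(1/π) ∫ ζ, c ζ / (ζ - z)` for `z ∈ K`, and `c` vanishes near `K`.
The open set `Kᶜ` has components; `supp c` is compact in `Kᶜ`, so it meets finitely many of them,
`V_0` (the unbounded one, containing `‖ζ‖ > R`) and `V_1, …, V_N` bounded.  A bounded one is contained in
`‖ζ‖ ≤ R`, so each of its points `ζ` has `dist ζ p < ε` for some `p ∈ E`, and the segment from `ζ` to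
`p` avoids `K`.
For `i ≥ 1` the function `ψ_i = 1_{V_i} (1 - χ)` is smooth with compact support (near `∂V_i ⊆ K` we
have `χ = 1`) and locally constant near `E` (near `E`, `χ = 0` and `E ⊆ Kᶜ`, `V_i` is open and closed in
`Kᶜ`); so by hypothesis `0 = ∫ G dbar ψ_i = - ∫_{V_i} c`.
Choose `p_i ∈ V_i`.  Then `G z = -(1/π) ∫ c(ζ) κ(ζ, z)` with `κ(ζ, z) = 1/(ζ - z) - 1/(p_i - z)` for
`ζ ∈ V_i` (`i ≥ 1`) and `κ(ζ, z) = 1/(ζ - z)` for `ζ ∈ V_0`.
For `ζ ∉ K` the function `κ(ζ, ·)` is exact on `interior K`: for nearby `ζ, ζ'` (distance smaller than the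
distance to `K`) `1/(ζ - z) - 1/(ζ' - z)` is exact (log of `1 + (ζ' - ζ)/(ζ - z)`, see the Lib proof), so
the set of `ζ ∈ V_i` for which `κ(ζ, ·)` is exact is open and closed in `V_i` and not empty (`p_i`
for `i ≥ 1`; `‖ζ‖ > R` for `i = 0`, where `1/(ζ - z)` is holomorphic on a ball containing `K`).
Then integrate the primitives normalised at a base point exactly as in the Lib proof
(continuity in `ζ` by the same log formula; `hasDerivAt_integral_of_dominated_loc_of_deriv_le`).
(An equivalent variant: it is enough to treat the finitely many clusters of a finite cover of `E` by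
balls of radius `ε`; or use closed curves and the fact that `∮ dz/(ζ - z)` has derivative `0`
in `ζ`.  Any proof is fine.)

PROOF of `exists_primitive_of_weak`: `weyl` (with `U = Eᶜ`; a `χ` with `tsupport χ ⊆ Eᶜ` is a test
function) gives a holomorphic `G` on `Eᶜ` a.e. equal to `F`; then `isExactOn_of_test`.
-/

set_option autoImplicit false

open Complex MeasureTheory Set Filter Topology Metric
open scoped ContDiff

namespace Pool.Recti

open Pool.Lib (dbar)

variable {E : Set ℂ}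

/-- The logarithm that is a primitive of the difference of two Cauchy kernels. -/
theorem hasDerivAt_logker {x y z : ℂ} (hxz : x - z ≠ 0) (hyz : y - z ≠ 0)
    (hlt : ‖(y - x) / (x - z)‖ < 1) :
    HasDerivAt (fun z => log (1 + (y - x) / (x - z))) (1 / (x - z) - 1 / (y - z)) z := by
  have hslit : 1 + (y - x) / (x - z) ∈ slitPlane := mem_slitPlane_of_norm_lt_one hlt
  have hd1 : HasDerivAt (fun z => 1 + (y - x) / (x - z)) ((y - x) / (x - z) ^ 2) z := by
    have h1 : HasDerivAt (fun z => x - z) (-1) z := by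
      simpa using (hasDerivAt_id z).const_sub x
    have h2 := (h1.fun_inv hxz).const_mul (y - x)
    have h3 := h2.const_add 1
    refine h3.congr_deriv ?_
    rw [neg_neg, mul_one_div]
  refine (hd1.clog hslit).congr_deriv ?_
  have h4 : 1 + (y - x) / (x - z) = (y - z) / (x - z) := by
    field_simp; ring
  rw [h4]
  field_simp
  ring

theorem norm_ker_lt {K : Set ℂ} {x y z : ℂ} {δ : ℝ} (hball : ball x δ ⊆ Kᶜ)
    (hy : y ∈ ball x δ) (hz : z ∈ K) :
    x - z ≠ 0 ∧ y - z ≠ 0 ∧ ‖(y - x) / (x - z)‖ < 1 := by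
  have hδ : 0 < δ := pos_of_mem_ball hy
  have hx : x ∈ ball x δ := mem_ball_self hδ
  have h1 : x - z ≠ 0 := fun h => hball hx ((sub_eq_zero.mp h) ▸ hz)
  have h2 : y - z ≠ 0 := fun h => hball hy ((sub_eq_zero.mp h) ▸ hz)
  refine ⟨h1, h2, ?_⟩
  rw [norm_div, div_lt_one (norm_pos_iff.mpr h1)]
  by_contra hge
  push Not at hge
  have hz' : z ∈ ball x δ := by
    rw [mem_ball, dist_comm, dist_eq_norm]
    rw [mem_ball, dist_eq_norm] at hy
    exact hge.trans_lt hy
  exact hball hz' hz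

/-- Two Cauchy kernels with poles in the same component of the complement of a closed set differ by
an exact function. -/
theorem isExactOn_sub_of_mem {K Γ : Set ℂ} (hK : IsClosed K) (hΓK : Γ ⊆ K) {x y : ℂ}
    (hx : x ∉ K) (hy : y ∈ connectedComponentIn Kᶜ x) :
    IsExactOn (fun z => 1 / (x - z) - 1 / (y - z)) Γ := by
  have hpre : IsPreconnected (connectedComponentIn Kᶜ x) := isPreconnected_connectedComponentIn
  refine hpre.induction₂ (fun x y => IsExactOn (fun z => 1 / (x - z) - 1 / (y - z)) Γ) ?_ ?_ ?_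
    (mem_connectedComponentIn hx) hy
  · intro u hu
    have huK : u ∈ Kᶜ := connectedComponentIn_subset _ _ hu
    obtain ⟨δ, hδ, hball⟩ := Metric.isOpen_iff.mp hK.isOpen_compl u huK
    filter_upwards [mem_nhdsWithin_of_mem_nhds (ball_mem_nhds u hδ)] with v hv
    refine ⟨fun z => log (1 + (v - u) / (u - z)), fun z hz => ?_⟩
    obtain ⟨h1, h2, h3⟩ := norm_ker_lt hball hv (hΓK hz)
    exact hasDerivAt_logker h1 h2 h3
  · rintro u v w - - - ⟨f, hf⟩ ⟨g, hg⟩
    refine ⟨fun z => f z + g z, fun z hz => ?_⟩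
    exact ((hf z hz).add (hg z hz)).congr_deriv (by ring)
  · rintro u v - - ⟨f, hf⟩
    refine ⟨fun z => -f z, fun z hz => ?_⟩
    exact (hf z hz).neg.congr_deriv (by ring)

theorem isExactOn_of_large {Γ : Set ℂ} {R : ℝ} (hΓ : ∀ z ∈ Γ, ‖z‖ ≤ R) {w : ℂ} (hw : R < ‖w‖) :
    IsExactOn (fun z => 1 / (w - z)) Γ := by
  have h1 : DifferentiableOn ℂ (fun z => 1 / (w - z)) (ball 0 ‖w‖) := by
    intro z hz
    have hne : w - z ≠ 0 := by
      intro h0
      rw [sub_eq_zero.mp h0] at hz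
      simp at hz
    exact ((differentiableAt_const _).div (by fun_prop) hne).differentiableWithinAt
  refine Pool.Lib.isExactOn_mono h1.isExactOn_ball ?_
  intro z hz
  have := hΓ z hz
  simp only [mem_ball, dist_zero_right]
  linarith

/-- Existence of the corrections of the Cauchy kernels. -/
theorem exists_prim_corr {K : Set ℂ} (hK : IsCompact K) :
    ∃ q : ℂ → ℂ → ℂ,
      (∀ ζ ∉ K, ∀ᶠ ζ' in 𝓝 ζ, q ζ' = q ζ) ∧
      (∀ ζ ∉ K, ∀ Γ ⊆ K, IsExactOn (fun z => 1 / (ζ - z) - q ζ z) Γ) ∧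
      (∀ ζ, q ζ = 0 ∨ ∃ p ∉ K, ∀ z, q ζ z = 1 / (p - z)) ∧
      (∃ R : ℝ, ∀ ζ, R < ‖ζ‖ → q ζ = 0) := by
  classical
  obtain ⟨R, hR⟩ := hK.isBounded.exists_norm_le
  have hKc : IsClosed K := hK.isClosed
  let V : ℂ → Set ℂ := fun ζ => connectedComponentIn Kᶜ ζ
  let b : Set ℂ → ℂ := fun S => if h : S.Nonempty then h.some else 0
  have hb : ∀ S : Set ℂ, S.Nonempty → b S ∈ S := by
    intro S hS
    simp only [b, dif_pos hS]
    exact hS.some_mem
  let q : ℂ → ℂ → ℂ := fun ζ z =>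
    if ζ ∈ K ∨ (∃ w ∈ V ζ, R < ‖w‖) then 0 else 1 / (b (V ζ) - z)
  have hVself : ∀ ζ ∉ K, ζ ∈ V ζ := fun ζ hζ => mem_connectedComponentIn hζ
  have hVK : ∀ ζ, V ζ ⊆ Kᶜ := fun ζ => connectedComponentIn_subset _ _
  refine ⟨q, ?_, ?_, ?_, R, ?_⟩
  · intro ζ hζ
    have hopen : IsOpen (V ζ) := hKc.isOpen_compl.connectedComponentIn
    filter_upwards [hopen.mem_nhds (hVself ζ hζ)] with ζ' hζ'
    have h1 : V ζ' = V ζ := (connectedComponentIn_eq hζ').symm
    have h2 : ζ' ∉ K := hVK ζ hζ'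
    funext z
    simp only [q, h1, hζ, h2, false_or]
  · intro ζ hζ Γ hΓ
    by_cases hbig : ∃ w ∈ V ζ, R < ‖w‖
    · obtain ⟨w, hw, hwR⟩ := hbig
      obtain ⟨f, hf⟩ := isExactOn_sub_of_mem hKc hΓ hζ hw
      obtain ⟨g, hg⟩ := isExactOn_of_large (fun z hz => hR z (hΓ hz)) hwR
      refine ⟨fun z => f z + g z, fun z hz => ?_⟩
      refine ((hf z hz).add (hg z hz)).congr_deriv ?_
      have h0 : q ζ z = 0 := if_pos (Or.inr ⟨w, hw, hwR⟩)
      change 1 / (ζ - z) - 1 / (w - z) + 1 / (w - z) = 1 / (ζ - z) - q ζ z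
      rw [h0]; ring
    · have h1 : b (V ζ) ∈ V ζ := hb _ ⟨ζ, hVself ζ hζ⟩
      have h2 := isExactOn_sub_of_mem hKc hΓ hζ h1
      refine Pool.Lib.isExactOn_congr h2 fun z _ => ?_
      have : q ζ z = 1 / (b (V ζ) - z) := if_neg (by rintro (h | h); exacts [hζ h, hbig h])
      simp only [this]
  · intro ζ
    by_cases h : ζ ∈ K ∨ (∃ w ∈ V ζ, R < ‖w‖)
    · left
      funext z
      exact if_pos h
    · right
      have hζ : ζ ∉ K := fun h1 => h (Or.inl h1)
      exact ⟨b (V ζ), hVK ζ (hb _ ⟨ζ, hVself ζ hζ⟩), fun z => if_neg h⟩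
  · intro ζ hζR
    funext z
    by_cases hζ : ζ ∈ K
    · exact if_pos (Or.inl hζ)
    · exact if_pos (Or.inr ⟨ζ, hVself ζ hζ, hζR⟩)

/-- The key step. -/
theorem isExactOn_key {W K Γ : Set ℂ} (hW : IsOpen W) (hK : IsCompact K) (hKW : K ⊆ W)
    (hG : IsOpen Γ) (hGc : IsPreconnected Γ) (hGK : Γ ⊆ K) {f : ℂ → ℂ}
    (hf : DifferentiableOn ℂ f W)
    (h : ∀ χ : ℂ → ℂ, Test Wᶜ χ → ∫ z in W, f z * dbar χ z = 0) : IsExactOn f Γ := by
  rcases Γ.eq_empty_or_nonempty with rfl | ⟨z0, hz0⟩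
  · exact ⟨0, fun z hz => absurd hz (notMem_empty z)⟩
  obtain ⟨q, hq1, hq2, hq3, R, hq4⟩ := exists_prim_corr hK
  -- cutoff function
  obtain ⟨L, hL, hKL, hLW⟩ := exists_compact_between hK hW hKW
  obtain ⟨χ, hχ1, hχ0, -⟩ := exists_contMDiffMap_one_nhds_of_subset_interior
    (modelWithCornersSelf ℝ ℂ) (n := ⊤) hK.isClosed hKL
  have hχd : ContDiff ℝ ∞ χ := χ.contMDiff.contDiff
  obtain ⟨V, hV, hKV, hχV⟩ := eventually_nhdsSet_iff_exists.mp hχ1
  set g : ℂ → ℂ := fun z => (χ z : ℂ) * f z with hg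
  have hsupp : tsupport g ⊆ L := by
    apply closure_minimal _ hL.isClosed
    intro z hz
    by_contra hzL
    apply hz
    simp only [hg]
    rw [hχ0 z hzL]; simp
  have hgc : HasCompactSupport g := HasCompactSupport.of_support_subset_isCompact hL
    ((subset_tsupport g).trans hsupp)
  have hχc : ContDiff ℝ ∞ (fun z => (χ z : ℂ)) := ofRealCLM.contDiff.comp hχd
  have hgd : ContDiff ℝ 1 g := by
    rw [contDiff_iff_contDiffAt]
    intro z
    by_cases hz : z ∈ W
    · have h1 : ContDiffAt ℂ 1 f z := by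
        have := hf.analyticAt (hW.mem_nhds hz)
        exact this.contDiffAt
      have h2 : ContDiffAt ℝ 1 f z := h1.restrict_scalars ℝ
      have h3 : ContDiffAt ℝ 1 (fun z => (χ z : ℂ)) z := (hχc.of_le (by simp)).contDiffAt
      exact h3.mul h2
    · have h1 : g =ᶠ[𝓝 z] fun _ => 0 := by
        have : (tsupport g)ᶜ ∈ 𝓝 z :=
          (isClosed_tsupport g).isOpen_compl.mem_nhds (fun h => hz (hLW (hsupp h)))
        filter_upwards [this] with w hw
        exact image_eq_zero_of_notMem_tsupport hw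
      exact contDiffAt_const.congr_of_eventuallyEq h1
  have hgf : ∀ z ∈ V, g z = f z := by
    intro z hz
    simp only [hg]; rw [hχV z hz]; simp
  set c : ℂ → ℂ := dbar g with hc
  have hcc : Continuous c := Pool.Lib.continuous_dbar hgd
  have hcs : HasCompactSupport c := by
    apply HasCompactSupport.of_support_subset_isCompact hL
    exact (subset_tsupport c).trans ((Pool.Lib.tsupport_dbar_subset g).trans hsupp)
  have hcV : ∀ z ∈ V ∩ W, c z = 0 := by
    intro z hz
    have h1 : g =ᶠ[𝓝 z] f := by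
      filter_upwards [hV.mem_nhds hz.1] with w hw
      exact hgf w hw
    rw [hc, Pool.Lib.dbar_congr h1]
    exact Pool.Lib.dbar_eq_zero (hf.differentiableAt (hW.mem_nhds hz.2))
  have hVW : IsOpen (V ∩ W) := hV.inter hW
  have hKVW : K ⊆ V ∩ W := subset_inter hKV hKW
  -- primitives of the kernels
  have hex' : ∀ ζ, ∃ L : ℂ → ℂ, L z0 = 0 ∧
      (ζ ∉ K → ∀ z ∈ Γ, HasDerivAt L (1 / (ζ - z) - q ζ z) z) := by
    intro ζ
    by_cases hζ : ζ ∈ K
    · exact ⟨0, rfl, fun h => absurd hζ h⟩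
    · obtain ⟨L, h1, h2⟩ := (hq2 ζ hζ Γ hGK).with_val_at z0 0
      exact ⟨L, h1, fun _ z hz => h2 z hz⟩
  choose P hP0 hP using hex'
  -- continuity in ζ
  have hPc : ∀ z ∈ Γ, ∀ ζ1 ∉ K, ContinuousAt (fun ζ => P ζ z) ζ1 := by
    intro z hz ζ1 hζ1
    obtain ⟨δ0, hδ0, hball0⟩ := Metric.isOpen_iff.mp hK.isClosed.isOpen_compl ζ1 hζ1
    obtain ⟨δ1, hδ1, hball1⟩ := Metric.eventually_nhds_iff_ball.mp (hq1 ζ1 hζ1)
    set δ := min δ0 δ1 with hδd
    have hδ : 0 < δ := lt_min hδ0 hδ1
    have hball : ball ζ1 δ ⊆ Kᶜ := (ball_subset_ball (min_le_left _ _)).trans hball0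
    have hqb : ∀ ζ ∈ ball ζ1 δ, q ζ = q ζ1 := fun ζ hζ =>
      hball1 ζ (ball_subset_ball (min_le_right _ _) hζ)
    set M : ℂ → ℂ → ℂ := fun ζ z => -log (1 + (ζ - ζ1) / (ζ1 - z)) with hM
    have hkey : ∀ ζ ∈ ball ζ1 δ, ∀ x ∈ Γ, P ζ x = P ζ1 x + M ζ x - M ζ z0 := by
      intro ζ hζ
      have hζK : ζ ∉ K := hball hζ
      have hG1 : ∀ x ∈ Γ, HasDerivAt (fun x => P ζ1 x + M ζ x - M ζ z0)
          (1 / (ζ - x) - q ζ x) x := by
        intro x hx
        obtain ⟨hne1, hne2, hlt⟩ := norm_ker_lt hball hζ (hGK hx)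
        have hd2 := (hasDerivAt_logker hne1 hne2 hlt).neg
        have hd3 := ((hP ζ1 hζ1 x hx).add hd2).sub_const (M ζ z0)
        refine hd3.congr_deriv ?_
        rw [hqb ζ hζ]
        ring
      exact fun x hx => Pool.Lib.eqOn_of_hasDerivAt hG hGc (hP ζ hζK) hG1 hz0 (by simp [hP0]) hx
    have hMc : ∀ x ∈ Γ, Tendsto (fun ζ => M ζ x) (𝓝 ζ1) (𝓝 0) := by
      intro x hx
      have hne1 : ζ1 - x ≠ 0 := fun h => hζ1 ((sub_eq_zero.mp h) ▸ hGK hx)
      have h1 : ContinuousAt (fun ζ => M ζ x) ζ1 := by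
        simp only [hM]
        apply ContinuousAt.neg
        apply ContinuousAt.clog
        · fun_prop
        · simp
      have h2 : M ζ1 x = 0 := by simp [hM]
      have := h1.tendsto
      rwa [h2] at this
    have hlim : Tendsto (fun ζ => P ζ1 z + M ζ z - M ζ z0) (𝓝 ζ1) (𝓝 (P ζ1 z)) := by
      have := ((tendsto_const_nhds (x := P ζ1 z)).add (hMc z hz)).sub (hMc z0 hz0)
      simpa using this
    unfold ContinuousAt
    refine hlim.congr' ?_
    filter_upwards [ball_mem_nhds ζ1 hδ] with ζ hζ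
    exact (hkey ζ hζ z hz).symm
  have hqc : ∀ z, ∀ ζ1 ∉ K, ContinuousAt (fun ζ => q ζ z) ζ1 := by
    intro z ζ1 hζ1
    have : (fun ζ => q ζ z) =ᶠ[𝓝 ζ1] fun _ => q ζ1 z := by
      filter_upwards [hq1 ζ1 hζ1] with ζ hζ
      rw [hζ]
    exact continuousAt_const.congr this.symm
  -- the integrand
  have hFc : ∀ z ∈ Γ, Continuous (fun ζ => c ζ * P ζ z) := by
    intro z hz
    rw [continuous_iff_continuousAt]
    intro ζ
    by_cases hζ : ζ ∈ K
    · have : (fun ζ => c ζ * P ζ z) =ᶠ[𝓝 ζ] fun _ => 0 := by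
        filter_upwards [hVW.mem_nhds (hKVW hζ)] with w hw
        rw [hcV w hw, zero_mul]
      exact (continuousAt_const (y := (0:ℂ))).congr this.symm
    · exact hcc.continuousAt.mul (hPc z hz ζ hζ)
  have hFs : ∀ z, HasCompactSupport (fun ζ => c ζ * P ζ z) := fun z => hcs.mul_right
  have hqcont : ∀ z, Continuous (fun ζ => c ζ * q ζ z) := by
    intro z
    rw [continuous_iff_continuousAt]
    intro ζ
    by_cases hζ : ζ ∈ K
    · have : (fun ζ => c ζ * q ζ z) =ᶠ[𝓝 ζ] fun _ => 0 := by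
        filter_upwards [hVW.mem_nhds (hKVW hζ)] with w hw
        rw [hcV w hw, zero_mul]
      exact (continuousAt_const (y := (0:ℂ))).congr this.symm
    · exact hcc.continuousAt.mul (hqc z ζ hζ)
  have hqs : ∀ z, HasCompactSupport (fun ζ => c ζ * q ζ z) := fun z => hcs.mul_right
  have hkcont : ∀ z ∈ Γ, Continuous (fun ζ => c ζ / (ζ - z)) := by
    intro z hz
    rw [continuous_iff_continuousAt]
    intro ζ
    by_cases hζ : ζ = z
    · have : (fun ζ => c ζ / (ζ - z)) =ᶠ[𝓝 ζ] fun _ => 0 := by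
        rw [hζ]
        filter_upwards [hVW.mem_nhds (hKVW (hGK hz))] with w hw
        rw [hcV w hw, zero_div]
      exact (continuousAt_const (y := (0:ℂ))).congr this.symm
    · exact hcc.continuousAt.div (by fun_prop) (sub_ne_zero.mpr hζ)
  have hks : ∀ z, HasCompactSupport (fun ζ => c ζ / (ζ - z)) := by
    intro z
    simp only [div_eq_mul_inv]
    exact hcs.mul_right
  -- the corrections have integral zero
  have hzero : ∀ z ∈ Γ, ∫ ζ, c ζ * q ζ z = 0 := by
    intro z hz
    set Ψ : ℂ → ℂ := fun ζ => (1 - (χ ζ : ℂ)) * q ζ z with hΨ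
    have hΨK : ∀ ζ ∈ K, Ψ =ᶠ[𝓝 ζ] fun _ => 0 := by
      intro ζ hζ
      filter_upwards [hV.mem_nhds (hKV hζ)] with w hw
      simp only [hΨ]
      rw [hχV w hw]
      simp
    have hΨn : ∀ ζ ∉ K, Ψ =ᶠ[𝓝 ζ] fun w => (1 - (χ w : ℂ)) * q ζ z := by
      intro ζ hζ
      filter_upwards [hq1 ζ hζ] with w hw
      simp only [hΨ]
      rw [hw]
    have hsm : ContDiff ℝ ∞ Ψ := by
      rw [contDiff_iff_contDiffAt]
      intro ζ
      by_cases hζ : ζ ∈ K
      · exact contDiffAt_const.congr_of_eventuallyEq (hΨK ζ hζ)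
      · have h1 : ContDiff ℝ ∞ (fun w => (1 - (χ w : ℂ)) * q ζ z) :=
          (contDiff_const.sub hχc).mul contDiff_const
        exact h1.contDiffAt.congr_of_eventuallyEq (hΨn ζ hζ)
    have hcomp : HasCompactSupport Ψ := by
      apply HasCompactSupport.of_support_subset_isCompact (isCompact_closedBall (0 : ℂ) R)
      intro ζ hζ
      by_contra hcon
      simp only [mem_closedBall, dist_zero_right, not_le] at hcon
      apply hζ
      simp only [hΨ]
      rw [hq4 ζ hcon]
      simp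
    have hlc : LC Wᶜ Ψ := by
      unfold LC
      have hopen : IsOpen Lᶜ := hL.isClosed.isOpen_compl
      have hsub : Wᶜ ⊆ Lᶜ := compl_subset_compl.mpr hLW
      filter_upwards [hopen.mem_nhdsSet.mpr hsub] with ζ hζ
      have hζK : ζ ∉ K := fun h1 => hζ (interior_subset (hKL h1))
      have h1 : Ψ =ᶠ[𝓝 ζ] fun _ => q ζ z := by
        filter_upwards [hΨn ζ hζK, hopen.mem_nhds hζ] with w hw hwL
        rw [hw, hχ0 w hwL]
        simp
      rw [h1.fderiv_eq]
      simp
    have hint := h Ψ ⟨hsm, hcomp, hlc⟩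
    have hcW : ∀ ζ ∉ W, c ζ = 0 := by
      intro ζ hζ
      have h1 : ζ ∉ tsupport c := fun h2 => hζ (hLW (hsupp (Pool.Lib.tsupport_dbar_subset g h2)))
      exact image_eq_zero_of_notMem_tsupport h1
    have hpt : ∀ ζ ∈ W, f ζ * dbar Ψ ζ = -(c ζ * q ζ z) := by
      intro ζ hζ
      by_cases hζK : ζ ∈ K
      · rw [Pool.Lib.dbar_congr (hΨK ζ hζK), Pool.Lib.dbar_eq_zero (differentiableAt_const _),
          hcV ζ (hKVW hζK)]
        simp
      · have hfd : DifferentiableAt ℂ f ζ := hf.differentiableAt (hW.mem_nhds hζ)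
        have hfr : DifferentiableAt ℝ f ζ := hfd.restrictScalars ℝ
        have hχr : DifferentiableAt ℝ (fun w => (χ w : ℂ)) ζ :=
          (hχc.differentiable (by simp)).differentiableAt
        have hdf := Pool.Lib.dbar_eq_zero hfd
        have e1 : dbar Ψ ζ = -(q ζ z * dbar (fun w => (χ w : ℂ)) ζ) := by
          rw [Pool.Lib.dbar_congr (hΨn ζ hζK)]
          unfold dbar
          have h2 : fderiv ℝ (fun w => (1 - (χ w : ℂ)) * q ζ z) ζ =
              q ζ z • (-fderiv ℝ (fun w => (χ w : ℂ)) ζ) := by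
            rw [fderiv_mul_const (by fun_prop)]
            rw [fderiv_const_sub]
          rw [h2]
          simp only [smul_apply, neg_apply, smul_eq_mul]
          ring
        have e2 : c ζ = f ζ * dbar (fun w => (χ w : ℂ)) ζ := by
          have h3 : fderiv ℝ g ζ = (χ ζ : ℂ) • fderiv ℝ f ζ +
              f ζ • fderiv ℝ (fun w => (χ w : ℂ)) ζ := by
            rw [hg]
            exact fderiv_fun_mul hχr hfr
          rw [hc]
          have h4 : dbar g ζ = (χ ζ : ℂ) * dbar f ζ + f ζ * dbar (fun w => (χ w : ℂ)) ζ := by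
            unfold dbar
            rw [h3]
            simp only [add_apply, smul_apply, smul_eq_mul]
            ring
          rw [h4, hdf]
          ring
        rw [e1, e2]
        ring
    rw [setIntegral_congr_fun hW.measurableSet hpt, integral_neg, neg_eq_zero,
      setIntegral_eq_integral_of_forall_compl_eq_zero] at hint
    · exact hint
    · intro ζ hζ
      rw [hcW ζ hζ, zero_mul]
  have hmain : ∀ z ∈ Γ, HasDerivAt (fun z => ∫ ζ, c ζ * P ζ z)
      (∫ ζ, c ζ * (1 / (ζ - z) - q ζ z)) z := by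
    intro z hz
    obtain ⟨δ, hδ, hball⟩ := Metric.isOpen_iff.mp hVW z (hKVW (hGK hz))
    obtain ⟨δ', hδ', hball'⟩ := Metric.isOpen_iff.mp hG z hz
    set r := min (δ / 2) (δ' / 2) with hr
    have hrpos : 0 < r := lt_min (by linarith) (by linarith)
    have hfar : ∀ ζ x, c ζ ≠ 0 → x ∈ ball z r → δ / 2 ≤ ‖ζ - x‖ := by
      intro ζ x hζ hx
      have h1 : ζ ∉ ball z δ := fun h => hζ (hcV ζ (hball h))
      rw [mem_ball, not_lt] at h1
      have h2 : dist x z < δ / 2 := lt_of_lt_of_le (mem_ball.mp hx) (min_le_left _ _)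
      have h3 : dist ζ z ≤ dist ζ x + dist x z := dist_triangle _ _ _
      rw [← dist_eq_norm]
      linarith
    have hqb : ∀ ζ x, x ∈ ball z r → ‖q ζ x‖ ≤ 2 / δ' := by
      intro ζ x hx
      rcases hq3 ζ with h1 | ⟨p, hp, h1⟩
      · rw [h1]
        simp only [Pi.zero_apply, norm_zero]
        positivity
      · rw [h1, norm_div, norm_one]
        have h2 : p ∉ ball z δ' := fun h3 => hp (hGK (hball' h3))
        rw [mem_ball, not_lt] at h2
        have h3 : dist x z < δ' / 2 := lt_of_lt_of_le (mem_ball.mp hx) (min_le_right _ _)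
        have h4 : dist p z ≤ dist p x + dist x z := dist_triangle _ _ _
        have h5 : δ' / 2 ≤ ‖p - x‖ := by
          rw [← dist_eq_norm]
          linarith
        rw [show (2 : ℝ) / δ' = 1 / (δ' / 2) by field_simp]
        exact one_div_le_one_div_of_le (by linarith) h5
    have hgoal := hasDerivAt_integral_of_dominated_loc_of_deriv_le
      (μ := (volume : Measure ℂ)) (F := fun x ζ => c ζ * P ζ x)
      (F' := fun x ζ => c ζ * (1 / (ζ - x) - q ζ x)) (x₀ := z) (s := ball z r)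
      (bound := fun ζ => ‖c ζ‖ * (2 / δ + 2 / δ')) (ball_mem_nhds z hrpos) ?_ ?_ ?_ ?_ ?_ ?_
    · exact hgoal.2
    · filter_upwards [ball_mem_nhds z hrpos] with x hx
      have hxG : x ∈ Γ := hball' (ball_subset_ball ((min_le_right _ _).trans (by linarith)) hx)
      exact (hFc x hxG).aestronglyMeasurable
    · exact (hFc z hz).integrable_of_hasCompactSupport (hFs z)
    · have : Continuous (fun ζ => c ζ * (1 / (ζ - z) - q ζ z)) := by
        have h1 := (hkcont z hz).sub (hqcont z)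
        refine h1.congr fun ζ => ?_
        simp only [Pi.sub_apply]
        ring
      exact this.aestronglyMeasurable
    · refine ae_of_all _ (fun ζ x hx => ?_)
      by_cases hζ : c ζ = 0
      · simp [hζ]
      · have h1 := hfar ζ x hζ hx
        rw [norm_mul]
        apply mul_le_mul_of_nonneg_left _ (norm_nonneg _)
        refine (norm_sub_le _ _).trans (add_le_add ?_ (hqb ζ x hx))
        rw [norm_div, norm_one, show (2 : ℝ) / δ = 1 / (δ / 2) by field_simp]
        exact one_div_le_one_div_of_le (by linarith) h1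
    · exact (hcc.norm.integrable_of_hasCompactSupport hcs.norm).mul_const _
    · refine ae_of_all _ (fun ζ x hx => ?_)
      have hxG : x ∈ Γ := hball' (ball_subset_ball ((min_le_right _ _).trans (by linarith)) hx)
      by_cases hζ : c ζ = 0
      · simp only [hζ, zero_mul]
        exact hasDerivAt_const x 0
      · have hζK : ζ ∉ K := fun h => hζ (hcV ζ (hKVW h))
        exact (hP ζ hζK x hxG).const_mul (c ζ)
  refine ⟨fun z => (-(1 / (Real.pi : ℂ))) * ∫ ζ, c ζ * P ζ z, fun z hz => ?_⟩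
  have h1 := (hmain z hz).const_mul (-(1 / (Real.pi : ℂ)))
  have h2 : -(1 / (Real.pi : ℂ)) * ∫ ζ, c ζ * (1 / (ζ - z) - q ζ z) = f z := by
    have e0 : ∀ ζ, c ζ * (1 / (ζ - z) - q ζ z) = c ζ / (ζ - z) - c ζ * q ζ z := by
      intro ζ; ring
    have e1 : ∫ ζ, c ζ * (1 / (ζ - z) - q ζ z) = (∫ ζ, c ζ / (ζ - z)) - ∫ ζ, c ζ * q ζ z := by
      simp only [e0]
      exact integral_sub ((hkcont z hz).integrable_of_hasCompactSupport (hks z))
        ((hqcont z).integrable_of_hasCompactSupport (hqs z))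
    rw [e1, hzero z hz, sub_zero, hc, Pool.Lib.integral_dbar_div_sub g hgd hgc z,
      hgf z (hKV (hGK hz))]
    have : (Real.pi : ℂ) ≠ 0 := by exact_mod_cast Real.pi_ne_zero
    field_simp
  rwa [h2] at h1

theorem isExactOn_of_test (hE : IsCompact E) {G : ℂ → ℂ} (hG : DifferentiableOn ℂ G Eᶜ)
    (h : ∀ χ : ℂ → ℂ, Test E χ → ∫ z in Eᶜ, G z * dbar χ z = 0) : IsExactOn G Eᶜ := by
  have hW : IsOpen Eᶜ := hE.isClosed.isOpen_compl
  apply Pool.Lib.isExactOn_of_components hW
  intro z0 hz0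
  obtain ⟨N, hN⟩ := Pool.Lib.exists_mem_interior_exh hW hz0
  set K : ℕ → Set ℂ := fun n =>
    Pool.Lib.exh Eᶜ (1 / (((N + n : ℕ) : ℝ) + 1)) (((N + n : ℕ) : ℝ) + 1) with hK
  have hpos : ∀ n : ℕ, 0 < 1 / (((N + n : ℕ) : ℝ) + 1) := fun n => by positivity
  have hKmono : Monotone K := by
    intro m n hmn
    apply Pool.Lib.exh_mono
    · apply one_div_le_one_div_of_le (by positivity)
      have : ((N + m : ℕ) : ℝ) ≤ ((N + n : ℕ) : ℝ) := by exact_mod_cast Nat.add_le_add_left hmn N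
      linarith
    · have : ((N + m : ℕ) : ℝ) ≤ ((N + n : ℕ) : ℝ) := by exact_mod_cast Nat.add_le_add_left hmn N
      linarith
  have hz0K : ∀ n, z0 ∈ interior (K n) := by
    intro n
    have h0 : z0 ∈ interior (K 0) := by simpa [hK] using hN
    exact interior_mono (hKmono (Nat.zero_le n)) h0
  set Γ : ℕ → Set ℂ := fun n => connectedComponentIn (interior (K n)) z0 with hΓ
  have hGmono : Monotone Γ := fun m n hmn =>
    connectedComponentIn_mono z0 (interior_mono (hKmono hmn))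
  have hexact : ∀ n, IsExactOn G (Γ n) := by
    intro n
    apply isExactOn_key hW (Pool.Lib.isCompact_exh _ _ _) (Pool.Lib.exh_subset Eᶜ (hpos n) _)
      (Γ := Γ n) isOpen_interior.connectedComponentIn isPreconnected_connectedComponentIn
      ((connectedComponentIn_subset _ _).trans interior_subset) hG
    intro χ hχ
    rw [compl_compl] at hχ
    exact h χ hχ
  have hun := Pool.Lib.isExactOn_iUnion hGmono
    (fun n => isOpen_interior.connectedComponentIn)
    (fun n => isPreconnected_connectedComponentIn)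
    (fun n => mem_connectedComponentIn (hz0K n)) hexact
  refine Pool.Lib.isExactOn_mono hun ?_
  intro z hz
  have hCo : IsOpen (connectedComponentIn Eᶜ z0) := hW.connectedComponentIn
  have hCc : IsConnected (connectedComponentIn Eᶜ z0) :=
    ⟨⟨z0, mem_connectedComponentIn hz0⟩, isPreconnected_connectedComponentIn⟩
  have hCp : IsPathConnected (connectedComponentIn Eᶜ z0) :=
    hCo.isConnected_iff_isPathConnected.mp hCc
  obtain ⟨γ, hγ⟩ := hCp.joinedIn z0 (mem_connectedComponentIn hz0) z hz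
  have hrange : range γ ⊆ ⋃ n, interior (K n) := by
    rintro _ ⟨t, rfl⟩
    have hW' := connectedComponentIn_subset _ _ (hγ t)
    obtain ⟨m, hm⟩ := Pool.Lib.exists_mem_interior_exh hW hW'
    refine mem_iUnion.mpr ⟨m, interior_mono ?_ hm⟩
    apply Pool.Lib.exh_mono
    · apply one_div_le_one_div_of_le (by positivity)
      have : (m : ℝ) ≤ ((N + m : ℕ) : ℝ) := by exact_mod_cast Nat.le_add_left m N
      linarith
    · have : (m : ℝ) ≤ ((N + m : ℕ) : ℝ) := by exact_mod_cast Nat.le_add_left m N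
      linarith
  obtain ⟨n, hn⟩ := (isCompact_range γ.continuous).elim_directed_cover _
    (fun n => isOpen_interior) hrange (directed_of_isDirected_le
      (fun m n hmn => interior_mono (hKmono hmn)))
  refine mem_iUnion.mpr ⟨n, ?_⟩
  have hpre : IsPreconnected (range γ) := isPreconnected_range γ.continuous
  exact hpre.subset_connectedComponentIn ⟨0, γ.source⟩ hn ⟨1, γ.target⟩

theorem exists_primitive_of_weak (hE : IsCompact E) {F : ℂ → ℂ}
    (hF : LocallyIntegrableOn F Eᶜ)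
    (h : ∀ χ : ℂ → ℂ, Test E χ → ∫ z in Eᶜ, F z * dbar χ z = 0) :
    ∃ f : ℂ → ℂ, DifferentiableOn ℂ f Eᶜ ∧ F =ᵐ[volume.restrict Eᶜ] deriv f := by
  have hW : IsOpen Eᶜ := hE.isClosed.isOpen_compl
  obtain ⟨G, hGd, hFG⟩ := weyl hW hF (by
    intro χ hχ hcomp hsup
    have hT : Test E χ := by
      refine ⟨hχ, hcomp, ?_⟩
      unfold LC
      have hopen : IsOpen (tsupport χ)ᶜ := (isClosed_tsupport χ).isOpen_compl
      have hsub : E ⊆ (tsupport χ)ᶜ := fun x hx h1 => hsup h1 hx
      filter_upwards [hopen.mem_nhdsSet.mpr hsub] with ζ hζ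
      have h1 : χ =ᶠ[𝓝 ζ] fun _ => 0 := by
        filter_upwards [hopen.mem_nhds hζ] with w hw
        exact image_eq_zero_of_notMem_tsupport hw
      rw [h1.fderiv_eq]
      simp
    rw [← setIntegral_eq_integral_of_forall_compl_eq_zero (s := Eᶜ)]
    · exact h χ hT
    · intro ζ hζ
      have h1 : ζ ∉ tsupport (dbar χ) := fun h2 =>
        hζ (hsup (Pool.Lib.tsupport_dbar_subset χ h2))
      rw [image_eq_zero_of_notMem_tsupport h1, mul_zero])
  have hG : ∀ χ : ℂ → ℂ, Test E χ → ∫ z in Eᶜ, G z * dbar χ z = 0 := by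
    intro χ hχ
    rw [← h χ hχ]
    apply integral_congr_ae
    filter_upwards [hFG] with z hz
    rw [hz]
  obtain ⟨f, hf⟩ := isExactOn_of_test hE hGd hG
  refine ⟨f, fun z hz => (hf z hz).differentiableAt.differentiableWithinAt, ?_⟩
  filter_upwards [hFG, ae_restrict_mem hW.measurableSet] with z hz hzE
  rw [hz, (hf z hzE).deriv]

end Pool.Recti
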