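import Pool.Agent.Recti.Isom
import Pool.Agent.Recti.ClsAlg
import Pool.Agent.Recti.Prim
import Pool.Agent.Recti.Infty

/-!
# The range of `∂̄` on the class `Cls E Θ` is dense

PROOF of `ortho`.  Let `D = Eᶜ` (connected).
1. For a complex test function `χ` both `χ` and `i χ` are in `Cls` (`Cls.of_test`), so
   `∫_D G dbar χ = 0`.  By `exists_primitive_of_weak` there is `K` holomorphic on `D` with `G = K'` a.e.; so
   we may assume `G = deriv K` on `D`.
2. `∫_D ‖G‖² < ∞` and `decay` give `‖G z‖ ≤ C/‖z‖²` for large `‖z‖`, and by `exists_limit`, after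
   subtracting a constant from `K`, `‖K z‖ ≤ C/‖z‖` for large `‖z‖`.
3. Let `λ = e^{2 i Θ}` and `χ_R z = η (‖z‖/R)`-type cutoffs: smooth, `= 1` for `‖z‖ ≤ R`, `0` for
   `‖z‖ ≥ 2R`, `‖fderiv ℝ χ_R‖ ≤ C/R`, values in `[0,1]`.  Put `φ_R = (1/2) χ_R (λ K + conj K)` (`R` large).
   On `D` it is smooth; `e^{-iΘ} φ_R = χ_R Re (e^{iΘ} K)` is real, so `Framed` holds with `W = 0`.
   Energy: on `D ∩ ball 0 (2R)`, `‖∇φ_R‖ ≤ C (‖K‖ ‖∇λ‖ + ‖G‖ + ‖K‖ ‖∇χ_R‖)` where `∇λ` has compact support in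
   `D`, `G ∈ L²`, `∇χ_R` has compact support in `D`: square integrable.  So `φ_R ∈ Cls`.
4. `G dbar φ_R = (1/2) χ_R (‖G‖² + G K dbar λ) + (1/2) G (dbar χ_R) (λ K + conj K)` since
   `dbar K = 0`, `dbar (conj K) = conj G`.
   The last term has integral `O (R^{-2} R^{-1} R^{-1} R^2) → 0`, so by dominated convergence
   `0 = lim Re ∫ G dbar φ_R = (1/2) ∫ ‖G‖² + (1/2) Re ∫ G K dbar λ`.
5. `∫_D G K dbar λ = (1/2) ∫_D dz (K²) dbar λ = (1/2) ∫_D dbar (K²) dz λ = 0` by `integral_wedge`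
   (`∇λ = 0` near `E` and near infinity).  Hence `∫ ‖G‖² = 0`.
-/

set_option autoImplicit false

open Complex MeasureTheory Set Filter Topology Metric
open scoped ContDiff

namespace Pool.Recti

open Pool.Lib (dbar)

variable {E : Set ℂ} {Θ : ℂ → ℝ}

/-! ### the multiplier `λ = e^{2iΘ}` -/

private noncomputable def orthoLam (Θ : ℂ → ℝ) (z : ℂ) : ℂ := exp (2 * (Θ z) * I)

private theorem orthoLam_contDiff (hΘ : Test E Θ) : ContDiff ℝ ∞ (orthoLam Θ) := by
  have h1 : ContDiff ℝ ∞ (fun z => ((Θ z : ℝ) : ℂ)) := ofRealCLM.contDiff.comp hΘ.smooth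
  exact ((contDiff_const.mul h1).mul contDiff_const).cexp

private theorem orthoLam_norm (Θ : ℂ → ℝ) (z : ℂ) : ‖orthoLam Θ z‖ = 1 := by
  unfold orthoLam
  have : (2 * (Θ z : ℂ) * I) = ((2 * Θ z : ℝ) : ℂ) * I := by push_cast; ring
  rw [this, norm_exp_ofReal_mul_I]

private theorem orthoLam_fderiv (hΘ : Test E Θ) {z : ℂ} (h : fderiv ℝ Θ z = 0) :
    fderiv ℝ (orthoLam Θ) z = 0 := by
  have hF : DifferentiableAt ℝ (fun t : ℝ => exp (2 * (t : ℂ) * I)) (Θ z) := by
    have h1 : Differentiable ℝ (fun t : ℝ => (t : ℂ)) := ofRealCLM.differentiable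
    exact ((((differentiable_const _).mul h1).mul (differentiable_const _)).cexp) (Θ z)
  have hT : DifferentiableAt ℝ Θ z := (hΘ.smooth.differentiable (by simp)) z
  have h2 : orthoLam Θ = (fun t : ℝ => exp (2 * (t : ℂ) * I)) ∘ Θ := rfl
  rw [h2, fderiv_comp z hF hT, h]
  simp

/-! ### cutoff functions -/

private noncomputable def orthoBump : ContDiffBump (0 : ℂ) :=
  ⟨1, 2, by norm_num, by norm_num⟩

private noncomputable def orthoChi (R : ℝ) (z : ℂ) : ℂ :=
  ((orthoBump ((R⁻¹ : ℝ) • z) : ℝ) : ℂ)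

private theorem orthoChi_contDiff (R : ℝ) : ContDiff ℝ ∞ (orthoChi R) :=
  ofRealCLM.contDiff.comp (orthoBump.contDiff.comp (contDiff_const_smul _))

private theorem orthoChi_one {R : ℝ} (hR : 0 < R) {z : ℂ} (hz : ‖z‖ ≤ R) :
    orthoChi R z = 1 := by
  unfold orthoChi
  have h1 : (R⁻¹ : ℝ) • z ∈ closedBall (0 : ℂ) orthoBump.rIn := by
    rw [mem_closedBall_zero_iff, norm_smul, Real.norm_of_nonneg (by positivity)]
    show R⁻¹ * ‖z‖ ≤ 1
    rw [inv_mul_le_one₀ hR]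
    exact hz
  rw [orthoBump.one_of_mem_closedBall h1]
  simp

private theorem orthoChi_zero {R : ℝ} (hR : 0 < R) {z : ℂ} (hz : 2 * R ≤ ‖z‖) :
    orthoChi R z = 0 := by
  unfold orthoChi
  have h1 : orthoBump.rOut ≤ dist ((R⁻¹ : ℝ) • z) 0 := by
    rw [dist_zero_right, norm_smul, Real.norm_of_nonneg (by positivity)]
    show 2 ≤ R⁻¹ * ‖z‖
    rw [inv_mul_eq_div, le_div_iff₀ hR]
    exact hz
  rw [orthoBump.zero_of_le_dist h1]
  simp

private theorem orthoChi_nonneg (R : ℝ) (z : ℂ) : 0 ≤ (orthoBump ((R⁻¹ : ℝ) • z) : ℝ) :=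
  orthoBump.nonneg

private theorem orthoChi_le_one (R : ℝ) (z : ℂ) : (orthoBump ((R⁻¹ : ℝ) • z) : ℝ) ≤ 1 :=
  orthoBump.le_one

private theorem orthoChi_norm (R : ℝ) (z : ℂ) : ‖orthoChi R z‖ ≤ 1 := by
  unfold orthoChi
  rw [norm_real, Real.norm_of_nonneg (orthoChi_nonneg R z)]
  exact orthoChi_le_one R z

private theorem orthoChi_fderiv : ∃ M : ℝ, 0 ≤ M ∧ ∀ R : ℝ, 0 < R → ∀ z,
    ‖fderiv ℝ (orthoChi R) z‖ ≤ M / R := by
  set h : ℂ → ℂ := fun z => ((orthoBump z : ℝ) : ℂ) with hh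
  have hsm : ContDiff ℝ ∞ h := ofRealCLM.contDiff.comp orthoBump.contDiff
  have hcs : HasCompactSupport h := by
    have h1 : HasCompactSupport (orthoBump : ℂ → ℝ) := orthoBump.hasCompactSupport
    exact h1.comp_left (g := fun t : ℝ => (t : ℂ)) (by simp)
  have hc : Continuous (fderiv ℝ h) := hsm.continuous_fderiv (by simp)
  obtain ⟨M, hM⟩ := hc.bounded_above_of_compact_support (hcs.fderiv (𝕜 := ℝ))
  have hM0 : 0 ≤ M := le_trans (norm_nonneg _) (hM 0)
  refine ⟨M, hM0, ?_⟩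
  intro R hR z
  have h1 : HasFDerivAt (fun z : ℂ => (R⁻¹ : ℝ) • z)
      ((R⁻¹ : ℝ) • ContinuousLinearMap.id ℝ ℂ) z :=
    (hasFDerivAt_id z).const_smul (R⁻¹ : ℝ)
  have h2 : HasFDerivAt h (fderiv ℝ h ((R⁻¹ : ℝ) • z)) ((R⁻¹ : ℝ) • z) :=
    ((hsm.differentiable (by simp)) _).hasFDerivAt
  have h3 : HasFDerivAt (orthoChi R) ((fderiv ℝ h ((R⁻¹ : ℝ) • z)).comp
      ((R⁻¹ : ℝ) • ContinuousLinearMap.id ℝ ℂ)) z := h2.comp z h1
  rw [h3.fderiv]
  have h4 : (fderiv ℝ h ((R⁻¹ : ℝ) • z)).comp ((R⁻¹ : ℝ) • ContinuousLinearMap.id ℝ ℂ)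
      = (R⁻¹ : ℝ) • fderiv ℝ h ((R⁻¹ : ℝ) • z) := by
    ext v
    simp
  rw [h4, norm_smul, Real.norm_of_nonneg (by positivity), div_eq_inv_mul]
  exact mul_le_mul_of_nonneg_left (hM _) (by positivity)

private theorem orthoChi_fderiv_in {R : ℝ} (hR : 0 < R) {z : ℂ} (hz : ‖z‖ < R) :
    fderiv ℝ (orthoChi R) z = 0 := by
  have h1 : orthoChi R =ᶠ[𝓝 z] fun _ => (1 : ℂ) := by
    have : ∀ᶠ w in 𝓝 z, ‖w‖ < R := continuous_norm.continuousAt.eventually_lt_const hz
    filter_upwards [this] with w hw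
    exact orthoChi_one hR hw.le
  rw [h1.fderiv_eq]
  simp

private theorem orthoChi_fderiv_out {R : ℝ} (hR : 0 < R) {z : ℂ} (hz : 2 * R < ‖z‖) :
    fderiv ℝ (orthoChi R) z = 0 := by
  have h1 : orthoChi R =ᶠ[𝓝 z] fun _ => (0 : ℂ) := by
    have : ∀ᶠ w in 𝓝 z, 2 * R < ‖w‖ := continuous_norm.continuousAt.eventually_const_lt hz
    filter_upwards [this] with w hw
    exact orthoChi_zero hR hw.le
  rw [h1.fderiv_eq]
  simp

/-! ### the test fields -/

private noncomputable def orthoPsi (Θ : ℂ → ℝ) (K : ℂ → ℂ) (z : ℂ) : ℂ :=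
  1 / 2 * (orthoLam Θ z * K z + (starRingEnd ℂ) (K z))

private theorem orthoPsi_norm (Θ : ℂ → ℝ) (K : ℂ → ℂ) (z : ℂ) : ‖orthoPsi Θ K z‖ ≤ ‖K z‖ := by
  unfold orthoPsi
  rw [norm_mul]
  have h1 : ‖orthoLam Θ z * K z + (starRingEnd ℂ) (K z)‖ ≤ ‖K z‖ + ‖K z‖ := by
    refine (norm_add_le _ _).trans ?_
    rw [norm_mul, orthoLam_norm, one_mul, Complex.norm_conj]
  have h2 : ‖(1 / 2 : ℂ)‖ = 1 / 2 := by simp
  rw [h2]
  linarith

private theorem orthoPsi_real (Θ : ℂ → ℝ) (K : ℂ → ℂ) (R : ℝ) (z : ℂ) :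
    (exp (-(Θ z * I)) * (orthoChi R z * orthoPsi Θ K z)).im = 0 := by
  have e1 : exp (-(Θ z * I)) * orthoLam Θ z = exp (Θ z * I) := by
    unfold orthoLam
    rw [← exp_add]
    congr 1
    ring
  have e2 : exp (-(Θ z * I)) = (starRingEnd ℂ) (exp (Θ z * I)) := by
    rw [← exp_conj]
    congr 1
    simp
  have e3 : exp (-(Θ z * I)) * (orthoChi R z * orthoPsi Θ K z) =
      (((orthoBump ((R⁻¹ : ℝ) • z) : ℝ) * (exp (Θ z * I) * K z).re : ℝ) : ℂ) := by
    have e4 : exp (Θ z * I) * K z + (starRingEnd ℂ) (exp (Θ z * I) * K z) =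
        ((2 * (exp (Θ z * I) * K z).re : ℝ) : ℂ) := add_conj _
    have e5 : exp (-(Θ z * I)) * (orthoChi R z * orthoPsi Θ K z) =
        orthoChi R z * (1 / 2 * ((exp (-(Θ z * I)) * orthoLam Θ z) * K z +
          exp (-(Θ z * I)) * (starRingEnd ℂ) (K z))) := by
      unfold orthoPsi; ring
    rw [e5, e1, e2, ← map_mul, e4]
    unfold orthoChi
    push_cast
    ring
  rw [e3, ofReal_im]

private theorem orthoPsi_diff {K : ℂ → ℂ} (hΘ : Test E Θ) {z : ℂ} (hK : DifferentiableAt ℂ K z) :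
    DifferentiableAt ℝ (orthoPsi Θ K) z ∧
      dbar (orthoPsi Θ K) z = 1 / 2 * (dbar (orthoLam Θ) z * K z + (starRingEnd ℂ) (deriv K z)) ∧
      dz (orthoPsi Θ K) z = 1 / 2 * (dz (orthoLam Θ) z * K z + orthoLam Θ z * deriv K z) := by
  have hKR : DifferentiableAt ℝ K z := hK.restrictScalars ℝ
  have hL : DifferentiableAt ℝ (orthoLam Θ) z := ((orthoLam_contDiff hΘ).differentiable (by simp)) z
  have hC : DifferentiableAt ℝ (fun w => (starRingEnd ℂ) (K w)) z :=
    (Complex.conjCLE.toContinuousLinearMap.differentiableAt).comp z hKR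
  have hLK : DifferentiableAt ℝ (fun w => orthoLam Θ w * K w) z := hL.mul hKR
  have hS : DifferentiableAt ℝ (fun w => orthoLam Θ w * K w + (starRingEnd ℂ) (K w)) z :=
    hLK.add hC
  have hc : DifferentiableAt ℝ (fun _ : ℂ => (1 / 2 : ℂ)) z := differentiableAt_const _
  have hdc : dbar (fun _ : ℂ => (1 / 2 : ℂ)) z = 0 :=
    Pool.Lib.dbar_eq_zero (differentiableAt_const _)
  have hdc' : dz (fun _ : ℂ => (1 / 2 : ℂ)) z = 0 := by
    rw [dz_eq_deriv (differentiableAt_const _)]; simp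
  refine ⟨hc.mul hS, ?_, ?_⟩
  · show dbar (fun w => (1 / 2 : ℂ) * (orthoLam Θ w * K w + (starRingEnd ℂ) (K w))) z = _
    rw [dbar_mul hc hS, hdc, dbar_add hLK hC, dbar_mul hL hKR, dbar_conj hKR,
      Pool.Lib.dbar_eq_zero hK, dz_eq_deriv hK]
    ring
  · show dz (fun w => (1 / 2 : ℂ) * (orthoLam Θ w * K w + (starRingEnd ℂ) (K w))) z = _
    rw [dz_mul hc hS, hdc', dz_add hLK hC, dz_mul hL hKR, dz_conj hKR,
      Pool.Lib.dbar_eq_zero hK, dz_eq_deriv hK, map_zero]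
    ring

private noncomputable def orthoPhi (Θ : ℂ → ℝ) (K : ℂ → ℂ) (R : ℝ) (z : ℂ) : ℂ :=
  orthoChi R z * orthoPsi Θ K z

private theorem orthoPhi_dbar {K : ℂ → ℂ} (hΘ : Test E Θ) (R : ℝ) {z : ℂ}
    (hK : DifferentiableAt ℂ K z) :
    dbar (orthoPhi Θ K R) z = dbar (orthoChi R) z * orthoPsi Θ K z +
      orthoChi R z * (1 / 2 * (dbar (orthoLam Θ) z * K z + (starRingEnd ℂ) (deriv K z))) := by
  obtain ⟨h1, h2, _⟩ := orthoPsi_diff hΘ hK
  have hX : DifferentiableAt ℝ (orthoChi R) z := ((orthoChi_contDiff R).differentiable (by simp)) z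
  show dbar (fun w => orthoChi R w * orthoPsi Θ K w) z = _
  rw [dbar_mul hX h1, h2]

private theorem orthoPhi_dz {K : ℂ → ℂ} (hΘ : Test E Θ) (R : ℝ) {z : ℂ}
    (hK : DifferentiableAt ℂ K z) :
    dz (orthoPhi Θ K R) z = dz (orthoChi R) z * orthoPsi Θ K z +
      orthoChi R z * (1 / 2 * (dz (orthoLam Θ) z * K z + orthoLam Θ z * deriv K z)) := by
  obtain ⟨h1, _, h2⟩ := orthoPsi_diff hΘ hK
  have hX : DifferentiableAt ℝ (orthoChi R) z := ((orthoChi_contDiff R).differentiable (by simp)) z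
  show dz (fun w => orthoChi R w * orthoPsi Θ K w) z = _
  rw [dz_mul hX h1, h2]

private theorem orthoPhi_fderiv {K : ℂ → ℂ} (hΘ : Test E Θ) (R : ℝ) {z : ℂ}
    (hK : DifferentiableAt ℂ K z) :
    ‖fderiv ℝ (orthoPhi Θ K R) z‖ ≤
      (2 * ‖fderiv ℝ (orthoChi R) z‖ * ‖K z‖ + ‖fderiv ℝ (orthoLam Θ) z‖ * ‖K z‖)
        + ‖deriv K z‖ := by
  refine (norm_fderiv_le _ _).trans ?_
  rw [orthoPhi_dbar hΘ R hK, orthoPhi_dz hΘ R hK]
  have a1 : ‖dz (orthoChi R) z * orthoPsi Θ K z‖ ≤ ‖fderiv ℝ (orthoChi R) z‖ * ‖K z‖ := by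
    rw [norm_mul]
    exact mul_le_mul (norm_dz_le _ _) (orthoPsi_norm _ _ _) (norm_nonneg _) (norm_nonneg _)
  have a2 : ‖dbar (orthoChi R) z * orthoPsi Θ K z‖ ≤ ‖fderiv ℝ (orthoChi R) z‖ * ‖K z‖ := by
    rw [norm_mul]
    exact mul_le_mul (norm_dbar_le _ _) (orthoPsi_norm _ _ _) (norm_nonneg _) (norm_nonneg _)
  have h2 : ‖(1 / 2 : ℂ)‖ = 1 / 2 := by simp
  have a3 : ‖orthoChi R z * (1 / 2 * (dz (orthoLam Θ) z * K z + orthoLam Θ z * deriv K z))‖ ≤
      1 / 2 * (‖fderiv ℝ (orthoLam Θ) z‖ * ‖K z‖ + ‖deriv K z‖) := by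
    rw [norm_mul, norm_mul, h2]
    have b1 : ‖dz (orthoLam Θ) z * K z + orthoLam Θ z * deriv K z‖ ≤
        ‖fderiv ℝ (orthoLam Θ) z‖ * ‖K z‖ + ‖deriv K z‖ := by
      refine (norm_add_le _ _).trans ?_
      rw [norm_mul, norm_mul, orthoLam_norm, one_mul]
      have := mul_le_mul_of_nonneg_right (norm_dz_le (orthoLam Θ) z) (norm_nonneg (K z))
      linarith
    have b2 := orthoChi_norm R z
    calc ‖orthoChi R z‖ * (1 / 2 * ‖dz (orthoLam Θ) z * K z + orthoLam Θ z * deriv K z‖)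
        ≤ 1 * (1 / 2 * ‖dz (orthoLam Θ) z * K z + orthoLam Θ z * deriv K z‖) := by
          apply mul_le_mul_of_nonneg_right b2; positivity
      _ ≤ _ := by rw [one_mul]; linarith
  have a4 : ‖orthoChi R z * (1 / 2 * (dbar (orthoLam Θ) z * K z +
      (starRingEnd ℂ) (deriv K z)))‖ ≤
      1 / 2 * (‖fderiv ℝ (orthoLam Θ) z‖ * ‖K z‖ + ‖deriv K z‖) := by
    rw [norm_mul, norm_mul, h2]
    have b1 : ‖dbar (orthoLam Θ) z * K z + (starRingEnd ℂ) (deriv K z)‖ ≤
        ‖fderiv ℝ (orthoLam Θ) z‖ * ‖K z‖ + ‖deriv K z‖ := by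
      refine (norm_add_le _ _).trans ?_
      rw [norm_mul, Complex.norm_conj]
      have := mul_le_mul_of_nonneg_right (norm_dbar_le (orthoLam Θ) z) (norm_nonneg (K z))
      linarith
    have b2 := orthoChi_norm R z
    calc ‖orthoChi R z‖ * (1 / 2 * ‖dbar (orthoLam Θ) z * K z + (starRingEnd ℂ) (deriv K z)‖)
        ≤ 1 * (1 / 2 * ‖dbar (orthoLam Θ) z * K z + (starRingEnd ℂ) (deriv K z)‖) := by
          apply mul_le_mul_of_nonneg_right b2; positivity
      _ ≤ _ := by rw [one_mul]; linarith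
  have a5 := norm_add_le (dz (orthoChi R) z * orthoPsi Θ K z)
    (orthoChi R z * (1 / 2 * (dz (orthoLam Θ) z * K z + orthoLam Θ z * deriv K z)))
  have a6 := norm_add_le (dbar (orthoChi R) z * orthoPsi Θ K z)
    (orthoChi R z * (1 / 2 * (dbar (orthoLam Θ) z * K z + (starRingEnd ℂ) (deriv K z))))
  linarith

private theorem orthoPhi_cls (hE : IsCompact E) (hΘ : Test E Θ) {K : ℂ → ℂ}
    (hK : DifferentiableOn ℂ K Eᶜ)
    (hL2 : IntegrableOn (fun z => ‖deriv K z‖ ^ 2) Eᶜ) {R0 R : ℝ} (hR0 : 0 < R0)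
    (hER : E ⊆ ball 0 R0) (hTR : tsupport Θ ⊆ ball 0 R0) (hR : R0 ≤ R) :
    Cls E Θ (orthoPhi Θ K R) := by
  have hRp : 0 < R := lt_of_lt_of_le hR0 hR
  have hDo : IsOpen Eᶜ := hE.isClosed.isOpen_compl
  have hKs : ContDiffOn ℝ ∞ K Eᶜ := (hK.contDiffOn hDo).restrict_scalars ℝ
  refine ⟨?_, ⟨2 * R, ?_⟩, ?_, ⟨fun _ => 0, contDiff_const, ?_, ?_⟩⟩
  · have h1 : ContDiffOn ℝ ∞ (fun z => (starRingEnd ℂ) (K z)) Eᶜ :=
      Complex.conjCLE.toContinuousLinearMap.contDiff.comp_contDiffOn hKs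
    have h2 : ContDiffOn ℝ ∞ (orthoPsi Θ K) Eᶜ :=
      contDiffOn_const.mul (((orthoLam_contDiff hΘ).contDiffOn.mul hKs).add h1)
    exact (orthoChi_contDiff R).contDiffOn.mul h2
  · intro z hz
    unfold orthoPhi
    rw [orthoChi_zero hRp hz, zero_mul]
  · -- energy
    set a : ℂ → ℂ := fun z => ((2 * ‖fderiv ℝ (orthoChi R) z‖ * ‖K z‖ +
      ‖fderiv ℝ (orthoLam Θ) z‖ * ‖K z‖ : ℝ) : ℂ) with ha
    have hac : ContinuousOn a Eᶜ := by
      have c1 : Continuous (fun z => ‖fderiv ℝ (orthoChi R) z‖) :=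
        ((orthoChi_contDiff R).continuous_fderiv (by simp)).norm
      have c2 : Continuous (fun z => ‖fderiv ℝ (orthoLam Θ) z‖) :=
        ((orthoLam_contDiff hΘ).continuous_fderiv (by simp)).norm
      have c3 : ContinuousOn (fun z => ‖K z‖) Eᶜ := hKs.continuousOn.norm
      have c4 : ContinuousOn (fun z => 2 * ‖fderiv ℝ (orthoChi R) z‖ * ‖K z‖ +
        ‖fderiv ℝ (orthoLam Θ) z‖ * ‖K z‖) Eᶜ :=
        ((continuous_const.mul c1).continuousOn.mul c3).add (c2.continuousOn.mul c3)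
      exact continuous_ofReal.comp_continuousOn c4
    have hazero : ∀ z, fderiv ℝ (orthoChi R) z = 0 → fderiv ℝ (orthoLam Θ) z = 0 → a z = 0 := by
      intro z h1 h2
      rw [ha]
      simp [h1, h2]
    have ha0 : ∀ᶠ z in 𝓝ˢ E, z ∉ E → a z = 0 := by
      have h1 : ∀ᶠ z in 𝓝ˢ E, z ∈ ball (0 : ℂ) R0 :=
        (isOpen_ball.mem_nhdsSet).mpr hER
      filter_upwards [h1, hΘ.lc] with z hz1 hz2 _
      apply hazero z
      · apply orthoChi_fderiv_in hRp
        exact lt_of_lt_of_le (mem_ball_zero_iff.mp hz1) hR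
      · exact orthoLam_fderiv hΘ hz2
    have haR : ∃ R' : ℝ, ∀ z, R' ≤ ‖z‖ → a z = 0 := by
      refine ⟨2 * R + 1, ?_⟩
      intro z hz
      apply hazero z
      · apply orthoChi_fderiv_out hRp; linarith
      · apply orthoLam_fderiv hΘ
        apply fderiv_of_notMem_tsupport
        intro hc
        have := mem_ball_zero_iff.mp (hTR hc)
        linarith
    have hai : IntegrableOn (fun z => a z * a z) Eᶜ := integrableOn_wedge hE hac hac ha0 haR
    have hbd : IntegrableOn (fun z => 2 * ‖a z * a z‖ + 2 * ‖deriv K z‖ ^ 2) Eᶜ :=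
      (hai.norm.const_mul 2).add (hL2.const_mul 2)
    refine Integrable.mono' hbd ?_ ?_
    · exact ((measurable_fderiv ℝ _).norm.pow_const 2).aestronglyMeasurable
    · refine (ae_restrict_iff' hDo.measurableSet).mpr (Filter.Eventually.of_forall ?_)
      intro z hz
      have hKz : DifferentiableAt ℂ K z := (hK z hz).differentiableAt (hDo.mem_nhds hz)
      have h1 := orthoPhi_fderiv hΘ R hKz
      rw [Real.norm_of_nonneg (by positivity)]
      have h2 : ‖a z * a z‖ = (2 * ‖fderiv ℝ (orthoChi R) z‖ * ‖K z‖ +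
          ‖fderiv ℝ (orthoLam Θ) z‖ * ‖K z‖) ^ 2 := by
        rw [ha]
        simp only
        rw [← ofReal_mul, norm_real, Real.norm_of_nonneg (by positivity)]
        ring
      rw [h2]
      set x : ℝ := 2 * ‖fderiv ℝ (orthoChi R) z‖ * ‖K z‖ +
          ‖fderiv ℝ (orthoLam Θ) z‖ * ‖K z‖ with hx
      have hx0 : 0 ≤ x := by rw [hx]; positivity
      have hy0 : 0 ≤ ‖deriv K z‖ := norm_nonneg _
      calc ‖fderiv ℝ (orthoPhi Θ K R) z‖ ^ 2 ≤ (x + ‖deriv K z‖) ^ 2 :=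
            pow_le_pow_left₀ (norm_nonneg _) h1 2
        _ ≤ 2 * x ^ 2 + 2 * ‖deriv K z‖ ^ 2 := by nlinarith [sq_nonneg (x - ‖deriv K z‖)]
  · exact Filter.Eventually.of_forall (fun z => by simp)
  · exact Filter.Eventually.of_forall (fun z _ => orthoPsi_real Θ K R z)

/-! ### the main computation -/

private theorem ortho_wedge (hE : IsCompact E) (hΘ : Test E Θ) {K : ℂ → ℂ}
    (hK : DifferentiableOn ℂ K Eᶜ) {R0 : ℝ} (hTR : tsupport Θ ⊆ ball 0 R0) :
    IntegrableOn (fun z => (deriv K z * K z) * dbar (orthoLam Θ) z) Eᶜ ∧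
      ∫ z in Eᶜ, (deriv K z * K z) * dbar (orthoLam Θ) z = 0 := by
  have hDo : IsOpen Eᶜ := hE.isClosed.isOpen_compl
  have hKs : ContDiffOn ℝ 1 K Eᶜ := (hK.contDiffOn hDo).restrict_scalars ℝ
  have hLs := orthoLam_contDiff hΘ
  have hB0 : ∀ᶠ z in 𝓝ˢ E, z ∉ E → fderiv ℝ (orthoLam Θ) z = 0 := by
    filter_upwards [hΘ.lc] with z hz _
    exact orthoLam_fderiv hΘ hz
  have hBR : ∃ R : ℝ, ∀ z, R ≤ ‖z‖ → fderiv ℝ (orthoLam Θ) z = 0 := by
    refine ⟨R0, fun z hz => ?_⟩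
    apply orthoLam_fderiv hΘ
    apply fderiv_of_notMem_tsupport
    intro hc
    have := mem_ball_zero_iff.mp (hTR hc)
    linarith
  have hzero : ∀ z, fderiv ℝ (orthoLam Θ) z = 0 → dbar (orthoLam Θ) z = 0 := by
    intro z hz
    unfold dbar
    rw [hz]; simp
  refine ⟨?_, ?_⟩
  · apply integrableOn_wedge hE
    · exact ((hK.deriv hDo).continuousOn).mul hK.continuousOn
    · exact (Pool.Lib.continuous_dbar (hLs.of_le (by simp))).continuousOn
    · filter_upwards [hB0] with z hz hzE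
      exact hzero z (hz hzE)
    · obtain ⟨R, hR⟩ := hBR
      exact ⟨R, fun z hz => hzero z (hR z hz)⟩
  · have hA : ContDiffOn ℝ 1 (fun z => 1 / 2 * (K z * K z)) Eᶜ :=
      contDiffOn_const.mul (hKs.mul hKs)
    have hB2 : ContDiff ℝ 2 (orthoLam Θ) := by exact_mod_cast contDiff_infty.mp hLs 2
    have hB : ContDiffOn ℝ 2 (orthoLam Θ) Eᶜ := hB2.contDiffOn
    have h1 := integral_wedge hE hA hB hB0 hBR
    have h2 : ∀ z ∈ Eᶜ, dz (fun z => 1 / 2 * (K z * K z)) z = deriv K z * K z ∧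
        dbar (fun z => 1 / 2 * (K z * K z)) z = 0 := by
      intro z hz
      have hKz : DifferentiableAt ℂ K z := (hK z hz).differentiableAt (hDo.mem_nhds hz)
      have hKK : DifferentiableAt ℂ (fun z => 1 / 2 * (K z * K z)) z :=
        (differentiableAt_const _).mul (hKz.mul hKz)
      refine ⟨?_, Pool.Lib.dbar_eq_zero hKK⟩
      rw [dz_eq_deriv hKK]
      have h3 : HasDerivAt (fun z => 1 / 2 * (K z * K z))
          (1 / 2 * (deriv K z * K z + K z * deriv K z)) z :=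
        ((hKz.hasDerivAt.mul hKz.hasDerivAt).const_mul (1 / 2 : ℂ))
      rw [h3.deriv]
      ring
    rw [setIntegral_congr_fun (g := fun z => (deriv K z * K z) * dbar (orthoLam Θ) z)
      hDo.measurableSet (fun z hz => by simp only [(h2 z hz).1])] at h1
    rw [h1]
    rw [setIntegral_congr_fun (g := fun _ => (0 : ℂ))
      hDo.measurableSet (fun z hz => by simp only [(h2 z hz).2, zero_mul])]
    simp

private theorem ortho_main (hE : IsCompact E) (hΘ : Test E Θ) {K : ℂ → ℂ}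
    (hK : DifferentiableOn ℂ K Eᶜ)
    (hL2 : IntegrableOn (fun z => ‖deriv K z‖ ^ 2) Eᶜ) {R0 C : ℝ} (hR0 : 0 < R0)
    (hER : E ⊆ ball 0 R0) (hTR : tsupport Θ ⊆ ball 0 R0)
    (hC0 : 0 ≤ C) (hKC : ∀ z, R0 ≤ ‖z‖ → ‖K z‖ ≤ C / ‖z‖)
    (hGC : ∀ z, R0 ≤ ‖z‖ → ‖deriv K z‖ ≤ C / ‖z‖ ^ 2)
    (h : ∀ φ : ℂ → ℂ, Cls E Θ φ → (∫ z in Eᶜ, deriv K z * dbar φ z).re = 0) :
    ∃ M : ℝ, ∀ R, R0 < R → ∫ z in Eᶜ, orthoBump ((R⁻¹ : ℝ) • z) * ‖deriv K z‖ ^ 2 ≤ M / R ^ 2 := by
  obtain ⟨M, hM0, hM⟩ := orthoChi_fderiv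
  have hDo : IsOpen Eᶜ := hE.isClosed.isOpen_compl
  have hKs : ContDiffOn ℝ ∞ K Eᶜ := (hK.contDiffOn hDo).restrict_scalars ℝ
  have hLs := orthoLam_contDiff hΘ
  refine ⟨8 * Real.pi * C ^ 2 * M, ?_⟩
  intro R hR
  have hRp : 0 < R := lt_trans hR0 hR
  obtain ⟨w1, w2⟩ := ortho_wedge hE hΘ hK hTR
  have hcls := orthoPhi_cls hE hΘ hK hL2 hR0 hER hTR hR.le
  have h0 := h _ hcls
  -- the three terms
  have hpsic : ContinuousOn (orthoPsi Θ K) Eᶜ := by
    have h1 : ContinuousOn (fun z => (starRingEnd ℂ) (K z)) Eᶜ :=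
      Complex.continuous_conj.comp_continuousOn hKs.continuousOn
    exact continuousOn_const.mul ((hLs.continuous.continuousOn.mul hKs.continuousOn).add h1)
  have hdchi0 : ∀ z, fderiv ℝ (orthoChi R) z = 0 → dbar (orthoChi R) z = 0 := by
    intro z hz
    unfold dbar
    rw [hz]; simp
  have i1 : IntegrableOn (fun z => (deriv K z * orthoPsi Θ K z) * dbar (orthoChi R) z) Eᶜ := by
    apply integrableOn_wedge hE
    · exact ((hK.deriv hDo).continuousOn).mul hpsic
    · exact (Pool.Lib.continuous_dbar ((orthoChi_contDiff R).of_le (by simp))).continuousOn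
    · have h1 : ∀ᶠ z in 𝓝ˢ E, z ∈ ball (0 : ℂ) R0 := (isOpen_ball.mem_nhdsSet).mpr hER
      filter_upwards [h1] with z hz _
      apply hdchi0
      apply orthoChi_fderiv_in hRp
      exact lt_trans (mem_ball_zero_iff.mp hz) hR
    · refine ⟨2 * R + 1, fun z hz => ?_⟩
      apply hdchi0
      apply orthoChi_fderiv_out hRp; linarith
  have i3 : IntegrableOn (fun z => orthoBump ((R⁻¹ : ℝ) • z) * ‖deriv K z‖ ^ 2) Eᶜ := by
    refine Integrable.mono' hL2 ?_ ?_
    · have c1 : Continuous (fun z : ℂ => (orthoBump ((R⁻¹ : ℝ) • z) : ℝ)) :=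
        orthoBump.continuous.comp (continuous_const_smul _)
      exact c1.aestronglyMeasurable.mul hL2.aestronglyMeasurable
    · refine Filter.Eventually.of_forall (fun z => ?_)
      have b1 := orthoChi_nonneg R z
      have b2 := orthoChi_le_one R z
      rw [Real.norm_of_nonneg (by positivity)]
      calc orthoBump ((R⁻¹ : ℝ) • z) * ‖deriv K z‖ ^ 2 ≤ 1 * ‖deriv K z‖ ^ 2 :=
            mul_le_mul_of_nonneg_right b2 (by positivity)
        _ = ‖deriv K z‖ ^ 2 := one_mul _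
  have i3' : IntegrableOn (fun z => ((orthoBump ((R⁻¹ : ℝ) • z) * ‖deriv K z‖ ^ 2 : ℝ) : ℂ)) Eᶜ :=
    i3.ofReal
  have hpt : ∀ z ∈ Eᶜ, deriv K z * dbar (orthoPhi Θ K R) z =
      (deriv K z * orthoPsi Θ K z) * dbar (orthoChi R) z +
        1 / 2 * ((deriv K z * K z) * dbar (orthoLam Θ) z) +
        1 / 2 * ((orthoBump ((R⁻¹ : ℝ) • z) * ‖deriv K z‖ ^ 2 : ℝ) : ℂ) := by
    intro z hz
    have hKz : DifferentiableAt ℂ K z := (hK z hz).differentiableAt (hDo.mem_nhds hz)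
    rw [orthoPhi_dbar hΘ R hKz]
    have e1 : deriv K z * (starRingEnd ℂ) (deriv K z) = ((‖deriv K z‖ ^ 2 : ℝ) : ℂ) := by
      rw [mul_conj, normSq_eq_norm_sq]
    have e2 : orthoChi R z * dbar (orthoLam Θ) z = dbar (orthoLam Θ) z := by
      by_cases hzr : ‖z‖ ≤ R
      · rw [orthoChi_one hRp hzr, one_mul]
      · have h3 : fderiv ℝ (orthoLam Θ) z = 0 := by
          apply orthoLam_fderiv hΘ
          apply fderiv_of_notMem_tsupport
          intro hc
          have := mem_ball_zero_iff.mp (hTR hc)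
          push Not at hzr
          linarith
        have h4 : dbar (orthoLam Θ) z = 0 := by
          unfold dbar; rw [h3]; simp
        rw [h4, mul_zero]
    have e3 : orthoChi R z = ((orthoBump ((R⁻¹ : ℝ) • z) : ℝ) : ℂ) := rfl
    push_cast
    have e1' : deriv K z * (starRingEnd ℂ) (deriv K z) = (‖deriv K z‖ : ℂ) ^ 2 := by
      rw [e1]; push_cast; rfl
    rw [← e1', ← e3]
    linear_combination (1 / 2 * (deriv K z * K z)) * e2
  have hsum : ∫ z in Eᶜ, deriv K z * dbar (orthoPhi Θ K R) z =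
      (∫ z in Eᶜ, (deriv K z * orthoPsi Θ K z) * dbar (orthoChi R) z) +
        1 / 2 * ((∫ z in Eᶜ, orthoBump ((R⁻¹ : ℝ) • z) * ‖deriv K z‖ ^ 2 : ℝ) : ℂ) := by
    rw [setIntegral_congr_fun hDo.measurableSet hpt]
    have j1 : IntegrableOn (fun z => 1 / 2 * ((deriv K z * K z) * dbar (orthoLam Θ) z)) Eᶜ :=
      w1.const_mul _
    have j2 : IntegrableOn (fun z => 1 / 2 *
      ((orthoBump ((R⁻¹ : ℝ) • z) * ‖deriv K z‖ ^ 2 : ℝ) : ℂ)) Eᶜ := i3'.const_mul _
    have s1 : ∫ z in Eᶜ, ((deriv K z * orthoPsi Θ K z) * dbar (orthoChi R) z +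
        1 / 2 * ((deriv K z * K z) * dbar (orthoLam Θ) z) +
        1 / 2 * ((orthoBump ((R⁻¹ : ℝ) • z) * ‖deriv K z‖ ^ 2 : ℝ) : ℂ)) =
        (∫ z in Eᶜ, ((deriv K z * orthoPsi Θ K z) * dbar (orthoChi R) z +
        1 / 2 * ((deriv K z * K z) * dbar (orthoLam Θ) z))) + ∫ z in Eᶜ,
        1 / 2 * ((orthoBump ((R⁻¹ : ℝ) • z) * ‖deriv K z‖ ^ 2 : ℝ) : ℂ) :=
      integral_add (i1.add j1) j2
    have s2 : ∫ z in Eᶜ, ((deriv K z * orthoPsi Θ K z) * dbar (orthoChi R) z +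
        1 / 2 * ((deriv K z * K z) * dbar (orthoLam Θ) z)) =
        (∫ z in Eᶜ, (deriv K z * orthoPsi Θ K z) * dbar (orthoChi R) z) +
        ∫ z in Eᶜ, 1 / 2 * ((deriv K z * K z) * dbar (orthoLam Θ) z) :=
      integral_add i1 j1
    rw [s1, s2, integral_const_mul, integral_const_mul, w2, mul_zero, add_zero, integral_complex_ofReal]
  rw [hsum] at h0
  set T : ℂ := ∫ z in Eᶜ, (deriv K z * orthoPsi Θ K z) * dbar (orthoChi R) z with hT
  set J : ℝ := ∫ z in Eᶜ, orthoBump ((R⁻¹ : ℝ) • z) * ‖deriv K z‖ ^ 2 with hJ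
  have h0' : T.re + 1 / 2 * J = 0 := by
    have : (T + 1 / 2 * (J : ℂ)).re = T.re + 1 / 2 * J := by
      simp
    rw [← this]; exact h0
  -- the bound of the error term
  have hTb : ‖T‖ ≤ 4 * Real.pi * C ^ 2 * M / R ^ 2 := by
    have b1 : ‖T‖ ≤ ∫ z in Eᶜ, (closedBall (0 : ℂ) (2 * R)).indicator
        (fun _ => C ^ 2 * M / R ^ 4) z := by
      rw [hT]
      refine norm_integral_le_of_norm_le ?_ ?_
      · apply Integrable.integrableOn
        apply (integrable_indicator_iff measurableSet_closedBall).mpr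
        exact integrableOn_const (by
          exact (isCompact_closedBall _ _).measure_lt_top.ne) (by simp)
      · refine (ae_restrict_iff' hDo.measurableSet).mpr (Filter.Eventually.of_forall ?_)
        intro z hz
        by_cases hz2 : z ∈ closedBall (0 : ℂ) (2 * R)
        · rw [indicator_of_mem hz2]
          by_cases hz1 : ‖z‖ < R
          · rw [hdchi0 z (orthoChi_fderiv_in hRp hz1), mul_zero, norm_zero]
            positivity
          · push Not at hz1
            have hzp : 0 < ‖z‖ := lt_of_lt_of_le hRp hz1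
            have hR0z : R0 ≤ ‖z‖ := le_trans hR.le hz1
            rw [norm_mul, norm_mul]
            have c1 : ‖deriv K z‖ ≤ C / R ^ 2 := by
              refine (hGC z hR0z).trans ?_
              apply div_le_div_of_nonneg_left hC0 (by positivity)
              exact pow_le_pow_left₀ hRp.le hz1 2
            have c2 : ‖orthoPsi Θ K z‖ ≤ C / R := by
              refine (orthoPsi_norm _ _ _).trans ((hKC z hR0z).trans ?_)
              exact div_le_div_of_nonneg_left hC0 hRp hz1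
            have c3 : ‖dbar (orthoChi R) z‖ ≤ M / R :=
              (norm_dbar_le _ _).trans (hM R hRp z)
            calc ‖deriv K z‖ * ‖orthoPsi Θ K z‖ * ‖dbar (orthoChi R) z‖
                ≤ (C / R ^ 2) * (C / R) * (M / R) := by
                  apply mul_le_mul (mul_le_mul c1 c2 (norm_nonneg _) (by positivity)) c3
                    (norm_nonneg _) (by positivity)
              _ = C ^ 2 * M / R ^ 4 := by field_simp
        · rw [indicator_of_notMem hz2]
          have : 2 * R < ‖z‖ := by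
            rw [mem_closedBall_zero_iff] at hz2
            exact not_le.mp hz2
          rw [hdchi0 z (orthoChi_fderiv_out hRp this), mul_zero, norm_zero]
    have b2 : ∫ z in Eᶜ, (closedBall (0 : ℂ) (2 * R)).indicator
        (fun _ => C ^ 2 * M / R ^ 4) z ≤
        ∫ z, (closedBall (0 : ℂ) (2 * R)).indicator (fun _ => C ^ 2 * M / R ^ 4) z := by
      apply setIntegral_le_integral
      · apply (integrable_indicator_iff measurableSet_closedBall).mpr
        exact integrableOn_const (by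
          exact (isCompact_closedBall _ _).measure_lt_top.ne) (by simp)
      · refine Filter.Eventually.of_forall (fun z => ?_)
        apply indicator_nonneg
        intro _ _
        positivity
    have b3 : ∫ z, (closedBall (0 : ℂ) (2 * R)).indicator (fun _ => C ^ 2 * M / R ^ 4) z
        = (4 * Real.pi * R ^ 2) * (C ^ 2 * M / R ^ 4) := by
      rw [integral_indicator_const _ measurableSet_closedBall, smul_eq_mul]
      congr 1
      rw [Measure.real, Complex.volume_closedBall]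
      rw [ENNReal.toReal_mul, ENNReal.toReal_pow, ENNReal.toReal_ofReal (by positivity)]
      simp
      ring
    calc ‖T‖ ≤ (4 * Real.pi * R ^ 2) * (C ^ 2 * M / R ^ 4) := by
          rw [← b3]; exact b1.trans b2
      _ = 4 * Real.pi * C ^ 2 * M / R ^ 2 := by field_simp
  have hre : |T.re| ≤ ‖T‖ := abs_re_le_norm T
  have hre' : -T.re ≤ ‖T‖ := le_trans (neg_le_abs _) hre
  calc J = 2 * (-T.re) := by linarith
    _ ≤ 2 * (4 * Real.pi * C ^ 2 * M / R ^ 2) := by linarith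
    _ = 8 * Real.pi * C ^ 2 * M / R ^ 2 := by ring

theorem ortho (hE : IsCompact E) (hD : IsConnected Eᶜ) (hΘ : Test E Θ) {G : ℂ → ℂ}
    (hG : MemLp G 2 (volume.restrict Eᶜ))
    (h : ∀ φ : ℂ → ℂ, Cls E Θ φ → (∫ z in Eᶜ, G z * dbar φ z).re = 0) :
    G =ᵐ[volume.restrict Eᶜ] 0 := by
  have hDo : IsOpen Eᶜ := hE.isClosed.isOpen_compl
  -- step 1
  have hloc : LocallyIntegrableOn G Eᶜ := by
    apply locallyIntegrableOn_of_locallyIntegrable_restrict
    exact hG.locallyIntegrable (by norm_num)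
  have hweak : ∀ χ : ℂ → ℂ, Test E χ → ∫ z in Eᶜ, G z * dbar χ z = 0 := by
    intro χ hχ
    have h1 := h χ (Cls.of_test hE hΘ hχ)
    have hχI : Test E (fun z => I * χ z) := by
      refine ⟨contDiff_const.mul hχ.smooth, hχ.comp.mul_left, ?_⟩
      have hlc : ∀ᶠ z in 𝓝ˢ E, fderiv ℝ χ z = 0 := hχ.lc
      show ∀ᶠ z in 𝓝ˢ E, fderiv ℝ (fun z => I * χ z) z = 0
      filter_upwards [hlc] with z hz
      have hd : DifferentiableAt ℝ χ z := (hχ.smooth.differentiable (by simp)) z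
      rw [fderiv_const_mul hd, hz, smul_zero]
    have h2 := h _ (Cls.of_test hE hΘ hχI)
    have h3 : ∀ z, G z * dbar (fun z => I * χ z) z = I * (G z * dbar χ z) := by
      intro z
      have hd : DifferentiableAt ℝ χ z := (hχ.smooth.differentiable (by simp)) z
      rw [dbar_mul (differentiableAt_const _) hd,
        Pool.Lib.dbar_eq_zero (differentiableAt_const _)]
      ring
    simp only [h3] at h2
    rw [integral_const_mul] at h2
    apply Complex.ext
    · simpa using h1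
    · simp at h2
      simpa using h2
  obtain ⟨K0, hK0, hGK⟩ := exists_primitive_of_weak hE hloc hweak
  -- step 2
  obtain ⟨R0, hR0, hsub⟩ := (hE.union (show IsCompact (tsupport Θ) from hΘ.comp)).isBounded.subset_ball_lt 0 0
  have hER : E ⊆ ball 0 R0 := subset_union_left.trans hsub
  have hTR : tsupport Θ ⊆ ball 0 R0 := subset_union_right.trans hsub
  have hL2 : IntegrableOn (fun z => ‖deriv K0 z‖ ^ 2) Eᶜ := by
    have h1 : Integrable (fun z => ‖G z‖ ^ 2) (volume.restrict Eᶜ) := hG.integrable_norm_pow (by norm_num)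
    refine h1.congr ?_
    filter_upwards [hGK] with z hz
    rw [hz]
  have hsubD : {z : ℂ | R0 < ‖z‖} ⊆ Eᶜ := by
    intro z hz hzE
    have := mem_ball_zero_iff.mp (hER hzE)
    have hz' : R0 < ‖z‖ := hz
    linarith
  set A : ℝ := Real.sqrt (∫ z in {z : ℂ | R0 < ‖z‖}, ‖deriv K0 z‖ ^ 2) with hA
  have hA0 : 0 ≤ A := Real.sqrt_nonneg _
  have hAsq : ∫ z in {z : ℂ | R0 < ‖z‖}, ‖deriv K0 z‖ ^ 2 ≤ A ^ 2 := by
    rw [hA, Real.sq_sqrt]
    apply integral_nonneg
    intro z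
    positivity
  have hdec : ∀ z : ℂ, 2 * R0 ≤ ‖z‖ → ‖deriv K0 z‖ ≤ 4 * R0 * A / ‖z‖ ^ 2 := by
    intro z hz
    exact decay hR0 hA0 ((hK0.deriv hDo).mono hsubD) (hL2.mono_set hsubD) hAsq hz
  obtain ⟨c, hc⟩ := exists_limit (f := K0) (F := deriv K0) (R := 2 * R0) (C := 4 * R0 * A)
    (by linarith) (by
      intro z hz
      have hzD : z ∈ Eᶜ := hsubD (show R0 < ‖z‖ by linarith)
      exact ((hK0 z hzD).differentiableAt (hDo.mem_nhds hzD)).hasDerivAt) (by
      intro z hz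
      exact hdec z hz.le)
  set K : ℂ → ℂ := fun z => K0 z - c with hKdef
  have hKd : deriv K = deriv K0 := by
    funext z
    rw [hKdef]
    exact deriv_sub_const c
  have hK : DifferentiableOn ℂ K Eᶜ := hK0.sub_const c
  have hmain := ortho_main hE hΘ hK (by rw [hKd]; exact hL2) (R0 := 3 * R0) (C := 4 * R0 * A)
    (by linarith) (hER.trans (ball_subset_ball (by linarith)))
    (hTR.trans (ball_subset_ball (by linarith))) (by positivity)
    (by
      intro z hz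
      exact hc z (by linarith))
    (by
      intro z hz
      rw [hKd]
      exact hdec z (by linarith))
    (by
      intro φ hφ
      rw [hKd, ← h φ hφ]
      congr 1
      apply integral_congr_ae
      filter_upwards [hGK] with z hz
      rw [hz])
  rw [hKd] at hmain
  obtain ⟨M, hM⟩ := hmain
  -- step 3
  have hball : ∀ n : ℕ, ∫ z in Eᶜ ∩ closedBall 0 n, ‖deriv K0 z‖ ^ 2 = 0 := by
    intro n
    have hnn : 0 ≤ ∫ z in Eᶜ ∩ closedBall 0 n, ‖deriv K0 z‖ ^ 2 :=
      integral_nonneg (fun z => by positivity)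
    refine le_antisymm ?_ hnn
    have hle : ∀ᶠ R : ℝ in atTop, ∫ z in Eᶜ ∩ closedBall 0 n, ‖deriv K0 z‖ ^ 2 ≤ M / R ^ 2 := by
      filter_upwards [eventually_gt_atTop (3 * R0), eventually_ge_atTop (n : ℝ)] with R hR1 hR2
      have hRp : 0 < R := by linarith
      refine le_trans ?_ (hM R hR1)
      have hint : IntegrableOn (fun z => orthoBump ((R⁻¹ : ℝ) • z) * ‖deriv K0 z‖ ^ 2) Eᶜ := by
        refine Integrable.mono' hL2 ?_ ?_
        · have c1 : Continuous (fun z : ℂ => (orthoBump ((R⁻¹ : ℝ) • z) : ℝ)) :=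
            orthoBump.continuous.comp (continuous_const_smul _)
          exact c1.aestronglyMeasurable.mul hL2.aestronglyMeasurable
        · refine Filter.Eventually.of_forall (fun z => ?_)
          have b1 := orthoChi_nonneg R z
          have b2 := orthoChi_le_one R z
          rw [Real.norm_of_nonneg (by positivity)]
          calc orthoBump ((R⁻¹ : ℝ) • z) * ‖deriv K0 z‖ ^ 2 ≤ 1 * ‖deriv K0 z‖ ^ 2 :=
                mul_le_mul_of_nonneg_right b2 (by positivity)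
            _ = ‖deriv K0 z‖ ^ 2 := one_mul _
      calc ∫ z in Eᶜ ∩ closedBall 0 n, ‖deriv K0 z‖ ^ 2
          = ∫ z in Eᶜ ∩ closedBall 0 n, orthoBump ((R⁻¹ : ℝ) • z) * ‖deriv K0 z‖ ^ 2 := by
            apply setIntegral_congr_fun (hDo.measurableSet.inter measurableSet_closedBall)
            intro z hz
            have hzn : ‖z‖ ≤ R := (mem_closedBall_zero_iff.mp hz.2).trans hR2
            have h1 := orthoChi_one hRp hzn
            have h2 : (orthoBump ((R⁻¹ : ℝ) • z) : ℝ) = 1 := by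
              unfold orthoChi at h1
              exact_mod_cast h1
            simp only [h2, one_mul]
        _ ≤ ∫ z in Eᶜ, orthoBump ((R⁻¹ : ℝ) • z) * ‖deriv K0 z‖ ^ 2 := by
            apply setIntegral_mono_set hint
            · refine Filter.Eventually.of_forall (fun z => ?_)
              exact mul_nonneg (orthoChi_nonneg R z) (by positivity)
            · exact Filter.Eventually.of_forall (fun z hz => hz.1)
    have hlim : Tendsto (fun R : ℝ => M / R ^ 2) atTop (𝓝 0) :=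
      tendsto_const_nhds.div_atTop (tendsto_pow_atTop (by norm_num))
    exact ge_of_tendsto hlim hle
  have hae : ∀ n : ℕ, ∀ᵐ z, z ∈ Eᶜ ∩ closedBall (0 : ℂ) n → deriv K0 z = 0 := by
    intro n
    have hms : MeasurableSet (Eᶜ ∩ closedBall (0 : ℂ) n) :=
      hDo.measurableSet.inter measurableSet_closedBall
    have h1 := (setIntegral_eq_zero_iff_of_nonneg_ae (μ := volume)
      (f := fun z => ‖deriv K0 z‖ ^ 2)
      (Filter.Eventually.of_forall fun z => by positivity)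
      (hL2.mono_set inter_subset_left)).mp (hball n)
    have h2 := (ae_restrict_iff' hms).mp h1
    filter_upwards [h2] with z hz hzm
    have := hz hzm
    simpa using this
  have hall : ∀ᵐ z, ∀ n : ℕ, z ∈ Eᶜ ∩ closedBall (0 : ℂ) n → deriv K0 z = 0 := ae_all_iff.mpr hae
  have hfin : deriv K0 =ᵐ[volume.restrict Eᶜ] 0 := by
    refine (ae_restrict_iff' hDo.measurableSet).mpr ?_
    filter_upwards [hall] with z hz hzD
    obtain ⟨n, hn⟩ := exists_nat_ge ‖z‖
    exact hz n ⟨hzD, mem_closedBall_zero_iff.mpr hn⟩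
  exact hGK.trans hfin

end Pool.Recti
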