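import Mathlib

/-!
# The flattening functions `φ`

PROOFS.
* `exists_phi`: choose an open `O ⊇ Z` with `volume O ≤ δ` (outer regularity), a smooth
  `η : ℝ → [0,1]` with `η = 0` near `Z`, `η = 1` on `Oᶜ` (near `Z`: use a closed neighbourhood of `Z` inside `O`),
  `φ t = ∫ s in 0..t, η s`; `|φ t - t| ≤ ∫_O |1 - η| ≤ δ`.
* `finite_image_of_deriv_eq_zero`: `φ` is locally constant near each point of the compact set `Z`.
-/

set_option autoImplicit false

open MeasureTheory Set Filter Topology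
open scoped ContDiff

namespace Pool.Recti

theorem exists_phi {Z : Set ℝ} (hZ : IsCompact Z) (h0 : volume Z = 0) {δ : ℝ} (hδ : 0 < δ) :
    ∃ φ : ℝ → ℝ, ContDiff ℝ ∞ φ ∧ (∀ t, 0 ≤ deriv φ t ∧ deriv φ t ≤ 1) ∧
      (∀ᶠ t in 𝓝ˢ Z, deriv φ t = 0) ∧ ∀ t, |φ t - t| ≤ δ := by
  obtain ⟨O, hZO, hO, hOv⟩ := Z.exists_isOpen_lt_of_lt (ENNReal.ofReal δ)
    (by rw [h0]; exact ENNReal.ofReal_pos.2 hδ)
  obtain ⟨f, hf0, hf1, hf⟩ := exists_contMDiffMap_zero_one_nhds_of_isClosed
    (modelWithCornersSelf ℝ ℝ) (n := ⊤) hZ.isClosed hO.isClosed_compl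
    (disjoint_compl_right_iff_subset.2 hZO)
  have hfs : ContDiff ℝ ∞ (fun t => f t) := f.contMDiff.contDiff
  have hfc : Continuous (fun t => f t) := hfs.continuous
  have hd : ∀ t, HasDerivAt (fun t => ∫ s in (0 : ℝ)..t, f s) (f t) t := fun t =>
    (hfc.integral_hasStrictDerivAt 0 t).hasDerivAt
  have hde : deriv (fun t => ∫ s in (0 : ℝ)..t, f s) = fun t => f t := by
    funext t
    exact (hd t).deriv
  refine ⟨fun t => ∫ s in (0 : ℝ)..t, f s, ?_, ?_, ?_, ?_⟩
  · rw [contDiff_infty_iff_deriv]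
    refine ⟨fun t => (hd t).differentiableAt, ?_⟩
    rw [hde]
    exact hfs
  · intro t
    rw [hde]
    exact ⟨(hf t).1, (hf t).2⟩
  · filter_upwards [hf0] with t ht
    rw [hde]
    exact ht
  · intro t
    have e1 : (∫ s in (0 : ℝ)..t, f s) - t = ∫ s in (0 : ℝ)..t, (f s - 1) := by
      rw [intervalIntegral.integral_sub (hfc.intervalIntegrable _ _)
        intervalIntegrable_const]
      simp
    show |(∫ s in (0 : ℝ)..t, f s) - t| ≤ δ
    rw [e1, ← Real.norm_eq_abs]
    have hOfin : volume O ≠ ⊤ := (hOv.trans ENNReal.ofReal_lt_top).ne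
    have hle : ∀ s, ‖f s - 1‖ ≤ O.indicator (fun _ => (1 : ℝ)) s := by
      intro s
      by_cases hs : s ∈ O
      · rw [indicator_of_mem hs, Real.norm_eq_abs, abs_le]
        have := hf s
        constructor <;> linarith [this.1, this.2]
      · rw [indicator_of_notMem hs, hf1.self_of_nhdsSet s hs, sub_self, norm_zero]
    have hint : Integrable (O.indicator (fun _ => (1 : ℝ))) :=
      (integrable_indicator_iff hO.measurableSet).2 (integrableOn_const hOfin)
    calc ‖∫ s in (0 : ℝ)..t, (f s - 1)‖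
        ≤ ∫ s in uIoc (0 : ℝ) t, ‖f s - 1‖ := intervalIntegral.norm_integral_le_integral_norm_uIoc
      _ ≤ ∫ s in uIoc (0 : ℝ) t, O.indicator (fun _ => (1 : ℝ)) s := by
          refine setIntegral_mono ?_ hint.integrableOn hle
          exact ((hfc.sub continuous_const).norm.intervalIntegrable 0 t).def'
      _ ≤ ∫ s, O.indicator (fun _ => (1 : ℝ)) s := by
          refine setIntegral_le_integral hint (Eventually.of_forall fun s => ?_)
          exact indicator_nonneg (fun _ _ => zero_le_one) s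
      _ = volume.real O := by
          rw [integral_indicator hO.measurableSet]
          simp
      _ ≤ δ := by
          have := ENNReal.toReal_mono ENNReal.ofReal_ne_top hOv.le
          rwa [ENNReal.toReal_ofReal hδ.le] at this

theorem finite_image_of_deriv_eq_zero {Z : Set ℝ} (hZ : IsCompact Z) {φ : ℝ → ℝ}
    (hφ : ContDiff ℝ ∞ φ) (h : ∀ᶠ t in 𝓝ˢ Z, deriv φ t = 0) : (φ '' Z).Finite := by
  have hd : Differentiable ℝ φ := (contDiff_infty_iff_deriv.1 hφ).1
  have h1 : ∀ x ∈ Z, {y | φ y = φ x} ∈ 𝓝 x := by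
    intro x hx
    have h2 : ∀ᶠ t in 𝓝 x, deriv φ t = 0 := h.filter_mono (nhds_le_nhdsSet hx)
    obtain ⟨ε, hε, hb⟩ := Metric.eventually_nhds_iff_ball.1 h2
    refine mem_of_superset (Metric.ball_mem_nhds x hε) (fun y hy => ?_)
    exact (Metric.isOpen_ball.is_const_of_deriv_eq_zero (convex_ball x ε).isPreconnected
      hd.differentiableOn (fun z hz => hb z hz) hy (Metric.mem_ball_self hε))
  obtain ⟨t, ht⟩ := hZ.elim_nhds_subcover' (fun x _ => {y | φ y = φ x}) h1
  refine (t.finite_toSet.image (fun x : Z => φ x)).subset ?_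
  rintro z ⟨y, hy, rfl⟩
  obtain ⟨x, hx⟩ := mem_iUnion.1 (ht hy)
  obtain ⟨hx1, hx2⟩ := mem_iUnion.1 hx
  exact ⟨x, hx1, hx2.symm⟩

end Pool.Recti
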