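import Pool.Agent.Recti.Degree
import Pool.Agent.Lib.Conformal

set_option autoImplicit false

open Complex MeasureTheory Set Filter Topology Metric
open scoped ContDiff

/-!
# The variational map is univalent

PROOF of `injOn_of_app`.  Let `D = Eᶜ`.
Step 1: for smooth compactly supported `a, b : ℝ → ℝ`, `a, b ≥ 0`, and `Q ⊆ D` compact,
`∫_Q a (re f) b (im f) ‖deriv f‖² ≤ (∫ a) (∫ b)`.
For `ε > 0` take `g` with `App E Θ f Q' ε g`, where `Q'` is a compact neighbourhood of `Q` in `D` (so `g = f`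
near each point of `Q` and `jac g = jac f = ‖deriv f‖²` on `Q`).
On `D`, `dbar g = dbar (g - f)` (`f` is holomorphic), so `∫_D ‖dbar g‖² ≤ ε` (`norm_dbar_le`).
`jac g ≥ - ‖dbar g‖²` (`jac_eq`), so with `m = sup a * sup b`
`∫_Q a b ‖f'‖² ≤ ∫_D a(re g) b(im g) jac g + m ∫_D ‖dbar g‖² ≤ (∫ a)(∫ b) + m ε` by `degree`.
Step 2: suppose `z1 ≠ z2` in `D` with `f z1 = f z2 = p`.  `f` is not constant on `D` (because of
`f z - z → 0`), `D` is connected, so `deriv f` has isolated zeros (`deriv f` is not identically zero) and `f` is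
open.  The image under `f` of the zero set of `deriv f` is countable (or: choose `p'` close to `p` which
is not the image of a critical point in small closed discs around `z1`, `z2`).  So we may assume in addition
`deriv f z1 ≠ 0 ≠ deriv f z2`: `f (ball z1 r) ∩ f (ball z2 r)` is an open neighbourhood of `p`.
Then there are disjoint open `B1 ∋ z1`, `B2 ∋ z2`, relatively compact in `D`, on which `f` is injective, and
a square `S` around `p` (interior) contained in `f B1 ∩ f B2`.  Choose bump functions `a, b`, with integral `1`, such that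
`a(re) b(im)` is supported in `S`.  By the change of variables formula
(`MeasureTheory.integral_image_eq_integral_abs_det_fderiv_smul` or the `lintegral` version; the
determinant of multiplication by `f'` on `ℂ` over `ℝ` is `‖f'‖²`) `∫_{B_j} a b ‖f'‖² = ∫_{f B_j} a b = 1`.
So `∫_Q ≥ 2` with `Q = closure (B1 ∪ B2)`: contradiction.
-/

namespace Pool.Recti

open Pool.Lib (dbar)

variable {E : Set ℂ} {Θ : ℂ → ℝ}

theorem Univ_fderiv {F : ℂ → ℂ} {z : ℂ} (h : DifferentiableAt ℂ F z) :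
    HasFDerivAt F ((ContinuousLinearMap.toSpanSingleton ℂ (deriv F z)).restrictScalars ℝ) z :=
  (h.hasDerivAt.hasFDerivAt).restrictScalars ℝ

theorem Univ_det (a : ℂ) :
    ((ContinuousLinearMap.toSpanSingleton ℂ a : ℂ →L[ℂ] ℂ).restrictScalars ℝ).det = ‖a‖ ^ 2 := by
  simp [ContinuousLinearMap.det, LinearMap.det_restrictScalars, Algebra.norm_complex_eq,
    Complex.normSq_eq_norm_sq]

/-- local injectivity at points with non vanishing derivative -/
theorem Univ_local {F : ℂ → ℂ} {z : ℂ} {U : Set ℂ} (hU : IsOpen U) (hz : z ∈ U)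
    (hd : DifferentiableOn ℂ F U) (hz' : deriv F z ≠ 0) :
    ∃ V ⊆ U, IsOpen V ∧ z ∈ V ∧ InjOn F V ∧ F '' V ∈ 𝓝 (F z) := by
  have han : AnalyticAt ℂ F z := hd.analyticAt (hU.mem_nhds hz)
  have hs : HasStrictDerivAt F (deriv F z) z := han.hasStrictDerivAt
  have hs' := hs.hasStrictFDerivAt_equiv hz'
  let e := hs'.toOpenPartialHomeomorph F
  have hze : z ∈ e.source := hs'.mem_toOpenPartialHomeomorph_source
  have hco : (e : ℂ → ℂ) = F := hs'.toOpenPartialHomeomorph_coe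
  refine ⟨e.source ∩ U, inter_subset_right, e.open_source.inter hU, ⟨hze, hz⟩, ?_, ?_⟩
  · rw [← hco]
    exact e.injOn.mono inter_subset_left
  · rw [← hco]
    exact (e.isOpen_image_of_subset_source (e.open_source.inter hU) inter_subset_left).mem_nhds
      ⟨z, ⟨hze, hz⟩, rfl⟩

theorem Univ_change {F : ℂ → ℂ} {V : Set ℂ} (hV : IsOpen V) (hd : DifferentiableOn ℂ F V)
    (hi : InjOn F V) (g : ℂ → ℝ) :
    ∫ w in F '' V, g w = ∫ z in V, g (F z) * ‖deriv F z‖ ^ 2 := by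
  rw [integral_image_eq_integral_abs_det_fderiv_smul volume hV.measurableSet
    (fun x hx => (Univ_fderiv (hd.differentiableAt (hV.mem_nhds hx))).hasFDerivWithinAt) hi g]
  refine setIntegral_congr_fun hV.measurableSet fun z _ => ?_
  simp only [Univ_det, smul_eq_mul]
  rw [abs_of_nonneg (by positivity), mul_comm]

/-- The area inequality. -/
theorem Univ_area (hE : IsCompact E) (hΘ : Test E Θ) {f : ℂ → ℂ}
    (hf : DifferentiableOn ℂ f Eᶜ)
    (happ : ∀ Q : Set ℂ, IsCompact Q → Q ⊆ Eᶜ → ∀ ε : ℝ, 0 < ε → ∃ g : ℂ → ℂ, App E Θ f Q ε g)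
    {a b : ℝ → ℝ} (ha : ContDiff ℝ ∞ a) (hb : ContDiff ℝ ∞ b) (ca : HasCompactSupport a)
    (cb : HasCompactSupport b) (ha0 : ∀ x, 0 ≤ a x) (hb0 : ∀ x, 0 ≤ b x) {Q : Set ℂ}
    (hQ : IsCompact Q) (hQE : Q ⊆ Eᶜ) :
    ∫ z in Q, a (f z).re * b (f z).im * ‖deriv f z‖ ^ 2 ≤ (∫ x, a x) * ∫ y, b y := by
  have hEo : IsOpen Eᶜ := hE.isClosed.isOpen_compl
  obtain ⟨ma, hma⟩ := ca.exists_bound_of_continuous ha.continuous
  obtain ⟨mb, hmb⟩ := cb.exists_bound_of_continuous hb.continuous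
  have hma0 : 0 ≤ ma := (norm_nonneg _).trans (hma 0)
  have hmb0 : 0 ≤ mb := (norm_nonneg _).trans (hmb 0)
  set m : ℝ := ma * mb with hm
  have hm0 : 0 ≤ m := mul_nonneg hma0 hmb0
  have hFm : ∀ ζ : ℂ, a ζ.re * b ζ.im ≤ m := fun ζ =>
    mul_le_mul ((le_abs_self _).trans (hma _)) ((le_abs_self _).trans (hmb _)) (hb0 _) hma0
  have hF0 : ∀ ζ : ℂ, 0 ≤ a ζ.re * b ζ.im := fun ζ => mul_nonneg (ha0 _) (hb0 _)
  obtain ⟨Q', hQ'c, hQQ', hQ'E⟩ := exists_compact_between hQ hEo hQE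
  have key : ∀ ε : ℝ, 0 < ε →
      ∫ z in Q, a (f z).re * b (f z).im * ‖deriv f z‖ ^ 2 ≤ (∫ x, a x) * (∫ y, b y) + m * ε := by
    intro ε hε
    obtain ⟨g, hg⟩ := happ Q' hQ'c hQ'E ε hε
    have hdeg := degree hE hΘ hg.smooth hg.frame hg.infty ha hb ca cb
    have hint := integrableOn_degree hE hΘ hg.smooth hg.frame hg.infty ha hb ca cb
    have hfd : ∀ z ∈ Eᶜ, DifferentiableAt ℂ f z := fun z hz =>
      hf.differentiableAt (hEo.mem_nhds hz)
    have hgd : ∀ z ∈ Eᶜ, DifferentiableAt ℝ g z := fun z hz =>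
      (hg.smooth.contDiffAt (hEo.mem_nhds hz)).differentiableAt (by simp)
    have hdb : ∀ z ∈ Eᶜ, ‖dbar g z‖ ^ 2 ≤ ‖fderiv ℝ (fun w => g w - f w) z‖ ^ 2 := fun z hz => by
      have h1 : fderiv ℝ (fun w => g w - f w) z = fderiv ℝ g z - fderiv ℝ f z :=
        fderiv_fun_sub (hgd z hz) ((hfd z hz).restrictScalars ℝ)
      have h2 : dbar (fun w => g w - f w) z = dbar g z - dbar f z := by
        unfold Pool.Lib.dbar
        rw [h1]
        simp only [_root_.sub_apply]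
        ring
      have h3 : dbar g z = dbar (fun w => g w - f w) z := by
        rw [h2, Pool.Lib.dbar_eq_zero (hfd z hz), sub_zero]
      rw [h3]
      have := norm_dbar_le (fun w => g w - f w) z
      gcongr
    have hcd : ContinuousOn (fun z => ‖dbar g z‖ ^ 2) Eᶜ := by
      have h1 : ContinuousOn (fun z => fderiv ℝ g z) Eᶜ :=
        hg.smooth.continuousOn_fderiv_of_isOpen hEo (by simp)
      have h2 : ContinuousOn (fun z => dbar g z) Eᶜ := by
        unfold Pool.Lib.dbar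
        exact ((h1.clm_apply continuousOn_const).add
          (continuousOn_const.mul (h1.clm_apply continuousOn_const))).div_const 2
      exact h2.norm.pow 2
    have hid : IntegrableOn (fun z => ‖dbar g z‖ ^ 2) Eᶜ := by
      refine Integrable.mono' hg.energy (hcd.aestronglyMeasurable hEo.measurableSet) ?_
      refine (ae_restrict_iff' hEo.measurableSet).2 (Eventually.of_forall fun z hz => ?_)
      rw [Real.norm_eq_abs, abs_of_nonneg (by positivity)]
      exact hdb z hz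
    have hid2 : ∫ z in Eᶜ, ‖dbar g z‖ ^ 2 ≤ ε :=
      (setIntegral_mono_on hid hg.energy hEo.measurableSet hdb).trans hg.small
    have hpos : ∀ z, 0 ≤ a (g z).re * b (g z).im * jac g z + m * ‖dbar g z‖ ^ 2 := fun z => by
      rw [jac_eq]
      have h1 := hFm (g z)
      have h2 := hF0 (g z)
      have h3 : 0 ≤ (a (g z).re * b (g z).im) * ‖dz g z‖ ^ 2 := by positivity
      have h4 : (a (g z).re * b (g z).im) * ‖dbar g z‖ ^ 2 ≤ m * ‖dbar g z‖ ^ 2 := by gcongr
      nlinarith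
    have hsum : IntegrableOn (fun z => a (g z).re * b (g z).im * jac g z + m * ‖dbar g z‖ ^ 2)
        Eᶜ := hint.add (hid.const_mul m)
    have hQm : MeasurableSet Q := hQ.measurableSet
    have h5 : ∫ z in Q, a (f z).re * b (f z).im * ‖deriv f z‖ ^ 2
        = ∫ z in Q, a (g z).re * b (g z).im * jac g z := by
      refine setIntegral_congr_fun hQm fun z hz => ?_
      have hzi : z ∈ interior Q' := hQQ' hz
      have h6 : g =ᶠ[𝓝 z] f := by
        filter_upwards [isOpen_interior.mem_nhds hzi] with w hw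
        exact hg.eqOn (interior_subset hw)
      have h7 : dz g z = deriv f z := by
        rw [dz_congr h6, dz_eq_deriv (hfd z (hQE hz))]
      have h8 : dbar g z = 0 := by
        rw [Pool.Lib.dbar_congr h6, Pool.Lib.dbar_eq_zero (hfd z (hQE hz))]
      rw [jac_eq, h7, h8, h6.self_of_nhds]
      simp
    have h9 : ∫ z in Q, a (g z).re * b (g z).im * jac g z
        ≤ ∫ z in Q, (a (g z).re * b (g z).im * jac g z + m * ‖dbar g z‖ ^ 2) := by
      refine setIntegral_mono_on (hint.mono_set hQE) (hsum.mono_set hQE) hQm fun z _ => ?_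
      have : 0 ≤ m * ‖dbar g z‖ ^ 2 := by positivity
      linarith
    have h10 : ∫ z in Q, (a (g z).re * b (g z).im * jac g z + m * ‖dbar g z‖ ^ 2)
        ≤ ∫ z in Eᶜ, (a (g z).re * b (g z).im * jac g z + m * ‖dbar g z‖ ^ 2) :=
      setIntegral_mono_set hsum (Eventually.of_forall hpos) (Eventually.of_forall hQE)
    have h11 : ∫ z in Eᶜ, (a (g z).re * b (g z).im * jac g z + m * ‖dbar g z‖ ^ 2)
        = (∫ x, a x) * (∫ y, b y) + m * ∫ z in Eᶜ, ‖dbar g z‖ ^ 2 := by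
      rw [integral_add hint (hid.const_mul m), hdeg, integral_const_mul]
    have h12 : m * ∫ z in Eᶜ, ‖dbar g z‖ ^ 2 ≤ m * ε := by gcongr
    linarith
  refine le_of_forall_pos_le_add fun δ hδ => ?_
  have h1 := key (δ / (m + 1)) (by positivity)
  have h2 : m * (δ / (m + 1)) ≤ δ := by
    rw [mul_div_assoc', div_le_iff₀ (by positivity)]
    nlinarith
  linarith

/-- A bump function with integral one. -/
theorem Univ_bump (c δ : ℝ) (hδ : 0 < δ) : ∃ a : ℝ → ℝ, ContDiff ℝ ∞ a ∧ HasCompactSupport a ∧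
    (∀ x, 0 ≤ a x) ∧ ∫ x, a x = 1 ∧ ∀ x, a x ≠ 0 → |x - c| < δ := by
  let η : ContDiffBump c := ⟨δ / 2, δ, by linarith, by linarith⟩
  refine ⟨η.normed volume, η.contDiff_normed, η.hasCompactSupport_normed, η.nonneg_normed,
    η.integral_normed, fun x hx => ?_⟩
  have h1 : x ∈ Function.support (η.normed volume) := hx
  rw [η.support_normed_eq, mem_ball, Real.dist_eq] at h1
  exact h1

/-- Two distinct regular points with the same image are impossible. -/
theorem Univ_two (hE : IsCompact E) (hΘ : Test E Θ) {f : ℂ → ℂ}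
    (hf : DifferentiableOn ℂ f Eᶜ)
    (happ : ∀ Q : Set ℂ, IsCompact Q → Q ⊆ Eᶜ → ∀ ε : ℝ, 0 < ε → ∃ g : ℂ → ℂ, App E Θ f Q ε g)
    {z1 z2 : ℂ} (h1 : z1 ∈ Eᶜ) (h2 : z2 ∈ Eᶜ) (hne : z1 ≠ z2) (heq : f z1 = f z2)
    (hd1 : deriv f z1 ≠ 0) (hd2 : deriv f z2 ≠ 0) : False := by
  have hEo : IsOpen Eᶜ := hE.isClosed.isOpen_compl
  obtain ⟨r1, hr1, hb1⟩ := Metric.isOpen_iff.1 hEo z1 h1
  obtain ⟨r2, hr2, hb2⟩ := Metric.isOpen_iff.1 hEo z2 h2
  have hdist : 0 < dist z1 z2 := dist_pos.2 hne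
  set r : ℝ := min (min (r1 / 2) (r2 / 2)) (dist z1 z2 / 3) with hr
  have hr0 : 0 < r := by positivity
  have hc1 : closedBall z1 r ⊆ Eᶜ := fun w hw => hb1 (by
    rw [mem_closedBall] at hw
    rw [mem_ball]
    have : r ≤ r1 / 2 := (min_le_left _ _).trans (min_le_left _ _)
    linarith)
  have hc2 : closedBall z2 r ⊆ Eᶜ := fun w hw => hb2 (by
    rw [mem_closedBall] at hw
    rw [mem_ball]
    have : r ≤ r2 / 2 := (min_le_left _ _).trans (min_le_right _ _)
    linarith)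
  have hdisj : Disjoint (ball z1 r) (ball z2 r) := by
    apply ball_disjoint_ball
    have : r ≤ dist z1 z2 / 3 := min_le_right _ _
    linarith
  obtain ⟨V1, hV1s, hV1o, hz1V, hV1i, hV1n⟩ := Univ_local isOpen_ball (mem_ball_self hr0)
    (hf.mono (ball_subset_closedBall.trans hc1)) hd1
  obtain ⟨V2, hV2s, hV2o, hz2V, hV2i, hV2n⟩ := Univ_local isOpen_ball (mem_ball_self hr0)
    (hf.mono (ball_subset_closedBall.trans hc2)) hd2
  rw [← heq] at hV2n
  obtain ⟨δ, hδ, hδb⟩ := Metric.mem_nhds_iff.1 (inter_mem hV1n hV2n)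
  obtain ⟨a, ha, ca, ha0, hai, has⟩ := Univ_bump (f z1).re (δ / 2) (by linarith)
  obtain ⟨b, hb, cb, hb0, hbi, hbs⟩ := Univ_bump (f z1).im (δ / 2) (by linarith)
  set G : ℂ → ℝ := fun ζ => a ζ.re * b ζ.im with hG
  have hGs : ∀ ζ, G ζ ≠ 0 → ζ ∈ f '' V1 ∩ f '' V2 := fun ζ hζ => by
    apply hδb
    have e1 : a ζ.re ≠ 0 := left_ne_zero_of_mul hζ
    have e2 : b ζ.im ≠ 0 := right_ne_zero_of_mul hζ
    have e3 := has _ e1
    have e4 := hbs _ e2
    rw [mem_ball, dist_eq_norm]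
    have e5 := norm_le_abs_re_add_abs_im (ζ - f z1)
    rw [sub_re, sub_im] at e5
    linarith
  have hGi : ∫ ζ, G ζ = 1 := by
    have := deg_prod a b 0
    simp only [sub_zero] at this
    rw [hG, this, hai, hbi, one_mul]
  have hV : ∀ V : Set ℂ, IsOpen V → V ⊆ Eᶜ → InjOn f V → (∀ ζ, G ζ ≠ 0 → ζ ∈ f '' V) →
      ∫ z in V, a (f z).re * b (f z).im * ‖deriv f z‖ ^ 2 = 1 := fun V hVo hVE hVi hVG => by
    have e1 := Univ_change hVo (hf.mono hVE) hVi G
    have e2 : ∫ w in f '' V, G w = ∫ w, G w :=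
      setIntegral_eq_integral_of_forall_compl_eq_zero fun w hw => by
        by_contra h
        exact hw (hVG w h)
    rw [← e1, e2, hGi]
  have hV1E : V1 ⊆ Eᶜ := (hV1s.trans ball_subset_closedBall).trans hc1
  have hV2E : V2 ⊆ Eᶜ := (hV2s.trans ball_subset_closedBall).trans hc2
  have i1 := hV V1 hV1o hV1E hV1i fun ζ hζ => (hGs ζ hζ).1
  have i2 := hV V2 hV2o hV2E hV2i fun ζ hζ => (hGs ζ hζ).2
  set Q : Set ℂ := closedBall z1 r ∪ closedBall z2 r with hQ
  have hQc : IsCompact Q := (isCompact_closedBall _ _).union (isCompact_closedBall _ _)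
  have hQE : Q ⊆ Eᶜ := union_subset hc1 hc2
  have harea := Univ_area hE hΘ hf happ ha hb ca cb ha0 hb0 hQc hQE
  rw [hai, hbi, one_mul] at harea
  have hcont : ContinuousOn (fun z => a (f z).re * b (f z).im * ‖deriv f z‖ ^ 2) Q := by
    have e1 : ContinuousOn f Q := hf.continuousOn.mono hQE
    have e2 : ContinuousOn (deriv f) Q := (hf.deriv hEo).continuousOn.mono hQE
    exact ((ha.continuous.comp_continuousOn (continuous_re.comp_continuousOn e1)).mul
      (hb.continuous.comp_continuousOn (continuous_im.comp_continuousOn e1))).mul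
      (e2.norm.pow 2)
  have hiQ : IntegrableOn (fun z => a (f z).re * b (f z).im * ‖deriv f z‖ ^ 2) Q :=
    hcont.integrableOn_compact hQc
  have hVQ : V1 ∪ V2 ⊆ Q := union_subset_union (hV1s.trans ball_subset_closedBall)
    (hV2s.trans ball_subset_closedBall)
  have e3 : ∫ z in V1 ∪ V2, a (f z).re * b (f z).im * ‖deriv f z‖ ^ 2 = 2 := by
    rw [setIntegral_union (hdisj.mono hV1s hV2s) hV2o.measurableSet
      (hiQ.mono_set (subset_union_left.trans hVQ)) (hiQ.mono_set (subset_union_right.trans hVQ)),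
      i1, i2]
    norm_num
  have e4 : ∫ z in V1 ∪ V2, a (f z).re * b (f z).im * ‖deriv f z‖ ^ 2
      ≤ ∫ z in Q, a (f z).re * b (f z).im * ‖deriv f z‖ ^ 2 :=
    setIntegral_mono_set hiQ (Eventually.of_forall fun z =>
      mul_nonneg (mul_nonneg (ha0 _) (hb0 _)) (by positivity)) (Eventually.of_forall hVQ)
  linarith

theorem injOn_of_app (hE : IsCompact E) (hD : IsConnected Eᶜ) (hΘ : Test E Θ) {f : ℂ → ℂ}
    (hf : DifferentiableOn ℂ f Eᶜ) (hinf : Tendsto (fun z => f z - z) (cocompact ℂ) (𝓝 0))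
    (happ : ∀ Q : Set ℂ, IsCompact Q → Q ⊆ Eᶜ → ∀ ε : ℝ, 0 < ε → ∃ g : ℂ → ℂ, App E Θ f Q ε g) :
    InjOn f Eᶜ := by
  have hEo : IsOpen Eᶜ := hE.isClosed.isOpen_compl
  have han : AnalyticOnNhd ℂ f Eᶜ := hf.analyticOnNhd hEo
  -- `f` is not locally constant
  have hnc : ∀ z ∈ Eᶜ, ¬ ∀ᶠ w in 𝓝 z, f w = f z := by
    intro z hz h
    have h1 : EqOn f (fun _ => f z) Eᶜ :=
      han.eqOn_of_preconnected_of_eventuallyEq (fun _ _ => analyticAt_const)
        hD.isPreconnected hz h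
    have h2 : ∀ᶠ w in cocompact ℂ, w ∈ Eᶜ := hE.compl_mem_cocompact
    have h3 : ∀ᶠ w in cocompact ℂ, ‖f w - w‖ < 1 := by
      have := hinf.norm
      rw [norm_zero] at this
      exact this.eventually (gt_mem_nhds one_pos)
    have h4 : ∀ᶠ w : ℂ in cocompact ℂ, ‖f z‖ + 1 < ‖w‖ :=
      (tendsto_norm_cocompact_atTop (E := ℂ)).eventually (eventually_gt_atTop _)
    obtain ⟨w, hw1, hw2, hw3⟩ := (h2.and (h3.and h4)).exists
    rw [h1 hw1] at hw2
    have h5 : ‖w‖ ≤ ‖f z - w‖ + ‖f z‖ := by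
      have : w = f z - (f z - w) := by ring
      calc ‖w‖ = ‖f z - (f z - w)‖ := by rw [← this]
        _ ≤ ‖f z‖ + ‖f z - w‖ := norm_sub_le _ _
        _ = _ := add_comm _ _
    simp only at hw2
    linarith
  have hreg : ∀ z ∈ Eᶜ, ∀ᶠ w in 𝓝[≠] z, deriv f w ≠ 0 := by
    intro z hz
    have h1 : AnalyticAt ℂ (deriv f) z := (han z hz).deriv
    rcases h1.eventually_eq_zero_or_eventually_ne_zero with h | h
    · exfalso
      obtain ⟨r, hr, hball⟩ := Metric.eventually_nhds_iff_ball.mp (h.and (hEo.mem_nhds hz))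
      apply hnc z hz
      filter_upwards [ball_mem_nhds z hr] with w hw
      exact isOpen_ball.is_const_of_deriv_eq_zero (convex_ball z r).isPreconnected
        (hf.mono fun x hx => (hball x hx).2) (fun x hx => (hball x hx).1) hw (mem_ball_self hr)
    · exact h
  intro z1 hz1 z2 hz2 heq
  by_contra hne
  -- disjoint neighbourhoods with regular points only
  have hN : ∀ z ∈ Eᶜ, ∀ ρ : ℝ, 0 < ρ → ∃ V : Set ℂ, V ∈ 𝓝 z ∧ V ⊆ ball z ρ ∧ V ⊆ Eᶜ ∧
      (∀ w ∈ V, w ≠ z → deriv f w ≠ 0) ∧ f '' V ∈ 𝓝 (f z) := by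
    intro z hz ρ hρ
    have h1 : ∀ᶠ w in 𝓝 z, w ≠ z → deriv f w ≠ 0 := by
      have := hreg z hz
      rwa [eventually_nhdsWithin_iff] at this
    have h2 : ∀ᶠ w in 𝓝 z, (w ≠ z → deriv f w ≠ 0) ∧ w ∈ ball z ρ ∧ w ∈ Eᶜ := by
      filter_upwards [h1, ball_mem_nhds z hρ, hEo.mem_nhds hz] with w a1 a2 a3
      exact ⟨a1, a2, a3⟩
    refine ⟨{w | (w ≠ z → deriv f w ≠ 0) ∧ w ∈ ball z ρ ∧ w ∈ Eᶜ}, h2, fun w hw => hw.2.1,
      fun w hw => hw.2.2, fun w hw => hw.1, ?_⟩
    rcases (han z hz).eventually_constant_or_nhds_le_map_nhds with h | h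
    · exact absurd h (hnc z hz)
    · exact h (image_mem_map h2)
  have hdist : 0 < dist z1 z2 := dist_pos.2 hne
  obtain ⟨V1, -, hV1b, hV1E, hV1r, hV1n⟩ := hN z1 hz1 (dist z1 z2 / 2) (by linarith)
  obtain ⟨V2, -, hV2b, hV2E, hV2r, hV2n⟩ := hN z2 hz2 (dist z1 z2 / 2) (by linarith)
  rw [← heq] at hV2n
  obtain ⟨p, ⟨⟨w1, hw1, hp1⟩, ⟨w2, hw2, hp2⟩⟩, hpne⟩ :=
    (((inter_mem hV1n hV2n : f '' V1 ∩ f '' V2 ∈ 𝓝 (f z1)) |>
      (fun h => (eventually_mem_set.2 h).filter_mono (nhdsWithin_le_nhds (s := {f z1}ᶜ)))).and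
      self_mem_nhdsWithin).exists
  have hpne' : p ≠ f z1 := hpne
  have hw1z : w1 ≠ z1 := fun h => hpne' (by rw [← hp1, h])
  have hw2z : w2 ≠ z2 := fun h => hpne' (by rw [← hp2, h, heq])
  have hw12 : w1 ≠ w2 := fun h => by
    have e1 := hV1b hw1
    have e2 := hV2b hw2
    rw [← h, mem_ball] at e2
    rw [mem_ball] at e1
    have e3 := dist_triangle_left z1 z2 w1
    linarith
  exact Univ_two hE hΘ hf happ (hV1E hw1) (hV2E hw2) hw12 (hp1.trans hp2.symm)
    (hV1r w1 hw1 hw1z) (hV2r w2 hw2 hw2z)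

end Pool.Recti
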