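import Pool.Agent.Recti.Exist
import Pool.Agent.Recti.Univ
import Pool.Agent.Recti.Family
import Pool.Agent.Recti.Ext
import Pool.Agent.Recti.Phi

/-!
# The approximating sequence

PROOF of `exists_seqn`.  `θ '' E` is compact and null.  `exists_phi` with `δ = 1/(n+1)` gives `φ n`; `φ n ∘ θ`
has finite range on `E` (`finite_image_of_deriv_eq_zero`) and is continuous on `E`, so `exists_test_of_finite` gives
`Θ n`.  Choose `R > 0`, `R ≥ R0`, with `E ⊆ ball 0 R`; `exists_map` gives `A` and maps `F n`; they are univalent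
(`injOn_of_app`; `F n z - z → 0` at infinity by the explicit bound), so `Bd E R A (F n)`.
`exists_limit_map` gives a subsequence `s`; replace all data by the subsequence
(`1/(s n + 1) ≤ 1/(n + 1)`).
-/

set_option autoImplicit false

open Complex MeasureTheory Set Filter Topology Metric
open scoped ContDiff

namespace Pool.Recti

/-- Flattened angle functions `φ n ∘ θ`, their variational maps `F n`, and the limit map `f`. -/
structure Seqn (E : Set ℂ) (R A : ℝ) (θ : ℂ → ℝ) (φ : ℕ → ℝ → ℝ) (Θ : ℕ → ℂ → ℝ)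
    (F : ℕ → ℂ → ℂ) (f : ℂ → ℂ) : Prop where
  phi_smooth : ∀ n, ContDiff ℝ ∞ (φ n)
  phi_deriv : ∀ n t, 0 ≤ deriv (φ n) t ∧ deriv (φ n) t ≤ 1
  phi_flat : ∀ n, ∀ᶠ t in 𝓝ˢ (θ '' E), deriv (φ n) t = 0
  phi_close : ∀ n t, |φ n t - t| ≤ 1 / ((n : ℝ) + 1)
  ang : ∀ n, Test E (Θ n)
  ang_eq : ∀ n, ∀ z ∈ E, Θ n z = φ n (θ z)
  bd : ∀ n, Bd E R A (F n)
  app : ∀ n, ∀ Q : Set ℂ, IsCompact Q → Q ⊆ Eᶜ → ∀ ε : ℝ, 0 < ε →
    ∃ g : ℂ → ℂ, App E (Θ n) (F n) Q ε g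
  lim : TendstoLocallyUniformlyOn F f atTop Eᶜ
  bdf : Bd E R A f

theorem exists_seqn {E : Set ℂ} (hE : IsCompact E) (hD : IsConnected Eᶜ) {θ : ℂ → ℝ}
    (hθ : ContinuousOn θ E) (h0 : volume (θ '' E) = 0) (R0 : ℝ) :
    ∃ R A φ Θ F f, R0 ≤ R ∧ Seqn E R A θ φ Θ F f := by
  have hZ : IsCompact (θ '' E) := hE.image_of_continuousOn hθ
  have hφ : ∀ n : ℕ, ∃ φ : ℝ → ℝ, ContDiff ℝ ∞ φ ∧ (∀ t, 0 ≤ deriv φ t ∧ deriv φ t ≤ 1) ∧
      (∀ᶠ t in 𝓝ˢ (θ '' E), deriv φ t = 0) ∧ ∀ t, |φ t - t| ≤ 1 / ((n : ℝ) + 1) := fun n =>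
    exists_phi hZ h0 (by positivity)
  choose φ hφs hφd hφf hφc using hφ
  have hΘ : ∀ n : ℕ, ∃ w : ℂ → ℝ, Test E w ∧ ∀ z ∈ E, w z = φ n (θ z) := by
    intro n
    refine exists_test_of_finite hE ((hφs n).continuous.comp_continuousOn hθ) ?_
    have h1 := finite_image_of_deriv_eq_zero hZ (hφs n) (hφf n)
    rwa [image_image] at h1
  choose Θ hΘt hΘe using hΘ
  obtain ⟨R1, hR1⟩ := hE.isBounded.subset_ball 0
  obtain ⟨R, hR, hR0, hRR1, hRpos⟩ : ∃ R : ℝ, R = max (max R0 R1) 1 ∧ R0 ≤ R ∧ R1 ≤ R ∧ 0 < R :=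
    ⟨_, rfl, (le_max_left _ _).trans (le_max_left _ _), (le_max_right _ _).trans (le_max_left _ _),
      lt_of_lt_of_le one_pos (le_max_right _ _)⟩
  have hER : E ⊆ ball 0 R := hR1.trans (ball_subset_ball hRR1)
  obtain ⟨A, hA, hmap⟩ := exists_map hE hD hRpos hER
  choose F hFd hFfar hFi hFe hFa using fun n => hmap (Θ n) (hΘt n)
  have htend : ∀ n, Tendsto (fun z => F n z - z) (cocompact ℂ) (𝓝 0) := by
    intro n
    rw [tendsto_zero_iff_norm_tendsto_zero]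
    have h1 : Tendsto (fun z : ℂ => A / ‖z‖) (cocompact ℂ) (𝓝 0) :=
      tendsto_const_nhds.div_atTop tendsto_norm_cocompact_atTop
    refine squeeze_zero' (Eventually.of_forall fun z => norm_nonneg _) ?_ h1
    filter_upwards [tendsto_norm_cocompact_atTop.eventually_ge_atTop (2 * R)] with z hz
    exact hFfar n z hz
  have hinj : ∀ n, InjOn (F n) Eᶜ := fun n =>
    injOn_of_app hE hD (hΘt n) (hFd n) (htend n) (hFa n)
  have hbd : ∀ n, Bd E R A (F n) := fun n =>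
    ⟨⟨hE, hD, hFd n, hinj n, htend n⟩, hRpos, hA, hER, hFfar n, hFi n, hFe n⟩
  obtain ⟨f, s, hs, hbf, hlim⟩ := exists_limit_map hbd
  refine ⟨R, A, fun n => φ (s n), fun n => Θ (s n), fun n => F (s n), f, hR0, ?_⟩
  refine ⟨fun n => hφs _, fun n => hφd _, fun n => hφf _, fun n t => (hφc (s n) t).trans ?_,
    fun n => hΘt _, fun n => hΘe _, fun n => hbd _, fun n => hFa _, hlim, hbf⟩
  have h2 : (n : ℝ) ≤ (s n : ℝ) := by exact_mod_cast hs.le_apply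
  exact one_div_le_one_div_of_le (by positivity) (by linarith)

end Pool.Recti
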