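import Pool.Agent.Recti.Defs

/-!
# Stokes' formula for compactly supported forms, and its consequences for the Wirtinger
derivatives

PROOFS.
* `integral_fderiv_apply_eq_zero`: integral of a directional derivative of a compactly supported
  `C^1` function vanishes (Mathlib has e.g. `integral_mul_fderiv_eq_neg_fderiv_mul_of_integrable`,
  `integral_bilinear_hasLineDerivAt_right_eq_neg_left_of_integrable`; take the other factor
  constant or do Fubini).
* `integral_curl_compl`: extend `P, Q` by zero on `E` (indicator of `Eᶜ`): the extensions are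
  globally `C^1` with compact support since they vanish near `E` and near infinity.
* `integral_wedge`: `dz A * dbar B - dbar A * dz B = (I/2) (A_x B_y - A_y B_x)
  = (I/2) ((A B_y)_x - (A B_x)_y)` (second derivatives of `B` commute), and `A B_x, A B_y` are `C^1`
  on `Eᶜ`, vanish near `E` and near infinity.  Both products are continuous on `Eᶜ`
  and vanish near `E` and infinity, hence integrable.
-/

set_option autoImplicit false

open Complex MeasureTheory Set Filter Topology Metric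
open scoped ContDiff

namespace Pool.Recti

open Pool.Lib (dbar)

theorem integral_fderiv_apply_eq_zero {P : ℂ → ℂ} (hP : ContDiff ℝ 1 P)
    (cP : HasCompactSupport P) (v : ℂ) : ∫ z, fderiv ℝ P z v = 0 := by
  have hcont : Continuous (fun z => fderiv ℝ P z v) :=
    (hP.continuous_fderiv one_ne_zero).clm_apply continuous_const
  have hcomp : HasCompactSupport (fun z => fderiv ℝ P z v) := cP.fderiv_apply ℝ v
  have h := integral_mul_fderiv_eq_neg_fderiv_mul_of_integrable (μ := (volume : Measure ℂ))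
    (f := fun _ : ℂ => (1 : ℂ)) (g := P) (v := v) (by simp)
    (by simpa using hcont.integrable_of_hasCompactSupport hcomp)
    (by simpa using hP.continuous.integrable_of_hasCompactSupport cP)
    (fun x _ => differentiableAt_const _) (fun x _ => hP.differentiable one_ne_zero x)
  simpa using h

theorem stokes_ext {n : ℕ∞ω} {E : Set ℂ} (hE : IsCompact E) {P : ℂ → ℂ}
    (hP : ContDiffOn ℝ n P Eᶜ) (hP0 : ∀ᶠ z in 𝓝ˢ E, z ∉ E → P z = 0)
    (hR : ∃ R : ℝ, ∀ z, R ≤ ‖z‖ → P z = 0) :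
    ContDiff ℝ n (Eᶜ.indicator P) ∧ HasCompactSupport (Eᶜ.indicator P) ∧
      (∀ z ∈ Eᶜ, Eᶜ.indicator P =ᶠ[𝓝 z] P) ∧ (∀ z ∈ E, Eᶜ.indicator P =ᶠ[𝓝 z] fun _ => 0) := by
  have hopen : IsOpen Eᶜ := hE.isClosed.isOpen_compl
  have h1 : ∀ z ∈ Eᶜ, Eᶜ.indicator P =ᶠ[𝓝 z] P := by
    intro z hz
    filter_upwards [hopen.mem_nhds hz] with w hw
    exact indicator_of_mem hw _
  have h2 : ∀ z ∈ E, Eᶜ.indicator P =ᶠ[𝓝 z] fun _ => 0 := by
    intro z hz
    filter_upwards [(eventually_nhdsSet_iff_forall.1 hP0) z hz] with w hw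
    by_cases hwE : w ∈ E
    · exact indicator_of_notMem (notMem_compl_iff.2 hwE) _
    · rw [indicator_of_mem (show w ∈ Eᶜ from hwE)]
      exact hw hwE
  refine ⟨?_, ?_, h1, h2⟩
  · rw [contDiff_iff_contDiffAt]
    intro z
    by_cases hz : z ∈ E
    · exact contDiffAt_const.congr_of_eventuallyEq (h2 z hz)
    · exact (hP.contDiffAt (hopen.mem_nhds hz)).congr_of_eventuallyEq (h1 z hz)
  · obtain ⟨R, hR⟩ := hR
    apply HasCompactSupport.intro (isCompact_closedBall (0 : ℂ) R)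
    intro z hz
    have hz' : R ≤ ‖z‖ := by
      rw [mem_closedBall, dist_zero_right, not_le] at hz
      exact hz.le
    by_cases hzE : z ∈ E
    · exact indicator_of_notMem (notMem_compl_iff.2 hzE) _
    · rw [indicator_of_mem (show z ∈ Eᶜ from hzE)]
      exact hR z hz'

theorem integral_curl_compl {E : Set ℂ} (hE : IsCompact E) {P Q : ℂ → ℂ}
    (hP : ContDiffOn ℝ 1 P Eᶜ) (hQ : ContDiffOn ℝ 1 Q Eᶜ)
    (hP0 : ∀ᶠ z in 𝓝ˢ E, z ∉ E → P z = 0) (hQ0 : ∀ᶠ z in 𝓝ˢ E, z ∉ E → Q z = 0)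
    (hR : ∃ R : ℝ, ∀ z, R ≤ ‖z‖ → P z = 0 ∧ Q z = 0) :
    ∫ z in Eᶜ, (fderiv ℝ Q z 1 - fderiv ℝ P z I) = 0 := by
  obtain ⟨R, hR⟩ := hR
  obtain ⟨p1, p2, p3, p4⟩ := stokes_ext hE hP hP0 ⟨R, fun z hz => (hR z hz).1⟩
  obtain ⟨q1, q2, q3, q4⟩ := stokes_ext hE hQ hQ0 ⟨R, fun z hz => (hR z hz).2⟩
  have hmeas : MeasurableSet Eᶜ := hE.isClosed.measurableSet.compl
  have h1 : ∫ z in Eᶜ, (fderiv ℝ Q z 1 - fderiv ℝ P z I) =
      ∫ z in Eᶜ, (fderiv ℝ (Eᶜ.indicator Q) z 1 - fderiv ℝ (Eᶜ.indicator P) z I) := by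
    apply setIntegral_congr_fun hmeas
    intro z hz
    simp only
    rw [(q3 z hz).fderiv_eq, (p3 z hz).fderiv_eq]
  have h2 : ∫ z in Eᶜ, (fderiv ℝ (Eᶜ.indicator Q) z 1 - fderiv ℝ (Eᶜ.indicator P) z I) =
      ∫ z, (fderiv ℝ (Eᶜ.indicator Q) z 1 - fderiv ℝ (Eᶜ.indicator P) z I) := by
    apply setIntegral_eq_integral_of_forall_compl_eq_zero
    intro z hz
    have hz' : z ∈ E := not_not.1 hz
    rw [(q4 z hz').fderiv_eq, (p4 z hz').fderiv_eq]
    simp
  have hcq : Continuous (fun z => fderiv ℝ (Eᶜ.indicator Q) z 1) :=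
    (q1.continuous_fderiv one_ne_zero).clm_apply continuous_const
  have hcp : Continuous (fun z => fderiv ℝ (Eᶜ.indicator P) z I) :=
    (p1.continuous_fderiv one_ne_zero).clm_apply continuous_const
  rw [h1, h2, integral_sub (hcq.integrable_of_hasCompactSupport (q2.fderiv_apply ℝ 1))
    (hcp.integrable_of_hasCompactSupport (p2.fderiv_apply ℝ I)),
    integral_fderiv_apply_eq_zero q1 q2, integral_fderiv_apply_eq_zero p1 p2, sub_zero]

theorem integrableOn_wedge {E : Set ℂ} (hE : IsCompact E) {u v : ℂ → ℂ}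
    (hu : ContinuousOn u Eᶜ) (hv : ContinuousOn v Eᶜ)
    (hv0 : ∀ᶠ z in 𝓝ˢ E, z ∉ E → v z = 0) (hR : ∃ R : ℝ, ∀ z, R ≤ ‖z‖ → v z = 0) :
    IntegrableOn (fun z => u z * v z) Eᶜ := by
  obtain ⟨R, hR⟩ := hR
  have hmeas : MeasurableSet Eᶜ := hE.isClosed.measurableSet.compl
  have hc : ContDiffOn ℝ 0 (fun z => u z * v z) Eᶜ := contDiffOn_zero.2 (hu.mul hv)
  have h0 : ∀ᶠ z in 𝓝ˢ E, z ∉ E → (fun z => u z * v z) z = 0 := by
    filter_upwards [hv0] with z hz hzE
    rw [hz hzE, mul_zero]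
  obtain ⟨p1, p2, p3, p4⟩ := stokes_ext hE hc h0 ⟨R, fun z hz => by rw [hR z hz, mul_zero]⟩
  rw [← integrable_indicator_iff hmeas]
  exact p1.continuous.integrable_of_hasCompactSupport p2

theorem integral_wedge {E : Set ℂ} (hE : IsCompact E) {A B : ℂ → ℂ}
    (hA : ContDiffOn ℝ 1 A Eᶜ) (hB : ContDiffOn ℝ 2 B Eᶜ)
    (hB0 : ∀ᶠ z in 𝓝ˢ E, z ∉ E → fderiv ℝ B z = 0)
    (hR : ∃ R : ℝ, ∀ z, R ≤ ‖z‖ → fderiv ℝ B z = 0) :
    ∫ z in Eᶜ, dz A z * dbar B z = ∫ z in Eᶜ, dbar A z * dz B z := by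
  obtain ⟨R, hR⟩ := hR
  have hopen : IsOpen Eᶜ := hE.isClosed.isOpen_compl
  have hmeas : MeasurableSet Eᶜ := hopen.measurableSet
  have hA' : ContinuousOn (fderiv ℝ A) Eᶜ := hA.continuousOn_fderiv_of_isOpen hopen le_rfl
  have hB1 : ContDiffOn ℝ 1 (fderiv ℝ B) Eᶜ := hB.fderiv_of_isOpen hopen (by norm_num)
  have hB' : ContinuousOn (fderiv ℝ B) Eᶜ := hB1.continuousOn
  have cv : ∀ (L : ℂ → ℂ →L[ℝ] ℂ) (w : ℂ), ContinuousOn L Eᶜ → ContinuousOn (fun z => L z w) Eᶜ :=
    fun L w hL => hL.clm_apply continuousOn_const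
  have dzA : ContinuousOn (dz A) Eᶜ := by
    unfold dz
    exact ((cv _ 1 hA').sub (continuousOn_const.mul (cv _ I hA'))).div_const _
  have dzB : ContinuousOn (dz B) Eᶜ := by
    unfold dz
    exact ((cv _ 1 hB').sub (continuousOn_const.mul (cv _ I hB'))).div_const _
  have dbA : ContinuousOn (dbar A) Eᶜ := by
    unfold Pool.Lib.dbar
    exact ((cv _ 1 hA').add (continuousOn_const.mul (cv _ I hA'))).div_const _
  have dbB : ContinuousOn (dbar B) Eᶜ := by
    unfold Pool.Lib.dbar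
    exact ((cv _ 1 hB').add (continuousOn_const.mul (cv _ I hB'))).div_const _
  have i1 : IntegrableOn (fun z => dz A z * dbar B z) Eᶜ := by
    apply integrableOn_wedge hE dzA dbB
    · filter_upwards [hB0] with z hz hzE
      unfold Pool.Lib.dbar
      rw [hz hzE]
      simp
    · refine ⟨R, fun z hz => ?_⟩
      unfold Pool.Lib.dbar
      rw [hR z hz]
      simp
  have i2 : IntegrableOn (fun z => dbar A z * dz B z) Eᶜ := by
    apply integrableOn_wedge hE dbA dzB
    · filter_upwards [hB0] with z hz hzE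
      unfold dz
      rw [hz hzE]
      simp
    · refine ⟨R, fun z hz => ?_⟩
      unfold dz
      rw [hR z hz]
      simp
  have cl : ∀ w : ℂ, ContDiffOn ℝ 1 (fun z => A z * fderiv ℝ B z w) Eᶜ := fun w =>
    hA.mul (hB1.clm_apply contDiffOn_const)
  have hz0 : ∀ w : ℂ, ∀ᶠ z in 𝓝ˢ E, z ∉ E → (fun z => A z * fderiv ℝ B z w) z = 0 := by
    intro w
    filter_upwards [hB0] with z hz hzE
    rw [hz hzE]
    simp
  have hcurl := integral_curl_compl hE (cl 1) (cl I) (hz0 1) (hz0 I)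
    ⟨R, fun z hz => by rw [hR z hz]; simp⟩
  have hpt : ∀ z ∈ Eᶜ, dz A z * dbar B z - dbar A z * dz B z =
      I / 2 * (fderiv ℝ (fun z => A z * fderiv ℝ B z I) z 1 -
        fderiv ℝ (fun z => A z * fderiv ℝ B z 1) z I) := by
    intro z hz
    have hAz : DifferentiableAt ℝ A z :=
      (hA.differentiableOn one_ne_zero).differentiableAt (hopen.mem_nhds hz)
    have hBz : DifferentiableAt ℝ (fderiv ℝ B) z :=
      (hB1.differentiableOn one_ne_zero).differentiableAt (hopen.mem_nhds hz)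
    have hder : ∀ w v : ℂ, fderiv ℝ (fun z => A z * fderiv ℝ B z w) z v =
        A z * fderiv ℝ (fderiv ℝ B) z v w + fderiv ℝ A z v * fderiv ℝ B z w := by
      intro w v
      have h1 : HasFDerivAt (fun z => fderiv ℝ B z w)
          ((ContinuousLinearMap.apply ℝ ℂ w).comp (fderiv ℝ (fderiv ℝ B) z)) z :=
        (ContinuousLinearMap.apply ℝ ℂ w).hasFDerivAt.comp z hBz.hasFDerivAt
      have h2 := hAz.hasFDerivAt.mul h1
      have h3 := h2.fderiv
      have h4 : fderiv ℝ (fun z => A z * fderiv ℝ B z w) z =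
        A z • ((ContinuousLinearMap.apply ℝ ℂ w).comp (fderiv ℝ (fderiv ℝ B) z)) +
          fderiv ℝ B z w • fderiv ℝ A z := h3
      rw [h4]
      simp only [_root_.add_apply, _root_.smul_apply,
        ContinuousLinearMap.comp_apply, ContinuousLinearMap.apply_apply, smul_eq_mul]
      ring
    have hsymm : fderiv ℝ (fderiv ℝ B) z 1 I = fderiv ℝ (fderiv ℝ B) z I 1 :=
      (hB.contDiffAt (hopen.mem_nhds hz)).isSymmSndFDerivAt (by simp) 1 I
    rw [hder, hder, hsymm]
    unfold dz Pool.Lib.dbar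
    ring
  have hsub : ∫ z in Eᶜ, (dz A z * dbar B z - dbar A z * dz B z) = 0 := by
    rw [setIntegral_congr_fun hmeas hpt, integral_const_mul, hcurl, mul_zero]
  rw [integral_sub i1 i2] at hsub
  exact sub_eq_zero.1 hsub

end Pool.Recti
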