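import Pool.Agent.Recti.Ext
import Pool.Agent.Recti.OmTop

/-!
# Transfer of locally constant functions under a normalised univalent map

`Corr E f w W`: `w, W` are `C^2`, compactly supported, locally constant near `E`, resp. near the
omitted set `Om E f = (f '' Eᶜ)ᶜ`, and `W ∘ f = w` on `Eᶜ`.

PROOFS.  `f '' Eᶜ` is open (`Pool.Lib.isOpen_image_of_injOn`) and connected; the inverse function
`invFunOn f Eᶜ` is holomorphic on it (`Pool.Lib.differentiableOn_invFunOn`).
* `exists_corr`: let `ω = w ∘ f⁻¹` on `f '' Eᶜ`, `C^2` there, with bounded support.  Its partial derivatives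
  `p = ω_x, q = ω_y` are `C^1`; since `∇w` has compact support inside `Eᶜ`, `p, q` have compact support inside
  `f '' Eᶜ`; extended by zero they are `C^1` on `ℂ` with compact support and `p_y = q_x` everywhere.  Put
  `W (x + i y) = ∫ t in Iic x, p (t + i y)` (or `∫ t in (-M)..x`).  Then `W_x = p`, and differentiating under
  the integral `W_y = ∫ p_y = ∫ q_x = q`; so `∇W = (p, q)`, `W` is `C^2`, `∇W = 0` near `Om E f`.
  `W - ω` has zero gradient on the connected open set `f '' Eᶜ` so it is a constant there; far to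
  the left both vanish, so the constant is `0`.  `W` has compact support: outside a large ball
  `W = ω = w ∘ f⁻¹ = 0`.
* `exists_corr_back`: the same argument in the other direction: `w0 = W ∘ f` on `Eᶜ`, `∇w0` has compact
  support in `Eᶜ` (`∇W` has compact support in `f '' Eᶜ`), extend the gradient by zero to `ℂ`, integrate.
* `Corr.eq_of_eq` : `W - W'` has zero derivative on `f '' Eᶜ` (where it vanishes) and near the rest, so it is
  constant on `ℂ`; it has compact support.  Same for `w - w'`.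
-/

set_option autoImplicit false

open Complex MeasureTheory Set Filter Topology Metric
open scoped ContDiff

namespace Pool.Recti

variable {E : Set ℂ} {f : ℂ → ℂ}

namespace TransferAux

/-- a function on the complement of a compact set whose gradient has compact support in the
complement extends to the plane -/
theorem extend {O : Set ℂ} (hO : IsCompact O) (hG : IsPreconnected Oᶜ) (hGn : Oᶜ.Nonempty)
    {q : ℂ → ℝ} (hq : ContDiffOn ℝ 2 q Oᶜ) {S : Set ℂ} (hS : IsClosed S) (hSG : S ⊆ Oᶜ)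
    (h0 : ∀ z ∈ Oᶜ, z ∉ S → fderiv ℝ q z = 0) {r : ℝ} (hr : ∀ z ∈ Oᶜ, r < ‖z‖ → q z = 0) :
    ∃ W : ℂ → ℝ, ContDiff ℝ 2 W ∧ HasCompactSupport W ∧ LC O W ∧ ∀ z ∈ Oᶜ, W z = q z := by
  classical
  have hGo : IsOpen Oᶜ := hO.isClosed.isOpen_compl
  set A : ℂ → ℂ →L[ℝ] ℝ := fun z => if z ∈ Oᶜ then fderiv ℝ q z else 0 with hA
  have hA1 : ∀ z ∈ Oᶜ, A =ᶠ[𝓝 z] fderiv ℝ q := by
    intro z hz
    filter_upwards [hGo.mem_nhds hz] with x hx
    exact if_pos hx
  have hA2 : ∀ z ∉ S, A =ᶠ[𝓝 z] fun _ => 0 := by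
    intro z hz
    filter_upwards [hS.isOpen_compl.mem_nhds hz] with x hx
    by_cases hxO : x ∈ Oᶜ
    · rw [hA]
      simp only [if_pos hxO]
      exact h0 x hxO hx
    · exact if_neg hxO
  have hcov : ∀ z, z ∈ Oᶜ ∨ z ∉ S := by
    intro z
    by_cases h : z ∈ S
    · exact Or.inl (hSG h)
    · exact Or.inr h
  have hqat : ∀ z ∈ Oᶜ, ContDiffAt ℝ 2 q z := fun z hz => hq.contDiffAt (hGo.mem_nhds hz)
  have hAc : ContDiff ℝ 1 A := by
    rw [contDiff_iff_contDiffAt]
    intro z
    rcases hcov z with hz | hz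
    · exact ((hqat z hz).fderiv_right (m := 1) (by norm_num)).congr_of_eventuallyEq (hA1 z hz)
    · exact contDiffAt_const.congr_of_eventuallyEq (hA2 z hz)
  have hsym : ∀ z ∈ (univ : Set ℂ), ∀ x y, fderiv ℝ A z x y = fderiv ℝ A z y x := by
    intro z _ x y
    rcases hcov z with hz | hz
    · rw [(hA1 z hz).fderiv_eq]
      have h1 : IsSymmSndFDerivAt ℝ q z := (hqat z hz).isSymmSndFDerivAt (by simp)
      exact h1 x y
    · rw [(hA2 z hz).fderiv_eq]
      simp
  obtain ⟨V, hV⟩ := convex_univ.exists_forall_hasFDerivAt_of_fderiv_symmetric isOpen_univ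
    (hAc.differentiable (by norm_num)).differentiableOn hsym
  have hV' : ∀ z, HasFDerivAt V (A z) z := fun z => hV z (mem_univ z)
  obtain ⟨z₀, hz₀⟩ := hGn
  have hconst : ∀ z ∈ Oᶜ, V z - q z = V z₀ - q z₀ := by
    intro z hz
    have h1 : ∀ x ∈ Oᶜ, HasFDerivAt (fun x => V x - q x) (0 : ℂ →L[ℝ] ℝ) x := by
      intro x hx
      have h2 := (hV' x).sub ((hqat x hx).differentiableAt (by norm_num)).hasFDerivAt
      have h3 : A x - fderiv ℝ q x = 0 := by rw [hA]; simp only [if_pos hx, sub_self]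
      rw [h3] at h2
      exact h2
    exact hGo.is_const_of_fderiv_eq_zero hG
      (fun x hx => (h1 x hx).differentiableAt.differentiableWithinAt)
      (fun x hx => (h1 x hx).fderiv) hz hz₀
  have hWd : ∀ z, HasFDerivAt (fun z => V z - (V z₀ - q z₀)) (A z) z := fun z =>
    (hV' z).sub_const _
  have hWf : fderiv ℝ (fun z => V z - (V z₀ - q z₀)) = A := funext fun z => (hWd z).fderiv
  have hWe : ∀ z ∈ Oᶜ, V z - (V z₀ - q z₀) = q z := by
    intro z hz
    have := hconst z hz
    linarith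
  refine ⟨fun z => V z - (V z₀ - q z₀), ?_, ?_, ?_, hWe⟩
  · have h2 : ContDiff ℝ (1 + 1) (fun z => V z - (V z₀ - q z₀)) := by
      rw [contDiff_succ_iff_fderiv]
      refine ⟨fun z => (hWd z).differentiableAt, ?_, ?_⟩
      · intro h
        exact absurd h (by simp)
      · rw [hWf]; exact hAc
    exact h2.of_le (by norm_num)
  · obtain ⟨R, hR⟩ := hO.isBounded.subset_closedBall 0
    refine HasCompactSupport.intro (isCompact_closedBall (0 : ℂ) (max r R)) ?_
    intro z hz
    rw [mem_closedBall, dist_zero_right, not_le, max_lt_iff] at hz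
    have hzO : z ∈ Oᶜ := by
      intro hzO
      have := hR hzO
      rw [mem_closedBall, dist_zero_right] at this
      linarith [hz.2]
    show V z - (V z₀ - q z₀) = 0
    rw [hWe z hzO, hr z hzO hz.1]
  · show ∀ᶠ z in 𝓝ˢ O, fderiv ℝ (fun z => V z - (V z₀ - q z₀)) z = 0
    rw [hWf, eventually_nhdsSet_iff_forall]
    intro z hz
    have hzS : z ∉ S := fun h => hSG h hz
    exact hA2 z hzS

theorem nrm_open (h : Nrm E f) : IsOpen Eᶜ := h.compact.isClosed.isOpen_compl

/-- the closed support of the gradient avoids `E` -/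
theorem tsupport_fderiv_subset_compl {w : ℂ → ℝ} (lw : LC E w) :
    tsupport (fderiv ℝ w) ⊆ Eᶜ := by
  intro z hz hzE
  have h1 : ∀ᶠ x in 𝓝 z, fderiv ℝ w x = 0 := by
    have h2 : ∀ᶠ x in 𝓝ˢ E, fderiv ℝ w x = 0 := lw
    rw [eventually_nhdsSet_iff_forall] at h2
    exact h2 z hzE
  exact notMem_tsupport_iff_eventuallyEq.2 h1 hz

theorem exists_bound_support {w : ℂ → ℝ} (cw : HasCompactSupport w) :
    ∃ r : ℝ, ∀ z, r < ‖z‖ → w z = 0 := by
  obtain ⟨r, hr⟩ := cw.isBounded.subset_closedBall 0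
  refine ⟨r, fun z hz => image_eq_zero_of_notMem_tsupport fun h => ?_⟩
  have := hr h
  rw [mem_closedBall, dist_zero_right] at this
  linarith

theorem eq_of_compl {O : Set ℂ} (hO : IsClosed O) (hn : Oᶜ.Nonempty) {w w' : ℂ → ℝ}
    (hw : ContDiff ℝ 2 w) (hw' : ContDiff ℝ 2 w') (lw : LC O w) (lw' : LC O w')
    (he : ∀ z ∈ Oᶜ, w z = w' z) : w = w' := by
  have hd : Differentiable ℝ w := hw.differentiable (by norm_num)
  have hd' : Differentiable ℝ w' := hw'.differentiable (by norm_num)
  have h0 : ∀ z, fderiv ℝ (fun x => w x - w' x) z = 0 := by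
    intro z
    by_cases hz : z ∈ O
    · have h1 : fderiv ℝ w z = 0 := by
        have h2 : ∀ᶠ x in 𝓝ˢ O, fderiv ℝ w x = 0 := lw
        rw [eventually_nhdsSet_iff_forall] at h2
        exact (h2 z hz).self_of_nhds
      have h1' : fderiv ℝ w' z = 0 := by
        have h2 : ∀ᶠ x in 𝓝ˢ O, fderiv ℝ w' x = 0 := lw'
        rw [eventually_nhdsSet_iff_forall] at h2
        exact (h2 z hz).self_of_nhds
      have h3 := ((hd z).hasFDerivAt.sub (hd' z).hasFDerivAt).fderiv
      rw [h1, h1', sub_zero] at h3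
      exact h3
    · have h1 : (fun x => w x - w' x) =ᶠ[𝓝 z] fun _ => 0 := by
        filter_upwards [hO.isOpen_compl.mem_nhds hz] with x hx
        rw [he x hx, sub_self]
      rw [h1.fderiv_eq]
      simp
  obtain ⟨z₀, hz₀⟩ := hn
  funext z
  have h1 := is_const_of_fderiv_eq_zero (hd.sub hd') h0 z z₀
  have h2 : w z - w' z = w z₀ - w' z₀ := h1
  rw [he z₀ hz₀, sub_self] at h2
  linarith

end TransferAux

open TransferAux

theorem exists_corr (h : Nrm E f) {w : ℂ → ℝ} (hw : ContDiff ℝ 2 w) (cw : HasCompactSupport w)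
    (lw : LC E w) : ∃ W : ℂ → ℝ, Corr E f w W := by
  have hEo := nrm_open h
  have hGo : IsOpen (f '' Eᶜ) := Pool.Lib.isOpen_image_of_injOn hEo h.diff h.inj hEo Subset.rfl
  have hOc : (Om E f)ᶜ = f '' Eᶜ := by unfold Om; rw [compl_compl]
  set g := Function.invFunOn f Eᶜ with hg
  have hgf : ∀ z ∈ Eᶜ, g (f z) = z := fun z hz => h.inj.leftInvOn_invFunOn hz
  have hgd : ∀ u ∈ f '' Eᶜ, ContDiffAt ℝ 2 g u := by
    intro u hu
    have h1 : DifferentiableOn ℂ g (f '' Eᶜ) :=
      Pool.Lib.differentiableOn_invFunOn hEo h.diff h.inj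
    exact ((h1.analyticAt (hGo.mem_nhds hu)).contDiffAt (n := 2)).restrict_scalars ℝ
  set T := tsupport (fderiv ℝ w) with hT
  have hTc : IsCompact T := cw.isCompact.of_isClosed_subset (isClosed_tsupport _)
    (tsupport_fderiv_subset ℝ)
  have hTE : T ⊆ Eᶜ := tsupport_fderiv_subset_compl lw
  have hSc : IsCompact (f '' T) := hTc.image_of_continuousOn (h.diff.continuousOn.mono hTE)
  obtain ⟨r, hr⟩ := exists_bound_support cw
  obtain ⟨r', hr'⟩ := exists_bound_of_bound h r
  obtain ⟨W, hW1, hW2, hW3, hW4⟩ := extend (isCompact_Om h)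
    (isConnected_compl_Om h).isPreconnected (isConnected_compl_Om h).nonempty
    (q := fun u => w (g u)) (S := f '' T) (r := r')
    (by
      rw [hOc]
      intro u hu
      exact (hw.contDiffAt.comp u (hgd u hu)).contDiffWithinAt)
    hSc.isClosed
    (by rw [hOc]; exact image_mono hTE)
    (by
      rw [hOc]
      rintro _ ⟨z, hz, rfl⟩ hzS
      have hzT : z ∉ T := fun h => hzS (mem_image_of_mem f h)
      have h1 : fderiv ℝ w z = 0 := image_eq_zero_of_notMem_tsupport hzT
      have h2 : HasFDerivAt w (0 : ℂ →L[ℝ] ℝ) (g (f z)) := by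
        rw [hgf z hz, ← h1]
        exact (hw.differentiable (by norm_num) z).hasFDerivAt
      have h3 : HasFDerivAt g (fderiv ℝ g (f z)) (f z) :=
        ((hgd (f z) (mem_image_of_mem f hz)).differentiableAt (by norm_num)).hasFDerivAt
      have h4 := (h2.comp (f z) h3).fderiv
      rw [ContinuousLinearMap.zero_comp] at h4
      exact h4)
    (by
      rw [hOc]
      rintro _ ⟨z, hz, rfl⟩ hzr
      show w (g (f z)) = 0
      rw [hgf z hz]
      refine hr z ?_
      by_contra hcon
      have := hr' z hz (not_lt.1 hcon)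
      linarith)
  refine ⟨W, hw, cw, lw, hW1, hW2, hW3, fun z hz => ?_⟩
  rw [hW4 (f z) (by rw [hOc]; exact mem_image_of_mem f hz)]
  show w (g (f z)) = w z
  rw [hgf z hz]

theorem exists_corr_back (h : Nrm E f) {W : ℂ → ℝ} (hW : ContDiff ℝ 2 W)
    (cW : HasCompactSupport W) (lW : LC (Om E f) W) : ∃ w : ℂ → ℝ, Corr E f w W := by
  have hEo := nrm_open h
  have hGo : IsOpen (f '' Eᶜ) := Pool.Lib.isOpen_image_of_injOn hEo h.diff h.inj hEo Subset.rfl
  have hOc : (Om E f)ᶜ = f '' Eᶜ := by unfold Om; rw [compl_compl]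
  set g := Function.invFunOn f Eᶜ with hg
  have hgf : ∀ z ∈ Eᶜ, g (f z) = z := fun z hz => h.inj.leftInvOn_invFunOn hz
  have hgd : DifferentiableOn ℂ g (f '' Eᶜ) :=
    Pool.Lib.differentiableOn_invFunOn hEo h.diff h.inj
  have hfd : ∀ u ∈ Eᶜ, ContDiffAt ℝ 2 f u := by
    intro u hu
    exact ((h.diff.analyticAt (hEo.mem_nhds hu)).contDiffAt (n := 2)).restrict_scalars ℝ
  set T := tsupport (fderiv ℝ W) with hT
  have hTc : IsCompact T := cW.isCompact.of_isClosed_subset (isClosed_tsupport _)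
    (tsupport_fderiv_subset ℝ)
  have hTE : T ⊆ f '' Eᶜ := by
    rw [← hOc]
    exact tsupport_fderiv_subset_compl lW
  have hSc : IsCompact (g '' T) := hTc.image_of_continuousOn (hgd.continuousOn.mono hTE)
  obtain ⟨r, hr⟩ := exists_bound_support cW
  obtain ⟨r', hr'⟩ := exists_bound_of_bound' h r
  obtain ⟨w, hw1, hw2, hw3, hw4⟩ := extend h.compact h.conn.isPreconnected h.conn.nonempty
    (q := fun u => W (f u)) (S := g '' T) (r := r')
    (by
      intro u hu
      exact (hW.contDiffAt.comp u (hfd u hu)).contDiffWithinAt)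
    hSc.isClosed
    (by
      rintro _ ⟨u, hu, rfl⟩
      obtain ⟨z, hz, rfl⟩ := hTE hu
      rw [hgf z hz]
      exact hz)
    (by
      intro z hz hzS
      have hzT : f z ∉ T := fun h => hzS (by rw [← hgf z hz]; exact mem_image_of_mem g h)
      have h1 : fderiv ℝ W (f z) = 0 := image_eq_zero_of_notMem_tsupport hzT
      have h2 : HasFDerivAt W (0 : ℂ →L[ℝ] ℝ) (f z) := by
        rw [← h1]
        exact (hW.differentiable (by norm_num) (f z)).hasFDerivAt
      have h3 : HasFDerivAt f (fderiv ℝ f z) z :=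
        ((hfd z hz).differentiableAt (by norm_num)).hasFDerivAt
      have h4 := (h2.comp z h3).fderiv
      rw [ContinuousLinearMap.zero_comp] at h4
      exact h4)
    (by
      intro z hz hzr
      refine hr (f z) ?_
      by_contra hcon
      have := hr' z hz (not_lt.1 hcon)
      linarith)
  exact ⟨w, hw1, hw2, hw3, hW, cW, lW, fun z hz => (hw4 z hz).symm⟩

theorem Corr.eq_right (h : Nrm E f) {w w' W W' : ℂ → ℝ} (hc : Corr E f w W)
    (hc' : Corr E f w' W') (he : ∀ z ∈ Eᶜ, w z = w' z) : W = W' := by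
  have hOc : (Om E f)ᶜ = f '' Eᶜ := by unfold Om; rw [compl_compl]
  refine eq_of_compl (isCompact_Om h).isClosed (isConnected_compl_Om h).nonempty hc.smooth'
    hc'.smooth' hc.lc' hc'.lc' ?_
  rw [hOc]
  rintro _ ⟨z, hz, rfl⟩
  rw [hc.eq z hz, hc'.eq z hz, he z hz]

theorem Corr.eq_left (h : Nrm E f) {w w' W W' : ℂ → ℝ} (hc : Corr E f w W)
    (hc' : Corr E f w' W') (he : ∀ z ∈ Eᶜ, w z = w' z) : w = w' :=
  eq_of_compl h.compact.isClosed h.conn.nonempty hc.smooth hc'.smooth hc.lc hc'.lc he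

end Pool.Recti
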