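import Pool.Agent.Recti.Seqn
import Pool.Agent.Recti.FinStr

/-!
# Straightness for components of type (i)

PROOF of `straight_typeI`.  Let `x ∈ E` have an open neighbourhood `U` and `Θ0` as in `LocEnergy`.
Apply `straight_of_local` to the limit map `f` with `θ₀ = θ x`, radius `4 R`, and
`C = 2 (2 A + 2) + 2 (2 (M + 2))² ∫_{U \ E} ‖fderiv Θ0‖²`, `M = 4 R + A / R`.  Given `ε, N`:
choose `ε1 > 0` with `M ε1 ≤ ε / 4`; `N1 = {z ∈ N ∩ U ∩ ball 0 (4R) | |Θ0 z - θ x| < ε1}` is open (`Θ0` is continuous on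
the open set `U`) and contains the component of `x` (there `Θ0 = θ = θ x`: `θ` is constant on the component, since
`θ '' E` is null and the image of the component is an interval).
Take `χ` from `exists_cutoff` for `N1`, `Q = {z | χ z = 1/2}` (compact subset of `Eᶜ ∩ ball 0 (4R)`).  Choose `n` with
`‖F n z - f z‖ ≤ ε/4` on `Q` and `1/(n+1) ≤ ε1`; `g` from `exists_bounded_app` for `F n`, `Θ n`, `Q`;
  `v z = Im (e^{-i φ_n (Θ0 z)} g z)`; `W` the function from `Framed E (Θ n) g`.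
* `v` is `C^2` on `Eᶜ ∩ {χ ≠ 0} ⊆ (U \ E) ∩ ball 0 (4R)`.
* Near `y ∈ E` with `χ y = 0`: `χ = 0` near `y`.  Near `y ∈ E` with `χ y ≠ 0`, `y ∈ U`: `φ n` is constant near
  `θ y` (zero derivative on an interval around it), `Θ0` is continuous at `y`, `Θ0 y = θ y`, so near `y`
  `φ_n (Θ0 z) = φ_n (θ y) = Θ n y = Θ n z` (`eventually_eq_of_lc`), and `v z = W z` for `z ∉ E`.
  (The set of `z` with the eventual property is a neighbourhood of each point of `E`: `eventually_nhdsSet_iff_forall`.)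
* `‖fderiv v z‖ ≤ ‖fderiv g z‖ + ‖g z‖ ‖fderiv Θ0 z‖` (`|φ_n'| ≤ 1`), so `∫ ‖fderiv v‖² ≤ C`.
* if `χ z = 1/2`, `z ∈ Q`, `g z = F n z`, so
  `|v z - Im (e^{-iθ x} f z)| ≤ ‖F n z - f z‖ + ‖f z‖ |φ_n (Θ0 z) - θ x| ≤ ε/4 + M (ε1 + 1/(n+1)) ≤ ε`.
-/

set_option autoImplicit false

open Complex MeasureTheory Set Filter Topology Metric
open scoped ContDiff

namespace Pool.Recti

/-- Near the component of `x` the angle function extends to a continuous function of finite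
Dirichlet energy off `E`. -/
def LocEnergy (E : Set ℂ) (θ : ℂ → ℝ) (x : ℂ) : Prop :=
  ∃ U : Set ℂ, IsOpen U ∧ connectedComponentIn E x ⊆ U ∧ ∃ Θ0 : ℂ → ℝ, ContinuousOn Θ0 U ∧
    (∀ z ∈ E, z ∈ U → Θ0 z = θ z) ∧ ContDiffOn ℝ 2 Θ0 (U \ E) ∧
    IntegrableOn (fun z => ‖fderiv ℝ Θ0 z‖ ^ 2) (U \ E)

private theorem TypeI_two_le : (2 : WithTop ℕ∞) ≤ ∞ := WithTop.coe_le_coe.2 le_top

private theorem TypeI_norm_exp (a : ℝ) : ‖exp (-((a : ℂ) * I))‖ = 1 := by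
  rw [Complex.norm_exp]
  simp

private theorem TypeI_exp_sub (a b : ℝ) :
    ‖exp (-((a : ℂ) * I)) - exp (-((b : ℂ) * I))‖ ≤ |a - b| := by
  have h1 : exp (-((a : ℂ) * I)) - exp (-((b : ℂ) * I)) =
      exp (-((b : ℂ) * I)) * (exp (I * ((b - a : ℝ) : ℂ)) - 1) := by
    rw [mul_sub, mul_one, ← Complex.exp_add]
    congr 2
    push_cast
    ring
  rw [h1, norm_mul, TypeI_norm_exp, one_mul]
  refine Real.norm_exp_I_mul_ofReal_sub_one_le.trans ?_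
  rw [Real.norm_eq_abs, abs_sub_comm]

/-- The derivative of the component of `g` in the moving frame. -/
private theorem TypeI_fderiv {φ : ℝ → ℝ} {Θ0 : ℂ → ℝ} {g : ℂ → ℂ} {z : ℂ}
    (hφ : Differentiable ℝ φ) (hφ1 : ∀ t, 0 ≤ deriv φ t ∧ deriv φ t ≤ 1)
    (hΘ : DifferentiableAt ℝ Θ0 z) (hg : DifferentiableAt ℝ g z) :
    ‖fderiv ℝ (fun w => (exp (-(((φ (Θ0 w) : ℝ) : ℂ) * I)) * g w).im) z‖ ≤
      ‖fderiv ℝ g z‖ + ‖g z‖ * ‖fderiv ℝ Θ0 z‖ := by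
  have h1 : HasFDerivAt (fun w => φ (Θ0 w)) (deriv φ (Θ0 z) • fderiv ℝ Θ0 z) z :=
    (hφ (Θ0 z)).hasDerivAt.comp_hasFDerivAt z hΘ.hasFDerivAt
  have h2 : HasFDerivAt (fun w => ((φ (Θ0 w) : ℝ) : ℂ))
      (ofRealCLM.comp (deriv φ (Θ0 z) • fderiv ℝ Θ0 z)) z :=
    ofRealCLM.hasFDerivAt.comp z h1
  have h3 := (h2.mul_const I).neg
  have h4 := h3.cexp
  have h5 := h4.mul hg.hasFDerivAt
  have h6 := imCLM.hasFDerivAt.comp z h5
  have h7 : HasFDerivAt (fun w => (exp (-(((φ (Θ0 w) : ℝ) : ℂ) * I)) * g w).im) _ z := h6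
  rw [h7.fderiv]
  refine ContinuousLinearMap.opNorm_le_bound _ (by positivity) fun v => ?_
  have h8 : ‖fderiv ℝ g z v‖ ≤ ‖fderiv ℝ g z‖ * ‖v‖ := (fderiv ℝ g z).le_opNorm v
  have h9 : ‖fderiv ℝ Θ0 z v‖ ≤ ‖fderiv ℝ Θ0 z‖ * ‖v‖ := (fderiv ℝ Θ0 z).le_opNorm v
  have h10 : ‖((deriv φ (Θ0 z) * fderiv ℝ Θ0 z v : ℝ) : ℂ)‖ ≤ ‖fderiv ℝ Θ0 z‖ * ‖v‖ := by
    rw [Complex.norm_real, norm_mul, Real.norm_eq_abs, abs_of_nonneg (hφ1 _).1]
    calc deriv φ (Θ0 z) * ‖fderiv ℝ Θ0 z v‖ ≤ 1 * ‖fderiv ℝ Θ0 z v‖ :=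
          mul_le_mul_of_nonneg_right (hφ1 _).2 (norm_nonneg _)
      _ ≤ ‖fderiv ℝ Θ0 z‖ * ‖v‖ := by rw [one_mul]; exact h9
  have key : ∀ e b c d : ℂ, ‖e‖ = 1 → ‖(e * b + c * (e * -(I * d))).im‖ ≤ ‖b‖ + ‖c‖ * ‖d‖ := by
    intro e b c d he
    rw [Real.norm_eq_abs]
    refine (Complex.abs_im_le_norm _).trans ((norm_add_le _ _).trans ?_)
    rw [norm_mul, he, one_mul, norm_mul, norm_mul, he, one_mul, norm_neg, norm_mul, norm_I, one_mul]
  have h11 := key (exp (-(((φ (Θ0 z) : ℝ) : ℂ) * I))) (fderiv ℝ g z v) (g z)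
    ((deriv φ (Θ0 z) * fderiv ℝ Θ0 z v : ℝ) : ℂ) (TypeI_norm_exp _)
  refine le_trans (le_of_eq ?_) (h11.trans ?_)
  · congr 1
  · have h12 : ‖g z‖ * ‖((deriv φ (Θ0 z) * fderiv ℝ Θ0 z v : ℝ) : ℂ)‖ ≤
        ‖g z‖ * (‖fderiv ℝ Θ0 z‖ * ‖v‖) := mul_le_mul_of_nonneg_left h10 (norm_nonneg _)
    calc ‖fderiv ℝ g z v‖ + ‖g z‖ * ‖((deriv φ (Θ0 z) * fderiv ℝ Θ0 z v : ℝ) : ℂ)‖
        ≤ ‖fderiv ℝ g z‖ * ‖v‖ + ‖g z‖ * (‖fderiv ℝ Θ0 z‖ * ‖v‖) := add_le_add h8 h12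
      _ = (‖fderiv ℝ g z‖ + ‖g z‖ * ‖fderiv ℝ Θ0 z‖) * ‖v‖ := by ring

/-- `θ` is constant on the components of `E`. -/
private theorem TypeI_const {E : Set ℂ} {θ : ℂ → ℝ} (hθ : ContinuousOn θ E)
    (h0 : volume (θ '' E) = 0) {x y : ℂ} (hx : x ∈ E) (hy : y ∈ connectedComponentIn E x) :
    θ y = θ x := by
  by_contra hne
  have hsub : connectedComponentIn E x ⊆ E := connectedComponentIn_subset E x
  have hpre : IsPreconnected (θ '' connectedComponentIn E x) :=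
    isPreconnected_connectedComponentIn.image θ (hθ.mono hsub)
  have hord : OrdConnected (θ '' connectedComponentIn E x) := hpre.ordConnected
  have h1 : uIcc (θ x) (θ y) ⊆ θ '' E :=
    (hord.uIcc_subset (mem_image_of_mem θ (mem_connectedComponentIn hx))
      (mem_image_of_mem θ hy)).trans (image_mono hsub)
  have h2 : volume (uIcc (θ x) (θ y)) = 0 := measure_mono_null h1 h0
  rw [uIcc, Real.volume_Icc, ENNReal.ofReal_eq_zero] at h2
  have h3 : θ y ≤ θ x ⊔ θ y := le_sup_right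
  have h4 : θ x ≤ θ x ⊔ θ y := le_sup_left
  have h5 : θ x ⊓ θ y ≤ θ x := inf_le_left
  have h6 : θ x ⊓ θ y ≤ θ y := inf_le_right
  exact hne (le_antisymm (by linarith) (by linarith))

theorem straight_typeI {E : Set ℂ} {R A : ℝ} {θ : ℂ → ℝ} {φ : ℕ → ℝ → ℝ} {Θ : ℕ → ℂ → ℝ}
    {F : ℕ → ℂ → ℂ} {f : ℂ → ℂ} (hs : Seqn E R A θ φ Θ F f) (hθ : ContinuousOn θ E)
    (h0 : volume (θ '' E) = 0) {x : ℂ} (hx : x ∈ E) (hloc : LocEnergy E θ x) :
    Straight E f (θ x) x := by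
  obtain ⟨U, hUo, hKU, Θ0, hΘc, hΘE, hΘs, hΘi⟩ := hloc
  have hR : 0 < R := hs.bdf.posR
  have hA : 0 ≤ A := hs.bdf.posA
  have hE : IsCompact E := hs.bdf.nrm.compact
  have hO : IsOpen Eᶜ := hE.isClosed.isOpen_compl
  have hER4 : E ⊆ ball 0 (4 * R) := hs.bdf.sub.trans (ball_subset_ball (by linarith))
  set M : ℝ := 4 * R + A / R with hM
  have hM0 : 0 ≤ M := by positivity
  set B : ℝ := ∫ z in U \ E, ‖fderiv ℝ Θ0 z‖ ^ 2 with hB
  have hUEo : IsOpen (U \ E) := hUo.sdiff hE.isClosed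
  refine straight_of_local hs.bdf.nrm hx (θ₀ := θ x) (R := 4 * R)
    (C := 2 * (2 * A + 2) + 2 * (2 * (M + 2)) ^ 2 * B) hER4 hs.bdf.int ?_
  intro ε hε N hN hKN
  set ε1 : ℝ := ε / (4 * (M + 1)) with hε1
  have hε1pos : 0 < ε1 := by positivity
  have hMε1 : M * ε1 ≤ ε / 4 := by
    have h1 : (M + 1) * ε1 = ε / 4 := by
      rw [hε1]
      field_simp
    have h2 : M * ε1 ≤ (M + 1) * ε1 := mul_le_mul_of_nonneg_right (by linarith) hε1pos.le
    linarith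
  -- the neighbourhood
  set N1 : Set ℂ := (N ∩ ball 0 (4 * R)) ∩ (U ∩ Θ0 ⁻¹' (ball (θ x) ε1)) with hN1
  have hN1o : IsOpen N1 := (hN.inter isOpen_ball).inter (hΘc.isOpen_inter_preimage hUo isOpen_ball)
  have hKN1 : connectedComponentIn E x ⊆ N1 := by
    intro y hy
    have hyE : y ∈ E := connectedComponentIn_subset E x hy
    refine ⟨⟨hKN hy, hER4 hyE⟩, hKU hy, ?_⟩
    rw [mem_preimage, hΘE y hyE (hKU hy), TypeI_const hθ h0 hx hy]
    exact mem_ball_self hε1pos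
  obtain ⟨χ, hχ, hχ01, hχN1, hχK, hχE⟩ := exists_cutoff hE hx hN1o hKN1
  have hχc : Continuous χ := hχ.smooth.continuous
  have hχsup : ∀ z, χ z ≠ 0 → z ∈ N1 := fun z hz => hχN1 (subset_tsupport χ hz)
  set Q : Set ℂ := {z | χ z = 1 / 2} with hQdef
  have hQcl : IsClosed Q := isClosed_eq hχc continuous_const
  have hQc : IsCompact Q := by
    refine hχ.comp.isCompact.of_isClosed_subset hQcl fun z hz => subset_tsupport χ ?_
    rw [Function.mem_support, show χ z = 1 / 2 from hz]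
    norm_num
  have hQE : Q ⊆ Eᶜ := by
    intro z hz hzE
    rcases hχE z hzE with h | h <;> rw [show χ z = 1 / 2 from hz] at h <;> norm_num at h
  -- choose `n`
  have hlimQ : TendstoUniformlyOn F f atTop Q :=
    (tendstoLocallyUniformlyOn_iff_forall_isCompact hO).1 hs.lim Q hQE hQc
  have hev1 : ∀ᶠ n in atTop, ∀ z ∈ Q, dist (f z) (F n z) < ε / 4 :=
    Metric.tendstoUniformlyOn_iff.1 hlimQ (ε / 4) (by positivity)
  have hev2 : ∀ᶠ n : ℕ in atTop, 1 / ((n : ℝ) + 1) < ε1 :=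
    tendsto_one_div_add_atTop_nhds_zero_nat.eventually_lt_const hε1pos
  obtain ⟨n, hn1, hn2⟩ := (hev1.and hev2).exists
  obtain ⟨g, hgs, hgQ, ⟨W, hW1, hW2, hW3⟩, hgb, hgi, hgA⟩ :=
    exists_bounded_app hE (hs.ang n) (hs.bd n).nrm.diff (R := 4 * R) (M := M) (A := A) hER4 hM0
      (fun z hz hzR => (hs.bd n).norm_le hz hzR.le) (hs.app n) (hs.bd n).int (hs.bd n).energy
      hQc hQE
  have hφd : Differentiable ℝ (φ n) := (hs.phi_smooth n).differentiable (by simp)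
  set v : ℂ → ℝ := fun w => (exp (-(((φ n (Θ0 w) : ℝ) : ℂ) * I)) * g w).im with hv
  set S0 : Set ℂ := Eᶜ ∩ {z | χ z ≠ 0} with hS0
  have hS0U : S0 ⊆ U \ E := fun z hz => ⟨(hχsup z hz.2).2.1, hz.1⟩
  have hS0B : S0 ⊆ Eᶜ ∩ ball 0 (4 * R) := fun z hz => ⟨hz.1, (hχsup z hz.2).1.2⟩
  have hvs : ContDiffOn ℝ 2 v S0 := by
    have h1 : ContDiffOn ℝ 2 (fun w => φ n (Θ0 w)) S0 :=
      ((hs.phi_smooth n).of_le TypeI_two_le).comp_contDiffOn (hΘs.mono hS0U)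
    have h2 : ContDiffOn ℝ 2 (fun w => ((φ n (Θ0 w) : ℝ) : ℂ)) S0 :=
      ofRealCLM.contDiff.comp_contDiffOn h1
    have h3 : ContDiffOn ℝ 2 (fun w => exp (-(((φ n (Θ0 w) : ℝ) : ℂ) * I))) S0 :=
      ((h2.mul contDiffOn_const).neg).cexp
    have h4 : ContDiffOn ℝ 2 g S0 := (hgs.mono hS0B).of_le TypeI_two_le
    exact imCLM.contDiff.comp_contDiffOn (h3.mul h4)
  set S : Set ℂ := Eᶜ ∩ {z | 1 / 2 < χ z} with hS
  have hSS0 : S ⊆ S0 := fun z hz => ⟨hz.1, by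
    have : 1 / 2 < χ z := hz.2
    exact (lt_trans (by norm_num) this).ne'⟩
  have hSo : IsOpen S := hO.inter (isOpen_lt continuous_const hχc)
  have hSm : MeasurableSet S := hSo.measurableSet
  -- pointwise bound of the derivative
  have hpt : ∀ z ∈ S, ‖fderiv ℝ v z‖ ^ 2 ≤
      2 * ‖fderiv ℝ g z‖ ^ 2 + 2 * (2 * (M + 2)) ^ 2 * ‖fderiv ℝ Θ0 z‖ ^ 2 := by
    intro z hz
    have hz0 := hSS0 hz
    have hΘd : DifferentiableAt ℝ Θ0 z :=
      (hΘs.differentiableOn (by norm_num)).differentiableAt (hUEo.mem_nhds (hS0U hz0))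
    have hgd : DifferentiableAt ℝ g z :=
      (hgs.differentiableOn (by simp)).differentiableAt
        ((hO.inter isOpen_ball).mem_nhds (hS0B hz0))
    have h1 := TypeI_fderiv hφd (hs.phi_deriv n) hΘd hgd
    have hzb := hS0B hz0
    have h2 : ‖g z‖ ≤ 2 * (M + 2) := hgb z hzb.1 (mem_ball_zero_iff.1 hzb.2)
    have h3 : ‖g z‖ * ‖fderiv ℝ Θ0 z‖ ≤ 2 * (M + 2) * ‖fderiv ℝ Θ0 z‖ :=
      mul_le_mul_of_nonneg_right h2 (norm_nonneg _)
    have h4 : ‖fderiv ℝ v z‖ ≤ ‖fderiv ℝ g z‖ + 2 * (M + 2) * ‖fderiv ℝ Θ0 z‖ := h1.trans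
      (by linarith)
    calc ‖fderiv ℝ v z‖ ^ 2 ≤ (‖fderiv ℝ g z‖ + 2 * (M + 2) * ‖fderiv ℝ Θ0 z‖) ^ 2 :=
          pow_le_pow_left₀ (norm_nonneg _) h4 2
      _ ≤ _ := by nlinarith [sq_nonneg (‖fderiv ℝ g z‖ - 2 * (M + 2) * ‖fderiv ℝ Θ0 z‖)]
  have hi1 : IntegrableOn (fun z => ‖fderiv ℝ g z‖ ^ 2) S :=
    hgi.mono_set (hSS0.trans hS0B)
  have hi2 : IntegrableOn (fun z => ‖fderiv ℝ Θ0 z‖ ^ 2) S := hΘi.mono_set (hSS0.trans hS0U)
  have hi3 : IntegrableOn (fun z => 2 * ‖fderiv ℝ g z‖ ^ 2 +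
      2 * (2 * (M + 2)) ^ 2 * ‖fderiv ℝ Θ0 z‖ ^ 2) S :=
    (hi1.const_mul 2).add (hi2.const_mul (2 * (2 * (M + 2)) ^ 2))
  have hi4 : IntegrableOn (fun z => ‖fderiv ℝ v z‖ ^ 2) S := by
    refine Integrable.mono' hi3 ?_ ?_
    · have hc : ContinuousOn (fderiv ℝ v) S :=
        (hvs.mono hSS0).continuousOn_fderiv_of_isOpen hSo (by norm_num)
      exact (hc.norm.pow 2).aestronglyMeasurable hSm
    · refine (ae_restrict_iff' hSm).2 (Eventually.of_forall fun z hz => ?_)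
      rw [Real.norm_eq_abs, abs_of_nonneg (by positivity)]
      exact hpt z hz
  refine ⟨χ, v, W, hχ, ?_, hχK.self_of_nhdsSet x (mem_connectedComponentIn hx), hχE, hvs,
    hW1.of_le TypeI_two_le, hW2, ?_, hi4, ?_, ?_⟩
  · exact fun z hz => (hχN1 hz).1.1
  · -- near `E`
    rw [eventually_nhdsSet_iff_forall]
    intro y hy
    rcases hχE y hy with h | h
    · filter_upwards [eventually_eq_of_lc (hχ.smooth.differentiable (by simp)) hχ.lc hy] with z hz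
      intro _ hne
      exact absurd (hz.trans h) hne
    · have hyN1 : y ∈ N1 := hχsup y (by rw [h]; exact one_ne_zero)
      have hyU : y ∈ U := hyN1.2.1
      have hflat : ∀ᶠ t in 𝓝 (θ y), φ n t = φ n (θ y) := by
        have h2 : ∀ᶠ t in 𝓝 (θ y), deriv (φ n) t = 0 :=
          (hs.phi_flat n).filter_mono (nhds_le_nhdsSet (mem_image_of_mem θ hy))
        obtain ⟨δ, hδ, hb⟩ := Metric.eventually_nhds_iff_ball.1 h2
        filter_upwards [Metric.ball_mem_nhds (θ y) hδ] with t ht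
        exact Metric.isOpen_ball.is_const_of_deriv_eq_zero (convex_ball (θ y) δ).isPreconnected
          hφd.differentiableOn (fun z hz => hb z hz) ht (Metric.mem_ball_self hδ)
      have hcont : ContinuousAt Θ0 y := hΘc.continuousAt (hUo.mem_nhds hyU)
      have hT : Tendsto Θ0 (𝓝 y) (𝓝 (θ y)) := by
        have h1 : Tendsto Θ0 (𝓝 y) (𝓝 (Θ0 y)) := hcont
        rwa [hΘE y hy hyU] at h1
      have hW3y := hW3.filter_mono (nhds_le_nhdsSet hy)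
      filter_upwards [hT.eventually hflat,
        eventually_eq_of_lc ((hs.ang n).smooth.differentiable (by simp)) (hs.ang n).lc hy,
        hW3y] with z hz1 hz2 hz3
      intro hzE _
      have h5 := hz3 hzE
      rw [hz2, hs.ang_eq n y hy] at h5
      rw [hv]
      simp only
      rw [hz1]
      exact h5
  · have h1 : ∫ z in S, ‖fderiv ℝ v z‖ ^ 2 ≤ ∫ z in S, (2 * ‖fderiv ℝ g z‖ ^ 2 +
        2 * (2 * (M + 2)) ^ 2 * ‖fderiv ℝ Θ0 z‖ ^ 2) :=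
      setIntegral_mono_on hi4 hi3 hSm hpt
    rw [integral_add (hi1.const_mul 2) (hi2.const_mul (2 * (2 * (M + 2)) ^ 2)),
      integral_const_mul, integral_const_mul] at h1
    have h2 : ∫ z in S, ‖fderiv ℝ g z‖ ^ 2 ≤ 2 * A + 2 := by
      refine (setIntegral_mono_set hgi (Eventually.of_forall fun z => by positivity)
        (LE.le.eventuallyLE (hSS0.trans hS0B))).trans hgA
    have h3 : ∫ z in S, ‖fderiv ℝ Θ0 z‖ ^ 2 ≤ B :=
      setIntegral_mono_set hΘi (Eventually.of_forall fun z => by positivity)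
        (LE.le.eventuallyLE (hSS0.trans hS0U))
    have h4 : 2 * (2 * (M + 2)) ^ 2 * ∫ z in S, ‖fderiv ℝ Θ0 z‖ ^ 2 ≤
        2 * (2 * (M + 2)) ^ 2 * B := mul_le_mul_of_nonneg_left h3 (by positivity)
    linarith
  · intro z hz hzχ
    have hzQ : z ∈ Q := hzχ
    have hzN1 : z ∈ N1 := hχsup z (by rw [hzχ]; norm_num)
    have hz4 : ‖z‖ < 4 * R := mem_ball_zero_iff.1 hzN1.1.2
    have hzθ : |Θ0 z - θ x| < ε1 := by
      have h1 : Θ0 z ∈ ball (θ x) ε1 := hzN1.2.2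
      rwa [Metric.mem_ball, Real.dist_eq] at h1
    have e1 : v z - (exp (-((θ x : ℂ) * I)) * f z).im =
        (exp (-(((φ n (Θ0 z) : ℝ) : ℂ) * I)) * (F n z - f z) +
          (exp (-(((φ n (Θ0 z) : ℝ) : ℂ) * I)) - exp (-((θ x : ℂ) * I))) * f z).im := by
      rw [hv]
      simp only
      rw [hgQ z hzQ hz4, ← Complex.sub_im]
      congr 1
      ring
    rw [e1]
    refine (Complex.abs_im_le_norm _).trans ((norm_add_le _ _).trans ?_)
    rw [norm_mul, norm_mul, TypeI_norm_exp, one_mul]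
    have h2 : ‖F n z - f z‖ ≤ ε / 4 := by
      have := (hn1 z hzQ).le
      rwa [dist_comm, dist_eq_norm] at this
    have h3 : ‖f z‖ ≤ M := hs.bdf.norm_le hz hz4.le
    have h4 : |φ n (Θ0 z) - θ x| ≤ 2 * ε1 := by
      have h5 := hs.phi_close n (Θ0 z)
      have h6 : φ n (Θ0 z) - θ x = (φ n (Θ0 z) - Θ0 z) + (Θ0 z - θ x) := by ring
      rw [h6]
      refine (abs_add_le _ _).trans ?_
      linarith
    have h7 := TypeI_exp_sub (φ n (Θ0 z)) (θ x)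
    have h8 : ‖exp (-(((φ n (Θ0 z) : ℝ) : ℂ) * I)) - exp (-((θ x : ℂ) * I))‖ * ‖f z‖ ≤
        2 * ε1 * M := mul_le_mul (h7.trans h4) h3 (norm_nonneg _) (by positivity)
    linarith

end Pool.Recti
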