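import Pool.Agent.Recti.LineEst
import Pool.Agent.Recti.TypeI

/-!
# Straightness of a component whose neighbours are straight (type (ii))

PROOF of `straight_typeII`.  Put `L = LK E f x`, `e = e^{iθ x}`.  Suppose `Im (e⁻¹ p)` is not constant on `L`; `L` is
preconnected, so it takes on `L` all values of some interval `[α, β]`, `α < β`.  Let `ε' > 0` be small.
Choose an open `N ⊇` component of `x` with `N ⊆ N0 ∩ ball 0 (4R)`, with `hsmall` for `ε'` and
`∫_{Eᶜ ∩ N} ‖deriv f‖² ≤ ε'` (as in `straight_of_approx`: the sets `{dist (., K) < 1/m}` decrease to the compact `K`, which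
is disjoint from `Eᶜ`).  Take `χ` from `exists_cutoff` for `N`, and its partner `X` (`exists_corr`).
For every `n` let `a = e^{-i Θ n x}`; `straight_finite` for `F n` gives `cn` with `Im (a p) = cn` on `LK E (F n) x`, and for
`r ∈ T` the set `LK E (F n) r` lies on a line of direction `e^{i Θ n r}`, so for `p, q` in it
`|Im (a p) - Im (a q)| = ‖p - q‖ |sin (Θ n r - Θ n x)| ≤ diam (LK E (F n) r) |θ r - θ x| =: δ r`
(`|φ_n s - φ_n t| ≤ |s - t|`).  Choose `ε r > 0` with `Σ_{r ∈ T} ε r ≤ ε'` and `ε x ≤ ε'` (`T` countable;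
`Set.Countable.exists_pos_hasSum_le` or `ENNReal.exists_pos_sum_of_countable`).
`Q = {z | χ z = 1/2}` is a compact subset of `Eᶜ`; for `n` large
`|Im (a F_n z) - Im (e⁻¹ f z)| ≤ ‖F_n z - f z‖ + ‖f z‖ |Θ n x - θ x| ≤ ε' =: η` on `Q`.
Integrate `line_est` over `t ∈ [α, β]`:
* left: `∫⁻ ofReal (|t - cn| - ε') ≥ ofReal ((β - α)²/4 - ε' (β - α))`.
* first term: Tonelli and `(s, t) ↦ e (s + i t)` measure preserving give at most
  `∫⁻_{f '' S} ‖F_n'‖/‖f'‖ ∘ f⁻¹ = ∫⁻_S ‖F_n'‖ ‖f'‖ ≤ √A √ε'`, `S = Eᶜ ∩ {1/2 < χ} ⊆ N` (change of variables for the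
  injective holomorphic `f`, `lintegral_image_eq_lintegral_abs_det_fderiv_mul`; Cauchy-Schwarz).
* second: `2 ε' (β - α)`.
* third: the set of the `t ∈ [α, β]` whose line meets `LK E f r` is the image of a compact set, it has measure at
  most `β - α`, and at most `diam (LK E f r) |sin (θ r - θ x)| ≤ diam (LK E f r) |θ r - θ x|` because `LK E f r` is on a line of
  direction `e^{iθ r}` (`hgood`).  So the sum is at most
  `Σ_{r ∈ T ∩ N} diam (LK E f r) diam (LK E (F n) r) (θ r - θ x)² + 2 ε' (β - α) ≤ ε' + 2 ε' (β - α)`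
  (`χ r = 1` implies `r ∈ N`).
For `ε'` small this contradicts `(β - α)²/4 > 0`.
-/

set_option autoImplicit false

open Complex MeasureTheory Set Filter Topology Metric Function
open scoped ContDiff

namespace Pool.Recti

theorem tii_im_diff (s t : ℝ) {p q : ℂ}
    (h : (exp (-(s * I)) * p).im = (exp (-(s * I)) * q).im) :
    |(exp (-(t * I)) * p).im - (exp (-(t * I)) * q).im| ≤ ‖p - q‖ * |s - t| := by
  obtain ⟨w, hw⟩ : ∃ w, w = exp (-(s * I)) * (p - q) := ⟨_, rfl⟩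
  have hwim : w.im = 0 := by rw [hw, mul_sub, sub_im, h, sub_self]
  have hwn : ‖w‖ = ‖p - q‖ := by
    rw [hw, norm_mul, ← neg_mul, ← ofReal_neg, norm_exp_ofReal_mul_I, one_mul]
  have h1 : exp (-(t * I)) * p - exp (-(t * I)) * q = exp (((s - t : ℝ) : ℂ) * I) * w := by
    rw [hw, ← mul_sub, ← mul_assoc, ← Complex.exp_add]
    congr 2
    push_cast
    ring
  rw [← sub_im, h1, mul_im, hwim, mul_zero, zero_add, abs_mul, mul_comm, exp_ofReal_mul_I_im,
    ← hwn]
  exact mul_le_mul (abs_re_le_norm w) Real.abs_sin_le_abs (abs_nonneg _) (norm_nonneg _)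

theorem tii_exp_sub (s t : ℝ) : ‖exp (-(s * I)) - exp (-(t * I))‖ ≤ |s - t| := by
  have h1 : exp (-(s * I)) - exp (-(t * I)) =
      exp (-(s * I)) * (1 - exp (I * ((s - t : ℝ) : ℂ))) := by
    rw [mul_sub, mul_one, ← Complex.exp_add]
    congr 2
    push_cast
    ring
  rw [h1, norm_mul, ← neg_mul, ← ofReal_neg, norm_exp_ofReal_mul_I, one_mul, norm_sub_rev]
  exact Real.norm_exp_I_mul_ofReal_sub_one_le

/-- The change of variables. -/
theorem tii_change {E : Set ℂ} {f F : ℂ → ℂ} (h : Nrm E f) {S : Set ℂ}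
    (hS : MeasurableSet S) (hSE : S ⊆ Eᶜ) :
    ∫⁻ q in f '' S, ENNReal.ofReal (‖deriv F (invFunOn f Eᶜ q)‖ / ‖deriv f (invFunOn f Eᶜ q)‖) ≤
      ∫⁻ z in S, ENNReal.ofReal (‖deriv F z‖ * ‖deriv f z‖) := by
  have hop : IsOpen Eᶜ := h.compact.isClosed.isOpen_compl
  have hd : ∀ z ∈ S, HasDerivAt f (deriv f z) z := fun z hz =>
    ((h.diff z (hSE hz)).differentiableAt (hop.mem_nhds (hSE hz))).hasDerivAt
  have hf' : ∀ z ∈ S, HasFDerivWithinAt f
      ((ContinuousLinearMap.toSpanSingleton ℂ (deriv f z)).restrictScalars ℝ) S z := fun z hz =>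
    ((hd z hz).hasFDerivAt.restrictScalars ℝ).hasFDerivWithinAt
  rw [lintegral_image_eq_lintegral_abs_det_fderiv_mul volume hS hf' (h.inj.mono hSE)]
  apply setLIntegral_mono' hS
  intro z hz
  have hdet : |((ContinuousLinearMap.toSpanSingleton ℂ (deriv f z)).restrictScalars ℝ).det| =
      ‖deriv f z‖ ^ 2 := by
    have h1 : ((ContinuousLinearMap.toSpanSingleton ℂ (deriv f z)).restrictScalars ℝ).det =
        ‖deriv f z‖ ^ 2 := by
      unfold ContinuousLinearMap.det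
      rw [← LinearMap.det_toMatrix Complex.basisOneI, Matrix.det_fin_two]
      simp only [LinearMap.toMatrix_apply, Complex.coe_basisOneI, Complex.coe_basisOneI_repr]
      simp
      rw [← Complex.normSq_eq_norm_sq, Complex.normSq_apply]
    rw [h1, abs_of_nonneg (by positivity)]
  have hinv : invFunOn f Eᶜ (f z) = z := h.inj.leftInvOn_invFunOn (hSE hz)
  rw [hdet, ← ENNReal.ofReal_mul (by positivity), hinv]
  apply ENNReal.ofReal_le_ofReal
  have h0 : deriv f z ≠ 0 := Pool.Lib.deriv_ne_zero_of_injOn hop h.diff h.inj (hSE hz)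
  have hpos : 0 < ‖deriv f z‖ := norm_pos_iff.mpr h0
  apply le_of_eq
  field_simp

theorem tii_measurable {E : Set ℂ} {f F : ℂ → ℂ} (h : Nrm E f) (hF : Nrm E F) {S : Set ℂ}
    (hS : IsOpen S) (hSE : S ⊆ Eᶜ) :
    Measurable ((f '' S).indicator (fun q =>
      ENNReal.ofReal (‖deriv F (invFunOn f Eᶜ q)‖ / ‖deriv f (invFunOn f Eᶜ q)‖))) := by
  have hop : IsOpen Eᶜ := h.compact.isClosed.isOpen_compl
  have hfS : IsOpen (f '' S) := Pool.Lib.isOpen_image_of_injOn hop h.diff h.inj hS hSE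
  have hG : ContinuousOn (invFunOn f Eᶜ) (f '' S) :=
    (Pool.Lib.continuousOn_invFunOn hop h.diff h.inj).mono (image_mono hSE)
  have hmaps : MapsTo (invFunOn f Eᶜ) (f '' S) Eᶜ := by
    rintro _ ⟨z, hz, rfl⟩
    rw [h.inj.leftInvOn_invFunOn (hSE hz)]
    exact hSE hz
  have hdF : ContinuousOn (deriv F) Eᶜ := (hF.diff.deriv hop).continuousOn
  have hdf : ContinuousOn (deriv f) Eᶜ := (h.diff.deriv hop).continuousOn
  have hc : ContinuousOn (fun q =>
      ENNReal.ofReal (‖deriv F (invFunOn f Eᶜ q)‖ / ‖deriv f (invFunOn f Eᶜ q)‖)) (f '' S) := by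
    apply ENNReal.continuous_ofReal.comp_continuousOn
    apply ContinuousOn.div
    · exact (hdF.comp hG hmaps).norm
    · exact (hdf.comp hG hmaps).norm
    · intro q hq
      exact norm_ne_zero_iff.mpr
        (Pool.Lib.deriv_ne_zero_of_injOn hop h.diff h.inj (hmaps hq))
  classical
  rw [← piecewise_eq_indicator]
  exact hc.measurable_piecewise continuousOn_const hfS.measurableSet

theorem tii_first {E : Set ℂ} {R A : ℝ} {f F : ℂ → ℂ} (h : Bd E R A f) (hF : Bd E R A F)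
    {S N : Set ℂ} (hS : MeasurableSet S) (hSN : S ⊆ Eᶜ ∩ N) (hNR : N ⊆ ball 0 (4 * R)) {ε : ℝ}
    (hε : 0 < ε) (hsm : ∫ z in Eᶜ ∩ N, ‖deriv f z‖ ^ 2 ≤ ε ^ 2) :
    ∫⁻ q in f '' S, ENNReal.ofReal (‖deriv F (invFunOn f Eᶜ q)‖ / ‖deriv f (invFunOn f Eᶜ q)‖) ≤
      ENNReal.ofReal (ε * (A + 1) / 2) := by
  have hSE : S ⊆ Eᶜ := hSN.trans inter_subset_left
  have hSR : S ⊆ Eᶜ ∩ ball 0 (4 * R) := hSN.trans (inter_subset_inter_right _ hNR)
  have hfi : IntegrableOn (fun z => ‖deriv f z‖ ^ 2) S := h.int.mono_set hSR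
  have hFi : IntegrableOn (fun z => ‖deriv F z‖ ^ 2) S := hF.int.mono_set hSR
  have e2 : ∫⁻ z in S, ENNReal.ofReal (‖deriv F z‖ * ‖deriv f z‖) ≤
      ∫⁻ z in S, ENNReal.ofReal (ε / 2 * ‖deriv F z‖ ^ 2 + 1 / (2 * ε) * ‖deriv f z‖ ^ 2) := by
    apply lintegral_mono
    intro z
    apply ENNReal.ofReal_le_ofReal
    have h1 : 0 ≤ (ε * ‖deriv F z‖ - ‖deriv f z‖) ^ 2 / (2 * ε) := by positivity
    have h2 : (ε * ‖deriv F z‖ - ‖deriv f z‖) ^ 2 / (2 * ε) =
      ε / 2 * ‖deriv F z‖ ^ 2 + 1 / (2 * ε) * ‖deriv f z‖ ^ 2 -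
        ‖deriv F z‖ * ‖deriv f z‖ := by
      field_simp
      ring
    linarith
  have e3 : ∫⁻ z in S, ENNReal.ofReal
      (ε / 2 * ‖deriv F z‖ ^ 2 + 1 / (2 * ε) * ‖deriv f z‖ ^ 2) =
      ENNReal.ofReal (∫ z in S,
        (ε / 2 * ‖deriv F z‖ ^ 2 + 1 / (2 * ε) * ‖deriv f z‖ ^ 2)) := by
    rw [ofReal_integral_eq_lintegral_ofReal]
    · exact (hFi.const_mul _).add (hfi.const_mul _)
    · exact Eventually.of_forall fun z => by positivity
  have e4 : ∫ z in S, (ε / 2 * ‖deriv F z‖ ^ 2 + 1 / (2 * ε) * ‖deriv f z‖ ^ 2) ≤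
      ε * (A + 1) / 2 := by
    rw [integral_add (hFi.const_mul _) (hfi.const_mul _), integral_const_mul,
      integral_const_mul]
    have h1 : ∫ z in S, ‖deriv F z‖ ^ 2 ≤ A := by
      refine le_trans ?_ hF.energy
      apply setIntegral_mono_set hF.int
      · exact Eventually.of_forall fun z => by positivity
      · exact hSR.eventuallyLE
    have h2 : ∫ z in S, ‖deriv f z‖ ^ 2 ≤ ε ^ 2 := by
      refine le_trans ?_ hsm
      apply setIntegral_mono_set (h.int.mono_set (inter_subset_inter_right _ hNR))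
      · exact Eventually.of_forall fun z => by positivity
      · exact hSN.eventuallyLE
    have h3 : 1 / (2 * ε) * ∫ z in S, ‖deriv f z‖ ^ 2 ≤ 1 / (2 * ε) * ε ^ 2 :=
      mul_le_mul_of_nonneg_left h2 (by positivity)
    have h4 : 1 / (2 * ε) * ε ^ 2 = ε / 2 := by field_simp
    have h5 : ε / 2 * ∫ z in S, ‖deriv F z‖ ^ 2 ≤ ε / 2 * A :=
      mul_le_mul_of_nonneg_left h1 (by positivity)
    linarith
  calc _ ≤ _ := tii_change h.nrm hS hSE
    _ ≤ _ := e2
    _ = _ := e3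
    _ ≤ _ := ENNReal.ofReal_le_ofReal e4

theorem tii_third {ι : Type*} [Countable ι] {α β : ℝ} (hab : α ≤ β) (B : ι → Set ℝ)
    (hB : ∀ i, MeasurableSet (B i)) {δ ε D : ι → ℝ} (hδ : ∀ i, 0 ≤ δ i) (hε : ∀ i, 0 ≤ ε i)
    (hvol : ∀ i, volume (B i) ≤ ENNReal.ofReal (D i))
    {κ1 κ2 : ℝ} (hκ1 : 0 ≤ κ1) (hκ2 : 0 ≤ κ2)
    (h1 : ∑' i, ENNReal.ofReal (δ i * D i) ≤ ENNReal.ofReal κ1)
    (h2 : ∑' i, ENNReal.ofReal (ε i) ≤ ENNReal.ofReal κ2) :
    ∫⁻ t in Icc α β, ∑' i, (B i).indicator (fun _ => ENNReal.ofReal (δ i + 2 * ε i)) t ≤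
      ENNReal.ofReal (κ1 + 2 * κ2 * (β - α)) := by
  rw [lintegral_tsum (fun i => (measurable_const.indicator (hB i)).aemeasurable)]
  have hterm : ∀ i, ∫⁻ t in Icc α β, (B i).indicator
      (fun _ => ENNReal.ofReal (δ i + 2 * ε i)) t ≤
      ENNReal.ofReal (δ i * D i) + ENNReal.ofReal (ε i) * ENNReal.ofReal (2 * (β - α)) := by
    intro i
    rw [lintegral_indicator_const (hB i), ENNReal.ofReal_add (hδ i) (by linarith [hε i]), add_mul]
    refine add_le_add ?_ ?_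
    · rw [ENNReal.ofReal_mul (hδ i)]
      gcongr
      exact (Measure.restrict_apply_le _ _).trans (hvol i)
    · have h3 : (volume.restrict (Icc α β)) (B i) ≤ ENNReal.ofReal (β - α) := by
        calc (volume.restrict (Icc α β)) (B i) ≤ (volume.restrict (Icc α β)) univ :=
              measure_mono (subset_univ _)
          _ = ENNReal.ofReal (β - α) := by
              rw [Measure.restrict_apply_univ, Real.volume_Icc]
      calc ENNReal.ofReal (2 * ε i) * (volume.restrict (Icc α β)) (B i) ≤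
            ENNReal.ofReal (2 * ε i) * ENNReal.ofReal (β - α) := by gcongr
        _ = ENNReal.ofReal (ε i) * ENNReal.ofReal (2 * (β - α)) := by
            rw [← ENNReal.ofReal_mul (by linarith [hε i]), ← ENNReal.ofReal_mul (hε i)]
            congr 1
            ring
  calc _ ≤ ∑' i, (ENNReal.ofReal (δ i * D i) +
        ENNReal.ofReal (ε i) * ENNReal.ofReal (2 * (β - α))) := ENNReal.tsum_le_tsum hterm
    _ = ∑' i, ENNReal.ofReal (δ i * D i) +
        (∑' i, ENNReal.ofReal (ε i)) * ENNReal.ofReal (2 * (β - α)) := by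
        rw [ENNReal.tsum_add, ENNReal.tsum_mul_right]
    _ ≤ ENNReal.ofReal κ1 + ENNReal.ofReal κ2 * ENNReal.ofReal (2 * (β - α)) := by gcongr
    _ = ENNReal.ofReal (κ1 + 2 * κ2 * (β - α)) := by
        rw [← ENNReal.ofReal_mul hκ2, ← ENNReal.ofReal_add hκ1
          (mul_nonneg hκ2 (by linarith))]
        congr 1
        ring

theorem tii_low {α β : ℝ} (hab : α < β) (c : ℝ) :
    ENNReal.ofReal ((β - α) ^ 2 / 16) ≤ ∫⁻ t in Icc α β, ENNReal.ofReal |t - c| := by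
  obtain ⟨a', b', ha', hb', hlen, hfar⟩ : ∃ a' b' : ℝ, α ≤ a' ∧ b' ≤ β ∧
      b' - a' = (β - α) / 4 ∧ ∀ t ∈ Icc a' b', (β - α) / 4 ≤ |t - c| := by
    by_cases hc : c ≤ (α + β) / 2
    · refine ⟨β - (β - α) / 4, β, by linarith, le_rfl, by ring, fun t ht => ?_⟩
      rw [le_abs]; left
      linarith [ht.1]
    · refine ⟨α, α + (β - α) / 4, le_rfl, by linarith, by ring, fun t ht => ?_⟩
      rw [le_abs]; right
      push Not at hc
      linarith [ht.2]
  calc ENNReal.ofReal ((β - α) ^ 2 / 16) =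
        ENNReal.ofReal ((β - α) / 4) * volume (Icc a' b') := by
        rw [Real.volume_Icc, hlen, ← ENNReal.ofReal_mul (by linarith)]
        congr 1
        ring
    _ = ∫⁻ _t in Icc a' b', ENNReal.ofReal ((β - α) / 4) := by
        rw [setLIntegral_const]
    _ ≤ ∫⁻ t in Icc a' b', ENNReal.ofReal |t - c| :=
        setLIntegral_mono' measurableSet_Icc fun t ht => ENNReal.ofReal_le_ofReal (hfar t ht)
    _ ≤ _ := lintegral_mono_set (Icc_subset_Icc ha' hb')

theorem straight_typeII {E : Set ℂ} {R A : ℝ} {θ : ℂ → ℝ} {φ : ℕ → ℝ → ℝ} {Θ : ℕ → ℂ → ℝ}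
    {F : ℕ → ℂ → ℂ} {f : ℂ → ℂ} (hs : Seqn E R A θ φ Θ F f) {x : ℂ} (hx : x ∈ E)
    {N0 T : Set ℂ} (hr : Reps E x N0 T) (hgood : ∀ r ∈ T, Straight E f (θ r) r)
    (hsmall : ∀ ε : ℝ, 0 < ε → ∃ N : Set ℂ, IsOpen N ∧ connectedComponentIn E x ⊆ N ∧
      ∀ n, ∑' r : {r : ℂ // r ∈ T ∧ r ∈ N}, ENNReal.ofReal
        (diam (LK E f r) * diam (LK E (F n) r) * (θ r - θ x) ^ 2) ≤ ENNReal.ofReal ε) :
    Straight E f (θ x) x := by
  have hf := hs.bdf
  have hE : IsCompact E := hf.nrm.compact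
  have hop : IsOpen Eᶜ := hE.isClosed.isOpen_compl
  by_contra hcon
  unfold Straight at hcon
  push Not at hcon
  obtain ⟨p0, hp0⟩ := LK_nonempty hf.nrm hx
  obtain ⟨p1, hp1, hne⟩ := hcon ((exp (-(θ x * I)) * p0).im)
  have hgc : Continuous (fun p : ℂ => (exp (-(θ x * I)) * p).im) := by fun_prop
  obtain ⟨a, b, hab, hall⟩ : ∃ a b : ℝ, a < b ∧ ∀ t ∈ Icc a b, ∃ p ∈ LK E f x,
      (exp (-(θ x * I)) * p).im = t := by
    rcases lt_or_gt_of_ne hne with hlt | hlt
    · exact ⟨_, _, hlt, fun t ht => by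
        have := (isPreconnected_LK hf.nrm hx).intermediate_value hp1 hp0 hgc.continuousOn ht
        obtain ⟨p, hp, he⟩ := this
        exact ⟨p, hp, he⟩⟩
    · exact ⟨_, _, hlt, fun t ht => by
        have := (isPreconnected_LK hf.nrm hx).intermediate_value hp0 hp1 hgc.continuousOn ht
        obtain ⟨p, hp, he⟩ := this
        exact ⟨p, hp, he⟩⟩
  have hA := hf.posA
  have hR := hf.posR
  obtain ⟨K, hK⟩ : ∃ K, K = (A + 1) / 2 + 5 * (b - a) + 1 := ⟨_, rfl⟩
  have hK0 : 0 < K := by rw [hK]; have : 0 < b - a := by linarith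
                         positivity
  obtain ⟨κ, hκ⟩ : ∃ κ, κ = (b - a) ^ 2 / 32 / K := ⟨_, rfl⟩
  have hκ0 : 0 < κ := by
    rw [hκ]
    have : 0 < b - a := by linarith
    positivity
  have hκK : κ * K = (b - a) ^ 2 / 32 := by rw [hκ]; field_simp
  -- the neighbourhood
  obtain ⟨N1, hN1o, hKN1, hN1s⟩ := hsmall κ hκ0
  obtain ⟨N2, hN2o, hKN2, hN2R, hN2η⟩ := fsa_small hf.nrm hx
    (hf.sub.trans (ball_subset_ball (by linarith : R ≤ 4 * R))) hf.int
    (η := κ ^ 2) (by positivity)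
  obtain ⟨χ, hχ, hχ01, hχN, hχK, hχE⟩ := exists_cutoff hE hx ((hN1o.inter hr.isOpen).inter hN2o)
    (subset_inter (subset_inter hKN1 hr.sub) hKN2)
  have hχx : χ x = 1 :=
    (eventually_nhdsSet_iff_forall.mp hχK x (mem_connectedComponentIn hx)).self_of_nhds
  obtain ⟨X, hX⟩ := exists_corr hf.nrm (contDiff_infty.mp hχ.smooth 2) hχ.comp hχ.lc
  have hsupp : ∀ z, χ z ≠ 0 → z ∈ N1 ∧ z ∈ N0 ∧ z ∈ N2 := by
    intro z hz
    have := hχN (subset_tsupport _ (Function.mem_support.mpr hz))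
    exact ⟨this.1.1, this.1.2, this.2⟩
  -- the choice of n
  obtain ⟨M, hM⟩ : ∃ M, M = 4 * R + A / R := ⟨_, rfl⟩
  have hM0 : 0 ≤ M := by rw [hM]; positivity
  obtain ⟨Q, hQ⟩ : ∃ Q : Set ℂ, Q = {z | χ z = 1 / 2} := ⟨_, rfl⟩
  have hQc : IsCompact Q := by
    rw [hQ]
    refine hχ.comp.isCompact.of_isClosed_subset
      (isClosed_eq hχ.smooth.continuous continuous_const) ?_
    intro z hz
    apply subset_tsupport
    rw [Function.mem_support]
    intro h0
    have h1 : χ z = 1 / 2 := hz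
    rw [h0] at h1
    norm_num at h1
  have hQE : Q ⊆ Eᶜ := by
    intro z hz hzE
    rw [hQ] at hz
    have h1 : χ z = 1 / 2 := hz
    rcases hχE z hzE with h2 | h2
    · rw [h2] at h1; norm_num at h1
    · rw [h2] at h1; norm_num at h1
  have hunif := (tendstoLocallyUniformlyOn_iff_forall_isCompact hop).mp hs.lim Q hQE hQc
  have hev1 := Metric.tendstoUniformlyOn_iff.mp hunif (κ / 2) (by positivity)
  have hev2 : ∀ᶠ n : ℕ in atTop, M * (1 / ((n : ℝ) + 1)) < κ / 2 := by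
    have h1 := (tendsto_one_div_add_atTop_nhds_zero_nat (𝕜 := ℝ)).const_mul M
    rw [mul_zero] at h1
    exact h1.eventually (gt_mem_nhds (by positivity))
  obtain ⟨n, hn1, hn2⟩ := (hev1.and hev2).exists
  have hFn := hs.bd n
  have hφ : ∀ s t : ℝ, |φ n s - φ n t| ≤ |s - t| := by
    intro s t
    have h1 := (convex_univ (𝕜 := ℝ) (E := ℝ)).norm_image_sub_le_of_norm_deriv_le (f := φ n)
      (C := 1) (x := t) (y := s)
      (fun u _ => ((hs.phi_smooth n).differentiable (by simp)) u)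
      (fun u _ => by
        rw [Real.norm_eq_abs, abs_of_nonneg (hs.phi_deriv n u).1]
        exact (hs.phi_deriv n u).2) (mem_univ _) (mem_univ _)
    simpa [Real.norm_eq_abs] using h1
  obtain ⟨cn, hcn⟩ := straight_finite (hs.ang n) (hs.bd n) (hs.app n) hx
  -- the numbers
  obtain ⟨ε0, hε0, c0, hc0, hc0κ⟩ := hr.countable.exists_pos_hasSum_le hκ0
  obtain ⟨ε, hεdef⟩ : ∃ ε : ℂ → ℝ, ε = fun r => min (ε0 r) κ := ⟨_, rfl⟩
  have hε : ∀ r, 0 < ε r := fun r => by rw [hεdef]; exact lt_min (hε0 r) hκ0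
  have hεκ : ∀ r, ε r ≤ κ := fun r => by rw [hεdef]; exact min_le_right _ _
  have hεε : ∀ r, ε r ≤ ε0 r := fun r => by rw [hεdef]; exact min_le_left _ _
  obtain ⟨δ, hδdef⟩ : ∃ δ : ℂ → ℝ, δ = fun r => diam (LK E (F n) r) * |θ r - θ x| := ⟨_, rfl⟩
  have hδ0 : ∀ r, 0 ≤ δ r := fun r => by
    rw [hδdef]; exact mul_nonneg diam_nonneg (abs_nonneg _)
  have hδ : ∀ r ∈ T, ∀ p ∈ LK E (F n) r, ∀ q ∈ LK E (F n) r,
      |(exp (-(Θ n x * I)) * p).im - (exp (-(Θ n x * I)) * q).im| ≤ δ r := by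
    intro r hrT p hp q hq
    obtain ⟨c, hc⟩ := straight_finite (hs.ang n) (hs.bd n) (hs.app n) (hr.mem hrT)
    refine (tii_im_diff (Θ n r) (Θ n x) (by rw [hc p hp, hc q hq])).trans ?_
    rw [hδdef, hs.ang_eq n r (hr.mem hrT), hs.ang_eq n x hx, ← dist_eq_norm]
    exact mul_le_mul (dist_le_diam_of_mem (isCompact_LK hFn.nrm r).isBounded hp hq)
      (hφ _ _) (abs_nonneg _) diam_nonneg
  have hηb : ∀ z ∈ Eᶜ, χ z = 1 / 2 →
      |(exp (-(Θ n x * I)) * F n z).im - ((exp (θ x * I))⁻¹ * f z).im| ≤ κ := by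
    intro z hz hz2
    have hzQ : z ∈ Q := by rw [hQ]; exact hz2
    have h1 := hn1 z hzQ
    rw [dist_comm, dist_eq_norm] at h1
    have hzR : ‖z‖ ≤ 4 * R := by
      have h2 := hN2R (hsupp z (by rw [hz2]; norm_num)).2.2
      rw [mem_ball_zero_iff] at h2
      exact h2.le
    have h3 : ‖f z‖ ≤ M := by rw [hM]; exact hf.norm_le hz hzR
    have h4 : |Θ n x - θ x| ≤ 1 / ((n : ℝ) + 1) := by
      rw [hs.ang_eq n x hx]; exact hs.phi_close n (θ x)
    rw [← Complex.exp_neg, ← sub_im]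
    have h5 : exp (-(Θ n x * I)) * F n z - exp (-(θ x * I)) * f z =
        exp (-(Θ n x * I)) * (F n z - f z) +
          (exp (-(Θ n x * I)) - exp (-(θ x * I))) * f z := by ring
    have h6 : ‖exp (-(Θ n x * I))‖ = 1 := by
      rw [← neg_mul, ← ofReal_neg, norm_exp_ofReal_mul_I]
    refine (abs_im_le_norm _).trans ?_
    rw [h5]
    refine (norm_add_le _ _).trans ?_
    rw [norm_mul, norm_mul, h6, one_mul]
    have h7 : ‖exp (-(Θ n x * I)) - exp (-(θ x * I))‖ * ‖f z‖ ≤ 1 / ((n : ℝ) + 1) * M :=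
      mul_le_mul ((tii_exp_sub _ _).trans h4) h3 (norm_nonneg _) (by positivity)
    linarith
  -- the sets
  obtain ⟨S, hSdef⟩ : ∃ S : Set ℂ, S = Eᶜ ∩ {z | 1 / 2 < χ z} := ⟨_, rfl⟩
  have hSo : IsOpen S := by
    rw [hSdef]
    exact hop.inter (isOpen_lt continuous_const hχ.smooth.continuous)
  have hSN : S ⊆ Eᶜ ∩ N2 := by
    rw [hSdef]
    rintro z ⟨h1, h2⟩
    refine ⟨h1, (hsupp z ?_).2.2⟩
    intro h0
    have : (1 / 2 : ℝ) < χ z := h2
    rw [h0] at this
    norm_num at this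
  have hSE : S ⊆ Eᶜ := hSN.trans inter_subset_left
  have hfSo : IsOpen (f '' S) := Pool.Lib.isOpen_image_of_injOn hop hf.nrm.diff hf.nrm.inj hSo hSE
  obtain ⟨G, hGdef⟩ : ∃ G : ℂ → ENNReal, G = (f '' S).indicator (fun q =>
      ENNReal.ofReal (‖deriv (F n) (invFunOn f Eᶜ q)‖ / ‖deriv f (invFunOn f Eᶜ q)‖)) :=
    ⟨_, rfl⟩
  have hGm : Measurable G := by rw [hGdef]; exact tii_measurable hf.nrm hFn.nrm hSo hSE
  have hup : ∫⁻ q, G q ≤ ENNReal.ofReal (κ * (A + 1) / 2) := by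
    rw [hGdef, lintegral_indicator hfSo.measurableSet]
    exact tii_first hf hFn hSo.measurableSet hSN hN2R hκ0 hN2η.le
  have hGm2 : Measurable (fun q : ℝ × ℝ => G (fsaPt (θ x) q.1 q.2)) := by
    apply hGm.comp
    unfold fsaPt
    fun_prop
  have hI1m : Measurable (fun t : ℝ => ∫⁻ s : ℝ, G (fsaPt (θ x) s t)) :=
    hGm2.lintegral_prod_left'
  have hI1 : ∫⁻ t in Icc a b, ∫⁻ s : ℝ, G (fsaPt (θ x) s t) ≤
      ENNReal.ofReal (κ * (A + 1) / 2) := by
    refine le_trans (setLIntegral_le_lintegral _ _) ?_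
    rw [fsaPt_lintegral (θ x) G, Measure.volume_eq_prod, lintegral_prod_symm' _ hGm2] at hup
    exact hup
  obtain ⟨J, hJ⟩ : ∃ J : Set ℂ, J = {r | r ∈ T ∧ χ r = 1} := ⟨_, rfl⟩
  have hJc : Countable J := by
    rw [hJ]
    exact (hr.countable.mono (fun r h => h.1)).to_subtype
  obtain ⟨B, hB⟩ : ∃ B : ℂ → Set ℝ, B = fun r => (fun p : ℂ => (exp (-(θ x * I)) * p).im) ''
      LK E f r := ⟨_, rfl⟩
  have hBm : ∀ r, MeasurableSet (B r) := by
    intro r
    rw [hB]
    exact ((isCompact_LK hf.nrm r).image hgc).measurableSet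
  have hBv : ∀ r ∈ T, volume (B r) ≤ ENNReal.ofReal (diam (LK E f r) * |θ r - θ x|) := by
    intro r hrT
    obtain ⟨c, hc⟩ := hgood r hrT
    have hbd : ∀ u ∈ B r, ∀ v ∈ B r, dist u v ≤ diam (LK E f r) * |θ r - θ x| := by
      rw [hB]
      rintro _ ⟨p, hp, rfl⟩ _ ⟨q, hq, rfl⟩
      rw [Real.dist_eq]
      refine (tii_im_diff (θ r) (θ x) (by rw [hc p hp, hc q hq])).trans ?_
      rw [← dist_eq_norm]
      exact mul_le_mul_of_nonneg_right
        (dist_le_diam_of_mem (isCompact_LK hf.nrm r).isBounded hp hq) (abs_nonneg _)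
    refine (Real.volume_le_diam _).trans ?_
    apply Metric.ediam_le
    intro u hu v hv
    rw [edist_dist]
    exact ENNReal.ofReal_le_ofReal (hbd u hu v hv)
  have hI3 : ∫⁻ t in Icc a b, ∑' r : J, (B r).indicator
      (fun _ => ENNReal.ofReal (δ r + 2 * ε r)) t ≤
      ENNReal.ofReal (κ + 2 * κ * (b - a)) := by
    refine tii_third hab.le (fun r : J => B r) (fun r => hBm r)
      (δ := fun r : J => δ r) (ε := fun r : J => ε r)
      (D := fun r : J => diam (LK E f r) * |θ r - θ x|)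
      (fun r => hδ0 r) (fun r => (hε r).le) ?_ hκ0.le hκ0.le ?_ ?_
    · intro r
      have hr2 : (r : ℂ) ∈ {r | r ∈ T ∧ χ r = 1} := by rw [← hJ]; exact r.2
      exact hBv r hr2.1
    · refine le_trans ?_ (hN1s n)
      have hmem : ∀ r : J, (r : ℂ) ∈ T ∧ (r : ℂ) ∈ N1 := by
        intro r
        have hr2 : (r : ℂ) ∈ {r | r ∈ T ∧ χ r = 1} := by rw [← hJ]; exact r.2
        exact ⟨hr2.1, (hsupp r (by rw [hr2.2]; norm_num)).1⟩
      have hinj : Function.Injective
          (fun r : J => (⟨(r : ℂ), hmem r⟩ : {r : ℂ // r ∈ T ∧ r ∈ N1})) := by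
        intro r r' h
        apply Subtype.ext
        exact congrArg (fun u : {r : ℂ // r ∈ T ∧ r ∈ N1} => (u : ℂ)) h
      refine le_trans (le_of_eq ?_) (ENNReal.tsum_comp_le_tsum_of_injective hinj
        (fun r : {r : ℂ // r ∈ T ∧ r ∈ N1} => ENNReal.ofReal
          (diam (LK E f r) * diam (LK E (F n) r) * (θ r - θ x) ^ 2)))
      congr 1
      funext r
      congr 1
      rw [hδdef]
      simp only
      rw [← sq_abs (θ r - θ x)]
      ring
    · have hmem : ∀ r : J, (r : ℂ) ∈ T := by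
        intro r
        have hr2 : (r : ℂ) ∈ {r | r ∈ T ∧ χ r = 1} := by rw [← hJ]; exact r.2
        exact hr2.1
      have hinj : Function.Injective (fun r : J => (⟨(r : ℂ), hmem r⟩ : T)) := by
        intro r r' h
        apply Subtype.ext
        exact congrArg (fun u : T => (u : ℂ)) h
      have h1 : ∑' r : T, ENNReal.ofReal (ε0 r) = ENNReal.ofReal c0 := by
        rw [← hc0.tsum_eq]
        exact (ENNReal.ofReal_tsum_of_nonneg (f := fun r : T => ε0 r) (fun r => (hε0 r).le)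
          hc0.summable).symm
      calc ∑' r : J, ENNReal.ofReal (ε r) ≤ ∑' r : J, ENNReal.ofReal (ε0 r) :=
            ENNReal.tsum_le_tsum fun r => ENNReal.ofReal_le_ofReal (hεε r)
        _ ≤ ∑' r : T, ENNReal.ofReal (ε0 r) :=
            ENNReal.tsum_comp_le_tsum_of_injective hinj (fun r : T => ENNReal.ofReal (ε0 r))
        _ = ENNReal.ofReal c0 := h1
        _ ≤ ENNReal.ofReal κ := ENNReal.ofReal_le_ofReal hc0κ
  -- the estimate on the lines
  have hline : ∀ t ∈ Icc a b, ENNReal.ofReal |t - cn| ≤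
      (∫⁻ s : ℝ, G (fsaPt (θ x) s t)) + (ENNReal.ofReal (3 * κ) +
        ∑' r : J, (B r).indicator (fun _ => ENNReal.ofReal (δ r + 2 * ε r)) t) := by
    intro t ht
    obtain ⟨p, hp, hpt⟩ := hall t ht
    have hpp := fsaPt_surj (θ x) p
    rw [hpt] at hpp
    rw [hpp] at hp
    unfold fsaPt at hp
    have h1 := line_est hf.nrm hFn.nrm hx hr hχ hX
      (hχN.trans (inter_subset_left.trans inter_subset_right)) hχx hχE
      (norm_exp_ofReal_mul_I (θ x))
      (a := exp (-(Θ n x * I))) (by rw [← neg_mul, ← ofReal_neg, norm_exp_ofReal_mul_I])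
      hcn hδ hε hηb hp
    have h2 : (∫⁻ s in {s : ℝ | exp (θ x * I) * ((s : ℂ) + t * I) ∈
        f '' (Eᶜ ∩ {z | 1 / 2 < χ z})},
        ENNReal.ofReal (‖deriv (F n) (invFunOn f Eᶜ (exp (θ x * I) * ((s : ℂ) + t * I)))‖ /
          ‖deriv f (invFunOn f Eᶜ (exp (θ x * I) * ((s : ℂ) + t * I)))‖)) =
        ∫⁻ s : ℝ, G (fsaPt (θ x) s t) := by
      have hcont : Continuous (fun s : ℝ => exp (θ x * I) * ((s : ℂ) + t * I)) := by fun_prop
      have hms : MeasurableSet {s : ℝ | exp (θ x * I) * ((s : ℂ) + t * I) ∈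
          f '' (Eᶜ ∩ {z | 1 / 2 < χ z})} := by
        rw [← hSdef]
        exact (hfSo.preimage hcont).measurableSet
      rw [← lintegral_indicator hms]
      congr 1
      funext s
      rw [hGdef, hSdef]
      unfold fsaPt
      by_cases hmem : exp (θ x * I) * ((s : ℂ) + t * I) ∈ f '' (Eᶜ ∩ {z | 1 / 2 < χ z})
      · rw [indicator_of_mem hmem, indicator_of_mem (show s ∈ {s : ℝ |
          exp (θ x * I) * ((s : ℂ) + t * I) ∈ f '' (Eᶜ ∩ {z | 1 / 2 < χ z})} from hmem)]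
      · rw [indicator_of_notMem hmem, indicator_of_notMem (show s ∉ {s : ℝ |
          exp (θ x * I) * ((s : ℂ) + t * I) ∈ f '' (Eᶜ ∩ {z | 1 / 2 < χ z})} from hmem)]
    have h3 : (∑' r : {r : ℂ // r ∈ T ∧ χ r = 1 ∧ ∃ s : ℝ,
        exp (θ x * I) * ((s : ℂ) + t * I) ∈ LK E f r}, ENNReal.ofReal (δ r + 2 * ε r)) ≤
        ∑' r : J, (B r).indicator (fun _ => ENNReal.ofReal (δ r + 2 * ε r)) t := by
      have hmem : ∀ r : {r : ℂ // r ∈ T ∧ χ r = 1 ∧ ∃ s : ℝ,
          exp (θ x * I) * ((s : ℂ) + t * I) ∈ LK E f r}, (r : ℂ) ∈ J := by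
        intro r
        rw [hJ]
        exact ⟨r.2.1, r.2.2.1⟩
      have hinj : Function.Injective (fun r : {r : ℂ // r ∈ T ∧ χ r = 1 ∧ ∃ s : ℝ,
          exp (θ x * I) * ((s : ℂ) + t * I) ∈ LK E f r} => (⟨(r : ℂ), hmem r⟩ : J)) := by
        intro r r' h
        apply Subtype.ext
        exact congrArg (fun u : J => (u : ℂ)) h
      refine le_trans (le_of_eq ?_) (ENNReal.tsum_comp_le_tsum_of_injective hinj
        (fun r : J => (B r).indicator (fun _ => ENNReal.ofReal (δ r + 2 * ε r)) t))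
      congr 1
      funext r
      have htB : t ∈ B r := by
        obtain ⟨s, hsr⟩ := r.2.2.2
        rw [hB]
        exact ⟨_, hsr, fsaPt_im (θ x) s t⟩
      simp only
      rw [indicator_of_mem htB]
    have h4 : ENNReal.ofReal |t - cn| ≤ ENNReal.ofReal (|t - cn| - κ) + ENNReal.ofReal κ := by
      have h5 : |t - cn| = (|t - cn| - κ) + κ := by ring
      conv_lhs => rw [h5]
      exact ENNReal.ofReal_add_le
    rw [h2] at h1
    have h6 : ENNReal.ofReal (3 * κ) = ENNReal.ofReal (2 * κ) + ENNReal.ofReal κ := by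
      rw [← ENNReal.ofReal_add (by positivity) hκ0.le]
      congr 1
      ring
    have h7 : ENNReal.ofReal (2 * ε x) ≤ ENNReal.ofReal (2 * κ) :=
      ENNReal.ofReal_le_ofReal (by linarith [hεκ x])
    calc ENNReal.ofReal |t - cn| ≤ ENNReal.ofReal (|t - cn| - κ) + ENNReal.ofReal κ := h4
      _ ≤ ((∫⁻ s : ℝ, G (fsaPt (θ x) s t)) + ENNReal.ofReal (2 * κ) +
          ∑' r : J, (B r).indicator (fun _ => ENNReal.ofReal (δ r + 2 * ε r)) t) +
            ENNReal.ofReal κ := by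
          gcongr
          exact h1.trans (by gcongr)
      _ = _ := by rw [h6]; ring
  -- conclusion
  have hlow := tii_low hab cn
  have hfin : ENNReal.ofReal ((b - a) ^ 2 / 16) ≤ ENNReal.ofReal (κ * (A + 1) / 2) +
      (ENNReal.ofReal (3 * κ * (b - a)) + ENNReal.ofReal (κ + 2 * κ * (b - a))) := by
    calc _ ≤ _ := hlow
      _ ≤ ∫⁻ t in Icc a b, ((∫⁻ s : ℝ, G (fsaPt (θ x) s t)) + (ENNReal.ofReal (3 * κ) +
          ∑' r : J, (B r).indicator (fun _ => ENNReal.ofReal (δ r + 2 * ε r)) t)) :=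
          setLIntegral_mono' measurableSet_Icc hline
      _ = (∫⁻ t in Icc a b, ∫⁻ s : ℝ, G (fsaPt (θ x) s t)) +
          ((∫⁻ _t in Icc a b, ENNReal.ofReal (3 * κ)) + ∫⁻ t in Icc a b,
            ∑' r : J, (B r).indicator (fun _ => ENNReal.ofReal (δ r + 2 * ε r)) t) := by
          rw [lintegral_add_left hI1m, lintegral_add_left measurable_const]
      _ ≤ _ := by
          rw [setLIntegral_const, Real.volume_Icc, ← ENNReal.ofReal_mul (by positivity)]
          gcongr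
  have hba : 0 < b - a := by linarith
  rw [← ENNReal.ofReal_add (by positivity) (by positivity),
    ← ENNReal.ofReal_add (by positivity) (by positivity),
    ENNReal.ofReal_le_ofReal_iff (by positivity)] at hfin
  have h9 : κ * (A + 1) / 2 + (3 * κ * (b - a) + (κ + 2 * κ * (b - a))) = κ * K := by
    rw [hK]; ring
  rw [h9, hκK] at hfin
  have h10 : 0 < (b - a) ^ 2 := by positivity
  linarith

end Pool.Recti
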